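import Pool.Agent.P.MP_064970_gt.AN.GR

/-! Row AN-Alg: dipoles and the decomposition of `Om`. -/

open Filter Topology MeasureTheory Finset Polynomial
open scoped Real

namespace MW.AN

variable {n : ℕ} {e x : ℕ → ℝ}

namespace AlgAux

theorem Wt_cont (h : Mono n e) {k : ℕ} (hk : k < n) :
    ContinuousOn (Wt n e k) (Set.Icc (e (2 * k)) (e (2 * k + 1))) :=
  h.fam.cont k (mem_range.2 hk)

theorem L_add (h : Mono n e) {k : ℕ} (hk : k < n) {f g : ℝ → ℝ}
    (hf : ContinuousOn f (Set.Icc (e (2 * k)) (e (2 * k + 1))))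
    (hg : ContinuousOn g (Set.Icc (e (2 * k)) (e (2 * k + 1)))) :
    L n e k (fun t => f t + g t) = L n e k f + L n e k g := by
  unfold L
  rw [← II_add (h.gap_lt hk) (f := fun t => f t * Wt n e k t) (g := fun t => g t * Wt n e k t)
    (hf.mul (Wt_cont h hk)) (hg.mul (Wt_cont h hk))]
  congr 1
  funext t
  ring

theorem L_sub (h : Mono n e) {k : ℕ} (hk : k < n) {f g : ℝ → ℝ}
    (hf : ContinuousOn f (Set.Icc (e (2 * k)) (e (2 * k + 1))))
    (hg : ContinuousOn g (Set.Icc (e (2 * k)) (e (2 * k + 1)))) :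
    L n e k (fun t => f t - g t) = L n e k f - L n e k g := by
  unfold L
  rw [← II_sub (h.gap_lt hk) (f := fun t => f t * Wt n e k t) (g := fun t => g t * Wt n e k t)
    (hf.mul (Wt_cont h hk)) (hg.mul (Wt_cont h hk))]
  congr 1
  funext t
  ring

theorem L_const_mul (k : ℕ) (c : ℝ) (f : ℝ → ℝ) :
    L n e k (fun t => c * f t) = c * L n e k f := by
  unfold L
  rw [← II_const_mul]
  congr 1
  funext t
  ring

theorem L_congr (h : Mono n e) {k : ℕ} (hk : k < n) {f g : ℝ → ℝ}
    (hfg : ∀ t ∈ Set.Ioo (e (2 * k)) (e (2 * k + 1)), f t = g t) : L n e k f = L n e k g := by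
  unfold L
  exact II_congr (h.gap_lt hk) (fun t ht => by rw [hfg t ht])

theorem L_sum (h : Mono n e) {k : ℕ} (hk : k < n) (s : Finset ℕ) {f : ℕ → ℝ → ℝ}
    (hf : ∀ i ∈ s, ContinuousOn (f i) (Set.Icc (e (2 * k)) (e (2 * k + 1)))) :
    L n e k (fun t => ∑ i ∈ s, f i t) = ∑ i ∈ s, L n e k (f i) := by
  unfold L
  rw [← II_sum (h.gap_lt hk) s (f := fun i t => f i t * Wt n e k t)
    (fun i hi => (hf i hi).mul (Wt_cont h hk))]
  congr 1
  funext t
  rw [Finset.sum_mul]

theorem Rp_e (e : ℕ → ℝ) {j : ℕ} (hj : j < 2 * n) : (Rp n e).eval (e j) = 0 := by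
  rw [Rp_eval]
  exact Finset.prod_eq_zero (mem_range.2 hj) (sub_self _)

theorem Pp_x (x : ℕ → ℝ) {l : ℕ} (hl : l < n) : (Pp n x).eval (x l) = 0 := by
  rw [Pp_eval]
  exact Finset.prod_eq_zero (mem_range.2 hl) (sub_self _)

theorem Rp_ne {t : ℝ} (ht : ∀ j < 2 * n, t ≠ e j) : (Rp n e).eval t ≠ 0 := by
  rw [Rp_eval]
  exact Finset.prod_ne_zero_iff.2 (fun j hj => sub_ne_zero.2 (ht j (mem_range.1 hj)))

theorem Pp_ne {t : ℝ} (ht : ∀ l < n, t ≠ x l) : (Pp n x).eval t ≠ 0 := by
  rw [Pp_eval]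
  exact Finset.prod_ne_zero_iff.2 (fun j hj => sub_ne_zero.2 (ht j (mem_range.1 hj)))

theorem ne_x_of_mem (h : Mono n e) (hx : Crit n e x) {k l : ℕ} (hk : k < n) (hl : l < n)
    (hlk : l ≠ k) {t : ℝ} (ht : t ∈ Set.Icc (e (2 * l)) (e (2 * l + 1))) : t - x k ≠ 0 := by
  have hm := hx.mem k hk
  rcases h.fam.sep l (mem_range.2 hl) k (mem_range.2 hk) hlk with h1 | h1
  · have : t < x k := lt_of_le_of_lt ht.2 (lt_trans h1 hm.1)
    exact sub_ne_zero.2 this.ne
  · have : x k < t := lt_of_lt_of_le (lt_trans hm.2 h1) ht.1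
    exact sub_ne_zero.2 this.ne'

theorem x_inj (h : Mono n e) (hx : Crit n e x) {k l : ℕ} (hk : k < n) (hl : l < n)
    (hkl : x k = x l) : k = l := by
  rcases lt_trichotomy k l with h1 | h1 | h1
  · exact absurd hkl (Crit.inj h hx h1 hl).ne
  · exact h1
  · exact absurd hkl (Crit.inj h hx h1 hk).ne'

theorem e_inj (h : Mono n e) {i j : ℕ} (hi : i < 2 * n) (hj : j < 2 * n) (hij : e i = e j) :
    i = j := by
  rcases lt_trichotomy i j with h1 | h1 | h1
  · exact absurd hij (h h1 hj).ne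
  · exact h1
  · exact absurd hij (h h1 hi).ne'

theorem Pp_degree : (Pp n x).degree = n := by
  rw [Polynomial.degree_eq_natDegree (Pp_monic (n := n) (x := x)).1.ne_zero, Pp_monic.2]

theorem Rp_degree : (Rp n e).degree = ((2 * n : ℕ) : WithBot ℕ) := by
  rw [Polynomial.degree_eq_natDegree (Rp_monic (n := n) (e := e)).1.ne_zero, Rp_monic.2]

theorem dPp_degree : (derivative (Pp n x)).degree < n := by
  rw [← Pp_degree (n := n) (x := x)]
  exact Polynomial.degree_derivative_lt (Pp_monic (n := n) (x := x)).1.ne_zero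

theorem deg_sum_lt {s : Finset ℕ} {f : ℕ → ℝ[X]} {m : ℕ} (hf : ∀ i ∈ s, (f i).degree < m) :
    (∑ i ∈ s, f i).degree < m :=
  Polynomial.mem_degreeLT.1 (Submodule.sum_mem _ (fun i hi => Polynomial.mem_degreeLT.2 (hf i hi)))

/-- The complement of the points `e j` is open. -/
theorem ev_ne {t : ℝ} (ht : ∀ j < 2 * n, t ≠ e j) : ∀ᶠ s in 𝓝 t, ∀ j < 2 * n, s ≠ e j := by
  have : ∀ᶠ s in 𝓝 t, ∀ j ∈ range (2 * n), s ≠ e j :=
    (Filter.eventually_all_finset _).2 (fun j hj => eventually_ne_nhds (ht j (mem_range.1 hj)))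
  filter_upwards [this] with s hs j hj using hs j (mem_range.2 hj)

/-- The derivative of the expansion in simple fractions of `-P² / R`. -/
theorem pf_deriv (h : Mono n e) (x : ℕ → ℝ) {t : ℝ} (ht : ∀ j < 2 * n, t ≠ e j) :
    ∑ j ∈ range (2 * n), rr n e x j / (t - e j) ^ 2
      = 2 * (Pp n x).eval t * (derivative (Pp n x)).eval t / (Rp n e).eval t
        - (Pp n x).eval t ^ 2 / (Rp n e).eval t * ∑ j ∈ range (2 * n), 1 / (t - e j) := by
  have hR := Rp_ne ht
  have h1 : HasDerivAt (fun s => -(Pp n x).eval s ^ 2 / (Rp n e).eval s)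
      ((-(2 * (Pp n x).eval t * (derivative (Pp n x)).eval t) * (Rp n e).eval t
        - (-(Pp n x).eval t ^ 2) * (derivative (Rp n e)).eval t) / (Rp n e).eval t ^ 2) t := by
    have a := (((Pp n x).hasDerivAt t).fun_pow 2).fun_neg.fun_div ((Rp n e).hasDerivAt t) hR
    refine a.congr_deriv ?_
    norm_num
  have h2 : HasDerivAt (fun s => -1 + ∑ j ∈ range (2 * n), rr n e x j / (s - e j))
      (∑ j ∈ range (2 * n), -(rr n e x j / (t - e j) ^ 2)) t := by
    apply HasDerivAt.const_add
    apply HasDerivAt.fun_sum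
    intro j hj
    have hne : t - e j ≠ 0 := sub_ne_zero.2 (ht j (mem_range.1 hj))
    have a := (hasDerivAt_const t (rr n e x j)).fun_div ((hasDerivAt_id' t).sub_const (e j)) hne
    refine a.congr_deriv ?_
    ring
  have h3 : (fun s => -(Pp n x).eval s ^ 2 / (Rp n e).eval s)
      =ᶠ[𝓝 t] (fun s => -1 + ∑ j ∈ range (2 * n), rr n e x j / (s - e j)) := by
    filter_upwards [ev_ne ht] with s hs using pf_rr_real h x hs
  have h4 := (h2.congr_of_eventuallyEq h3).unique h1
  rw [Finset.sum_neg_distrib, dRp_eval ht] at h4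
  have h5 := neg_eq_iff_eq_neg.1 h4
  rw [h5]
  field_simp
  ring

theorem drag_cont (h : Mono n e) {k : ℕ} (hk : k < n) (v : ℕ → ℝ) (f : ℝ[X]) :
    ContinuousOn (drag n e v k f) (Set.Icc (e (2 * k)) (e (2 * k + 1))) := by
  have hl : Continuous (ell e v k) := by
    unfold ell
    fun_prop
  unfold drag
  refine (hl.continuousOn.mul (derivative f).continuous.continuousOn).add
    ((f.continuous.continuousOn.div_const 2).mul (continuousOn_finsetSum _ ?_))
  intro j hj
  refine (continuousOn_const.sub hl.continuousOn).div (continuousOn_id.sub continuousOn_const) ?_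
  intro t ht
  exact sub_ne_zero.2 (h.ne_of_mem_others hk hj ht)

/-- The polynomial `Ω₀` has zero periods. -/
theorem per_Om0 (h : Mono n e) {v rd : ℕ → ℝ} {Pd N₀ : ℝ[X]} (hA : Adm n e x v Pd rd)
    (hN₀ : ∀ j < 2 * n, N₀.eval (e j) = v j * (Pp n x).eval (e j)) {Q : ℕ → ℝ[X]}
    (hQ : ∀ j < 2 * n, ∀ t, (t - e j) * (Q j).eval t = v j * (Pp n x).eval t - N₀.eval t)
    {k : ℕ} (hk : k < n) :
    L n e k (fun t => (Pd + derivative N₀ + C (1 / 2) * ∑ j ∈ range (2 * n), Q j).eval t) = 0 := by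
  have hlt := h.gap_lt hk
  have hd : e (2 * k + 1) - e (2 * k) ≠ 0 := sub_ne_zero.2 hlt.ne'
  have hdc := drag_cont h hk v (Pp n x)
  have h1 := hA.per k hk
  set s : ℝ := (v (2 * k + 1) - v (2 * k)) / (e (2 * k + 1) - e (2 * k)) with hs
  have hell : ∀ t, ell e v k t = v (2 * k) + s * (t - e (2 * k)) := by
    intro t
    rw [hs, ell]
    ring
  have hell' : ∀ t, ell e v k t = v (2 * k + 1) + s * (t - e (2 * k + 1)) := by
    intro t
    rw [hs, ell]
    field_simp
    ring
  have h2 : L n e k (fun t => (derivative N₀ + C (1 / 2) * ∑ j ∈ range (2 * n), Q j).eval t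
      - drag n e v k (Pp n x) t) = 0 := by
    refine EXACT h hk (H := fun t => N₀.eval t - ell e v k t * (Pp n x).eval t)
      (H' := fun t => (derivative N₀).eval t
        - (s * (Pp n x).eval t + ell e v k t * (derivative (Pp n x)).eval t))
      ((Polynomial.continuous _).continuousOn.sub hdc) ?_ ?_ ?_ ?_
    · intro t _
      have a : HasDerivAt (ell e v k) s t := by
        have : ell e v k = fun t => v (2 * k) + s * (t - e (2 * k)) := funext hell
        rw [this]
        simpa using (((hasDerivAt_id t).sub_const (e (2 * k))).const_mul s).const_add (v (2 * k))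
      exact (N₀.hasDerivAt t).sub (a.mul ((Pp n x).hasDerivAt t))
    · rw [hN₀ _ (by omega), hell]
      ring
    · rw [hN₀ _ (by omega), hell']
      ring
    · intro t ht
      have hne : ∀ j < 2 * n, t - e j ≠ 0 := fun j hj =>
        sub_ne_zero.2 (h.ne_of_mem_Ioo hk hj ht)
      have hQ' : ∀ j ∈ range (2 * n), (Q j).eval t
          = (Pp n x).eval t * ((v j - ell e v k t) / (t - e j))
            - (N₀.eval t - ell e v k t * (Pp n x).eval t) * (1 / (t - e j)) := by
        intro j hj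
        have hj' := mem_range.1 hj
        have := hQ j hj' t
        have h0 := hne j hj'
        field_simp
        linear_combination this
      have hsum : ∑ j ∈ range (2 * n), (v j - ell e v k t) / (t - e j)
          = -s + -s + ∑ j ∈ others n k, (v j - ell e v k t) / (t - e j) := by
        rw [sum_range_eq_others hk]
        have a := hne (2 * k) (by omega)
        have b := hne (2 * k + 1) (by omega)
        congr 2
        · rw [hell]
          field_simp
          ring
        · rw [hell']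
          field_simp
          ring
      simp only [eval_add, eval_mul, eval_C, eval_finsetSum]
      rw [Finset.sum_congr rfl hQ', Finset.sum_sub_distrib, ← Finset.mul_sum, ← Finset.mul_sum,
        hsum, drag]
      ring
  have h3 := L_add h hk (f := fun t => Pd.eval t + drag n e v k (Pp n x) t)
    (g := fun t => (derivative N₀ + C (1 / 2) * ∑ j ∈ range (2 * n), Q j).eval t
      - drag n e v k (Pp n x) t) (Pd.continuous.continuousOn.add hdc)
    ((Polynomial.continuous _).continuousOn.sub hdc)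
  rw [h1, h2, add_zero] at h3
  rw [← h3]
  congr 1
  funext t
  simp only [eval_add]
  ring

/-- A polynomial that vanishes at all the `e j` is a multiple of `R`. -/
theorem Rp_dvd (h : Mono n e) {f : ℝ[X]} (hf : ∀ j < 2 * n, f.eval (e j) = 0) : Rp n e ∣ f := by
  unfold Rp
  apply Finset.prod_dvd_of_coprime
  · intro i hi j hj hij
    apply Polynomial.isCoprime_X_sub_C_of_isUnit_sub
    refine IsUnit.mk0 _ (sub_ne_zero.2 (fun hh => hij ?_))
    exact e_inj h (mem_range.1 hi) (mem_range.1 hj) hh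
  · intro j hj
    exact Polynomial.dvd_iff_isRoot.2 (hf j (mem_range.1 hj))

/-- `P / (X - x k)`. -/
noncomputable def Pk (n : ℕ) (x : ℕ → ℝ) (k : ℕ) : ℝ[X] := ∏ m ∈ (range n).erase k, (X - C (x m))

theorem Pp_eq {k : ℕ} (hk : k < n) : Pp n x = (X - C (x k)) * Pk n x k := by
  unfold Pp Pk
  rw [Finset.mul_prod_erase (range n) (fun m => (X - C (x m) : ℝ[X])) (mem_range.2 hk)]

theorem Pk_natDegree {k : ℕ} (hk : k < n) : (Pk n x k).natDegree = n - 1 := by
  unfold Pk
  rw [Polynomial.natDegree_finsetProd_X_sub_C_eq_card, Finset.card_erase_of_mem (mem_range.2 hk),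
    card_range]

theorem Pk_eval (k : ℕ) (t : ℝ) : (Pk n x k).eval t = ∏ m ∈ (range n).erase k, (t - x m) := by
  simp [Pk, eval_prod]

/-- Lagrange interpolation at the critical points. -/
theorem lagr (h : Mono n e) (hx : Crit n e x) {B : ℝ[X]} (hB : B.degree < n) :
    B = ∑ k ∈ range n, C (B.eval (x k) / (derivative (Pp n x)).eval (x k)) * Pk n x k := by
  have hinj : Set.InjOn x (range n : Finset ℕ) := fun k hk l hl hkl =>
    x_inj h hx (mem_range.1 hk) (mem_range.1 hl) hkl
  apply Polynomial.eq_of_degree_sub_lt_of_eval_index_eq (range n) hinj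
  · rw [card_range]
    refine lt_of_le_of_lt (Polynomial.degree_sub_le _ _) (max_lt hB ?_)
    refine deg_sum_lt ?_
    intro k hk
    have hk' := mem_range.1 hk
    refine lt_of_le_of_lt (Polynomial.degree_le_natDegree) ?_
    have : (C (B.eval (x k) / (derivative (Pp n x)).eval (x k)) * Pk n x k).natDegree < n :=
      lt_of_le_of_lt (Polynomial.natDegree_C_mul_le _ _) (by rw [Pk_natDegree hk']; omega)
    exact_mod_cast this
  · intro l hl
    have hl' := mem_range.1 hl
    rw [eval_finsetSum, Finset.sum_eq_single l]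
    · rw [eval_mul, eval_C, Pk_eval, ← dPp_eval x hl', div_mul_cancel₀ _ (Crit.dP_ne h hx hl')]
    · intro k _ hkl
      rw [eval_mul, Pk_eval, Finset.prod_eq_zero (i := l) (Finset.mem_erase.2 ⟨hkl.symm, hl⟩)
        (sub_self _), mul_zero]
    · intro hh
      exact absurd hl hh

theorem deg_mul_lt {p q : ℝ[X]} {a b c : ℕ} (hp : p.natDegree ≤ a) (hq : q.degree < b)
    (hc : a + b ≤ c) : (p * q).degree < c := by
  by_cases hq0 : q = 0
  · simp [hq0]
  have h1 := (natDegree_lt_iff_degree_lt hq0).2 hq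
  refine lt_of_le_of_lt degree_le_natDegree ?_
  have : (p * q).natDegree < c := lt_of_le_of_lt natDegree_mul_le (by omega)
  exact_mod_cast this

theorem deg_add_lt {p q : ℝ[X]} {c : ℕ} (hp : p.degree < c) (hq : q.degree < c) :
    (p + q).degree < c := lt_of_le_of_lt (degree_add_le _ _) (max_lt hp hq)

theorem deg_sub_lt {p q : ℝ[X]} {c : ℕ} (hp : p.degree < c) (hq : q.degree < c) :
    (p - q).degree < c := lt_of_le_of_lt (degree_sub_le _ _) (max_lt hp hq)

theorem deg_of_mul {p q : ℝ[X]} {a b : ℕ} (hp : p.Monic) (ha : p.natDegree = a)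
    (hpq : (p * q).degree < ((a + b : ℕ) : WithBot ℕ)) : q.degree < b := by
  by_cases hq0 : q = 0
  · simp [hq0]
  rw [← natDegree_lt_iff_degree_lt hq0]
  have h1 := (natDegree_lt_iff_degree_lt (mul_ne_zero hp.ne_zero hq0)).2 hpq
  rw [hp.natDegree_mul' hq0, ha] at h1
  omega

theorem natDeg_le_of_lt {p : ℝ[X]} {a : ℕ} (hp : p.degree < a) : p.natDegree ≤ a :=
  natDegree_le_of_degree_le hp.le

/-- Division by `X - C a` of a polynomial that vanishes at `a`. -/
theorem exists_quot {f : ℝ[X]} {a : ℝ} (hf : f.eval a = 0) : ∃ q : ℝ[X], f = (X - C a) * q :=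
  Polynomial.dvd_iff_isRoot.2 hf

/-- The pointwise decomposition of `Om`. -/
theorem Om_eq (h : Mono n e) (hx : Crit n e x) {v : ℕ → ℝ} {Pd N N₀ B : ℝ[X]}
    {Q S Ω : ℕ → ℝ[X]}
    (hQ : ∀ j < 2 * n, ∀ t, (t - e j) * (Q j).eval t = v j * (Pp n x).eval t - N₀.eval t)
    (hB : N = Pp n x * N₀ + Rp n e * B) (hBd : B.degree < n)
    (hS : ∀ k < n, S k = C (-1 / (derivative (Pp n x)).eval (x k))
          * (C (1 / 2) * derivative (Rp n e) * (X - C (x k)) - Rp n e)
        + (X - C (x k)) ^ 2 * Ω k)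
    {t : ℝ} (ht : ∀ j < 2 * n, t ≠ e j) (ht' : ∀ l < n, t ≠ x l) :
    Om n e x v Pd N t
      = (Pd + derivative N₀ + C (1 / 2) * ∑ j ∈ range (2 * n), Q j
          - ∑ k ∈ range n, C (tau n e x N k) * Ω k).eval t
        + ∑ k ∈ range n, tau n e x N k * (S k).eval t / (t - x k) ^ 2 := by
  have hp := Pp_ne ht'
  set β : ℕ → ℝ := fun k => B.eval (x k) / (derivative (Pp n x)).eval (x k) with hβ
  have hBe : B = ∑ k ∈ range n, C (β k) * Pk n x k := lagr h hx hBd
  have hτ : ∀ k < n, tau n e x N k = -B.eval (x k) := by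
    intro k hk
    have hR : (Rp n e).eval (x k) ≠ 0 := Rp_ne (fun j hj => Crit.ne_e h hx hk hj)
    rw [tau, hB, eval_add, eval_mul, eval_mul, Pp_x x hk]
    field_simp
    ring
  have hPk : ∀ k < n, (Pp n x).eval t = (t - x k) * (Pk n x k).eval t := by
    intro k hk
    rw [Pp_eq hk]
    simp
  have hPk' : ∀ k < n, (derivative (Pp n x)).eval t
      = (Pk n x k).eval t + (t - x k) * (derivative (Pk n x k)).eval t := by
    intro k hk
    rw [Pp_eq hk]
    simp [derivative_mul]
  have hb1 : B.eval t / (Pp n x).eval t = ∑ k ∈ range n, β k / (t - x k) := by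
    conv_lhs => rw [hBe]
    rw [eval_finsetSum, Finset.sum_div]
    refine Finset.sum_congr rfl (fun k hk => ?_)
    have hk' := mem_range.1 hk
    have h1 := hPk k hk'
    have h2 : t - x k ≠ 0 := sub_ne_zero.2 (ht' k hk')
    have h3 : (Pk n x k).eval t ≠ 0 := fun h0 => hp (by rw [h1, h0, mul_zero])
    rw [eval_mul, eval_C, h1]
    field_simp
  have hb2 : ((derivative B).eval t * (Pp n x).eval t - B.eval t * (derivative (Pp n x)).eval t)
      / (Pp n x).eval t ^ 2 = -∑ k ∈ range n, β k / (t - x k) ^ 2 := by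
    conv_lhs => rw [hBe]
    rw [derivative_sum, eval_finsetSum, eval_finsetSum, Finset.sum_mul, Finset.sum_mul,
      ← Finset.sum_sub_distrib, Finset.sum_div, ← Finset.sum_neg_distrib]
    refine Finset.sum_congr rfl (fun k hk => ?_)
    have hk' := mem_range.1 hk
    have h1 := hPk k hk'
    have h2 : t - x k ≠ 0 := sub_ne_zero.2 (ht' k hk')
    have h3 : (Pk n x k).eval t ≠ 0 := fun h0 => hp (by rw [h1, h0, mul_zero])
    rw [derivative_C_mul, eval_mul, eval_mul, eval_C, hPk' k hk', h1]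
    field_simp
    ring
  have hN1 : N.eval t = (Pp n x).eval t * N₀.eval t + (Rp n e).eval t * B.eval t := by
    rw [hB]
    simp
  have hN2 : (derivative N).eval t = (derivative (Pp n x)).eval t * N₀.eval t
      + (Pp n x).eval t * (derivative N₀).eval t
      + ((derivative (Rp n e)).eval t * B.eval t + (Rp n e).eval t * (derivative B).eval t) := by
    rw [hB]
    simp [derivative_mul]
  have hs1 : ∑ j ∈ range (2 * n), (v j - N.eval t / (Pp n x).eval t ^ 2) / (t - e j)
      = (∑ j ∈ range (2 * n), (Q j).eval t) / (Pp n x).eval t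
        - B.eval t / (Pp n x).eval t ^ 2 * (derivative (Rp n e)).eval t := by
    rw [dRp_eval ht, Finset.sum_div, Finset.mul_sum, Finset.mul_sum, ← Finset.sum_sub_distrib]
    refine Finset.sum_congr rfl (fun j hj => ?_)
    have hj' := mem_range.1 hj
    have h1 := hQ j hj' t
    have h2 : t - e j ≠ 0 := sub_ne_zero.2 (ht j hj')
    rw [hN1]
    field_simp
    linear_combination (-(Pp n x).eval t) * h1
  have hs2 : ∑ k ∈ range n, tau n e x N k * (S k).eval t / (t - x k) ^ 2
      = 1 / 2 * (derivative (Rp n e)).eval t * ∑ k ∈ range n, β k / (t - x k)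
        - (Rp n e).eval t * ∑ k ∈ range n, β k / (t - x k) ^ 2
        + ∑ k ∈ range n, tau n e x N k * (Ω k).eval t := by
    rw [Finset.mul_sum, Finset.mul_sum, ← Finset.sum_sub_distrib, ← Finset.sum_add_distrib]
    refine Finset.sum_congr rfl (fun k hk => ?_)
    have hk' := mem_range.1 hk
    have h2 : t - x k ≠ 0 := sub_ne_zero.2 (ht' k hk')
    have h3 := Crit.dP_ne h hx hk'
    rw [hS k hk', hτ k hk', hβ]
    simp only [eval_add, eval_mul, eval_sub, eval_C, eval_X, eval_pow]
    field_simp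
    ring
  have hb2' : ∑ k ∈ range n, β k / (t - x k) ^ 2
      = -(((derivative B).eval t * (Pp n x).eval t - B.eval t * (derivative (Pp n x)).eval t)
      / (Pp n x).eval t ^ 2) := by
    rw [hb2, neg_neg]
  rw [Om, hs1, hs2, ← hb1, hb2', hN1, hN2]
  simp only [eval_add, eval_mul, eval_sub, eval_C, eval_finsetSum]
  field_simp
  ring

end AlgAux

open AlgAux

/-- Divide by `(X - x k)²`, correct the periods by `exists_periods`, apply `GR`. -/
theorem exists_dip (h : Mono n e) (hx : Crit n e x) {k : ℕ} (hk : k < n) : ∃ S, Dip n e x k S := by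
  set A : ℝ[X] := C (-1 / (derivative (Pp n x)).eval (x k))
    * (C (1 / 2) * derivative (Rp n e) * (X - C (x k)) - Rp n e) with hA
  have hm : ((X - C (x k)) ^ 2 : ℝ[X]).Monic := (monic_X_sub_C _).pow 2
  have hm2 : ((X - C (x k)) ^ 2 : ℝ[X]).natDegree = 2 := by
    rw [(monic_X_sub_C _).natDegree_pow, natDegree_X_sub_C]
  set Q : ℝ[X] := A /ₘ (X - C (x k)) ^ 2 with hQ
  set r : ℝ[X] := A %ₘ (X - C (x k)) ^ 2 with hr
  have hdiv : r + (X - C (x k)) ^ 2 * Q = A := modByMonic_add_div _ _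
  have hrd : r.natDegree ≤ n + 1 := by
    have h1 : r.degree < ((X - C (x k)) ^ 2 : ℝ[X]).degree := degree_modByMonic_lt _ hm
    rw [degree_eq_natDegree hm.ne_zero, hm2] at h1
    have h2 : r.natDegree ≤ 2 := natDegree_le_of_degree_le h1.le
    omega
  obtain ⟨f, hf, hfp⟩ := exists_periods h (fun l => L n e l (fun t => Q.eval t))
  have h0 : ∀ l < n, L n e l (fun t => (f - Q).eval t) = 0 := by
    intro l hl
    simp only [eval_sub]
    rw [L_sub h hl f.continuous.continuousOn Q.continuous.continuousOn, hfp l hl, sub_self]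
  refine ⟨A + (X - C (x k)) ^ 2 * (f - Q), GR h hx hk _ h0 rfl ?_, f - Q, h0, rfl⟩
  have : A + (X - C (x k)) ^ 2 * (f - Q) = r + (X - C (x k)) ^ 2 * f := by
    rw [← hdiv]
    ring
  rw [this]
  refine (natDegree_add_le _ _).trans (max_le hrd (natDegree_mul_le.trans ?_))
  have hfn : f.natDegree ≤ n - 1 := by
    by_cases hf0 : f = 0
    · simp [hf0]
    · have := (natDegree_lt_iff_degree_lt hf0).2 hf
      omega
  omega

theorem Dip.eval_self (h : Mono n e) (hx : Crit n e x) {k : ℕ} (hk : k < n) {S : ℝ[X]}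
    (hS : Dip n e x k S) :
    S.eval (x k) = (Rp n e).eval (x k) / (derivative (Pp n x)).eval (x k) := by
  obtain ⟨-, Ω, -, rfl⟩ := hS
  simp only [eval_add, eval_mul, eval_sub, eval_C, eval_X, eval_pow, sub_self]
  ring

/-- `EXACT` with `H = R / (t - x k)`. -/
theorem Dip.per (h : Mono n e) (hx : Crit n e x) {k l : ℕ} (hk : k < n) (hl : l < n) (hlk : l ≠ k)
    {S : ℝ[X]} (hS : Dip n e x k S) : L n e l (fun t => S.eval t / (t - x k) ^ 2) = 0 := by
  obtain ⟨-, Ω, h0, rfl⟩ := hS
  have hne : ∀ t ∈ Set.Icc (e (2 * l)) (e (2 * l + 1)), t - x k ≠ 0 := fun t ht =>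
    ne_x_of_mem h hx hk hl hlk ht
  set φ : ℝ → ℝ := fun t =>
    (1 / 2 * (derivative (Rp n e)).eval t * (t - x k) - (Rp n e).eval t) / (t - x k) ^ 2 with hφ
  have hφc : ContinuousOn φ (Set.Icc (e (2 * l)) (e (2 * l + 1))) := by
    refine ContinuousOn.div ?_ (by fun_prop) (fun t ht => pow_ne_zero 2 (hne t ht))
    exact (((continuous_const.mul (derivative (Rp n e)).continuous).mul
      (continuous_id.sub continuous_const)).sub (Rp n e).continuous).continuousOn
  have h1 : L n e l φ = 0 := by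
    refine EXACT h hl (H := fun t => (Rp n e).eval t / (t - x k))
      (H' := fun t => ((derivative (Rp n e)).eval t * (t - x k) - (Rp n e).eval t * 1)
        / (t - x k) ^ 2) hφc ?_ ?_ ?_ ?_
    · intro t ht
      exact ((Rp n e).hasDerivAt t).div ((hasDerivAt_id t).sub_const (x k)) (hne t ht)
    · rw [Rp_e e (by omega), zero_div]
    · rw [Rp_e e (by omega), zero_div]
    · intro t ht
      have h2 := hne t (Set.Ioo_subset_Icc_self ht)
      have h3 := dRp_eval (n := n) (e := e) (t := t) (fun j hj => h.ne_of_mem_Ioo hl hj ht)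
      simp only [hφ]
      rw [h3]
      field_simp
      ring
  rw [L_congr h hl (g := fun t => (-1 / (derivative (Pp n x)).eval (x k)) * φ t + Ω.eval t),
    L_add h hl (f := fun t => (-1 / (derivative (Pp n x)).eval (x k)) * φ t)
      (continuousOn_const.mul hφc) Ω.continuous.continuousOn, L_const_mul, h1, h0 l hl]
  · simp
  · intro t ht
    have h2 := hne t (Set.Ioo_subset_Icc_self ht)
    simp only [hφ, eval_add, eval_mul, eval_sub, eval_C, eval_X, eval_pow]
    generalize -1 / (derivative (Pp n x)).eval (x k) = c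
    field_simp

/-- Translation invariance. -/
theorem Adm.shift (h : Mono n e) (hx : Crit n e x) {v rd : ℕ → ℝ} {Pd : ℝ[X]}
    (hA : Adm n e x v Pd rd) (c : ℝ) :
    Adm n e x (fun j => v j - c) (Pd + C c * derivative (Pp n x)) rd := by
  refine ⟨?_, ?_, hA.sum, ?_⟩
  · refine lt_of_le_of_lt (degree_add_le _ _) (max_lt hA.deg ?_)
    rw [← smul_eq_C_mul]
    exact lt_of_le_of_lt (degree_smul_le _ _) dPp_degree
  · intro k hk
    rw [← hA.per k hk]
    congr 1
    funext t
    have h1 : ell e (fun j => v j - c) k t = ell e v k t - c := by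
      simp only [ell]
      ring
    simp only [drag, h1, eval_add, eval_mul, eval_C, sub_sub_sub_cancel_right]
    ring
  · intro t ht
    have h1 := hA.pf t ht
    have h2 := pf_deriv h x ht
    have h3 : ∑ j ∈ range (2 * n), rr n e x j * (v j - c) / (t - e j) ^ 2
        = ∑ j ∈ range (2 * n), rr n e x j * v j / (t - e j) ^ 2
          - c * ∑ j ∈ range (2 * n), rr n e x j / (t - e j) ^ 2 := by
      rw [Finset.mul_sum, ← Finset.sum_sub_distrib]
      exact Finset.sum_congr rfl (fun j _ => by ring)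
    have h4 : ∑ j ∈ range (2 * n), (v j - c) / (t - e j)
        = ∑ j ∈ range (2 * n), v j / (t - e j) - c * ∑ j ∈ range (2 * n), 1 / (t - e j) := by
      rw [Finset.mul_sum, ← Finset.sum_sub_distrib]
      exact Finset.sum_congr rfl (fun j _ => by ring)
    simp only [eval_add, eval_mul, eval_C]
    rw [h3, h4, h2]
    linear_combination h1

/-- Let `N₀` interpolate `v j P (e j)` (degree `< 2 n`). The polynomial
`Ω₀ = Pd + N₀' + ½ ∑ (v j P - N₀) / (X - e j)` has zero periods (`Adm.per` and `EXACT` with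
`H = N₀ - ell P`). `N - P N₀ = R B`, `deg B < n`, `B (x k) = -τ k`, so
`Om = Ω₀ - ∑ (τ k / P' (x k)) (½ R' (t - x k) - R) / (t - x k)²`. The polynomial
`Δ = Ω₀ - ∑ τ k Ω_k` has zero periods and `P² Δ = P² Om - ∑ τ k S k P_k²` has degree `< 3 n`,
so `Δ = 0`. -/
theorem ALG (h : Mono n e) (hx : Crit n e x) {v rd : ℕ → ℝ} {Pd N : ℝ[X]}
    (hA : Adm n e x v Pd rd) (hN : Interp n e x v N) {S : ℕ → ℝ[X]}
    (hS : ∀ k < n, Dip n e x k (S k)) {t : ℝ} (ht : ∀ j < 2 * n, t ≠ e j) (ht' : ∀ l < n, t ≠ x l) :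
    Om n e x v Pd N t = ∑ k ∈ range n, tau n e x N k * (S k).eval t / (t - x k) ^ 2 := by
  obtain ⟨N₀, hN₀d, hN₀⟩ := exists_interp_e h (fun j => v j * (Pp n x).eval (e j))
  have hQ : ∀ j, ∃ Q : ℝ[X], j < 2 * n → C (v j) * Pp n x - N₀ = (X - C (e j)) * Q := by
    intro j
    by_cases hj : j < 2 * n
    · obtain ⟨q, hq⟩ := exists_quot (f := C (v j) * Pp n x - N₀) (a := e j)
        (by rw [eval_sub, eval_mul, eval_C, hN₀ j hj, sub_self])
      exact ⟨q, fun _ => hq⟩
    · exact ⟨0, fun hh => absurd hh hj⟩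
  choose Q hQ using hQ
  have hQ' : ∀ j < 2 * n, ∀ t, (t - e j) * (Q j).eval t = v j * (Pp n x).eval t - N₀.eval t := by
    intro j hj t
    have := congrArg (eval t) (hQ j hj)
    simpa using this.symm
  have hT : ∀ j, ∃ T : ℝ[X], j < 2 * n → C (v j) * Pp n x ^ 2 - N = (X - C (e j)) * T := by
    intro j
    by_cases hj : j < 2 * n
    · obtain ⟨q, hq⟩ := exists_quot (f := C (v j) * Pp n x ^ 2 - N) (a := e j)
        (by rw [eval_sub, eval_mul, eval_C, eval_pow, hN.val j hj, sub_self])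
      exact ⟨q, fun _ => hq⟩
    · exact ⟨0, fun hh => absurd hh hj⟩
  choose T hT using hT
  have hPn : (Pp n x).natDegree ≤ n := Pp_monic.2.le
  have hP2 : (Pp n x ^ 2).natDegree = 2 * n := by
    rw [Pp_monic.1.natDegree_pow, Pp_monic.2]
  have hTd : ∀ j < 2 * n, (T j).degree < (2 * n : ℕ) := by
    intro j hj
    refine deg_of_mul (a := 1) (monic_X_sub_C (e j)) (natDegree_X_sub_C _) ?_
    rw [← hT j hj]
    refine lt_of_le_of_lt degree_le_natDegree ?_
    have : (C (v j) * Pp n x ^ 2 - N).natDegree < 1 + 2 * n := by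
      refine lt_of_le_of_lt (natDegree_sub_le _ _) (max_lt ?_ ?_)
      · exact lt_of_le_of_lt (natDegree_C_mul_le _ _) (by omega)
      · exact lt_of_le_of_lt (natDeg_le_of_lt hN.deg) (by omega)
    exact_mod_cast this
  obtain ⟨B, hB⟩ : Rp n e ∣ N - Pp n x * N₀ := by
    refine Rp_dvd h (fun j hj => ?_)
    rw [eval_sub, eval_mul, hN₀ j hj, hN.val j hj]
    ring
  have hB' : N = Pp n x * N₀ + Rp n e * B := by
    rw [← hB]
    ring
  have hBd : B.degree < n := by
    refine deg_of_mul (p := Rp n e) (a := 2 * n) Rp_monic.1 Rp_monic.2 ?_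
    rw [← hB]
    refine deg_sub_lt (lt_of_lt_of_le hN.deg ?_) (deg_mul_lt hPn hN₀d (by omega))
    exact_mod_cast (by omega : 2 * n ≤ 2 * n + n)
  have hΩ : ∀ k, ∃ Ω : ℝ[X], k < n → (∀ l < n, L n e l (fun t => Ω.eval t) = 0) ∧
      S k = C (-1 / (derivative (Pp n x)).eval (x k))
          * (C (1 / 2) * derivative (Rp n e) * (X - C (x k)) - Rp n e)
        + (X - C (x k)) ^ 2 * Ω := by
    intro k
    by_cases hk : k < n
    · obtain ⟨Ω, hΩ⟩ := (hS k hk).2
      exact ⟨Ω, fun _ => hΩ⟩
    · exact ⟨0, fun hh => absurd hh hk⟩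
  choose Ω hΩ using hΩ
  set Δ : ℝ[X] := Pd + derivative N₀ + C (1 / 2) * ∑ j ∈ range (2 * n), Q j
    - ∑ k ∈ range n, C (tau n e x N k) * Ω k with hΔ
  have hOm : ∀ t, (∀ j < 2 * n, t ≠ e j) → (∀ l < n, t ≠ x l) → Om n e x v Pd N t
      = Δ.eval t + ∑ k ∈ range n, tau n e x N k * (S k).eval t / (t - x k) ^ 2 :=
    fun t ht ht' => Om_eq h hx hQ' hB' hBd (fun k hk => (hΩ k hk).2) ht ht'
  have hper : ∀ l < n, L n e l (fun t => Δ.eval t) = 0 := by
    intro l hl
    have h1 := per_Om0 h hA hN₀ hQ' hl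
    have h2 : L n e l (fun t => (∑ k ∈ range n, C (tau n e x N k) * Ω k).eval t) = 0 := by
      simp only [eval_finsetSum, eval_mul, eval_C]
      rw [L_sum h hl (range n) (f := fun k t => tau n e x N k * (Ω k).eval t)
        (fun k _ => continuousOn_const.mul (Ω k).continuous.continuousOn)]
      refine Finset.sum_eq_zero (fun k hk => ?_)
      rw [L_const_mul, (hΩ k (mem_range.1 hk)).1 l hl, mul_zero]
    simp only [hΔ, eval_sub]
    rw [L_sub h hl (Polynomial.continuous _).continuousOn (Polynomial.continuous _).continuousOn,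
      h1, h2, sub_self]
  set W : ℝ[X] := Pp n x ^ 2 * Pd + (Pp n x * derivative N - derivative (Pp n x) * N)
    + C (1 / 2) * Pp n x * ∑ j ∈ range (2 * n), T j
    - ∑ k ∈ range n, C (tau n e x N k) * Pk n x k ^ 2 * S k with hW
  have hWd : W.degree < ((2 * n + n : ℕ) : WithBot ℕ) := by
    refine deg_sub_lt (deg_add_lt (deg_add_lt ?_ (deg_sub_lt ?_ ?_)) ?_) ?_
    · exact deg_mul_lt hP2.le hA.deg le_rfl
    · exact deg_mul_lt hPn (lt_of_le_of_lt degree_derivative_le hN.deg) (by omega)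
    · exact deg_mul_lt (natDeg_le_of_lt dPp_degree) hN.deg (by omega)
    · exact deg_mul_lt ((natDegree_C_mul_le _ _).trans hPn)
        (deg_sum_lt (fun j hj => hTd j (mem_range.1 hj))) (by omega)
    · refine deg_sum_lt (fun k hk => ?_)
      have hk' := mem_range.1 hk
      refine deg_mul_lt (a := 2 * n) ((natDegree_C_mul_le _ _).trans ?_) (hS k hk').1 le_rfl
      refine natDegree_pow_le.trans ?_
      rw [Pk_natDegree hk']
      omega
  have hWe : Pp n x ^ 2 * Δ = W := by
    apply Polynomial.eq_of_infinite_eval_eq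
    have hfin : (e '' Set.Iio (2 * n) ∪ x '' Set.Iio n).Finite :=
      ((Set.finite_Iio _).image _).union ((Set.finite_Iio _).image _)
    refine hfin.infinite_compl.mono (fun s hs => ?_)
    have hs1 : ∀ j < 2 * n, s ≠ e j := fun j hj hh => hs (Or.inl ⟨j, hj, hh.symm⟩)
    have hs2 : ∀ l < n, s ≠ x l := fun l hl hh => hs (Or.inr ⟨l, hl, hh.symm⟩)
    have hp := Pp_ne hs2
    have h1 := hOm s hs1 hs2
    have h2 : ∑ j ∈ range (2 * n), (v j - N.eval s / (Pp n x).eval s ^ 2) / (s - e j)
        = (∑ j ∈ range (2 * n), (T j).eval s) / (Pp n x).eval s ^ 2 := by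
      rw [Finset.sum_div]
      refine Finset.sum_congr rfl (fun j hj => ?_)
      have hj' := mem_range.1 hj
      have h3 := congrArg (eval s) (hT j hj')
      simp only [eval_sub, eval_mul, eval_C, eval_X, eval_pow] at h3
      have h4 : s - e j ≠ 0 := sub_ne_zero.2 (hs1 j hj')
      field_simp
      linear_combination h3
    have h3 : ∑ k ∈ range n, tau n e x N k * (S k).eval s / (s - x k) ^ 2
        = (∑ k ∈ range n, tau n e x N k * (Pk n x k).eval s ^ 2 * (S k).eval s)
          / (Pp n x).eval s ^ 2 := by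
      rw [Finset.sum_div]
      refine Finset.sum_congr rfl (fun k hk => ?_)
      have hk' := mem_range.1 hk
      have h4 : (Pp n x).eval s = (s - x k) * (Pk n x k).eval s := by
        rw [Pp_eq hk']
        simp
      have h5 : s - x k ≠ 0 := sub_ne_zero.2 (hs2 k hk')
      have h6 : (Pk n x k).eval s ≠ 0 := fun h0 => hp (by rw [h4, h0, mul_zero])
      rw [h4]
      field_simp
    rw [Om, h2, h3] at h1
    have h4 : Δ.eval s = Pd.eval s
        + ((derivative N).eval s * (Pp n x).eval s - N.eval s * (derivative (Pp n x)).eval s)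
          / (Pp n x).eval s ^ 2
        + (Pp n x).eval s / 2 * ((∑ j ∈ range (2 * n), (T j).eval s) / (Pp n x).eval s ^ 2)
        - (∑ k ∈ range n, tau n e x N k * (Pk n x k).eval s ^ 2 * (S k).eval s)
          / (Pp n x).eval s ^ 2 := by
      linear_combination -h1
    show eval s (Pp n x ^ 2 * Δ) = eval s W
    rw [eval_mul, h4, hW]
    simp only [eval_add, eval_mul, eval_sub, eval_C, eval_pow, eval_finsetSum]
    field_simp
  have hΔd : Δ.degree < n := by
    refine deg_of_mul (p := Pp n x ^ 2) (a := 2 * n) (Pp_monic.1.pow 2) hP2 ?_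
    rw [hWe]
    exact hWd
  have h0 := zero_of_periods h hΔd hper
  rw [hOm t ht ht', h0, eval_zero, zero_add]

end MW.AN
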