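import Pool.Agent.P.MP_064970_gt.AN.Defs

/-! Row AN-Bas: calculus of `D` and harmonic functions. -/

open Complex InnerProductSpace Set Filter Topology Metric MeasureTheory
open scoped Real ComplexConjugate

namespace MW.AN

theorem harm_exists_re {f : ℂ → ℝ} {z : ℂ} (h : HarmonicAt f z) :
    ∃ F : ℂ → ℂ, AnalyticAt ℂ F z ∧ f =ᶠ[𝓝 z] fun w => (F w).re := by
  obtain ⟨ε, hε, hb⟩ := Metric.isOpen_iff.1 (isOpen_setOfPred_harmonicAt (f := f)) z h
  obtain ⟨F, hF, hre⟩ := HarmonicOnNhd.exists_analyticOnNhd_ball_re_eq (f := f) (z := z) (R := ε)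
    (fun _ hy => hb hy)
  refine ⟨F, hF z (mem_ball_self hε), ?_⟩
  filter_upwards [ball_mem_nhds z hε] with w hw using (hre hw).symm

theorem D_congr {f g : ℂ → ℝ} {z : ℂ} (h : f =ᶠ[𝓝 z] g) : D f z = D g z := by
  unfold D; rw [h.fderiv_eq]

theorem hasFDerivAt_re_of {F : ℂ → ℂ} {z F' : ℂ} (hF : HasDerivAt F F' z) :
    HasFDerivAt (fun w => (F w).re)
      (reCLM.comp ((ContinuousLinearMap.toSpanSingleton ℂ F').restrictScalars ℝ)) z :=
  reCLM.hasFDerivAt.comp z (hF.hasFDerivAt.restrictScalars ℝ)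

theorem D_of_re {f : ℂ → ℝ} {F : ℂ → ℂ} {z F' : ℂ} (hF : HasDerivAt F F' z)
    (h : f =ᶠ[𝓝 z] fun w => (F w).re) : D f z = F' := by
  rw [D_congr h]
  unfold D
  rw [(hasFDerivAt_re_of hF).fderiv]
  apply Complex.ext <;> simp

theorem D_analyticAt {f : ℂ → ℝ} {z : ℂ} (h : HarmonicAt f z) : AnalyticAt ℂ (D f) z :=
  HarmonicAt.analyticAt_complex_partial h

theorem fderiv_eq_re_D (f : ℂ → ℝ) (z v : ℂ) : fderiv ℝ f z v = (D f z * v).re := by
  have hv : v = v.re • (1 : ℂ) + v.im • I := by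
    apply Complex.ext <;> simp
  conv_lhs => rw [hv, map_add, map_smul, map_smul]
  simp [D]
  ring

theorem harm_comp {f : ℂ → ℝ} {φ : ℂ → ℂ} {z : ℂ} (hφ : AnalyticAt ℂ φ z)
    (h : HarmonicAt f (φ z)) : HarmonicAt (fun w => f (φ w)) z := by
  obtain ⟨F, hF, hre⟩ := harm_exists_re h
  have h1 : (fun w => f (φ w)) =ᶠ[𝓝 z] fun w => (F (φ w)).re :=
    hφ.continuousAt.tendsto.eventually hre
  exact (harmonicAt_congr_nhds h1).2 (hF.comp hφ).harmonicAt_re

theorem D_comp {f : ℂ → ℝ} {φ : ℂ → ℂ} {z φ' : ℂ} (hφ : HasDerivAt φ φ' z)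
    (h : HarmonicAt f (φ z)) : D (fun w => f (φ w)) z = D f (φ z) * φ' := by
  obtain ⟨F, hF, hre⟩ := harm_exists_re h
  have h1 : (fun w => f (φ w)) =ᶠ[𝓝 z] fun w => (F (φ w)).re :=
    hφ.continuousAt.tendsto.eventually hre
  have hd := hF.differentiableAt.hasDerivAt
  rw [D_of_re hd hre]
  exact D_of_re (hd.comp z hφ) h1

theorem harm_conj {f : ℂ → ℝ} {z : ℂ} (h : HarmonicAt f (conj z)) :
    HarmonicAt (fun w => f (conj w)) z := by
  obtain ⟨F, hF, hre⟩ := harm_exists_re h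
  have h1 : (fun w => f (conj w)) =ᶠ[𝓝 z] fun w => (conj (F (conj w))).re := by
    have := (continuous_conj.tendsto z).eventually hre
    filter_upwards [this] with w hw
    simpa using hw
  have hG : AnalyticAt ℂ (fun w => conj (F (conj w))) z := by
    have h2 : ∀ᶠ w in 𝓝 (conj z), DifferentiableAt ℂ F w :=
      hF.eventually_analyticAt.mono fun w hw => hw.differentiableAt
    have h3 := (continuous_conj.tendsto z).eventually h2
    rw [analyticAt_iff_eventually_differentiableAt]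
    filter_upwards [h3] with w hw
    have := hw.hasDerivAt.conj_conj
    simpa [Function.comp_def] using this.differentiableAt
  exact (harmonicAt_congr_nhds h1).2 hG.harmonicAt_re

theorem harm_diff {f : ℂ → ℝ} {z : ℂ} (h : HarmonicAt f z) : DifferentiableAt ℝ f z :=
  h.1.differentiableAt (by norm_num)

theorem hasDerivAt_vert {f : ℂ → ℝ} {x y : ℝ} (h : HarmonicAt f (x + y * I)) :
    HasDerivAt (fun s : ℝ => f (x + s * I)) (-(D f (x + y * I)).im) y := by
  have h1 : HasDerivAt (fun s : ℝ => (x : ℂ) + s * I) I y := by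
    simpa using ((ofRealCLM.hasDerivAt (x := y)).mul_const I).const_add (x : ℂ)
  have := (harm_diff h).hasFDerivAt.comp_hasDerivAt y h1
  rw [fderiv_eq_re_D] at this
  simpa [Function.comp_def] using this

theorem hasDerivAt_hor {f : ℂ → ℝ} {x y : ℝ} (h : HarmonicAt f (x + y * I)) :
    HasDerivAt (fun t : ℝ => f (t + y * I)) (D f (x + y * I)).re x := by
  have h1 : HasDerivAt (fun t : ℝ => (t : ℂ) + y * I) 1 x := by
    simpa using (ofRealCLM.hasDerivAt (x := x)).add_const ((y : ℂ) * I)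
  have := (harm_diff h).hasFDerivAt.comp_hasDerivAt x h1
  rw [fderiv_eq_re_D] at this
  simpa [Function.comp_def] using this

theorem hasDerivAt_real {f : ℂ → ℝ} {x : ℝ} (h : HarmonicAt f x) :
    HasDerivAt (fun t : ℝ => f t) (D f x).re x := by
  have := hasDerivAt_hor (f := f) (x := x) (y := 0) (by simpa using h)
  simpa using this

theorem D_add {f g : ℂ → ℝ} {z : ℂ} (hf : HarmonicAt f z) (hg : HarmonicAt g z) :
    D (fun w => f w + g w) z = D f z + D g z := by
  unfold D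
  rw [fderiv_fun_add (harm_diff hf) (harm_diff hg)]
  simp; ring

theorem D_sub {f g : ℂ → ℝ} {z : ℂ} (hf : HarmonicAt f z) (hg : HarmonicAt g z) :
    D (fun w => f w - g w) z = D f z - D g z := by
  unfold D
  rw [fderiv_fun_sub (harm_diff hf) (harm_diff hg)]
  simp; ring

theorem D_const_mul {f : ℂ → ℝ} {z : ℂ} (c : ℝ) (hf : HarmonicAt f z) :
    D (fun w => c * f w) z = c * D f z := by
  unfold D
  rw [fderiv_const_mul (harm_diff hf)]
  simp; ring

theorem D_add_const (f : ℂ → ℝ) (c : ℝ) (z : ℂ) : D (fun w => f w + c) z = D f z := by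
  unfold D
  rw [fderiv_add_const]

theorem harm_add {f g : ℂ → ℝ} {z : ℂ} (hf : HarmonicAt f z) (hg : HarmonicAt g z) :
    HarmonicAt (fun w => f w + g w) z := hf.add hg

theorem harm_sub {f g : ℂ → ℝ} {z : ℂ} (hf : HarmonicAt f z) (hg : HarmonicAt g z) :
    HarmonicAt (fun w => f w - g w) z := hf.sub hg

theorem harm_const_mul {f : ℂ → ℝ} {z : ℂ} (c : ℝ) (hf : HarmonicAt f z) :
    HarmonicAt (fun w => c * f w) z := hf.const_smul (c := c)

theorem harm_const (c : ℝ) (z : ℂ) : HarmonicAt (fun _ : ℂ => c) z := by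
  have : AnalyticAt ℂ (fun _ : ℂ => (c : ℂ)) z := analyticAt_const
  simpa using this.harmonicAt_re

theorem harm_im (z : ℂ) : HarmonicAt (fun w : ℂ => w.im) z :=
  (analyticAt_id (𝕜 := ℂ) (z := z)).harmonicAt_im

theorem D_im (z : ℂ) : D (fun w : ℂ => w.im) z = -I := by
  have h : HasDerivAt (fun w : ℂ => -I * w) (-I) z := by
    simpa using (hasDerivAt_id z).const_mul (-I)
  exact D_of_re h (Eventually.of_forall fun w => by simp)

theorem harm_abs_im {z : ℂ} (hz : z.im ≠ 0) : HarmonicAt (fun w : ℂ => |w.im|) z := by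
  rcases lt_or_gt_of_ne hz with h | h
  · have : (fun w : ℂ => |w.im|) =ᶠ[𝓝 z] fun w => (-1) * w.im := by
      filter_upwards [(continuous_im.tendsto z).eventually (gt_mem_nhds h)] with w hw
      rw [abs_of_neg hw]; ring
    exact (harmonicAt_congr_nhds this).2 (harm_const_mul _ (harm_im z))
  · have : (fun w : ℂ => |w.im|) =ᶠ[𝓝 z] fun w => w.im := by
      filter_upwards [(continuous_im.tendsto z).eventually (lt_mem_nhds h)] with w hw
      rw [abs_of_pos hw]
    exact (harmonicAt_congr_nhds this).2 (harm_im z)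

theorem D_im_eq_zero_of_even {f : ℂ → ℝ} (he : ∀ z, f (conj z) = f z) {x : ℝ}
    (h : HarmonicAt f x) : (D f x).im = 0 := by
  have h1 := hasDerivAt_vert (f := f) (x := x) (y := 0) (by simpa using h)
  have h2 : HasDerivAt (fun s : ℝ => f (x + ((-s : ℝ) : ℂ) * I))
      (-(D f (x + (0 : ℝ) * I)).im * (-1)) 0 := by
    have h3 : HasDerivAt (fun s : ℝ => -s) (-1) (0 : ℝ) := hasDerivAt_neg 0
    exact HasDerivAt.comp (h₂ := fun s : ℝ => f (x + s * I)) (0 : ℝ) (by simpa using h1) h3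
  have h4 : (fun s : ℝ => f (x + ((-s : ℝ) : ℂ) * I)) = fun s : ℝ => f (x + s * I) := by
    funext s
    rw [← he]; congr 1; simp
  rw [h4] at h2
  have := h1.unique h2
  simp at this
  linarith

theorem Half.pos_of_im_ne {u : ℂ → ℝ} (h : Half u) {z : ℂ} (hz : z.im ≠ 0) : 0 < u z := by
  rcases lt_or_gt_of_ne hz with h1 | h1
  · rw [← h.even]; exact h.pos _ (by simpa using h1)
  · exact h.pos _ h1

theorem Half.harm_of_im_ne {u : ℂ → ℝ} (h : Half u) {z : ℂ} (hz : z.im ≠ 0) :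
    HarmonicAt u z := h.harm z (h.pos_of_im_ne hz)

theorem Half.posH {u : ℂ → ℝ} (h : Half u) : PosH u :=
  ⟨fun _ hz => h.harm_of_im_ne hz.ne', fun z _ => h.nonneg z⟩

theorem Half.const_mul {u : ℂ → ℝ} (h : Half u) {c : ℝ} (hc : 0 < c) :
    Half (fun z => c * u z) :=
  ⟨continuous_const.mul h.cont, fun z => by rw [h.even], fun z => mul_nonneg hc.le (h.nonneg z),
    fun z hz => harm_const_mul c (h.harm z (pos_of_mul_pos_left' hc hz)),
    fun z hz => mul_pos hc (h.pos z hz)⟩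
where pos_of_mul_pos_left' {a b : ℝ} (ha : 0 < a) (hab : 0 < a * b) : 0 < b :=
  (mul_pos_iff_of_pos_left ha).1 hab

/-- An even function is determined by its values at `x + |y| i`. -/
theorem even_abs {f : ℂ → ℝ} (he : ∀ z, f (conj z) = f z) (z : ℂ) :
    f z = f (z.re + (|z.im| : ℝ) * I) := by
  rcases le_total 0 z.im with h | h
  · rw [abs_of_nonneg h, re_add_im]
  · rw [abs_of_nonpos h, ← he]; congr 1
    apply Complex.ext <;> simp

theorem closure_upper {z : ℂ} (hz : 0 ≤ z.im) : z ∈ closure {w : ℂ | 0 < w.im} := by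
  rw [closure_setOfPred_lt_im]; exact hz

/-- Two continuous even functions that agree on the open upper half-plane agree everywhere. -/
theorem eq_of_eqOn_upper {f g : ℂ → ℝ} (hf : Continuous f) (hg : Continuous g)
    (ef : ∀ z, f (conj z) = f z) (eg : ∀ z, g (conj z) = g z)
    (h : ∀ z : ℂ, 0 < z.im → f z = g z) (z : ℂ) : f z = g z := by
  rw [even_abs ef z, even_abs eg z]
  have : EqOn f g (closure {w : ℂ | 0 < w.im}) := EqOn.closure (fun w hw => h w hw) hf hg
  exact this (closure_upper (by simp))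

theorem Slope.abs_lo {u : ℂ → ℝ} {α : ℝ} (hu : Half u) (h : Slope u α) (z : ℂ) :
    α * |z.im| ≤ u z := by
  rcases eq_or_ne z.im 0 with h0 | h0
  · simp [h0, hu.nonneg z]
  · rw [even_abs hu.even z]
    have := h.lo (z.re + (|z.im| : ℝ) * I) (by simpa using h0)
    simpa using this

theorem upper_convex : Convex ℝ {w : ℂ | 0 < w.im} := convex_halfSpace_im_gt 0

theorem upper_open : IsOpen {w : ℂ | 0 < w.im} := isOpen_lt continuous_const continuous_im

theorem const_of_D_eq_zero {f : ℂ → ℝ} (hh : ∀ z : ℂ, 0 < z.im → HarmonicAt f z)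
    (hD : ∀ z : ℂ, 0 < z.im → D f z = 0) : ∃ c, ∀ z : ℂ, 0 < z.im → f z = c := by
  refine ⟨f I, fun z hz => ?_⟩
  refine upper_open.is_const_of_fderiv_eq_zero (𝕜 := ℝ) upper_convex.isPreconnected
    (fun w hw => (harm_diff (hh w hw)).differentiableWithinAt) (fun w hw => ?_) hz (by simp)
  ext v
  rw [fderiv_eq_re_D, hD w hw]; simp

theorem eq_zero_or_of_mul {F G : ℂ → ℂ} (hF : ∀ z : ℂ, 0 < z.im → AnalyticAt ℂ F z)
    (hG : ∀ z : ℂ, 0 < z.im → AnalyticAt ℂ G z) (h : ∀ z : ℂ, 0 < z.im → F z * G z = 0) :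
    (∀ z : ℂ, 0 < z.im → F z = 0) ∨ (∀ z : ℂ, 0 < z.im → G z = 0) :=
  AnalyticOnNhd.eq_zero_or_eq_zero_of_mul_eq_zero (U := {w : ℂ | 0 < w.im}) hF hG h
    upper_convex.isPreconnected

theorem mart_abs_im : Mart 0 (fun z : ℂ => |z.im|) where
  cont := continuous_im.abs
  even z := by simp
  nonneg z := abs_nonneg _
  harm z hz := harm_abs_im (abs_pos.1 hz)
  pos z hz := abs_pos.2 hz.ne'
  lo _ := le_rfl
  hi _ := by simp

theorem Mart.mono {C C' : ℝ} {u : ℂ → ℝ} (h : Mart C u) (hC : C ≤ C') : Mart C' u :=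
  ⟨h.toHalf, h.lo, fun z => (h.hi z).trans (by linarith)⟩

theorem Data.symm {u₁ u₂ : ℂ → ℝ} (h : Data u₁ u₂) : Data u₂ u₁ :=
  ⟨h.h₂, h.h₁, fun x => by rw [mul_comm]; exact h.prod x,
    fun z hz => by rw [add_comm]; exact h.eq z hz,
    fun a b => (h.fin a b).subset fun _ hx => ⟨hx.1, hx.2.2, hx.2.1⟩⟩

end MW.AN
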