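import Pool.Agent.P.MP_064970_gt.AN.Bas

/-! Row AN-MP: maximum principle, the barrier `2 u / R + Re (z - x)² / R²`, comparison. -/

open Complex InnerProductSpace Set Filter Topology Metric MeasureTheory
open scoped Real ComplexConjugate

namespace MW.AN

/-- A harmonic function is constant near a local maximum. -/
theorem MP_locmax {v : ℂ → ℝ} {z : ℂ} (h : HarmonicAt v z) (hm : IsLocalMax v z) :
    ∀ᶠ w in 𝓝 z, v w = v z := by
  obtain ⟨F, hF, hv⟩ := harm_exists_re h
  have hd : ∀ᶠ w in 𝓝 z, DifferentiableAt ℂ (fun w => Complex.exp (F w)) w :=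
    hF.eventually_analyticAt.mono fun w hw => hw.differentiableAt.cexp
  have hz : v z = (F z).re := hv.eq_of_nhds
  have hm' : IsLocalMax (norm ∘ fun w => Complex.exp (F w)) z := by
    filter_upwards [hm, hv] with w h1 h2
    simp only [Function.comp_apply, Complex.norm_exp, Real.exp_le_exp]
    rw [← h2, ← hz]
    exact h1
  filter_upwards [Complex.norm_eventually_eq_of_isLocalMax hd hm', hv] with w h1 h2
  rw [Complex.norm_exp, Complex.norm_exp, Real.exp_eq_exp] at h1
  rw [h2, hz, h1]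

/-- Take the point of the maximum set with the largest real part and use the mean value
property on a small circle. -/
theorem MP {K : Set ℂ} (hK : IsCompact K) {v : ℂ → ℝ} (hv : ContinuousOn v K)
    (hh : ∀ z ∈ interior K, 0 < v z → HarmonicAt v z) (hb : ∀ z ∈ frontier K, v z ≤ 0) :
    ∀ z ∈ K, v z ≤ 0 := by
  intro z hz
  by_contra hpos
  push Not at hpos
  obtain ⟨z₀, hz₀, hmax⟩ := hK.exists_isMaxOn ⟨z, hz⟩ hv
  have hS : IsCompact (K ∩ v ⁻¹' {v z₀}) :=
    hK.of_isClosed_subset (hv.preimage_isClosed_of_isClosed hK.isClosed isClosed_singleton)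
      inter_subset_left
  obtain ⟨z₁, ⟨hz₁, hv₁⟩, hre⟩ := hS.exists_isMaxOn ⟨z₀, hz₀, rfl⟩ continuous_re.continuousOn
  have hv₁' : v z₁ = v z₀ := hv₁
  have hp : 0 < v z₁ := by
    rw [hv₁']
    exact hpos.trans_le (hmax hz)
  have hint : z₁ ∈ interior K := by
    by_contra hn
    exact absurd (hb z₁ ⟨subset_closure hz₁, hn⟩) (not_le.mpr hp)
  have hKn : K ∈ 𝓝 z₁ := mem_interior_iff_mem_nhds.mp hint
  have hloc : IsLocalMax v z₁ := by
    filter_upwards [hKn] with w hw
    rw [hv₁']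
    exact hmax hw
  have hev := (MP_locmax (hh z₁ hint hp) hloc).and hKn
  obtain ⟨r, hr, hball⟩ := Metric.eventually_nhds_iff.mp hev
  have hd : dist (z₁ + ((r / 2 : ℝ) : ℂ)) z₁ < r := by
    rw [dist_eq_norm, add_sub_cancel_left, Complex.norm_real, Real.norm_eq_abs,
      abs_of_pos (by positivity)]
    linarith
  obtain ⟨h1, h2⟩ := hball hd
  have h3 : (z₁ + ((r / 2 : ℝ) : ℂ)).re ≤ z₁.re := hre ⟨h2, h1.trans hv₁'⟩
  rw [add_re, ofReal_re] at h3
  linarith

/-- On the circle the barrier is at least `2 s + 1 - 2 s² ≥ 1` (`s = |y| / R`), on the real axis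
it is nonnegative. -/
theorem BAR {f u : ℂ → ℝ} {x R K : ℝ} (hR : 0 < R) (hK : 0 ≤ K)
    (hf : ContinuousOn f (closedBall (x : ℂ) R)) (hu : ContinuousOn u (closedBall (x : ℂ) R))
    (hlo : ∀ z ∈ closedBall (x : ℂ) R, |z.im| ≤ u z)
    (hh : ∀ z ∈ ball (x : ℂ) R, (z.im ≠ 0 ∨ 0 < f z) → HarmonicAt f z ∧ HarmonicAt u z)
    (hb : ∀ z ∈ sphere (x : ℂ) R, f z ≤ K) :
    ∀ z ∈ closedBall (x : ℂ) R, f z ≤ K * (2 * u z / R + ((z - x) ^ 2).re / R ^ 2) := by
  have hre : ∀ z : ℂ, ((z - x) ^ 2).re = (z.re - x) ^ 2 - z.im ^ 2 := by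
    intro z
    simp [pow_two]
  have hq : Continuous fun z : ℂ => ((z - x) ^ 2).re := by fun_prop
  have key := MP (isCompact_closedBall (x : ℂ) R)
    (v := fun z => f z - K * (2 * u z / R + ((z - x) ^ 2).re / R ^ 2))
    (hf.sub (continuousOn_const.mul (((continuousOn_const.mul hu).div_const R).add
      (hq.continuousOn.div_const _)))) ?_ ?_
  · intro z hz
    have := key z hz
    linarith
  · intro z hz hpos
    rw [interior_closedBall _ hR.ne'] at hz
    have hfu : HarmonicAt f z ∧ HarmonicAt u z := by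
      refine hh z hz ?_
      by_cases hy : z.im = 0
      · right
        have h1 := hlo z (ball_subset_closedBall hz)
        have h2 : 0 ≤ u z := (abs_nonneg _).trans h1
        have h3 : 0 ≤ ((z - x) ^ 2).re := by
          rw [hre, hy]
          nlinarith [sq_nonneg (z.re - x)]
        have h4 : 0 ≤ K * (2 * u z / R + ((z - x) ^ 2).re / R ^ 2) := by positivity
        linarith
      · exact Or.inl hy
    have hq' : HarmonicAt (fun w : ℂ => ((w - x) ^ 2).re) z :=
      AnalyticAt.harmonicAt_re (f := fun w : ℂ => (w - x) ^ 2) (by fun_prop)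
    have e : (fun w : ℂ => f w - K * (2 * u w / R + ((w - x) ^ 2).re / R ^ 2)) =
        fun w => f w - K * ((2 / R) * u w + (1 / R ^ 2) * ((w - x) ^ 2).re) := by
      funext w
      ring
    rw [e]
    exact harm_sub hfu.1 (harm_const_mul K (harm_add (harm_const_mul _ hfu.2)
      (harm_const_mul _ hq')))
  · intro z hz
    rw [frontier_closedBall _ hR.ne'] at hz
    have h1 := hb z hz
    have h2 := hlo z (sphere_subset_closedBall hz)
    have h3 : (z.re - x) ^ 2 + z.im ^ 2 = R ^ 2 := by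
      have h := mem_sphere_iff_norm.mp hz
      rw [← h, Complex.sq_norm, Complex.normSq_apply]
      simp [pow_two]
    have h4 : |z.im| ≤ R := by
      refine abs_le_of_sq_le_sq' ?_ hR.le |> abs_le.mpr
      nlinarith [sq_nonneg (z.re - x)]
    have h5 : 1 ≤ 2 * u z / R + ((z - x) ^ 2).re / R ^ 2 := by
      rw [hre, div_add_div _ _ hR.ne' (by positivity), le_div_iff₀ (by positivity)]
      have h6 : z.im ^ 2 ≤ R * u z := by
        rw [← sq_abs, pow_two]
        exact mul_le_mul h4 h2 (abs_nonneg _) hR.le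
      have h7 : (z.re - x) ^ 2 = R ^ 2 - z.im ^ 2 := by linarith
      rw [h7]
      nlinarith [mul_le_mul_of_nonneg_left h6 hR.le]
    have h6 := mul_le_mul_of_nonneg_left h5 hK
    linarith

/-- Phragmén–Lindelöf: `BAR` with `x = 0`, `K = ε R`, `R → ∞`. -/
theorem PL {f u : ℂ → ℝ} (hf : Continuous f) (hu : Continuous u) (hlo : ∀ z : ℂ, |z.im| ≤ u z)
    (hh : ∀ z : ℂ, (z.im ≠ 0 ∨ 0 < f z) → HarmonicAt f z ∧ HarmonicAt u z)
    (hsub : ∀ ε > 0, ∃ R₀ : ℝ, ∀ z : ℂ, R₀ ≤ ‖z‖ → f z ≤ ε * ‖z‖) : ∀ z, f z ≤ 0 := by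
  intro z
  have hu0 : 0 ≤ u z := (abs_nonneg _).trans (hlo z)
  have key : ∀ ε > 0, f z ≤ ε * (2 * u z + ‖z‖ ^ 2) := by
    intro ε hε
    obtain ⟨R₀, hR₀⟩ := hsub ε hε
    set R : ℝ := max (max R₀ ‖z‖) 1 with hRdef
    have h1 : 1 ≤ R := le_max_right _ _
    have h2 : R₀ ≤ R := (le_max_left _ _).trans (le_max_left _ _)
    have h3 : ‖z‖ ≤ R := (le_max_right _ _).trans (le_max_left _ _)
    have hR : 0 < R := by linarith
    have hB := BAR (f := f) (u := u) (x := 0) (R := R) (K := ε * R) hR (by positivity)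
      hf.continuousOn hu.continuousOn (fun w _ => hlo w) (fun w _ => hh w)
      (fun w hw => by
        have hw' : ‖w‖ = R := by simpa using hw
        rw [← hw']
        exact hR₀ w (by rw [hw']; exact h2)) z (by simpa using h3)
    have h4 : ((z - ((0 : ℝ) : ℂ)) ^ 2).re ≤ ‖z‖ ^ 2 := by
      rw [ofReal_zero, sub_zero, ← norm_pow]
      exact re_le_norm _
    have h5 : ε * R * (2 * u z / R + ((z - ((0 : ℝ) : ℂ)) ^ 2).re / R ^ 2) =
        ε * (2 * u z + ((z - ((0 : ℝ) : ℂ)) ^ 2).re / R) := by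
      field_simp
    have h6 : ((z - ((0 : ℝ) : ℂ)) ^ 2).re / R ≤ ‖z‖ ^ 2 := by
      rw [div_le_iff₀ hR]
      nlinarith [sq_nonneg ‖z‖]
    rw [h5] at hB
    exact hB.trans (mul_le_mul_of_nonneg_left (by linarith) hε.le)
  by_contra hpos
  push Not at hpos
  have hc : 0 ≤ 2 * u z + ‖z‖ ^ 2 := by positivity
  have h := key (f z / (2 * u z + ‖z‖ ^ 2 + 1)) (by positivity)
  rw [div_mul_eq_mul_div, le_div_iff₀ (by positivity)] at h
  nlinarith

theorem MP_sub_of_bdd {f : ℂ → ℝ} {C : ℝ} (h : ∀ z, f z ≤ C) :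
    ∀ ε > 0, ∃ R₀ : ℝ, ∀ z : ℂ, R₀ ≤ ‖z‖ → f z ≤ ε * ‖z‖ := by
  intro ε hε
  refine ⟨C / ε, fun z hz => (h z).trans ?_⟩
  rw [div_le_iff₀ hε] at hz
  linarith

/-- Comparison of Martin functions. -/
theorem COMP {u u' : ℂ → ℝ} {C : ℝ} (h : Half u) (hhi : ∀ z : ℂ, u z ≤ |z.im| + C)
    (h' : Half u') (hlo : ∀ z : ℂ, |z.im| ≤ u' z) (hG : ∀ t : ℝ, 0 < u t → 0 < u' t) :
    ∀ z, u z ≤ u' z := by
  have key := PL (f := fun z => u z - u' z) (u := u') (h.cont.sub h'.cont) h'.cont hlo ?_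
    (MP_sub_of_bdd (C := C) fun z => by linarith [hhi z, hlo z])
  · intro z
    linarith [key z]
  · intro z hz
    by_cases hy : z.im = 0
    · have h1 : 0 < u z - u' z := hz.resolve_left (not_not.mpr hy)
      have h2 : 0 < u z := by linarith [h'.nonneg z]
      have hz' : (z.re : ℂ) = z := Complex.ext (by simp) (by simp [hy])
      have h3 : 0 < u' z := by
        have := hG z.re (by rw [hz']; exact h2)
        rwa [hz'] at this
      exact ⟨harm_sub (h.harm z h2) (h'.harm z h3), h'.harm z h3⟩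
    · exact ⟨harm_sub (h.harm_of_im_ne hy) (h'.harm_of_im_ne hy), h'.harm_of_im_ne hy⟩

/-- A bounded perturbation of `|y|`, nonnegative on the real axis and harmonic off it,
lies above `|y|`. -/
theorem abs_im_le {u : ℂ → ℝ} {C : ℝ} (hu : Continuous u)
    (hh : ∀ z : ℂ, z.im ≠ 0 → HarmonicAt u z) (h0 : ∀ t : ℝ, 0 ≤ u t)
    (hlo : ∀ z : ℂ, |z.im| - C ≤ u z) : ∀ z : ℂ, |z.im| ≤ u z := by
  have hc : Continuous fun z : ℂ => |z.im| := by fun_prop
  have key := PL (f := fun z => |z.im| - u z) (u := fun z => |z.im|) (hc.sub hu) hc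
    (fun _ => le_rfl) ?_ (MP_sub_of_bdd (C := C) fun z => by linarith [hlo z])
  · intro z
    linarith [key z]
  · intro z hz
    have hy : z.im ≠ 0 := by
      intro hy
      have h1 : 0 < |z.im| - u z := hz.resolve_left (not_not.mpr hy)
      have hz' : (z.re : ℂ) = z := Complex.ext (by simp) (by simp [hy])
      have h2 := h0 z.re
      rw [hz'] at h2
      rw [hy, abs_zero] at h1
      linarith
    exact ⟨harm_sub (harm_abs_im hy) (hh z hy), harm_abs_im hy⟩

/-- An isolated real zero is impossible (logarithmic barrier on an annulus). -/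
theorem no_isolated_zero {u : ℂ → ℝ} (h : Half u) {b r : ℝ} (hr : 0 < r)
    (hpos : ∀ t : ℝ, t ≠ b → |t - b| < r → 0 < u t) : 0 < u b := by
  set ρ : ℝ := r / 2 with hρdef
  have hρ : 0 < ρ := by positivity
  have hp : ∀ z : ℂ, z ≠ b → ‖z - b‖ ≤ ρ → 0 < u z := by
    intro z hz hzρ
    by_cases hy : z.im = 0
    · have hz' : (z.re : ℂ) = z := Complex.ext (by simp) (by simp [hy])
      rw [← hz'] at hz hzρ ⊢
      refine hpos _ (fun e => hz (by rw [e])) ?_
      rw [← ofReal_sub, Complex.norm_real, Real.norm_eq_abs] at hzρ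
      linarith
    · exact h.pos_of_im_ne hy
  obtain ⟨z₀, hz₀, hmin⟩ := (isCompact_sphere (b : ℂ) ρ).exists_isMinOn
    (NormedSpace.sphere_nonempty.mpr hρ.le) h.cont.continuousOn
  have hz₀' : ‖z₀ - b‖ = ρ := mem_sphere_iff_norm.mp hz₀
  have hm : 0 < u z₀ := by
    refine hp z₀ (fun e => ?_) hz₀'.le
    rw [e, sub_self, norm_zero] at hz₀'
    exact hρ.ne hz₀'
  set m : ℝ := u z₀ with hmdef
  have key : ∀ ε > 0, ∀ z : ℂ, z ≠ b → ‖z - b‖ ≤ ρ →
      m + ε * (Real.log ‖z - b‖ - Real.log ρ) ≤ u z := by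
    intro ε hε z hz hzρ
    set δ : ℝ := ρ * Real.exp (-(m / ε)) with hδdef
    have hδ : 0 < δ := by positivity
    have hlog : Real.log δ = Real.log ρ - m / ε := by
      rw [hδdef, Real.log_mul hρ.ne' (Real.exp_pos _).ne', Real.log_exp]
      ring
    have hsmall : ∀ w : ℂ, w ≠ b → ‖w - b‖ ≤ δ →
        m + ε * (Real.log ‖w - b‖ - Real.log ρ) ≤ u w := by
      intro w hw hwδ
      have h1 : Real.log ‖w - b‖ ≤ Real.log δ :=
        Real.log_le_log (norm_pos_iff.mpr (sub_ne_zero.mpr hw)) hwδ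
      have h2 : ε * (Real.log ‖w - b‖ - Real.log ρ) ≤ ε * (-(m / ε)) :=
        mul_le_mul_of_nonneg_left (by linarith) hε.le
      have h3 : ε * (-(m / ε)) = -m := by field_simp
      linarith [h.nonneg w]
    rcases le_total ‖z - b‖ δ with hzδ | hzδ
    · exact hsmall z hz hzδ
    have hKc : IsCompact (closedBall (b : ℂ) ρ ∩ (ball (b : ℂ) δ)ᶜ) :=
      (isCompact_closedBall _ _).inter_right isOpen_ball.isClosed_compl
    have hmem : ∀ w : ℂ, w ∈ closedBall (b : ℂ) ρ ∩ (ball (b : ℂ) δ)ᶜ ↔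
        ‖w - b‖ ≤ ρ ∧ δ ≤ ‖w - b‖ := by
      intro w
      simp [dist_eq_norm]
    have hne : ∀ w : ℂ, δ ≤ ‖w - b‖ → w - b ≠ 0 := fun w hw e => by
      rw [e, norm_zero] at hw
      linarith
    have hlh : ∀ w : ℂ, δ ≤ ‖w - b‖ → HarmonicAt (fun w : ℂ => Real.log ‖w - b‖) w :=
      fun w hw => AnalyticAt.harmonicAt_log_norm (f := fun w : ℂ => w - b) (by fun_prop) (hne w hw)
    have hM := MP hKc (v := fun w => m + ε * (Real.log ‖w - b‖ - Real.log ρ) - u w) ?_ ?_ ?_ z
      ((hmem z).mpr ⟨hzρ, hzδ⟩)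
    · linarith
    · refine (continuousOn_const.add (continuousOn_const.mul (ContinuousOn.sub ?_
        continuousOn_const))).sub h.cont.continuousOn
      refine ContinuousOn.log (by fun_prop) fun w hw => ?_
      exact norm_ne_zero_iff.mpr (hne w ((hmem w).mp hw).2)
    · intro w hw _
      obtain ⟨h1, h2⟩ := (hmem w).mp (interior_subset hw)
      exact harm_sub (harm_add (harm_const _ _) (harm_const_mul _ (harm_sub (hlh w h2)
        (harm_const _ _)))) (h.harm w (hp w (sub_ne_zero.mp (hne w h2)) h1))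
    · intro w hw
      obtain ⟨h1, h2⟩ := (hmem w).mp (hKc.isClosed.frontier_subset hw)
      rcases h2.eq_or_lt with h3 | h3
      · linarith [hsmall w (sub_ne_zero.mp (hne w h2)) h3.ge]
      rcases h1.eq_or_lt with h4 | h4
      · have h5 : m ≤ u w := hmin (mem_sphere_iff_norm.mpr h4)
        rw [h4]
        linarith
      · exfalso
        refine hw.2 (mem_interior.mpr ⟨ball (b : ℂ) ρ ∩ (closedBall (b : ℂ) δ)ᶜ,
          inter_subset_inter ball_subset_closedBall (compl_subset_compl.mpr ball_subset_closedBall),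
          isOpen_ball.inter isClosed_closedBall.isOpen_compl, ?_⟩)
        simpa [dist_eq_norm] using ⟨h4, h3⟩
  have key2 : ∀ z : ℂ, z ≠ b → ‖z - b‖ ≤ ρ → m ≤ u z := by
    intro z hz hzρ
    have ht : Tendsto (fun ε : ℝ => m + ε * (Real.log ‖z - b‖ - Real.log ρ)) (𝓝[>] 0)
        (𝓝 (m + 0 * (Real.log ‖z - b‖ - Real.log ρ))) :=
      tendsto_nhdsWithin_of_tendsto_nhds (Continuous.tendsto (by fun_prop) 0)
    rw [zero_mul, add_zero] at ht
    exact le_of_tendsto ht (eventually_nhdsWithin_of_forall fun ε hε => key ε hε z hz hzρ)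
  have ht : Tendsto u (𝓝[≠] (b : ℂ)) (𝓝 (u b)) :=
    tendsto_nhdsWithin_of_tendsto_nhds (h.cont.tendsto _)
  refine hm.trans_le (ge_of_tendsto ht ?_)
  filter_upwards [self_mem_nhdsWithin, mem_nhdsWithin_of_mem_nhds (closedBall_mem_nhds (b : ℂ) hρ)]
    with z h1 h2
  exact key2 z h1 (by simpa [dist_eq_norm] using h2)

end MW.AN
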