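import Pool.Agent.P.MP_064970_gt.AN.ZP

/-! Row AN-PF: partial fractions and interpolation. -/

open Complex InnerProductSpace Filter Topology Metric MeasureTheory Finset Polynomial
open scoped Real ComplexConjugate

namespace MW.AN

variable {n : ℕ} {e x : ℕ → ℝ}

theorem PF_Rp_eq (n : ℕ) (e : ℕ → ℝ) : Rp n e = Lagrange.nodal (range (2 * n)) e := rfl

theorem PF_Pp_eq (n : ℕ) (x : ℕ → ℝ) : Pp n x = Lagrange.nodal (range n) x := rfl

theorem Rp_monic : (Rp n e).Monic ∧ (Rp n e).natDegree = 2 * n := by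
  rw [PF_Rp_eq]
  exact ⟨Lagrange.nodal_monic, by rw [Lagrange.natDegree_nodal, card_range]⟩

theorem Pp_monic : (Pp n x).Monic ∧ (Pp n x).natDegree = n := by
  rw [PF_Pp_eq]
  exact ⟨Lagrange.nodal_monic, by rw [Lagrange.natDegree_nodal, card_range]⟩

theorem PF_mono_le (h : Mono n e) {i j : ℕ} (hij : i ≤ j) (hj : j < 2 * n) : e i ≤ e j := by
  rcases hij.lt_or_eq with hlt | rfl
  · exact (h hlt hj).le
  · exact le_rfl

theorem PF_injOn_e (h : Mono n e) : Set.InjOn e (range (2 * n) : Finset ℕ) := by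
  intro i hi j hj hij
  have hi' : i < 2 * n := by simpa using hi
  have hj' : j < 2 * n := by simpa using hj
  rcases lt_trichotomy i j with hlt | heq | hgt
  · exact absurd hij (h hlt hj').ne
  · exact heq
  · exact absurd hij (h hgt hi').ne'

theorem Crit.inj (h : Mono n e) (hx : Crit n e x) {k l : ℕ} (hkl : k < l) (hl : l < n) :
    x k < x l := by
  have h1 := (hx.mem k (hkl.trans hl)).2
  have h2 := (hx.mem l hl).1
  have h3 : e (2 * k + 1) < e (2 * l) := h (by omega) (by omega)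
  linarith

theorem PF_injOn_x (h : Mono n e) (hx : Crit n e x) : Set.InjOn x (range n : Finset ℕ) := by
  intro i hi j hj hij
  have hi' : i < n := by simpa using hi
  have hj' : j < n := by simpa using hj
  rcases lt_trichotomy i j with hlt | heq | hgt
  · exact absurd hij (hx.inj h hlt hj').ne
  · exact heq
  · exact absurd hij (hx.inj h hgt hi').ne'

theorem PF_e_lt_x (h : Mono n e) (hx : Crit n e x) {l j : ℕ} (hl : l < n) (hj : j ≤ 2 * l) :
    e j < x l :=
  (PF_mono_le h hj (by omega)).trans_lt (hx.mem l hl).1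

theorem PF_x_lt_e (h : Mono n e) (hx : Crit n e x) {l j : ℕ} (hl : l < n) (hj : 2 * l + 1 ≤ j)
    (hj' : j < 2 * n) : x l < e j :=
  (hx.mem l hl).2.trans_le (PF_mono_le h hj hj')

theorem Crit.ne_e (h : Mono n e) (hx : Crit n e x) {l j : ℕ} (hl : l < n) (hj : j < 2 * n) :
    x l ≠ e j := by
  rcases le_or_gt j (2 * l) with h1 | h1
  · exact (PF_e_lt_x h hx hl h1).ne'
  · exact (PF_x_lt_e h hx hl h1 hj).ne

theorem Crit.P_e_ne (h : Mono n e) (hx : Crit n e x) {j : ℕ} (hj : j < 2 * n) :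
    (Pp n x).eval (e j) ≠ 0 := by
  rw [PF_Pp_eq]
  exact Lagrange.eval_nodal_not_at_node fun i hi => (hx.ne_e h (mem_range.mp hi) hj).symm

theorem PF_R_x_ne (h : Mono n e) (hx : Crit n e x) {l : ℕ} (hl : l < n) :
    (Rp n e).eval (x l) ≠ 0 := by
  rw [PF_Rp_eq]
  exact Lagrange.eval_nodal_not_at_node fun j hj => hx.ne_e h hl (mem_range.mp hj)

theorem PF_P_x (x : ℕ → ℝ) {l : ℕ} (hl : l < n) : (Pp n x).eval (x l) = 0 := by
  rw [PF_Pp_eq]
  exact Lagrange.eval_nodal_at_node (mem_range.mpr hl)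

theorem PF_R_e (e : ℕ → ℝ) {j : ℕ} (hj : j < 2 * n) : (Rp n e).eval (e j) = 0 := by
  rw [PF_Rp_eq]
  exact Lagrange.eval_nodal_at_node (mem_range.mpr hj)

theorem dPp_eval (x : ℕ → ℝ) {l : ℕ} (hl : l < n) :
    (derivative (Pp n x)).eval (x l) = ∏ m ∈ (range n).erase l, (x l - x m) := by
  rw [PF_Pp_eq, Lagrange.eval_nodal_derivative_eval_node_eq (mem_range.mpr hl),
    Lagrange.eval_nodal]

theorem Crit.dP_ne (h : Mono n e) (hx : Crit n e x) {l : ℕ} (hl : l < n) :
    (derivative (Pp n x)).eval (x l) ≠ 0 := by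
  rw [dPp_eval x hl, prod_ne_zero_iff]
  intro m hm
  rcases mem_erase.mp hm with ⟨hml, hm'⟩
  intro h0
  exact hml (PF_injOn_x h hx (by simpa using hm') (by simpa using hl) (sub_eq_zero.mp h0).symm)

theorem PF_R_x_neg (h : Mono n e) (hx : Crit n e x) {l : ℕ} (hl : l < n) :
    (Rp n e).eval (x l) < 0 := by
  rw [PF_Rp_eq, Lagrange.eval_nodal, ← prod_range_mul_prod_Ico _ (show 2 * l + 1 ≤ 2 * n by omega)]
  have h1 : 0 < ∏ j ∈ range (2 * l + 1), (x l - e j) :=
    prod_pos fun j hj => sub_pos.mpr (PF_e_lt_x h hx hl (by have := mem_range.mp hj; omega))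
  have h2 : 0 < ∏ j ∈ Finset.Ico (2 * l + 1) (2 * n), (e j - x l) :=
    prod_pos fun j hj =>
      sub_pos.mpr (PF_x_lt_e h hx hl (Finset.mem_Ico.mp hj).1 (Finset.mem_Ico.mp hj).2)
  have h3 : ∏ j ∈ Finset.Ico (2 * l + 1) (2 * n), (x l - e j)
      = -∏ j ∈ Finset.Ico (2 * l + 1) (2 * n), (e j - x l) := by
    have h4 : ∀ j ∈ Finset.Ico (2 * l + 1) (2 * n), x l - e j = (-1) * (e j - x l) :=
      fun j _ => by ring
    rw [prod_congr rfl h4, prod_mul_distrib, prod_const, Nat.card_Ico]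
    have h5 : Odd (2 * n - (2 * l + 1)) := ⟨n - l - 1, by omega⟩
    rw [h5.neg_one_pow]
    ring
  rw [h3]
  nlinarith [mul_pos h1 h2]

theorem Crit.g2_pos (h : Mono n e) (hx : Crit n e x) {l : ℕ} (hl : l < n) : 0 < g2 n e x l := by
  unfold g2
  apply div_pos_of_neg_of_neg _ (PF_R_x_neg h hx hl)
  have := hx.dP_ne h hl
  have h2 : 0 < (derivative (Pp n x)).eval (x l) ^ 2 := by positivity
  linarith

theorem dRp_eval_e (e : ℕ → ℝ) {j : ℕ} (hj : j < 2 * n) :
    (derivative (Rp n e)).eval (e j) = ∏ i ∈ (range (2 * n)).erase j, (e j - e i) := by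
  rw [PF_Rp_eq, Lagrange.eval_nodal_derivative_eval_node_eq (mem_range.mpr hj),
    Lagrange.eval_nodal]

/-- Logarithmic derivative of a nodal polynomial. -/
theorem PF_dnodal (s : Finset ℕ) (v : ℕ → ℝ) {t : ℝ} (ht : ∀ j ∈ s, t ≠ v j) :
    (derivative (Lagrange.nodal s v)).eval t
      = (Lagrange.nodal s v).eval t * ∑ j ∈ s, 1 / (t - v j) := by
  rw [Lagrange.derivative_nodal, eval_finsetSum, mul_sum]
  refine sum_congr rfl fun j hj => ?_
  have h1 : t - v j ≠ 0 := sub_ne_zero.mpr (ht j hj)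
  rw [Lagrange.nodal_eq_mul_nodal_erase hj, eval_mul, eval_sub, eval_X, eval_C]
  field_simp

theorem dRp_eval {t : ℝ} (ht : ∀ j < 2 * n, t ≠ e j) :
    (derivative (Rp n e)).eval t = (Rp n e).eval t * ∑ j ∈ range (2 * n), 1 / (t - e j) := by
  rw [PF_Rp_eq]
  exact PF_dnodal _ _ fun j hj => ht j (mem_range.mp hj)

/-- Polynomial form of the partial fraction expansion. -/
theorem PF_poly (h : Mono n e) {f : ℝ[X]} (hf : f.degree < (2 * n : ℕ)) :
    f = ∑ j ∈ range (2 * n), C (f.eval (e j) / (derivative (Rp n e)).eval (e j))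
      * Lagrange.nodal ((range (2 * n)).erase j) e := by
  have h1 := Lagrange.eq_interpolate (s := range (2 * n)) (v := e) (f := f) (PF_injOn_e h)
    (by rw [card_range]; exact hf)
  rw [Lagrange.interpolate_eq_nodalWeight_mul_nodal_div_X_sub_C] at h1
  refine h1.trans (sum_congr rfl fun j hj => ?_)
  rw [← Lagrange.nodal_erase_eq_nodal_div hj, Lagrange.nodalWeight_eq_eval_derivative_nodal hj,
    PF_Rp_eq, div_eq_mul_inv, C_mul]
  ring

theorem pf_real (h : Mono n e) {f : ℝ[X]} (hf : f.degree < (2 * n : ℕ)) {t : ℝ}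
    (ht : ∀ j < 2 * n, t ≠ e j) :
    f.eval t / (Rp n e).eval t
      = ∑ j ∈ range (2 * n), f.eval (e j) / (derivative (Rp n e)).eval (e j) / (t - e j) := by
  have hR : (Rp n e).eval t ≠ 0 := by
    rw [PF_Rp_eq]
    exact Lagrange.eval_nodal_not_at_node fun j hj => ht j (mem_range.mp hj)
  have h1 := congrArg (Polynomial.eval t) (PF_poly h hf)
  rw [h1, eval_finsetSum, div_eq_iff hR, sum_mul]
  refine sum_congr rfl fun j hj => ?_
  have h2 : t - e j ≠ 0 := sub_ne_zero.mpr (ht j (mem_range.mp hj))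
  have h3 : (Rp n e).eval t = (t - e j) * (Lagrange.nodal ((range (2 * n)).erase j) e).eval t := by
    rw [PF_Rp_eq, Lagrange.nodal_eq_mul_nodal_erase hj, eval_mul, eval_sub, eval_X, eval_C]
  rw [eval_mul, eval_C, h3]
  field_simp

theorem PF_deg_RP (e x : ℕ → ℝ) : (Rp n e - Pp n x ^ 2).degree < (2 * n : ℕ) := by
  have hR := Rp_monic (n := n) (e := e)
  have hP := Pp_monic (n := n) (x := x)
  have hP2 : (Pp n x ^ 2).Monic := hP.1.pow 2
  have hd2 : (Pp n x ^ 2).natDegree = 2 * n := by rw [hP.1.natDegree_pow, hP.2]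
  have h1 : (Rp n e).degree = (2 * n : ℕ) := by
    rw [degree_eq_natDegree hR.1.ne_zero, hR.2]
  have h2 : (Pp n x ^ 2).degree = (2 * n : ℕ) := by
    rw [degree_eq_natDegree hP2.ne_zero, hd2]
  rw [← h1]
  exact degree_sub_lt_left (h1.trans h2.symm) hR.1.ne_zero (hR.1.trans hP2.symm)

theorem PF_rr_poly (h : Mono n e) (x : ℕ → ℝ) :
    Rp n e - Pp n x ^ 2
      = ∑ j ∈ range (2 * n), C (rr n e x j) * Lagrange.nodal ((range (2 * n)).erase j) e := by
  refine (PF_poly h (PF_deg_RP e x)).trans (sum_congr rfl fun j hj => ?_)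
  rw [eval_sub, eval_pow, PF_R_e e (mem_range.mp hj), zero_sub]
  rfl

theorem pf_rr_real (h : Mono n e) (x : ℕ → ℝ) {t : ℝ} (ht : ∀ j < 2 * n, t ≠ e j) :
    -(Pp n x).eval t ^ 2 / (Rp n e).eval t
      = -1 + ∑ j ∈ range (2 * n), rr n e x j / (t - e j) := by
  have hR : (Rp n e).eval t ≠ 0 := by
    rw [PF_Rp_eq]
    exact Lagrange.eval_nodal_not_at_node fun j hj => ht j (mem_range.mp hj)
  have h1 := pf_real h (PF_deg_RP e x) ht
  have h2 : ∑ j ∈ range (2 * n), (Rp n e - Pp n x ^ 2).eval (e j)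
      / (derivative (Rp n e)).eval (e j) / (t - e j)
      = ∑ j ∈ range (2 * n), rr n e x j / (t - e j) := by
    refine sum_congr rfl fun j hj => ?_
    rw [eval_sub, eval_pow, PF_R_e e (mem_range.mp hj), zero_sub]
    rfl
  rw [← h2, ← h1, eval_sub, eval_pow]
  field_simp
  ring

theorem PF_aeval_nodal (s : Finset ℕ) (v : ℕ → ℝ) (z : ℂ) :
    aeval z (Lagrange.nodal s v) = ∏ j ∈ s, (z - v j) := by
  rw [Lagrange.nodal_eq, map_prod]
  refine prod_congr rfl fun j _ => ?_
  simp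

theorem pf_rr (h : Mono n e) (x : ℕ → ℝ) {z : ℂ} (hz : ∀ j < 2 * n, z ≠ e j) :
    -(aeval z (Pp n x)) ^ 2 / aeval z (Rp n e)
      = -1 + ∑ j ∈ range (2 * n), (rr n e x j : ℂ) / (z - e j) := by
  have hR : aeval z (Rp n e) ≠ 0 := by
    rw [PF_Rp_eq, PF_aeval_nodal, prod_ne_zero_iff]
    exact fun j hj => sub_ne_zero.mpr (hz j (mem_range.mp hj))
  have h1 := congrArg (aeval z) (PF_rr_poly h x)
  rw [map_sub, map_pow, map_sum] at h1
  have h2 : ∑ j ∈ range (2 * n),
      aeval z (C (rr n e x j) * Lagrange.nodal ((range (2 * n)).erase j) e)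
      = aeval z (Rp n e) * ∑ j ∈ range (2 * n), (rr n e x j : ℂ) / (z - e j) := by
    rw [mul_sum]
    refine sum_congr rfl fun j hj => ?_
    have h3 : z - e j ≠ 0 := sub_ne_zero.mpr (hz j (mem_range.mp hj))
    have h4 : aeval z (Rp n e)
        = (z - e j) * aeval z (Lagrange.nodal ((range (2 * n)).erase j) e) := by
      rw [PF_Rp_eq, PF_aeval_nodal, PF_aeval_nodal, mul_prod_erase _ (fun j => z - e j) hj]
    rw [map_mul, aeval_C, h4]
    simp only [Complex.coe_algebraMap]
    field_simp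
  rw [h2] at h1
  rw [div_eq_iff hR]
  linear_combination h1

theorem exists_interp_e (h : Mono n e) (c : ℕ → ℝ) :
    ∃ N : ℝ[X], N.degree < (2 * n : ℕ) ∧ ∀ j < 2 * n, N.eval (e j) = c j := by
  refine ⟨Lagrange.interpolate (range (2 * n)) e c, ?_, fun j hj => ?_⟩
  · have := Lagrange.degree_interpolate_lt (s := range (2 * n)) (v := e) c (PF_injOn_e h)
    rwa [card_range] at this
  · exact Lagrange.eval_interpolate_at_node c (PF_injOn_e h) (mem_range.mpr hj)

theorem exists_interp (h : Mono n e) (x v : ℕ → ℝ) : ∃ N, Interp n e x v N := by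
  obtain ⟨N, h1, h2⟩ := exists_interp_e h (fun j => v j * (Pp n x).eval (e j) ^ 2)
  exact ⟨N, h1, h2⟩

/-- Every vector `T` is the `τ` of some velocity field. -/
theorem exists_tau (h : Mono n e) (hx : Crit n e x) (T : ℕ → ℝ) :
    ∃ v N, Interp n e x v N ∧ ∀ l < n, tau n e x N l = T l := by
  set N : ℝ[X] := Lagrange.interpolate (range n) x (fun l => -T l * (Rp n e).eval (x l)) with hN
  refine ⟨fun j => N.eval (e j) / (Pp n x).eval (e j) ^ 2, N, ⟨?_, fun j hj => ?_⟩,
    fun l hl => ?_⟩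
  · have := Lagrange.degree_interpolate_lt (s := range n) (v := x)
      (fun l => -T l * (Rp n e).eval (x l)) (PF_injOn_x h hx)
    rw [card_range] at this
    exact this.trans_le (by exact_mod_cast (by omega : n ≤ 2 * n))
  · have := hx.P_e_ne h hj
    field_simp
  · have h1 : N.eval (x l) = -T l * (Rp n e).eval (x l) :=
      Lagrange.eval_interpolate_at_node _ (PF_injOn_x h hx) (mem_range.mpr hl)
    have h2 := PF_R_x_ne h hx hl
    unfold tau
    rw [h1]
    field_simp

/-- The translation field `v = 1`, `N = P² - R`. -/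
theorem interp_one (h : Mono n e) (hx : Crit n e x) :
    Interp n e x (fun _ => 1) (Pp n x ^ 2 - Rp n e) ∧
      ∀ l < n, tau n e x (Pp n x ^ 2 - Rp n e) l = 1 ∧ sig n e x (Pp n x ^ 2 - Rp n e) l = 0 := by
  refine ⟨⟨?_, fun j hj => ?_⟩, fun l hl => ⟨?_, ?_⟩⟩
  · rw [← degree_neg, neg_sub]
    exact PF_deg_RP e x
  · rw [eval_sub, eval_pow, PF_R_e e hj]
    ring
  · have h2 := PF_R_x_ne h hx hl
    unfold tau
    rw [eval_sub, eval_pow, PF_P_x x hl]
    field_simp
    ring
  · unfold sig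
    have h1 : (derivative (Pp n x ^ 2 - Rp n e)).eval (x l)
        = -(derivative (Rp n e)).eval (x l) := by
      rw [derivative_sub, sq, derivative_mul, eval_sub, eval_add, eval_mul, eval_mul, PF_P_x x hl]
      ring
    rw [h1, eval_sub, eval_pow, PF_P_x x hl]
    have h3 : -(-(derivative (Rp n e)).eval (x l) * (Rp n e).eval (x l)
        - (0 ^ 2 - (Rp n e).eval (x l)) * (derivative (Rp n e)).eval (x l)) = 0 := by ring
    rw [h3, zero_div, zero_div]

theorem PF_sq_dvd {g : ℝ[X]} {a : ℝ} (h0 : g.eval a = 0) (h1 : (derivative g).eval a = 0) :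
    (X - C a) ^ 2 ∣ g := by
  obtain ⟨q, rfl⟩ := dvd_iff_isRoot.mpr h0
  have h2 : q.eval a = 0 := by
    simpa [derivative_mul] using h1
  obtain ⟨r, rfl⟩ := dvd_iff_isRoot.mpr h2
  exact ⟨r, by ring⟩

/-- Polynomial form of the partial fraction expansion with double poles. -/
theorem PF_double_poly {s : Finset ℕ} {y : ℕ → ℝ} (hy : Set.InjOn y s) {N : ℝ[X]}
    (hN : N.degree < (2 * s.card : ℕ)) (A B : ℕ → ℝ)
    (hA : ∀ l ∈ s, N.eval (y l) = A l * (Lagrange.nodal (s.erase l) y).eval (y l) ^ 2)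
    (hB : ∀ l ∈ s, (derivative N).eval (y l)
      = (B l + 2 * A l * ∑ m ∈ s.erase l, 1 / (y l - y m))
        * (Lagrange.nodal (s.erase l) y).eval (y l) ^ 2) :
    N = ∑ l ∈ s, (C (A l) + C (B l) * (X - C (y l))) * Lagrange.nodal (s.erase l) y ^ 2 := by
  set M : ℝ[X] := ∑ l ∈ s, (C (A l) + C (B l) * (X - C (y l))) * Lagrange.nodal (s.erase l) y ^ 2
    with hM
  have hdvd : ∀ l ∈ s, (X - C (y l)) ^ 2 ∣ N - M := by
    intro l hl
    rw [hM, ← add_sum_erase _ _ hl, ← sub_sub]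
    refine dvd_sub ?_ (dvd_sum fun m hm => ?_)
    · have hne : ∀ m ∈ s.erase l, y l ≠ y m := fun m hm h0 =>
        (mem_erase.mp hm).1 (hy (mem_erase.mp hm).2 hl h0.symm)
      have hd := PF_dnodal (s.erase l) y hne
      apply PF_sq_dvd
      · simp only [eval_sub, eval_mul, eval_add, eval_C, eval_X, eval_pow, sub_self, mul_zero,
          add_zero, hA l hl]
      · rw [sq]
        simp only [derivative_sub, derivative_mul, derivative_add, derivative_C, derivative_X,
          eval_sub, eval_mul, eval_add, eval_C, eval_X, eval_zero, eval_one, hd, hB l hl]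
        ring
    · refine Dvd.dvd.mul_left (pow_dvd_pow_of_dvd ?_ 2) _
      exact Lagrange.X_sub_C_dvd_nodal y (mem_erase.mpr ⟨(mem_erase.mp hm).1.symm, hl⟩)
  have hprod : ∏ l ∈ s, (X - C (y l)) ^ 2 ∣ N - M := by
    refine Finset.prod_dvd_of_coprime (fun l hl m hm hlm => ?_) hdvd
    have hne : y l - y m ≠ 0 := fun h0 => hlm (hy hl hm (sub_eq_zero.mp h0))
    exact (isCoprime_X_sub_C_of_isUnit_sub (IsUnit.mk0 _ hne)).pow
  have hdeg : (∏ l ∈ s, (X - C (y l)) ^ 2 : ℝ[X]).degree = (2 * s.card : ℕ) := by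
    rw [prod_pow, ← Lagrange.nodal_eq, degree_pow, Lagrange.degree_nodal]
    simp
  have hMdeg : M.degree < (2 * s.card : ℕ) := by
    rw [hM]
    refine (degree_sum_le _ _).trans_lt ?_
    rw [Finset.sup_lt_iff (WithBot.bot_lt_coe _)]
    intro l hl
    have h1 : (C (A l) + C (B l) * (X - C (y l)) : ℝ[X]).natDegree ≤ 1 := by compute_degree
    have h2 : (Lagrange.nodal (s.erase l) y ^ 2).natDegree = 2 * (s.card - 1) := by
      rw [natDegree_pow, Lagrange.natDegree_nodal, card_erase_of_mem hl]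
    have h3 : 0 < s.card := card_pos.mpr ⟨l, hl⟩
    refine degree_le_natDegree.trans_lt ?_
    have h4 := natDegree_mul_le (p := (C (A l) + C (B l) * (X - C (y l)) : ℝ[X]))
      (q := Lagrange.nodal (s.erase l) y ^ 2)
    exact_mod_cast (by omega : ((C (A l) + C (B l) * (X - C (y l)) : ℝ[X])
      * Lagrange.nodal (s.erase l) y ^ 2).natDegree < 2 * s.card)
  have h0 : N - M = 0 := by
    refine eq_zero_of_dvd_of_degree_lt hprod ?_
    rw [hdeg]
    exact (degree_sub_le _ _).trans_lt (max_lt hN hMdeg)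
  exact sub_eq_zero.mp h0

/-- Partial fractions of `N / P²`, evaluated at the points `e j`. -/
theorem pf_double (h : Mono n e) (hx : Crit n e x) {v : ℕ → ℝ} {N : ℝ[X]} (hN : Interp n e x v N)
    {j : ℕ} (hj : j < 2 * n) :
    v j = ∑ l ∈ range n, (tau n e x N l / g2 n e x l / (e j - x l) ^ 2
      + (sig n e x N l - kap n e x l * tau n e x N l / g2 n e x l) / (e j - x l)) := by
  have hQ : ∀ l ∈ range n, (Lagrange.nodal ((range n).erase l) x).eval (x l)
      = (derivative (Pp n x)).eval (x l) := fun l hl => by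
    rw [dPp_eval x (mem_range.mp hl), Lagrange.eval_nodal]
  have key := PF_double_poly (s := range n) (y := x) (PF_injOn_x h hx) (N := N)
    (by rw [card_range]; exact hN.deg) (fun l => tau n e x N l / g2 n e x l)
    (fun l => sig n e x N l - kap n e x l * tau n e x N l / g2 n e x l)
    (fun l hl => by
      have h1 := PF_R_x_ne h hx (mem_range.mp hl)
      have h2 := hx.dP_ne h (mem_range.mp hl)
      rw [hQ l hl]
      unfold tau g2
      field_simp)
    (fun l hl => by
      have h1 := PF_R_x_ne h hx (mem_range.mp hl)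
      have h2 := hx.dP_ne h (mem_range.mp hl)
      have h3 := dRp_eval (n := n) (e := e) (t := x l)
        (fun j hj => hx.ne_e h (mem_range.mp hl) hj)
      rw [hQ l hl]
      unfold sig kap tau g2
      rw [h3]
      generalize ∑ j ∈ range (2 * n), 1 / (x l - e j) = S1
      generalize ∑ m ∈ (range n).erase l, 1 / (x l - x m) = S2
      field_simp
      ring)
  have hP := hx.P_e_ne h hj
  have h1 := congrArg (Polynomial.eval (e j)) key
  rw [hN.val j hj, eval_finsetSum] at h1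
  have h2 : v j = v j * (Pp n x).eval (e j) ^ 2 / (Pp n x).eval (e j) ^ 2 := by field_simp
  rw [h2, h1, div_eq_iff (pow_ne_zero 2 hP), sum_mul]
  refine sum_congr rfl fun l hl => ?_
  have h3 : e j - x l ≠ 0 := sub_ne_zero.mpr (hx.ne_e h (mem_range.mp hl) hj).symm
  have h4 : (Pp n x).eval (e j)
      = (e j - x l) * (Lagrange.nodal ((range n).erase l) x).eval (e j) := by
    rw [PF_Pp_eq, Lagrange.nodal_eq_mul_nodal_erase hl, eval_mul, eval_sub, eval_X, eval_C]
  rw [h4]
  simp only [eval_mul, eval_add, eval_C, eval_sub, eval_X, eval_pow]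
  generalize tau n e x N l / g2 n e x l = A
  generalize sig n e x N l - kap n e x l * tau n e x N l / g2 n e x l = B
  field_simp

end MW.AN
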