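import Pool.Agent.P.MP_064970_gt.AN.ZPrim
import Pool.Agent.P.MP_064970_gt.AN.PF
import Pool.Agent.P.MP_064970_gt.AN.MP

/-! Row AN-FinEx: the Martin function of a finite configuration.
`u z = Re U (Re z + |Im z| i)`, `U` from `ZPRIM P`. `p = -i P / sqR → -i`,
`p + i = (p² + 1) / (p - i) = (i/2) (∑ r) / z + O(z⁻²)`; `ASY_log` for `U + i z` gives `∑ r = 0`,
`ASY` gives `U + i z → Λ`, `Re Λ = 0`. On gap `k`, `u' = (x k - t) · positive`. Near a gap point
`p` is analytic and real on the real axis, so a local primitive `V` satisfies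
`V (conj z) = conj (V z)` and `u = Re V`. -/

open Complex InnerProductSpace Filter Topology Metric MeasureTheory Finset Polynomial
open scoped Real ComplexConjugate

namespace MW.AN

/-- Folding of the plane onto the closed upper half-plane. -/
noncomputable def fxUp (z : ℂ) : ℂ := z.re + (|z.im| : ℝ) * I

theorem fxUp_re (z : ℂ) : (fxUp z).re = z.re := by simp [fxUp]

theorem fxUp_im (z : ℂ) : (fxUp z).im = |z.im| := by simp [fxUp]

theorem fxUp_of_nonneg {z : ℂ} (h : 0 ≤ z.im) : fxUp z = z :=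
  Complex.ext (fxUp_re z) (by rw [fxUp_im, abs_of_nonneg h])

theorem fxUp_conj (z : ℂ) : fxUp (conj z) = fxUp z := by simp [fxUp]

theorem fxUp_norm (z : ℂ) : ‖fxUp z‖ = ‖z‖ := by
  rcases le_total 0 z.im with h | h
  · rw [fxUp_of_nonneg h]
  · rw [← fxUp_conj, fxUp_of_nonneg (by simpa using h), Complex.norm_conj]

theorem fxUp_cont : Continuous fxUp := by
  unfold fxUp
  fun_prop

theorem fx_upper {U : ℂ → ℂ} {z : ℂ} (hz : 0 < z.im) :
    (fun w => (U (fxUp w)).re) =ᶠ[𝓝 z] fun w => (U w).re := by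
  filter_upwards [(isOpen_lt continuous_const Complex.continuous_im).mem_nhds hz] with w hw
  rw [fxUp_of_nonneg (le_of_lt hw)]

theorem fx_harm {U p : ℂ → ℂ} (hd : ∀ z : ℂ, 0 < z.im → HasDerivAt U (p z) z) {z : ℂ}
    (hz : z.im ≠ 0) : HarmonicAt (fun w => (U (fxUp w)).re) z := by
  have key : ∀ z : ℂ, 0 < z.im → HarmonicAt (fun w => (U (fxUp w)).re) z := fun z hz => by
    rw [harmonicAt_congr_nhds (fx_upper hz)]
    have ho : IsOpen {z : ℂ | 0 < z.im} := isOpen_lt continuous_const Complex.continuous_im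
    exact (DifferentiableOn.analyticAt (s := {z : ℂ | 0 < z.im})
      (fun w hw => (hd w hw).differentiableAt.differentiableWithinAt)
      (ho.mem_nhds hz)).harmonicAt_re
  rcases lt_or_gt_of_ne hz with h | h
  · have := harm_conj (key (conj z) (by simpa using h))
    simpa only [fxUp_conj] using this
  · exact key z h

/-- Reflection across a real segment on which the imaginary part is constant. -/
theorem fx_reflect {U p : ℂ → ℂ} (hc : ContinuousOn U {z : ℂ | 0 ≤ z.im})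
    (hd : ∀ z : ℂ, 0 < z.im → HasDerivAt U (p z) z) {t κ : ℝ} (hp : AnalyticAt ℂ p t)
    (hκ : ∀ᶠ s : ℝ in 𝓝 t, (U s).im = κ) : HarmonicAt (fun w => (U (fxUp w)).re) t := by
  obtain ⟨ρ₁, h₁, hp₁⟩ := Metric.eventually_nhds_iff_ball.1 hp.eventually_analyticAt
  obtain ⟨V, hV⟩ := DifferentiableOn.isExactOn_ball (f := p) (c := (t : ℂ)) (r := ρ₁)
    fun w hw => (hp₁ w hw).differentiableAt.differentiableWithinAt
  have ho : IsOpen {z : ℂ | 0 < z.im} := isOpen_lt continuous_const Complex.continuous_im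
  have dV : DifferentiableOn ℂ V (ball (t : ℂ) ρ₁) := fun w hw =>
    (hV w hw).differentiableAt.differentiableWithinAt
  obtain ⟨c, hc'⟩ := (isOpen_ball.inter ho).exists_eq_add_of_deriv_eq (f := U) (g := V)
    ((convex_ball (t : ℂ) ρ₁).inter (convex_halfSpace_im_gt 0)).isPreconnected
    (fun w hw => (hd w hw.2).differentiableAt.differentiableWithinAt)
    (dV.mono Set.inter_subset_left)
    (fun w hw => by rw [(hd w hw.2).deriv, (hV w hw.1).deriv])
  have hE : Set.EqOn U (fun w => V w + c) (ball (t : ℂ) ρ₁ ∩ {z : ℂ | 0 ≤ z.im}) := by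
    refine Set.EqOn.of_subset_closure hc' (hc.mono Set.inter_subset_right)
      ((dV.continuousOn.add continuousOn_const).mono Set.inter_subset_left)
      (fun w hw => ⟨hw.1, show 0 ≤ w.im from le_of_lt hw.2⟩) ?_
    rw [← Complex.closure_setOfPred_lt_im]
    exact isOpen_ball.inter_closure
  set W : ℂ → ℂ := fun w => V w + c - κ * I with hW
  have dW : DifferentiableOn ℂ W (ball (t : ℂ) ρ₁) := (dV.add_const c).sub_const _
  have hb : ball (t : ℂ) ρ₁ ∈ 𝓝 (t : ℂ) := ball_mem_nhds _ h₁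
  have cb : ∀ w ∈ ball (t : ℂ) ρ₁, conj w ∈ ball (t : ℂ) ρ₁ := fun w hw => by
    rw [mem_ball, ← Complex.conj_ofReal t, Complex.dist_conj_conj]; exact hw
  have aW : AnalyticAt ℂ W t := dW.analyticAt hb
  have aW' : AnalyticAt ℂ (conj ∘ W ∘ conj) t := by
    refine DifferentiableOn.analyticAt (fun w hw => ?_) hb
    exact (differentiableAt_conj_conj_iff.2
      (dW.differentiableAt (isOpen_ball.mem_nhds (cb w hw)))).differentiableWithinAt
  have hT : Tendsto (fun s : ℝ => (s : ℂ)) (𝓝[≠] t) (𝓝[≠] (t : ℂ)) :=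
    tendsto_nhdsWithin_of_tendsto_nhds_of_eventually_within _
      (Complex.continuous_ofReal.continuousAt.tendsto.mono_left nhdsWithin_le_nhds)
      (eventually_mem_nhdsWithin.mono fun s hs => by simpa using hs)
  have hWW : ∀ᶠ w in 𝓝 (t : ℂ), W w = (conj ∘ W ∘ conj) w := by
    refine (aW.frequently_eq_iff_eventually_eq aW').1 (hT.frequently (Eventually.frequently ?_))
    have := Complex.continuous_ofReal.continuousAt.tendsto.eventually hb
    filter_upwards [nhdsWithin_le_nhds hκ, nhdsWithin_le_nhds this] with s hs hs'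
    have e := hE (x := (s : ℂ)) ⟨hs', by simp⟩
    simp only [Function.comp, Complex.conj_ofReal]
    refine (Complex.conj_eq_iff_im.2 ?_).symm
    simp only at e
    simp [hW, ← e, hs]
  refine (harmonicAt_congr_nhds ?_).2 aW.harmonicAt_re
  filter_upwards [hWW, hb] with w hw hw'
  rcases le_total 0 w.im with h | h
  · rw [fxUp_of_nonneg h, hE ⟨hw', h⟩]
    simp [hW]
  · have h' : 0 ≤ (conj w).im := by simpa using h
    rw [← fxUp_conj, fxUp_of_nonneg h', hE ⟨cb w hw', h'⟩, hw]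
    simp [hW]

variable {n : ℕ} {e x : ℕ → ℝ}

theorem fx_sq (h : Mono n e) {z : ℂ} (hz : ∀ j < 2 * n, z ≠ e j) :
    (-I * aeval z (Pp n x) / sqR n e z) ^ 2 =
      -1 + ∑ j ∈ range (2 * n), (rr n e x j : ℂ) / (z - e j) := by
  rw [← pf_rr h x hz, div_pow, sqR_sq, mul_pow, neg_sq, I_sq, neg_one_mul]

/-- The expansion of `p` at infinity. -/
theorem fx_asymp (h : Mono n e) (x : ℕ → ℝ) : ∃ C R₀ : ℝ, 1 ≤ R₀ ∧ (∀ j < 2 * n, |e j| < R₀) ∧
    ∀ z : ℂ, 0 ≤ z.im → R₀ ≤ ‖z‖ → ‖-I * aeval z (Pp n x) / sqR n e z + I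
      - I / 2 * (∑ j ∈ range (2 * n), rr n e x j : ℝ) / z‖ ≤ C / ‖z‖ ^ 2 := by
  obtain ⟨C₁, h₁⟩ := poly_asymp (Pp n x) (Pp_monic (n := n) (x := x)).2.le
  obtain ⟨C₂, R₁, hR₁, h₂⟩ := sqR_asymp (n := n) (e := e)
  have hc : (Pp n x).coeff n = 1 := by
    have := (Pp_monic (n := n) (x := x)).1.coeff_natDegree
    rwa [Pp_monic.2] at this
  rw [hc] at h₁
  set B := ∑ j ∈ range (2 * n), |e j| with hB
  have hB₀ : 0 ≤ B := sum_nonneg fun _ _ => abs_nonneg _
  have hBj : ∀ j < 2 * n, |e j| ≤ B := fun j hj =>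
    single_le_sum (f := fun j => |e j|) (fun _ _ => abs_nonneg _) (mem_range.2 hj)
  refine ⟨(∑ j ∈ range (2 * n), 2 * |rr n e x j * e j| + (|C₁| * (1 + |C₂|) + |C₂|) ^ 2) / 2,
    R₁ + 2 * B, by linarith, fun j hj => by linarith [hBj j hj], fun z hz hR => ?_⟩
  have z1 : 1 ≤ ‖z‖ := by linarith
  have z0 : 0 < ‖z‖ := by linarith
  have zne : z ≠ 0 := norm_pos_iff.1 z0
  obtain ⟨hne, a₂⟩ := h₂ z hz (by linarith)
  have a₁ := h₁ z z1
  set p := -I * aeval z (Pp n x) / sqR n e z with hp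
  have b₁ : ‖aeval z (Pp n x) / z ^ n - 1‖ ≤ |C₁| / ‖z‖ :=
    (by simpa using a₁ : _ ≤ C₁ / ‖z‖).trans (div_le_div_of_nonneg_right (le_abs_self _) z0.le)
  have b₂ : ‖z ^ n / sqR n e z - 1‖ ≤ |C₂| / ‖z‖ :=
    a₂.trans (div_le_div_of_nonneg_right (le_abs_self _) z0.le)
  have b₃ : ‖p + I‖ ≤ (|C₁| * (1 + |C₂|) + |C₂|) / ‖z‖ := by
    have e₁ : p + I = -I * ((aeval z (Pp n x) / z ^ n - 1) * (1 + (z ^ n / sqR n e z - 1))
        + (z ^ n / sqR n e z - 1)) := by
      have := pow_ne_zero n zne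
      rw [hp]; field_simp; ring
    have e₂ : ‖1 + (z ^ n / sqR n e z - 1)‖ ≤ 1 + |C₂| := by
      refine (norm_add_le _ _).trans ?_
      rw [norm_one]
      exact add_le_add le_rfl (b₂.trans (div_le_self (abs_nonneg _) z1))
    rw [e₁, norm_mul, norm_neg, norm_I, one_mul, add_div, mul_div_right_comm]
    refine (norm_add_le _ _).trans (add_le_add ?_ b₂)
    rw [norm_mul]
    exact mul_le_mul b₁ e₂ (norm_nonneg _) (by positivity)
  have b₄ : ‖∑ j ∈ range (2 * n), (rr n e x j : ℂ) / (z - e j)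
      - (∑ j ∈ range (2 * n), rr n e x j : ℝ) / z‖
      ≤ (∑ j ∈ range (2 * n), 2 * |rr n e x j * e j|) / ‖z‖ ^ 2 := by
    rw [ofReal_sum, sum_div, sum_div, ← sum_sub_distrib]
    refine (norm_sum_le _ _).trans (sum_le_sum fun j hj => ?_)
    have hj' := mem_range.1 hj
    have n₁ : ‖z‖ / 2 ≤ ‖z - e j‖ := by
      have := norm_sub_norm_le z (e j)
      rw [Complex.norm_real, Real.norm_eq_abs] at this
      linarith [hBj j hj']
    have n₂ : z - e j ≠ 0 := sub_ne_zero.2 (hne j hj')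
    have e₁ : (rr n e x j : ℂ) / (z - e j) - (rr n e x j : ℂ) / z =
        ((rr n e x j * e j : ℝ) : ℂ) / (z * (z - e j)) := by
      push_cast; field_simp; ring
    rw [e₁, norm_div, norm_mul, Complex.norm_real, Real.norm_eq_abs,
      div_le_div_iff₀ (mul_pos z0 (norm_pos_iff.2 n₂)) (by positivity)]
    have := abs_nonneg (rr n e x j * e j)
    nlinarith [mul_le_mul_of_nonneg_left n₁ (mul_nonneg this z0.le)]
  have e₃ : p + I - I / 2 * (∑ j ∈ range (2 * n), rr n e x j : ℝ) / z =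
      I / 2 * ((∑ j ∈ range (2 * n), (rr n e x j : ℂ) / (z - e j)
        - (∑ j ∈ range (2 * n), rr n e x j : ℝ) / z) - (p + I) ^ 2) := by
    have := fx_sq (x := x) h hne
    rw [← hp] at this
    linear_combination (I / 2) * this + (p + I / 2) * I_sq
  rw [e₃, norm_mul, norm_div, norm_I, Complex.norm_two]
  have b₅ := (norm_sub_le _ ((p + I) ^ 2)).trans (add_le_add b₄
    ((norm_pow _ 2).le.trans (pow_le_pow_left₀ (norm_nonneg _) b₃ 2)))
  rw [div_pow, ← add_div] at b₅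
  rw [div_right_comm]
  linarith

/-- The sign of `P` on gap `k`. -/
theorem fx_sign (h : Mono n e) (hx : Crit n e x) {k : ℕ} (hk : k < n) {t : ℝ}
    (ht : t ∈ Set.Icc (e (2 * k)) (e (2 * k + 1))) :
    ∃ q : ℝ, 0 < q ∧ (-1) ^ (n - k) * (Pp n x).eval t = (x k - t) * q := by
  have e₁ : ((-1 : ℝ)) ^ (n - k) = ∏ m ∈ range n, if m < k then 1 else -1 := by
    rw [← prod_range_mul_prod_Ico _ hk.le, prod_eq_one fun m hm => if_pos (mem_range.1 hm),
      prod_congr rfl fun m hm => if_neg (not_lt.2 (mem_Ico.1 hm).1), prod_const, Nat.card_Ico,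
      one_mul]
  refine ⟨∏ m ∈ (range n).erase k, (if m < k then 1 else -1) * (t - x m),
    prod_pos fun m hm => ?_, ?_⟩
  · obtain ⟨hne, hm⟩ := mem_erase.1 hm
    have hm := mem_range.1 hm
    have := hx.mem m hm
    split_ifs with p
    · have := h (show 2 * m + 1 < 2 * k by omega) (by omega)
      linarith [ht.1, (hx.mem m hm).2]
    · have := h (show 2 * k + 1 < 2 * m by omega) (by omega)
      linarith [ht.2, (hx.mem m hm).1]
  · rw [e₁, Pp_eval, ← prod_mul_distrib, ← mul_prod_erase _ _ (mem_range.2 hk), if_neg (lt_irrefl k)]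
    ring

/-- The behaviour of `Re U` on gap `k`. -/
theorem fx_gap (h : Mono n e) (hx : Crit n e x) {k : ℕ} (hk : k < n) {U : ℂ → ℂ}
    (hc : ContinuousOn U {z : ℂ | 0 ≤ z.im})
    (hr : ∀ t : ℝ, (∀ j < 2 * n, t ≠ e j) →
      HasDerivAt (fun s : ℝ => U s) (-I * aeval (t : ℂ) (Pp n x) / sqR n e t) t)
    (hb : (U (e (2 * k))).re = 0) (ha : (U (e (2 * k + 1))).re = 0) :
    (∀ t ∈ Set.Ioo (e (2 * k)) (e (2 * k + 1)), 0 < (U t).re) ∧
      2 * (U (x k)).re = L n e k (fun t => |(Pp n x).eval t|) := by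
  have hH : Continuous fun t : ℝ => (U t).re :=
    Complex.continuous_re.comp (hc.comp_continuous Complex.continuous_ofReal fun t => by simp)
  have hd : ∀ t ∈ Set.Ioo (e (2 * k)) (e (2 * k + 1)), HasDerivAt (fun t : ℝ => (U t).re)
      ((-1) ^ (n - k) * ((Pp n x).eval t * Wt n e k t)
        / √((t - e (2 * k)) * (e (2 * k + 1) - t))) t := fun t ht => by
    have := Complex.reCLM.hasFDerivAt.comp_hasDerivAt t
      (hr t fun j hj => h.ne_of_mem_Ioo hk hj ht)
    rw [diff_gap h _ hk ht] at this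
    exact this
  have hw := h.fam.pos k (mem_range.2 hk)
  have hxk := hx.mem k hk
  have sg : ∀ t ∈ Set.Icc (e (2 * k)) (e (2 * k + 1)), ∃ q : ℝ, 0 < q ∧
      (-1) ^ (n - k) * ((Pp n x).eval t * Wt n e k t) = (x k - t) * q := fun t ht => by
    obtain ⟨q, hq, e₁⟩ := fx_sign h hx hk ht
    exact ⟨q * Wt n e k t, mul_pos hq (hw t ht), by rw [← mul_assoc, e₁, mul_assoc]⟩
  have sq : ∀ t ∈ Set.Ioo (e (2 * k)) (e (2 * k + 1)),
      0 < √((t - e (2 * k)) * (e (2 * k + 1) - t)) := fun t ht =>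
    Real.sqrt_pos.2 (mul_pos (sub_pos.2 ht.1) (sub_pos.2 ht.2))
  have m₁ : StrictMonoOn (fun t : ℝ => (U t).re) (Set.Icc (e (2 * k)) (x k)) := by
    refine strictMonoOn_of_deriv_pos (convex_Icc _ _) hH.continuousOn fun t ht => ?_
    rw [interior_Icc] at ht
    have ht' : t ∈ Set.Ioo (e (2 * k)) (e (2 * k + 1)) := ⟨ht.1, ht.2.trans hxk.2⟩
    obtain ⟨q, hq, e₁⟩ := sg t (Set.Ioo_subset_Icc_self ht')
    rw [(hd t ht').deriv, e₁]
    exact div_pos (mul_pos (sub_pos.2 ht.2) hq) (sq t ht')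
  have m₂ : StrictAntiOn (fun t : ℝ => (U t).re) (Set.Icc (x k) (e (2 * k + 1))) := by
    refine strictAntiOn_of_deriv_neg (convex_Icc _ _) hH.continuousOn fun t ht => ?_
    rw [interior_Icc] at ht
    have ht' : t ∈ Set.Ioo (e (2 * k)) (e (2 * k + 1)) := ⟨hxk.1.trans ht.1, ht.2⟩
    obtain ⟨q, hq, e₁⟩ := sg t (Set.Ioo_subset_Icc_self ht')
    rw [(hd t ht').deriv, e₁]
    exact div_neg_of_neg_of_pos (mul_neg_of_neg_of_pos (sub_neg.2 ht.1) hq) (sq t ht')
  refine ⟨fun t ht => ?_, ?_⟩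
  · rcases le_total t (x k) with p | p
    · exact hb ▸ m₁ ⟨le_rfl, hxk.1.le⟩ ⟨ht.1.le, p⟩ ht.1
    · exact ha ▸ m₂ ⟨p, ht.2.le⟩ ⟨hxk.2.le, le_rfl⟩ ht.2
  · have := II_ftc_abs hxk hH.continuousOn
      (f := fun t => (-1) ^ (n - k) * ((Pp n x).eval t * Wt n e k t))
      (continuousOn_const.mul ((Pp n x).continuous.continuousOn.mul
        (h.fam.cont k (mem_range.2 hk)))) hd
      (fun t ht => by
        obtain ⟨q, hq, e₁⟩ := sg t ⟨ht.1, ht.2.trans hxk.2.le⟩
        rw [e₁]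
        exact mul_nonneg (sub_nonneg.2 ht.2) hq.le)
      (fun t ht => by
        obtain ⟨q, hq, e₁⟩ := sg t ⟨hxk.1.le.trans ht.1, ht.2⟩
        rw [e₁]
        exact mul_nonpos_of_nonpos_of_nonneg (sub_nonpos.2 ht.1) hq.le)
    simp only [ha, hb, sub_zero] at this
    rw [this]
    refine II_congr (h.gap_lt hk) fun t ht => ?_
    rw [abs_mul, abs_mul, abs_pow, abs_neg, abs_one, one_pow, one_mul,
      abs_of_pos (hw t (Set.Ioo_subset_Icc_self ht))]

theorem fx_end (h : Mono n e) {j : ℕ} (hj : j < 2 * n) :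
    ∀ k < n, e j ∉ Set.Ioo (e (2 * k)) (e (2 * k + 1)) := fun _ hk ht =>
  h.ne_of_mem_Ioo hk hj ht rfl

theorem FINEX {n : ℕ} {e x : ℕ → ℝ} (h : Mono n e) (hx : Crit n e x) :
    ∑ j ∈ range (2 * n), rr n e x j = 0 ∧ ∃ (u : ℂ → ℝ) (C : ℝ), Mart C u ∧
      (∀ t : ℝ, 0 < u t ↔ ∃ k < n, t ∈ Set.Ioo (e (2 * k)) (e (2 * k + 1))) ∧
      (∀ z : ℂ, 0 < z.im →
        D u z ^ 2 = -1 + ∑ j ∈ range (2 * n), (rr n e x j : ℂ) / (z - e j)) ∧
      (∀ t : ℝ, Tendsto (fun y : ℝ => u (t + y * I) - y) atTop (𝓝 0)) ∧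
      ∀ k < n, 2 * u (x k) = L n e k (fun t => |(Pp n x).eval t|) := by
  obtain ⟨U, hc, hd, hr, hre, him⟩ := ZPRIM h hx.per
  obtain ⟨C, R₀, hR, hRe, hC⟩ := fx_asymp h x
  have hR₀ : 0 < R₀ := by linarith
  have hc' : ContinuousOn (fun z => U z + I * z) {z : ℂ | 0 ≤ z.im ∧ R₀ ≤ ‖z‖} :=
    (hc.mono fun z hz => hz.1).add (continuous_const.mul continuous_id).continuousOn
  have hd' : ∀ z : ℂ, 0 < z.im → R₀ ≤ ‖z‖ → HasDerivAt (fun z => U z + I * z)
      (-I * aeval z (Pp n x) / sqR n e z + I) z := fun z hz _ => by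
    have := (hd z hz).add ((hasDerivAt_id z).const_mul I)
    rwa [mul_one] at this
  have far : ∀ t : ℝ, R₀ ≤ |t| → (U t + I * t).re = 0 := fun t ht => by
    rw [add_re, hre t fun k hk p => ?_]
    · simp
    · have a := abs_lt.1 (hRe (2 * k) (by omega))
      have b := abs_lt.1 (hRe (2 * k + 1) (by omega))
      exact absurd (abs_lt.2 ⟨by linarith [p.1], by linarith [p.2]⟩) (not_lt.2 ht)
  have hs : ∑ j ∈ range (2 * n), rr n e x j = 0 := by
    have t₁ := (Complex.continuous_re.tendsto _).comp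
      (ASY_log _ hR₀ hc' hd' fun z hz => hC z hz.le)
    have t₂ : Tendsto (Complex.re ∘ fun R : ℝ =>
        (U ((-R : ℝ) : ℂ) + I * ((-R : ℝ) : ℂ)) - (U (R : ℂ) + I * (R : ℂ))) atTop (𝓝 0) := by
      refine tendsto_const_nhds.congr' ?_
      filter_upwards [eventually_ge_atTop R₀] with R hR'
      rw [Function.comp, sub_re, far R (hR'.trans (le_abs_self _)),
        far (-R) (hR'.trans (by rw [abs_neg]; exact le_abs_self _)), sub_zero]
    have t₃ := tendsto_nhds_unique t₁ t₂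
    generalize ∑ j ∈ range (2 * n), rr n e x j = s at t₃
    simpa [Real.pi_ne_zero] using t₃
  obtain ⟨Λ, C', hΛ⟩ := ASY (C := C) 0 hR₀ hc' hd' fun z hz hz' => by
    simpa [hs] using hC z hz.le hz'
  have lim : Tendsto (fun y : ℝ => C' / y) atTop (𝓝 0) := tendsto_const_nhds.div_atTop tendsto_id
  have hΛ₀ : Λ.re = 0 := by
    refine abs_nonpos_iff.1 (ge_of_tendsto lim ?_)
    filter_upwards [eventually_ge_atTop R₀] with R hR'
    have a : ‖(R : ℂ)‖ = R := by rw [Complex.norm_real, Real.norm_of_nonneg (by linarith)]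
    have b := (abs_re_le_norm _).trans (hΛ R (by simp) (by rwa [a]))
    rwa [sub_re, far R (hR'.trans (le_abs_self _)), zero_sub, abs_neg, a, zero_add, pow_one] at b
  have hu : Continuous fun z => (U (fxUp z)).re := Complex.continuous_re.comp
    (hc.comp_continuous fxUp_cont fun z => by simp [fxUp_im])
  have out : ∀ z : ℂ, R₀ ≤ ‖z‖ → |(U (fxUp z)).re - (|z.im|)| ≤ C' / ‖z‖ := fun z hz => by
    have b := (abs_re_le_norm _).trans (hΛ (fxUp z) (by simp [fxUp_im]) (by rwa [fxUp_norm]))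
    simpa [hΛ₀, fxUp_im, fxUp_norm, sub_eq_add_neg] using b
  obtain ⟨C₀, hC₀⟩ : ∃ C₀, ∀ z : ℂ, |(U (fxUp z)).re - (|z.im|)| ≤ C₀ := by
    obtain ⟨K, hK⟩ := (isCompact_closedBall (0 : ℂ) R₀).exists_bound_of_continuousOn
      (hu.sub Complex.continuous_im.abs).continuousOn
    refine ⟨max K |C'|, fun z => ?_⟩
    rcases le_total ‖z‖ R₀ with p | p
    · exact (hK z (by simpa using p)).trans (le_max_left _ _)
    · exact (out z p).trans (((div_le_div_of_nonneg_right (le_abs_self _) (norm_nonneg _)).trans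
        (div_le_self (abs_nonneg _) (hR.trans p))).trans (le_max_right _ _))
  have real : ∀ t : ℝ, fxUp t = t := fun t => fxUp_of_nonneg (by simp)
  have gap := fun k (hk : k < n) => fx_gap h hx hk hc hr (hre _ (fx_end h (by omega)))
    (hre _ (fx_end h (by omega)))
  have pos : ∀ t : ℝ, 0 < (U (fxUp t)).re ↔
      ∃ k < n, t ∈ Set.Ioo (e (2 * k)) (e (2 * k + 1)) := fun t => by
    rw [real]
    refine ⟨fun p => by_contra fun q => p.ne' (hre t fun k hk r => q ⟨k, hk, r⟩), ?_⟩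
    rintro ⟨k, hk, ht⟩
    exact (gap k hk).1 t ht
  have lo := abs_im_le (C := C₀) hu (fun z hz => fx_harm hd hz)
    (fun t => by
      by_cases q : ∃ k < n, t ∈ Set.Ioo (e (2 * k)) (e (2 * k + 1))
      · exact ((pos t).2 q).le
      · rw [real, hre t fun k hk r => q ⟨k, hk, r⟩])
    (fun z => by linarith [(abs_le.1 (hC₀ z)).1])
  refine ⟨hs, fun z => (U (fxUp z)).re, C₀, ⟨⟨hu, fun z => by rw [fxUp_conj],
    fun z => (abs_nonneg _).trans (lo z), fun z hz => ?_,
    fun z hz => (hz.trans_le (le_abs_self _)).trans_le (lo z)⟩, lo,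
    fun z => by linarith [(abs_le.1 (hC₀ z)).2]⟩, pos, fun z hz => ?_, fun t => ?_,
    fun k hk => by simpa only [real] using (gap k hk).2⟩
  · by_cases q : z.im = 0
    · obtain ⟨t, rfl⟩ : ∃ t : ℝ, z = t := ⟨z.re, Complex.ext rfl q⟩
      obtain ⟨k, hk, ht⟩ := (pos t).1 hz
      obtain ⟨κ, hκ⟩ := him k hk
      have hne : ∀ j < 2 * n, (t : ℂ) ≠ e j := fun j hj r =>
        h.ne_of_mem_Ioo hk hj ht (Complex.ofReal_injective r)
      refine fx_reflect hc hd (κ := κ) ((analyticAt_const.mul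
        (analyticAt_id.aeval_polynomial _)).div (sqR_analyticAt q.ge hne) (sqR_ne_zero hne)) ?_
      filter_upwards [Ioo_mem_nhds ht.1 ht.2] with s hs using hκ s (Set.Ioo_subset_Icc_self hs)
    · exact fx_harm hd q
  · rw [D_of_re (hd z hz) (fx_upper hz)]
    exact fx_sq h fun j _ r => hz.ne' (by rw [r, ofReal_im])
  · refine squeeze_zero_norm' ?_ (tendsto_const_nhds (x := |C'|).div_atTop tendsto_id)
    filter_upwards [eventually_ge_atTop R₀] with y hy
    have y0 : 0 < y := by linarith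
    have a : ((t : ℂ) + y * I).im = y := by simp
    have b : y ≤ ‖(t : ℂ) + y * I‖ := by
      have := abs_im_le_norm ((t : ℂ) + y * I)
      rwa [a, abs_of_pos y0] at this
    have c := out _ (hy.trans b)
    rw [a, abs_of_pos y0] at c
    exact c.trans ((div_le_div_of_nonneg_right (le_abs_self _) (norm_nonneg _)).trans
      (div_le_div_of_nonneg_left (abs_nonneg _) y0 b))

end MW.AN
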