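import Pool.Agent.P.MP_064970_gt.AN.DiffA
import Pool.Agent.P.MP_064970_gt.AN.FinEx

/-! Row AN-Diff: differentiate `rr`, `∑ rr = 0` and `pf_rr_real` along the path. -/

open Filter Topology MeasureTheory Finset Polynomial
open scoped Real

namespace MW.AN

theorem Diff_lin (a b t₀ : ℝ) : HasDerivAt (fun t : ℝ => a + t * b) b t₀ := by
  simpa using ((hasDerivAt_id' t₀).mul_const b).const_add a

theorem Diff_prod (s : Finset ℕ) (e v : ℕ → ℝ) {a t₀ : ℝ} (ha : ∀ j ∈ s, a ≠ e j + t₀ * v j) :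
    HasDerivAt (fun t : ℝ => ∏ j ∈ s, (a - (e j + t * v j)))
      (-((∏ j ∈ s, (a - (e j + t₀ * v j))) * ∑ j ∈ s, v j / (a - (e j + t₀ * v j)))) t₀ := by
  induction s using Finset.induction_on with
  | empty => simpa using hasDerivAt_const t₀ (1 : ℝ)
  | insert i s hi ih =>
    have h1 : a - (e i + t₀ * v i) ≠ 0 := sub_ne_zero.2 (ha i (mem_insert_self _ _))
    simp only [prod_insert hi, sum_insert hi]
    refine (((Diff_lin (e i) (v i) t₀).const_sub a).fun_mul
      (ih fun j hj => ha j (mem_insert_of_mem hj))).congr_deriv ?_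
    generalize ∏ j ∈ s, (a - (e j + t₀ * v j)) = A
    generalize ∑ j ∈ s, v j / (a - (e j + t₀ * v j)) = B
    generalize a - (e i + t₀ * v i) = c at h1
    field_simp
    ring

theorem Diff_eval {n : ℕ} {P : ℝ → ℝ[X]} {Pd : ℝ[X]} {t₀ : ℝ} (hP : ∀ t, (P t).natDegree = n)
    (hd : Pd.degree < n) (hc : ∀ i, HasDerivAt (fun t => (P t).coeff i) (Pd.coeff i) t₀)
    (a : ℝ) : HasDerivAt (fun t => (P t).eval a) (Pd.eval a) t₀ := by
  have h1 : Pd.natDegree < n + 1 := Nat.lt_succ_of_le (natDegree_le_of_degree_le hd.le)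
  have h2 : (fun t => (P t).eval a) = fun t => ∑ i ∈ range (n + 1), (P t).coeff i * a ^ i :=
    funext fun t => eval_eq_sum_range' (by rw [hP]; exact Nat.lt_succ_self n) a
  rw [h2, eval_eq_sum_range' h1]
  exact HasDerivAt.fun_sum fun i _ => (hc i).mul_const _

theorem Diff_eval' {n : ℕ} {P : ℝ → ℝ[X]} {Pd : ℝ[X]} {t₀ : ℝ} (hP : ∀ t, (P t).natDegree = n)
    (hc : ∀ i, HasDerivAt (fun t => (P t).coeff i) (Pd.coeff i) t₀)
    {y : ℝ → ℝ} (hy : DifferentiableAt ℝ y t₀) :
    DifferentiableAt ℝ (fun t => (P t).eval (y t)) t₀ := by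
  have h2 : (fun t => (P t).eval (y t))
      = fun t => ∑ i ∈ range (n + 1), (P t).coeff i * y t ^ i :=
    funext fun t => eval_eq_sum_range' (by rw [hP]; exact Nat.lt_succ_self n) _
  rw [h2]
  exact DifferentiableAt.fun_sum fun i _ => (hc i).differentiableAt.fun_mul (hy.fun_pow i)

theorem DIFF {n : ℕ} {e v : ℕ → ℝ} {t₀ : ℝ} (h : Mono n (fun j => e j + t₀ * v j)) :
    ∃ (Pd : ℝ[X]) (rd : ℕ → ℝ),
      Adm n (fun j => e j + t₀ * v j) (crit n (fun j => e j + t₀ * v j)) v Pd rd ∧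
      ∀ j < 2 * n, HasDerivAt
        (fun t : ℝ => rr n (fun j => e j + t * v j) (crit n (fun j => e j + t * v j)) j)
        (rd j) t₀ := by
  obtain ⟨Pd, hdeg, hc, hper⟩ := DIFFA h
  have hnd : ∀ t : ℝ, (Pp n (crit n (fun j => e j + t * v j))).natDegree = n :=
    fun t => Pp_monic.2
  have hrr : ∀ j < 2 * n, DifferentiableAt ℝ
      (fun t : ℝ => rr n (fun j => e j + t * v j) (crit n (fun j => e j + t * v j)) j) t₀ := by
    intro j hj
    have h1 : (fun t : ℝ => rr n (fun j => e j + t * v j) (crit n (fun j => e j + t * v j)) j)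
        = fun t : ℝ => -((Pp n (crit n (fun j => e j + t * v j))).eval (e j + t * v j)) ^ 2
          / ∏ i ∈ (range (2 * n)).erase j, (e j + t * v j - (e i + t * v i)) := by
      funext t
      rw [rr, ← dRp_eval_e (fun j => e j + t * v j) hj]
    rw [h1]
    refine DifferentiableAt.fun_div
      ((Diff_eval' hnd hc (Diff_lin (e j) (v j) t₀).differentiableAt).fun_pow 2).fun_neg
      (DifferentiableAt.fun_finsetProd fun i _ => by fun_prop) ?_
    refine prod_ne_zero_iff.2 fun i hi => sub_ne_zero.2 ?_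
    obtain ⟨hij, hi⟩ := mem_erase.1 hi
    rcases lt_or_gt_of_ne hij with h2 | h2
    · exact (h h2 hj).ne'
    · exact (h h2 (mem_range.1 hi)).ne
  refine ⟨Pd, fun j => deriv
    (fun t : ℝ => rr n (fun j => e j + t * v j) (crit n (fun j => e j + t * v j)) j) t₀,
    ⟨hdeg, hper, ?_, fun s hs => ?_⟩, fun j hj => (hrr j hj).hasDerivAt⟩
  · have h1 := HasDerivAt.fun_sum (u := range (2 * n))
      fun j hj => (hrr j (mem_range.1 hj)).hasDerivAt
    refine h1.unique ((hasDerivAt_const t₀ (0 : ℝ)).congr_of_eventuallyEq ?_)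
    filter_upwards [h.eventually] with t ht
    exact (FINEX ht (crit_spec ht)).1
  · have hs' : ∀ j ∈ range (2 * n), s ≠ e j + t₀ * v j := fun j hj => hs j (mem_range.1 hj)
    have hev : ∀ᶠ t in 𝓝 t₀, ∀ j ∈ range (2 * n), s ≠ e j + t * v j :=
      (Finset.eventually_all _).2 fun j hj =>
        ((Diff_lin (e j) (v j) t₀).continuousAt.eventually_ne (hs' j hj).symm).mono
          fun _ ht => ht.symm
    have hR : ∏ j ∈ range (2 * n), (s - (e j + t₀ * v j)) ≠ 0 :=
      prod_ne_zero_iff.2 fun j hj => sub_ne_zero.2 (hs' j hj)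
    have h1 := ((Diff_eval hnd hdeg hc s).fun_pow 2).fun_neg.fun_div (Diff_prod _ e v hs') hR
    have h2 := (HasDerivAt.fun_sum (u := range (2 * n)) fun j hj =>
      (hrr j (mem_range.1 hj)).hasDerivAt.fun_div ((Diff_lin (e j) (v j) t₀).const_sub s)
        (sub_ne_zero.2 (hs' j hj))).const_add (-1)
    have h3 := h2.unique (h1.congr_of_eventuallyEq (by
      filter_upwards [h.eventually, hev] with t ht ht'
      rw [← pf_rr_real ht _ fun j hj => ht' j (mem_range.2 hj), Rp_eval]))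
    rw [← sum_add_distrib, Rp_eval]
    refine Eq.trans (sum_congr rfl fun j hj => ?_) (h3.trans ?_)
    · have := sub_ne_zero.2 (hs' j hj)
      field_simp
      ring
    · simp only [Nat.cast_ofNat, Nat.add_one_sub_one, pow_one]
      field_simp

/-- Admissible data exist for every velocity (`DIFF` at `t₀ = 0`, `Crit.unique`). -/
theorem exists_adm {n : ℕ} {e x : ℕ → ℝ} (h : Mono n e) (hx : Crit n e x) (v : ℕ → ℝ) :
    ∃ Pd rd, Adm n e x v Pd rd := by
  have h0 : (fun j => e j + (0 : ℝ) * v j) = e := funext fun j => by simp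
  obtain ⟨Pd, rd, hA, -⟩ := DIFF (e := e) (v := v) (t₀ := 0) (by rw [h0]; exact h)
  rw [h0] at hA
  have hP : Pp n x = Pp n (crit n e) := hx.unique h (crit_spec h)
  refine ⟨Pd, rd, hA.deg, fun k hk => ?_, hA.sum, fun t ht => ?_⟩
  · rw [hP]
    exact hA.per k hk
  · have := hA.pf t ht
    simp only [rr] at this ⊢
    rw [hP]
    exact this

end MW.AN
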