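import Pool.Agent.P.MP_064970_gt.AN.Alg
import Pool.Agent.P.MP_064970_gt.AN.Diff

/-! Row AN-Bil: the Hessian. With `A t = ∑ rd j / (t - e j)`, `pf_double` gives
`∑ v¹ rd = -∑_l (α_l A' (x l) + β_l A (x l))`, `α = τ¹ / g²`, `β = σ¹ - κ τ¹ / g²`. For fixed `l`
shift `v² → v² - τ²_l` (`Adm.shift`, `N → N - τ²_l (P² - R)`, so `N (x l) = 0`); then
`A = -2 P Om / R + (N' P - 2 N P') / (P R)` off the poles (`Adm.pf`, `pf_real` for `N`,
differentiated), which gives `A (x l) = σ² g²`, `A' (x l) = -2 P' Om (x l) / R + σ² g² κ`, where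
`Om (x l)` stands for `∑_{k ≠ l} (τ²_k - τ²_l) S k (x l) / (x l - x k)²` (`ALG`). -/

open Filter Topology MeasureTheory Finset Polynomial
open scoped Real

namespace MW.AN

variable {n : ℕ} {e x : ℕ → ℝ}

theorem Bil_dprod (s : Finset ℕ) (x : ℕ → ℝ) {t : ℝ} (ht : ∀ m ∈ s, t ≠ x m) :
    (derivative (∏ m ∈ s, (X - C (x m)))).eval t
      = (∏ m ∈ s, (X - C (x m))).eval t * ∑ m ∈ s, 1 / (t - x m) := by
  induction s using Finset.induction_on with
  | empty => simp
  | insert a s ha ih =>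
    have h1 : t - x a ≠ 0 := sub_ne_zero.2 (ht a (mem_insert_self _ _))
    rw [prod_insert ha, sum_insert ha, derivative_mul, eval_add, eval_mul, eval_mul, eval_mul,
      ih fun m hm => ht m (mem_insert_of_mem hm)]
    simp only [derivative_sub, derivative_X, derivative_C, sub_zero, eval_one, eval_sub, eval_X,
      eval_C]
    field_simp

theorem Bil_R_ne {t : ℝ} (ht : ∀ j < 2 * n, t ≠ e j) : (Rp n e).eval t ≠ 0 := by
  unfold Rp
  rw [eval_prod]
  refine prod_ne_zero_iff.2 fun j hj => ?_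
  simpa [sub_eq_zero] using ht j (mem_range.1 hj)

theorem Bil_P_ne {t : ℝ} (ht : ∀ l < n, t ≠ x l) : (Pp n x).eval t ≠ 0 := by
  unfold Pp
  rw [eval_prod]
  refine prod_ne_zero_iff.2 fun j hj => ?_
  simpa [sub_eq_zero] using ht j (mem_range.1 hj)

theorem Bil_ev (s : Finset ℕ) (y : ℕ → ℝ) {t : ℝ} (ht : ∀ j ∈ s, t ≠ y j) :
    ∀ᶠ u in 𝓝 t, ∀ j ∈ s, u ≠ y j :=
  (Finset.eventually_all s).2 fun j hj => eventually_ne_nhds (ht j hj)

theorem Bil_deriv_sum (s : Finset ℕ) (a y : ℕ → ℝ) {t : ℝ} (ht : ∀ j ∈ s, t ≠ y j) :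
    HasDerivAt (fun u => ∑ j ∈ s, a j / (u - y j)) (-∑ j ∈ s, a j / (t - y j) ^ 2) t := by
  rw [← sum_neg_distrib]
  refine HasDerivAt.fun_sum fun j hj => ?_
  have h1 : t - y j ≠ 0 := sub_ne_zero.2 (ht j hj)
  have := (hasDerivAt_const t (a j)).fun_div ((hasDerivAt_id' t).sub_const (y j)) h1
  refine this.congr_deriv ?_
  ring

theorem Bil_dN (h : Mono n e) {v : ℕ → ℝ} {N : ℝ[X]} (hN : Interp n e x v N) {t : ℝ}
    (ht : ∀ j < 2 * n, t ≠ e j) :
    ∑ j ∈ range (2 * n), rr n e x j * v j / (t - e j) ^ 2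
      = ((derivative N).eval t * (Rp n e).eval t - N.eval t * (derivative (Rp n e)).eval t)
          / (Rp n e).eval t ^ 2 := by
  have ht' : ∀ j ∈ range (2 * n), t ≠ e j := fun j hj => ht j (mem_range.1 hj)
  have h1 := (N.hasDerivAt t).fun_div ((Rp n e).hasDerivAt t) (Bil_R_ne ht)
  have h2 := Bil_deriv_sum (range (2 * n)) (fun j => -(rr n e x j * v j)) e ht'
  have h3 : (fun u => N.eval u / (Rp n e).eval u) =ᶠ[𝓝 t]
      fun u => ∑ j ∈ range (2 * n), -(rr n e x j * v j) / (u - e j) := by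
    filter_upwards [Bil_ev _ e ht'] with u hu
    rw [pf_real h hN.deg fun j hj => hu j (mem_range.2 hj)]
    refine sum_congr rfl fun j hj => ?_
    rw [hN.val j (mem_range.1 hj), rr]
    ring
  rw [h1.unique (h2.congr_of_eventuallyEq h3), ← sum_neg_distrib]
  exact sum_congr rfl fun j _ => by ring

theorem Bil_A (h : Mono n e) {v rd : ℕ → ℝ} {Pd N : ℝ[X]} (hA : Adm n e x v Pd rd)
    (hN : Interp n e x v N) {t : ℝ} (ht : ∀ j < 2 * n, t ≠ e j) (ht' : ∀ l < n, t ≠ x l) :
    ∑ j ∈ range (2 * n), rd j / (t - e j)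
      = -2 * (Pp n x).eval t * Om n e x v Pd N t / (Rp n e).eval t
        + ((derivative N).eval t * (Pp n x).eval t - 2 * N.eval t * (derivative (Pp n x)).eval t)
          / ((Pp n x).eval t * (Rp n e).eval t) := by
  have h1 := hA.pf t ht
  rw [Bil_dN h hN ht, dRp_eval ht] at h1
  have h2 : ∑ j ∈ range (2 * n), (v j - N.eval t / (Pp n x).eval t ^ 2) / (t - e j)
      = ∑ j ∈ range (2 * n), v j / (t - e j)
        - N.eval t / (Pp n x).eval t ^ 2 * ∑ j ∈ range (2 * n), 1 / (t - e j) := by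
    rw [mul_sum, ← sum_sub_distrib]
    exact sum_congr rfl fun j _ => by ring
  have hR := Bil_R_ne ht
  have hP := Bil_P_ne ht'
  rw [eq_sub_of_add_eq h1, Om, h2]
  field_simp
  ring

theorem Bil_core (h : Mono n e) (hx : Crit n e x) {S : ℕ → ℝ[X]}
    (hS : ∀ k < n, Dip n e x k (S k)) {v rd : ℕ → ℝ} {Pd N : ℝ[X]} (hA : Adm n e x v Pd rd)
    (hN : Interp n e x v N) {l : ℕ} (hl : l < n) (h0 : tau n e x N l = 0) :
    ∑ j ∈ range (2 * n), rd j / (x l - e j) = sig n e x N l * g2 n e x l ∧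
      -∑ j ∈ range (2 * n), rd j / (x l - e j) ^ 2
        = -2 * (derivative (Pp n x)).eval (x l)
            * (∑ k ∈ (range n).erase l, tau n e x N k * (S k).eval (x l) / (x l - x k) ^ 2)
            / (Rp n e).eval (x l)
          + sig n e x N l * g2 n e x l * kap n e x l := by
  have he : ∀ j < 2 * n, x l ≠ e j := fun j hj => hx.ne_e h hl hj
  have he' : ∀ j ∈ range (2 * n), x l ≠ e j := fun j hj => he j (mem_range.1 hj)
  have hxx : ∀ k ∈ (range n).erase l, x l ≠ x k := by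
    intro k hk
    obtain ⟨hkl, hk⟩ := mem_erase.1 hk
    rcases lt_or_gt_of_ne hkl with h1 | h1
    · exact (hx.inj h h1 hl).ne'
    · exact (hx.inj h h1 (mem_range.1 hk)).ne
  have hR := Bil_R_ne he
  have hN0 : N.eval (x l) = 0 := by
    unfold tau at h0
    rcases div_eq_zero_iff.1 h0 with h1 | h1
    · exact neg_eq_zero.1 h1
    · exact (hR h1).elim
  obtain ⟨M, hM⟩ := dvd_iff_isRoot.2 hN0
  set Q : ℝ[X] := ∏ m ∈ (range n).erase l, (X - C (x m)) with hQ
  have hPQ : Pp n x = (X - C (x l)) * Q := (mul_prod_erase _ _ (mem_range.2 hl)).symm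
  have hQne : ∀ u, (∀ k ∈ (range n).erase l, u ≠ x k) → Q.eval u ≠ 0 := by
    intro u hu
    rw [hQ, eval_prod]
    refine prod_ne_zero_iff.2 fun j hj => ?_
    simpa [sub_eq_zero] using hu j hj
  set O : ℝ → ℝ := fun u => ∑ k ∈ (range n).erase l, tau n e x N k * (S k).eval u / (u - x k) ^ 2
    with hO
  have hOd : DifferentiableAt ℝ O (x l) := by
    refine DifferentiableAt.fun_sum fun k hk => ?_
    refine DifferentiableAt.fun_div (((S k).differentiableAt).const_mul _) (by fun_prop) ?_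
    exact pow_ne_zero _ (sub_ne_zero.2 (hxx k hk))
  set G : ℝ → ℝ := fun u => -2 * Q.eval u * O u / (Rp n e).eval u
    + ((derivative M).eval u * Q.eval u - 2 * M.eval u * (derivative Q).eval u)
      / (Q.eval u * (Rp n e).eval u) with hG
  have hGd : DifferentiableAt ℝ G (x l) := by
    refine DifferentiableAt.fun_add (DifferentiableAt.fun_div
      ((Q.differentiableAt.const_mul _).fun_mul hOd) (Rp n e).differentiableAt hR)
      (DifferentiableAt.fun_div ?_ (Q.differentiableAt.fun_mul (Rp n e).differentiableAt)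
        (mul_ne_zero (hQne _ hxx) hR))
    exact ((derivative M).differentiableAt.fun_mul Q.differentiableAt).fun_sub
      ((M.differentiableAt.const_mul _).fun_mul (derivative Q).differentiableAt)
  have hF : HasDerivAt (fun u => (u - x l) * G u - M.eval u / (Rp n e).eval u)
      (G (x l) - ((derivative M).eval (x l) * (Rp n e).eval (x l)
        - M.eval (x l) * (derivative (Rp n e)).eval (x l)) / (Rp n e).eval (x l) ^ 2) (x l) := by
    have h1 := (((hasDerivAt_id' (x l)).sub_const (x l)).fun_mul hGd.hasDerivAt).fun_sub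
      ((M.hasDerivAt (x l)).fun_div ((Rp n e).hasDerivAt (x l)) hR)
    refine h1.congr_deriv ?_
    ring
  have hAd := Bil_deriv_sum (range (2 * n)) rd e he'
  have hev : ∀ᶠ u in 𝓝 (x l), u ≠ x l → ∑ j ∈ range (2 * n), rd j / (u - e j)
      = (u - x l) * G u - M.eval u / (Rp n e).eval u := by
    filter_upwards [Bil_ev _ e he', Bil_ev _ x hxx] with u hu1 hu2 hu3
    have hu1' : ∀ j < 2 * n, u ≠ e j := fun j hj => hu1 j (mem_range.2 hj)
    have hu2' : ∀ k < n, u ≠ x k := fun k hk => by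
      by_cases hkl : k = l
      · rw [hkl]; exact hu3
      · exact hu2 k (mem_erase.2 ⟨hkl, mem_range.2 hk⟩)
    have h1 : Om n e x v Pd N u = O u := by
      rw [ALG h hx hA hN hS hu1' hu2', ← add_sum_erase _ _ (mem_range.2 hl), h0]
      simp [hO]
    have h2 := Bil_R_ne hu1'
    have h3 := hQne u hu2
    have h4 : u - x l ≠ 0 := sub_ne_zero.2 hu3
    rw [Bil_A h hA hN hu1' hu2', h1, hPQ, hM, hG]
    simp only [derivative_mul, derivative_sub, derivative_X, derivative_C, sub_zero, eval_add,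
      eval_mul, eval_one, eval_sub, eval_X, eval_C]
    field_simp
    ring
  have hval : ∑ j ∈ range (2 * n), rd j / (x l - e j)
      = (x l - x l) * G (x l) - M.eval (x l) / (Rp n e).eval (x l) := by
    refine tendsto_nhds_unique_of_eventuallyEq (l := 𝓝[≠] (x l))
      (hAd.continuousAt.tendsto.mono_left nhdsWithin_le_nhds)
      (hF.continuousAt.tendsto.mono_left nhdsWithin_le_nhds) ?_
    exact eventually_nhdsWithin_iff.2 hev
  have hev' : (fun u => ∑ j ∈ range (2 * n), rd j / (u - e j)) =ᶠ[𝓝 (x l)]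
      fun u => (u - x l) * G u - M.eval u / (Rp n e).eval u := by
    filter_upwards [hev] with u hu
    by_cases hul : u = x l
    · rw [hul]; exact hval
    · exact hu hul
  have hder := hAd.unique (hF.congr_of_eventuallyEq hev')
  have hg := (hx.g2_pos h hl).ne'
  have hsg : sig n e x N l * g2 n e x l = -M.eval (x l) / (Rp n e).eval (x l) := by
    rw [sig, div_mul_cancel₀ _ hg, hN0, hM]
    simp only [derivative_mul, derivative_sub, derivative_X, derivative_C, sub_zero, eval_add,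
      eval_mul, eval_one, eval_sub, eval_X, eval_C]
    field_simp
    ring
  have hdP : (derivative (Pp n x)).eval (x l) = Q.eval (x l) := by
    rw [hPQ]
    simp [derivative_mul]
  refine ⟨by rw [hval, hsg]; ring, ?_⟩
  have h3 := hQne _ hxx
  rw [hder, hsg, hdP, hG, kap, dRp_eval he]
  simp only
  rw [Bil_dprod _ x hxx, ← hQ]
  show _ = -2 * Q.eval (x l) * O (x l) / _ + _
  field_simp
  ring

theorem Bil_shift (h : Mono n e) (hx : Crit n e x) {v : ℕ → ℝ} {N : ℝ[X]}
    (hN : Interp n e x v N) (c : ℝ) :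
    Interp n e x (fun j => v j - c) (N - C c * (Pp n x ^ 2 - Rp n e)) ∧
      ∀ k < n, tau n e x (N - C c * (Pp n x ^ 2 - Rp n e)) k = tau n e x N k - c ∧
        sig n e x (N - C c * (Pp n x ^ 2 - Rp n e)) k = sig n e x N k := by
  obtain ⟨h1, h2⟩ := interp_one h hx
  generalize Pp n x ^ 2 - Rp n e = U at h1 h2 ⊢
  refine ⟨⟨?_, fun j hj => ?_⟩, fun k hk => ⟨?_, ?_⟩⟩
  · refine (degree_sub_le _ _).trans_lt (max_lt hN.deg ?_)
    rw [← smul_eq_C_mul]
    exact (degree_smul_le _ _).trans_lt h1.deg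
  · rw [eval_sub, eval_mul, eval_C, hN.val j hj, h1.val j hj]
    ring
  · have : tau n e x (N - C c * U) k = tau n e x N k - c * tau n e x U k := by
      simp only [tau, eval_sub, eval_mul, eval_C]
      ring
    rw [this, (h2 k hk).1, mul_one]
  · have : sig n e x (N - C c * U) k = sig n e x N k - c * sig n e x U k := by
      simp only [sig, derivative_sub, derivative_C_mul, eval_sub, eval_mul, eval_C]
      ring
    rw [this, (h2 k hk).2, mul_zero, sub_zero]

theorem BIL (h : Mono n e) (hx : Crit n e x) {S : ℕ → ℝ[X]} (hS : ∀ k < n, Dip n e x k (S k))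
    {v₁ v₂ rd : ℕ → ℝ} {Pd N₁ N₂ : ℝ[X]} (hA : Adm n e x v₂ Pd rd) (hN₁ : Interp n e x v₁ N₁)
    (hN₂ : Interp n e x v₂ N₂) :
    ∑ j ∈ range (2 * n), v₁ j * rd j
      = -∑ l ∈ range n, sig n e x N₁ l * sig n e x N₂ l * g2 n e x l
        - 2 * ∑ l ∈ range n, tau n e x N₁ l *
            ∑ k ∈ (range n).erase l, (tau n e x N₂ l - tau n e x N₂ k) * wk n x S k l := by
  have h1 : ∑ j ∈ range (2 * n), v₁ j * rd j
      = ∑ l ∈ range n, (tau n e x N₁ l / g2 n e x l * ∑ j ∈ range (2 * n), rd j / (x l - e j) ^ 2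
        - (sig n e x N₁ l - kap n e x l * tau n e x N₁ l / g2 n e x l)
          * ∑ j ∈ range (2 * n), rd j / (x l - e j)) := by
    simp only [mul_sum, ← sum_sub_distrib]
    rw [sum_comm]
    refine sum_congr rfl fun j hj => ?_
    rw [pf_double h hx hN₁ (mem_range.1 hj), sum_mul]
    refine sum_congr rfl fun l _ => ?_
    rw [← neg_sub (x l) (e j), neg_sq, div_neg]
    ring
  rw [h1, mul_sum, ← sum_neg_distrib, ← sum_sub_distrib]
  refine sum_congr rfl fun l hl => ?_
  have hl' := mem_range.1 hl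
  obtain ⟨h2, h3⟩ := Bil_shift h hx hN₂ (tau n e x N₂ l)
  obtain ⟨h4, h5⟩ := Bil_core h hx hS (hA.shift h hx (tau n e x N₂ l)) h2 hl'
    (by rw [(h3 l hl').1, sub_self])
  rw [(h3 l hl').2] at h4 h5
  have hdP := hx.dP_ne h hl'
  have hR : (Rp n e).eval (x l) ≠ 0 := Bil_R_ne fun j hj => hx.ne_e h hl' hj
  have h6 : ∑ k ∈ (range n).erase l, tau n e x (N₂ - C (tau n e x N₂ l) * (Pp n x ^ 2 - Rp n e)) k
        * (S k).eval (x l) / (x l - x k) ^ 2
      = (derivative (Pp n x)).eval (x l)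
        * ∑ k ∈ (range n).erase l, (tau n e x N₂ l - tau n e x N₂ k) * wk n x S k l := by
    rw [mul_sum]
    refine sum_congr rfl fun k hk => ?_
    rw [(h3 k (mem_range.1 (mem_erase.1 hk).2)).1, wk]
    field_simp
    ring
  have hg := (hx.g2_pos h hl').ne'
  have h7 : (derivative (Pp n x)).eval (x l) ^ 2 = -(g2 n e x l * (Rp n e).eval (x l)) := by
    rw [g2, div_mul_cancel₀ _ hR, neg_neg]
  rw [h6] at h5
  rw [neg_eq_iff_eq_neg.1 h5, h4]
  generalize ∑ k ∈ (range n).erase l, (tau n e x N₂ l - tau n e x N₂ k) * wk n x S k l = W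
  have h8 : -2 * (derivative (Pp n x)).eval (x l) * ((derivative (Pp n x)).eval (x l) * W)
      / (Rp n e).eval (x l) = 2 * g2 n e x l * W := by
    rw [div_eq_iff hR]
    linear_combination (-2 * W) * h7
  rw [h8]
  field_simp
  ring

/-- `BIL` with `v₁ = 1` and `τ² = T` (`interp_one`, `exists_tau`, `exists_adm`, `Adm.sum`). -/
theorem BALANCE (h : Mono n e) (hx : Crit n e x) {S : ℕ → ℝ[X]} (hS : ∀ k < n, Dip n e x k (S k))
    (T : ℕ → ℝ) :
    ∑ l ∈ range n, ∑ k ∈ (range n).erase l, (T l - T k) * wk n x S k l = 0 := by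
  obtain ⟨v, N, hN, hT⟩ := exists_tau h hx T
  obtain ⟨Pd, rd, hA⟩ := exists_adm h hx v
  obtain ⟨h1, h2⟩ := interp_one h hx
  have h3 := BIL h hx hS hA h1 hN
  have h4 : ∑ l ∈ range n, sig n e x (Pp n x ^ 2 - Rp n e) l * sig n e x N l * g2 n e x l = 0 :=
    sum_eq_zero fun l hl => by rw [(h2 l (mem_range.1 hl)).2, zero_mul, zero_mul]
  have h5 : ∑ l ∈ range n, tau n e x (Pp n x ^ 2 - Rp n e) l *
        ∑ k ∈ (range n).erase l, (tau n e x N l - tau n e x N k) * wk n x S k l
      = ∑ l ∈ range n, ∑ k ∈ (range n).erase l, (T l - T k) * wk n x S k l := by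
    refine sum_congr rfl fun l hl => ?_
    rw [(h2 l (mem_range.1 hl)).1, one_mul]
    refine sum_congr rfl fun k hk => ?_
    rw [hT l (mem_range.1 hl), hT k (mem_range.1 (mem_erase.1 hk).2)]
  simp only [one_mul] at h3
  rw [hA.sum, h4, h5] at h3
  linarith

theorem QFORM (h : Mono n e) (hx : Crit n e x) {S : ℕ → ℝ[X]} (hS : ∀ k < n, Dip n e x k (S k))
    {v rd : ℕ → ℝ} {Pd N : ℝ[X]} (hA : Adm n e x v Pd rd) (hN : Interp n e x v N) :
    -∑ j ∈ range (2 * n), v j * rd j
      = ∑ l ∈ range n, sig n e x N l ^ 2 * g2 n e x l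
        + ∑ l ∈ range n, ∑ k ∈ (range n).erase l,
            wk n x S k l * (tau n e x N k - tau n e x N l) ^ 2 := by
  have h1 := BALANCE h hx hS fun l => tau n e x N l ^ 2
  have h2 : ∑ l ∈ range n, ∑ k ∈ (range n).erase l,
        wk n x S k l * (tau n e x N k - tau n e x N l) ^ 2
      = 2 * ∑ l ∈ range n, tau n e x N l *
          ∑ k ∈ (range n).erase l, (tau n e x N l - tau n e x N k) * wk n x S k l
        - ∑ l ∈ range n, ∑ k ∈ (range n).erase l,
          (tau n e x N l ^ 2 - tau n e x N k ^ 2) * wk n x S k l := by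
    simp only [mul_sum, ← sum_sub_distrib]
    exact sum_congr rfl fun l _ => sum_congr rfl fun k _ => by ring
  have h3 : ∑ l ∈ range n, sig n e x N l ^ 2 * g2 n e x l
      = ∑ l ∈ range n, sig n e x N l * sig n e x N l * g2 n e x l :=
    sum_congr rfl fun l _ => by ring
  rw [BIL h hx hS hA hN hN, h2, h1, h3]
  ring

end MW.AN
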