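import Pool.Agent.P.MP_064970_gt.AN.GW

/-! Row AN-Bnd: a priori bound for Martin functions of thick sets. Let `B = sup (u - |y|)`,
`h = sup_ℝ u`. `PL` gives `B ≤ h`; the barrier `(B + ρ' m) gg ((z - c) / m) / arcosh ρ'` on the
disc of radius `ρ' m`, `arcosh ρ' = 2 arcosh ρ`, `ρ = max (M / m) 1 + 1`, gives
`h ≤ (B + ρ' m) / 2`. -/

open Complex InnerProductSpace Set Filter Topology Metric MeasureTheory
open scoped Real ComplexConjugate

namespace MW.AN

/-- Phragmén–Lindelöf: the bound on the real axis is a bound everywhere. -/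
theorem Bnd_of_real {u : ℂ → ℝ} {C₀ h : ℝ} (hu : Mart C₀ u) (hh : ∀ t : ℝ, u t ≤ h) (z : ℂ) :
    u z ≤ |z.im| + h := by
  have key := PL (f := fun w => u w - |w.im| - h) (u := fun w : ℂ => |w.im|)
    (by have := hu.cont; fun_prop) (by fun_prop) (fun _ => le_rfl) ?_ ?_ z
  · linarith
  · intro w hw
    have hw' : w.im ≠ 0 := by
      rcases hw with hw | hw
      · exact hw
      · intro e
        have e2 : w = (w.re : ℂ) := Complex.ext rfl (by simpa using e)
        have h1 := hh w.re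
        rw [← e2] at h1
        rw [e, abs_zero] at hw
        linarith
    exact ⟨harm_sub (harm_sub (hu.toHalf.harm_of_im_ne hw') (harm_abs_im hw')) (harm_const h w),
      harm_abs_im hw'⟩
  · intro ε hε
    refine ⟨(C₀ - h) / ε, fun w hw => ?_⟩
    rw [div_le_iff₀ hε] at hw
    have := hu.hi w
    linarith

theorem Bnd_le_cosh {a : ℝ} (ha : 0 ≤ a) : a ≤ Real.cosh a :=
  (Real.self_le_sinh_iff.2 ha).trans (Real.sinh_lt_cosh a).le

theorem Bnd_gg_ge {a : ℝ} (ha : 0 ≤ a) {ζ : ℂ} (h : Real.cosh a ≤ ‖ζ‖) : a ≤ gg ζ := by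
  have h1 : ‖(ζ - 1) + (ζ + 1)‖ ≤ ‖ζ - 1‖ + ‖ζ + 1‖ := norm_add_le _ _
  have h2 : (ζ - 1) + (ζ + 1) = 2 * ζ := by ring
  rw [h2, norm_mul, Complex.norm_two] at h1
  have h3 : Real.cosh a ≤ Real.cosh (gg ζ) := by
    rw [cosh_gg]
    linarith
  rwa [Real.cosh_le_cosh, abs_of_nonneg ha, abs_of_nonneg (gg_nonneg ζ)] at h3

theorem Bnd_gg_le {a : ℝ} (ha : 0 ≤ a) {ζ : ℂ} (h : ‖ζ‖ + 1 ≤ a) : gg ζ ≤ a := by
  have h1 : ‖ζ - 1‖ ≤ ‖ζ‖ + ‖(1 : ℂ)‖ := norm_sub_le _ _
  have h2 : ‖ζ + 1‖ ≤ ‖ζ‖ + ‖(1 : ℂ)‖ := norm_add_le _ _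
  rw [norm_one] at h1 h2
  have h3 : Real.cosh (gg ζ) ≤ Real.cosh a := by
    rw [cosh_gg]
    have := Bnd_le_cosh ha
    linarith
  rwa [Real.cosh_le_cosh, abs_of_nonneg ha, abs_of_nonneg (gg_nonneg ζ)] at h3

/-- The barrier on a disc about a piece of a band. -/
theorem Bnd_disc {u : ℂ → ℝ} (hu : Half u) {h m a c : ℝ} (hm : 0 < m) (ha : 0 < a) (h0 : 0 ≤ h)
    (hhi : ∀ z : ℂ, u z ≤ |z.im| + h) (hc : ∀ t : ℝ, |t - c| ≤ m → u t = 0) {z : ℂ}
    (hz : ‖z - c‖ ≤ Real.cosh a * m) :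
    u z ≤ (h + Real.cosh a * m) / a * gg ((z - c) / m) := by
  have hρ : 0 < Real.cosh a * m := mul_pos (Real.cosh_pos a) hm
  have hk : 0 ≤ (h + Real.cosh a * m) / a := by positivity
  have hm0 : (m : ℂ) ≠ 0 := by exact_mod_cast hm.ne'
  have hnorm : ∀ w : ℂ, ‖(w - c) / m‖ = ‖w - c‖ / m := fun w => by
    rw [norm_div, Complex.norm_real, Real.norm_eq_abs, abs_of_pos hm]
  have key := MP (K := closedBall (c : ℂ) (Real.cosh a * m)) (isCompact_closedBall _ _)
    (v := fun w => u w - (h + Real.cosh a * m) / a * gg ((w - c) / m))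
    (by
      have h1 := hu.cont
      have h2 := gg_cont
      exact Continuous.continuousOn (by fun_prop)) ?_ ?_ z (by rwa [mem_closedBall, dist_eq_norm])
  · linarith
  · intro w _ hw
    have h1 : 0 < u w := by
      have := mul_nonneg hk (gg_nonneg ((w - c) / m))
      linarith
    have h2 : 0 < gg ((w - c) / m) := by
      refine lt_of_le_of_ne (gg_nonneg _) fun e => ?_
      obtain ⟨e1, e2⟩ := (gg_eq_zero_iff _).1 e.symm
      rw [Complex.div_ofReal_im, div_eq_zero_iff] at e1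
      rw [Complex.div_ofReal_re, abs_div, abs_of_pos hm, div_le_one hm] at e2
      have e3 : w.im = 0 := by simpa using e1.resolve_right hm.ne'
      have e4 : w = (w.re : ℂ) := Complex.ext rfl (by simpa using e3)
      have e5 := hc w.re (by simpa using e2)
      rw [← e4] at e5
      linarith
    exact harm_sub (hu.harm w h1) (harm_const_mul _
      (harm_comp (f := gg) (φ := fun w : ℂ => (w - c) / m) (by fun_prop (disch := exact hm0))
        (gg_harm h2).1))
  · intro w hw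
    rw [frontier_closedBall _ hρ.ne', mem_sphere, dist_eq_norm] at hw
    have h1 : a ≤ gg ((w - c) / m) :=
      Bnd_gg_ge ha.le (by rw [hnorm, hw, mul_div_assoc, div_self hm.ne', mul_one])
    have h2 : |w.im| ≤ Real.cosh a * m := by
      have := Complex.abs_im_le_norm (w - c)
      rw [hw] at this
      simpa using this
    have h3 := mul_le_mul_of_nonneg_left h1 hk
    rw [div_mul_cancel₀ _ ha.ne'] at h3
    have h4 := hhi w
    linarith

theorem BND (m M : ℝ) (hm : 0 < m) : ∃ C : ℝ, ∀ (u : ℂ → ℝ) (C₀ : ℝ), Mart C₀ u →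
    (∀ x : ℝ, 0 < u x → ∃ c : ℝ, |x - c| ≤ M ∧ ∀ t : ℝ, |t - c| ≤ m → u t = 0) → Mart C u := by
  have ha : 0 < |M| / m + 1 := by positivity
  refine ⟨Real.cosh (2 * (|M| / m + 1)) * m, fun u C₀ hu hx => ?_⟩
  have hρ : 0 < Real.cosh (2 * (|M| / m + 1)) * m := mul_pos (Real.cosh_pos _) hm
  have hbd : BddAbove (range fun t : ℝ => u t) := ⟨C₀, by
    rintro _ ⟨t, rfl⟩
    simpa using hu.hi t⟩
  have hh : ∀ t : ℝ, u t ≤ ⨆ t : ℝ, u t := fun t => le_ciSup hbd t
  have h0 : 0 ≤ ⨆ t : ℝ, u t := (hu.nonneg _).trans (hh 0)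
  have hhi := Bnd_of_real hu hh
  have hsup : ⨆ t : ℝ, u t ≤ ((⨆ t : ℝ, u t) + Real.cosh (2 * (|M| / m + 1)) * m) / 2 := by
    refine ciSup_le fun x => ?_
    rcases (hu.nonneg x).eq_or_lt with e | hpos
    · rw [← e]
      positivity
    · obtain ⟨c, hc1, hc2⟩ := hx x hpos
      have hn : ‖(x : ℂ) - c‖ ≤ |M| := by
        rw [← Complex.ofReal_sub, Complex.norm_real, Real.norm_eq_abs]
        exact hc1.trans (le_abs_self M)
      have h1 : |M| / m ≤ Real.cosh (2 * (|M| / m + 1)) := by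
        have := Bnd_le_cosh (a := 2 * (|M| / m + 1)) (by positivity)
        have h2 : 0 ≤ |M| / m := by positivity
        linarith
      rw [div_le_iff₀ hm] at h1
      have h2 := Bnd_disc hu.toHalf hm (a := 2 * (|M| / m + 1)) (by positivity) h0 hhi hc2
        (hn.trans h1)
      have h3 : gg (((x : ℂ) - c) / m) ≤ |M| / m + 1 := by
        refine Bnd_gg_le ha.le ?_
        rw [norm_div, Complex.norm_real m, Real.norm_eq_abs, abs_of_pos hm]
        gcongr
      refine h2.trans ((mul_le_mul_of_nonneg_left h3 (by positivity)).trans_eq ?_)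
      field_simp
  exact ⟨hu.toHalf, hu.lo, fun z => (hhi z).trans (by linarith)⟩

end MW.AN
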