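import Pool.Agent.P.MP_064970_gt.AN.ZP

/-! Row AN-CA: dividing the weight by `|t - p|` moves every root towards `p`.
Let `p < b l` and suppose `ξ⁰ l < ξ¹ l`. For `λ > 0` the polynomial
`T = ∏ (X - ξ¹) - λ (X - p) ∏ (X - ξ⁰)` (degree `card K + 1`, leading coefficient `-λ`) has zero
periods for the weight `w / |t - p|`. With `A = ∏_{m ≠ l} (t - ξ¹ m)`, `T A < 0` on
`[ξ⁰ l, ξ¹ l]`. The sets of `λ > 0` for which `T A > 0` somewhere left of `ξ⁰ l`, resp. right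
of `ξ¹ l` (in the open interval `l`) are open, nonempty and cover the positive reals, so they meet. Then
`T` has two roots `ζ' < ζ''` in interval `l` and one root `ζ m` in each other interval, so
`T = -λ (X - ζ') (X - ζ'') ∏ (X - ζ m)`, and `T A < 0` at the right point: contradiction.
The other side is symmetric (`T = ∏ (X - ξ¹) - λ (p - X) ∏ (X - ξ⁰)`). -/

open Filter Topology MeasureTheory Finset Polynomial
open scoped Real

namespace MW.AN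

variable {K : Finset ℕ} {b a : ℕ → ℝ} {w : ℕ → ℝ → ℝ}

theorem CA_prod_pos (h : Fam K b a w) {l : ℕ} (hl : l ∈ K) {z z' : ℕ → ℝ}
    (hz : ∀ m ∈ K, z m ∈ Set.Ioo (b m) (a m)) (hz' : ∀ m ∈ K, z' m ∈ Set.Ioo (b m) (a m))
    {t t' : ℝ} (ht : t ∈ Set.Icc (b l) (a l)) (ht' : t' ∈ Set.Icc (b l) (a l)) :
    0 < (∏ m ∈ K.erase l, (t - z m)) * ∏ m ∈ K.erase l, (t' - z' m) := by
  rw [← Finset.prod_mul_distrib]
  refine Finset.prod_pos fun m hm => ?_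
  obtain ⟨hml, hm⟩ := Finset.mem_erase.1 hm
  obtain ⟨h1, h2⟩ := hz m hm
  obtain ⟨h3, h4⟩ := hz' m hm
  rcases h.sep m hm l hl hml with h5 | h5
  · exact mul_pos (by linarith [ht.1]) (by linarith [ht'.1])
  · exact mul_pos_of_neg_of_neg (by linarith [ht.2]) (by linarith [ht'.2])

theorem CA_injOn (h : Fam K b a w) {z : ℕ → ℝ} (hz : ∀ m ∈ K, z m ∈ Set.Ioo (b m) (a m)) :
    Set.InjOn z K := by
  intro m hm m' hm' hmm
  by_contra hne
  obtain ⟨h1, h2⟩ := hz m hm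
  obtain ⟨h3, h4⟩ := hz m' hm'
  rcases h.sep m hm m' hm' hne with h5 | h5 <;> linarith

/-- A polynomial of degree `card K + 1` with a root in each interval and one further root. -/
theorem CA_factor (h : Fam K b a w) {S : ℝ[X]} (hd : S.natDegree = K.card + 1) {z : ℕ → ℝ}
    (hz : ∀ m ∈ K, z m ∈ Set.Ioo (b m) (a m)) (hr : ∀ m ∈ K, S.eval (z m) = 0) {ζ : ℝ}
    (hζ : S.eval ζ = 0) (hne : ∀ m ∈ K, z m ≠ ζ) (t : ℝ) :
    S.eval t = (t - ζ) * (S.leadingCoeff * ∏ m ∈ K, (t - z m)) := by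
  have hS0 : S ≠ 0 := by
    rintro rfl
    simp at hd
  obtain ⟨S', hS'⟩ := (dvd_iff_isRoot.2 hζ : (X - C ζ) ∣ S)
  have hS'0 : S' ≠ 0 := by
    rintro rfl
    simp at hS'
    exact hS0 hS'
  have hd' : S'.natDegree = K.card := by
    have := congrArg natDegree hS'
    rw [natDegree_mul (X_sub_C_ne_zero ζ) hS'0, natDegree_X_sub_C, hd] at this
    omega
  have hlc : S'.leadingCoeff = S.leadingCoeff := by
    rw [hS', leadingCoeff_mul, leadingCoeff_X_sub_C, one_mul]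
  have hlc0 : S.leadingCoeff ≠ 0 := leadingCoeff_ne_zero.2 hS0
  have hM : (∏ m ∈ K, (X - C (z m))).Monic := monic_prod_of_monic _ _ fun m _ => monic_X_sub_C _
  have hMd : (∏ m ∈ K, (X - C (z m))).natDegree = K.card := by
    rw [natDegree_prod_of_monic _ _ fun m _ => monic_X_sub_C _]
    simp
  have hQ : S' = C S.leadingCoeff * ∏ m ∈ K, (X - C (z m)) := by
    refine eq_of_degree_sub_lt_of_eval_index_eq K (CA_injOn h hz) ?_ fun m hm => ?_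
    · have h1 : S'.degree = (K.card : ℕ) := by rw [degree_eq_natDegree hS'0, hd']
      rw [← h1]
      refine degree_sub_lt_left ?_ hS'0 ?_
      · rw [h1, degree_C_mul hlc0, degree_eq_natDegree hM.ne_zero, hMd]
      · rw [hlc, leadingCoeff_mul, leadingCoeff_C, hM.leadingCoeff, mul_one]
    · have h1 := hr m hm
      rw [hS', eval_mul, eval_sub, eval_X, eval_C] at h1
      rw [(mul_eq_zero.1 h1).resolve_left (sub_ne_zero.2 (hne m hm)), eval_mul, eval_prod,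
        Finset.prod_eq_zero hm (by simp), mul_zero]
  conv_lhs => rw [hS', hQ]
  simp [eval_prod]

/-- The root count. -/
theorem CA_core (h : Fam K b a w) {l : ℕ} (hl : l ∈ K) {S : ℝ → ℝ[X]} {η : ℕ → ℝ}
    (hη : ∀ m ∈ K, η m ∈ Set.Ioo (b m) (a m))
    (hdeg : ∀ s > 0, (S s).natDegree = K.card + 1 ∧ (S s).leadingCoeff < 0)
    (hper : ∀ s > 0, ∀ m ∈ K, II (b m) (a m) (fun t => (S s).eval t * w m t) = 0)
    (hcont : ∀ t, Continuous fun s => (S s).eval t) {c d : ℝ} (hcd : c ≤ d)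
    (hc : b l < c) (hd : d < a l)
    (hneg : ∀ s > 0, ∀ t ∈ Set.Icc c d, (S s).eval t * ∏ m ∈ K.erase l, (t - η m) < 0)
    (hL : ∃ s > 0, ∃ t ∈ Set.Ioo (b l) c, 0 < (S s).eval t * ∏ m ∈ K.erase l, (t - η m))
    (hR : ∃ s > 0, ∃ t ∈ Set.Ioo d (a l), 0 < (S s).eval t * ∏ m ∈ K.erase l, (t - η m)) :
    False := by
  set A : ℝ → ℝ := fun t => ∏ m ∈ K.erase l, (t - η m) with hA
  have hAc : Continuous A := continuous_finsetProd _ fun m _ => by fun_prop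
  have hAA : ∀ t ∈ Set.Icc (b l) (a l), ∀ t' ∈ Set.Icc (b l) (a l), 0 < A t * A t' :=
    fun t ht t' ht' => CA_prod_pos h hl hη hη ht ht'
  have hS0 : ∀ s > 0, S s ≠ 0 := fun s hs h0 => by
    have := (hdeg s hs).2
    rw [h0] at this
    simp at this
  have hopen : ∀ I : Set ℝ, IsOpen {s : ℝ | ∃ t ∈ I, 0 < (S s).eval t * A t} := by
    intro I
    have : {s : ℝ | ∃ t ∈ I, 0 < (S s).eval t * A t} =
        ⋃ t ∈ I, {s : ℝ | 0 < (S s).eval t * A t} := by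
      ext s
      simp
    rw [this]
    exact isOpen_biUnion fun t _ => isOpen_lt continuous_const ((hcont t).mul continuous_const)
  have hcover : Set.Ioi (0 : ℝ) ⊆ {s : ℝ | ∃ t ∈ Set.Ioo (b l) c, 0 < (S s).eval t * A t} ∪
      {s : ℝ | ∃ t ∈ Set.Ioo d (a l), 0 < (S s).eval t * A t} := by
    intro s hs
    obtain ⟨⟨t₁, ht₁, h₁⟩, ⟨t₂, ht₂, h₂⟩, -⟩ := h.sign hl (hS0 s hs) (hper s hs l hl)
    have hex : ∃ t ∈ Set.Ioo (b l) (a l), 0 < (S s).eval t * A t := by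
      have h3 := hAA t₁ (Set.Ioo_subset_Icc_self ht₁) t₂ (Set.Ioo_subset_Icc_self ht₂)
      rcases mul_pos_iff.1 h3 with ⟨h4, -⟩ | ⟨-, h4⟩
      · exact ⟨t₁, ht₁, mul_pos h₁ h4⟩
      · exact ⟨t₂, ht₂, mul_pos_of_neg_of_neg h₂ h4⟩
    obtain ⟨t, ht, h0⟩ := hex
    rcases lt_or_ge t c with h1 | h1
    · exact Or.inl ⟨t, ⟨ht.1, h1⟩, h0⟩
    rcases lt_or_ge d t with h2 | h2
    · exact Or.inr ⟨t, ⟨h2, ht.2⟩, h0⟩
    exact absurd (hneg s hs t ⟨h1, h2⟩) (not_lt.2 h0.le)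
  obtain ⟨s, hs, ⟨t₁, ht₁, h₁⟩, t₂, ht₂, h₂⟩ := isPreconnected_Ioi _ _ (hopen _) (hopen _) hcover
    (by obtain ⟨s, hs, h⟩ := hL; exact ⟨s, hs, h⟩) (by obtain ⟨s, hs, h⟩ := hR; exact ⟨s, hs, h⟩)
  have hs' : (0 : ℝ) < s := hs
  have hF : Continuous fun t => (S s).eval t * A t := (S s).continuous.mul hAc
  have hroot : ∀ t ∈ Set.Icc (b l) (a l), (S s).eval t * A t = 0 → (S s).eval t = 0 :=
    fun t ht h0 => (mul_eq_zero.1 h0).resolve_right fun h1 => by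
      have := hAA t ht t ht
      rw [h1] at this
      simp at this
  obtain ⟨ζ₁, hζ₁, e₁⟩ : ∃ ζ ∈ Set.Ioo t₁ c, (S s).eval ζ * A ζ = 0 :=
    intermediate_value_Ioo' ht₁.2.le hF.continuousOn ⟨hneg s hs' c ⟨le_rfl, hcd⟩, h₁⟩
  obtain ⟨ζ₂, hζ₂, e₂⟩ : ∃ ζ ∈ Set.Ioo d t₂, (S s).eval ζ * A ζ = 0 :=
    intermediate_value_Ioo ht₂.1.le hF.continuousOn ⟨hneg s hs' d ⟨hcd, le_rfl⟩, h₂⟩
  have hζ₁' : ζ₁ ∈ Set.Ioo (b l) (a l) := ⟨ht₁.1.trans hζ₁.1, by linarith [hζ₁.2]⟩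
  have hζ₂' : ζ₂ ∈ Set.Ioo (b l) (a l) := ⟨by linarith [hζ₂.1], hζ₂.2.trans ht₂.2⟩
  have hex : ∀ m, ∃ z, m ∈ K → z ∈ Set.Ioo (b m) (a m) ∧ (S s).eval z = 0 ∧ (m = l → z = ζ₂) := by
    intro m
    by_cases hml : m = l
    · subst hml
      exact ⟨ζ₂, fun _ => ⟨hζ₂', hroot _ (Set.Ioo_subset_Icc_self hζ₂') e₂, fun _ => rfl⟩⟩
    by_cases hm : m ∈ K
    · obtain ⟨-, -, z, hz, hz0⟩ := h.sign hm (hS0 s hs') (hper s hs' m hm)
      exact ⟨z, fun _ => ⟨hz, hz0, fun h => (hml h).elim⟩⟩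
    · exact ⟨0, fun h => (hm h).elim⟩
  choose z hz using hex
  have hzl : z l = ζ₂ := (hz l hl).2.2 rfl
  have hne : ∀ m ∈ K, z m ≠ ζ₁ := by
    intro m hm
    by_cases hml : m = l
    · rw [hml, hzl]
      exact (by linarith [hζ₁.2, hζ₂.1] : ζ₁ < ζ₂).ne'
    · obtain ⟨h1, h2⟩ := (hz m hm).1
      rcases h.sep m hm l hl hml with h5 | h5
      · exact (by linarith [hζ₁'.1] : z m < ζ₁).ne
      · exact (by linarith [hζ₁'.2] : ζ₁ < z m).ne'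
  have hfac := CA_factor h (hdeg s hs').1 (fun m hm => (hz m hm).1) (fun m hm => (hz m hm).2.1)
    (hroot _ (Set.Ioo_subset_Icc_self hζ₁') e₁) hne t₂
  have ht₂' : t₂ ∈ Set.Icc (b l) (a l) := ⟨by linarith [ht₂.1], ht₂.2.le⟩
  have hpos := CA_prod_pos h hl (fun m hm => (hz m hm).1) hη ht₂' ht₂'
  rw [← Finset.mul_prod_erase K _ hl, hzl] at hfac
  have h1 : 0 < t₂ - ζ₁ := by linarith [hζ₁.2, ht₂.1]
  have h2 : 0 < t₂ - ζ₂ := by linarith [hζ₂.2]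
  have h3 : (S s).eval t₂ * A t₂ = (S s).leadingCoeff * ((t₂ - ζ₁) * (t₂ - ζ₂) *
      ((∏ m ∈ K.erase l, (t₂ - z m)) * ∏ m ∈ K.erase l, (t₂ - η m))) := by
    rw [hfac, hA]
    ring
  rw [h3] at h₂
  exact absurd h₂ (not_lt.2 (mul_neg_of_neg_of_pos (hdeg s hs').2
    (mul_pos (mul_pos h1 h2) hpos)).le)

/-- The pencil of polynomials with zero periods. -/
noncomputable def CA_S (K : Finset ℕ) (ξ₀ ξ₁ : ℕ → ℝ) (p σ s : ℝ) : ℝ[X] :=
  C σ * ∏ m ∈ K, (X - C (ξ₁ m)) + C (-s) * ((X - C p) * ∏ m ∈ K, (X - C (ξ₀ m)))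

theorem CA_S_eval (K : Finset ℕ) (ξ₀ ξ₁ : ℕ → ℝ) (p σ s t : ℝ) :
    (CA_S K ξ₀ ξ₁ p σ s).eval t =
      σ * ∏ m ∈ K, (t - ξ₁ m) - s * ((t - p) * ∏ m ∈ K, (t - ξ₀ m)) := by
  simp [CA_S, eval_prod, sub_eq_add_neg]

theorem CA_S_deg (K : Finset ℕ) (ξ₀ ξ₁ : ℕ → ℝ) (p σ : ℝ) {s : ℝ} (hs : 0 < s) :
    (CA_S K ξ₀ ξ₁ p σ s).natDegree = K.card + 1 ∧ (CA_S K ξ₀ ξ₁ p σ s).leadingCoeff < 0 := by
  have hM : ∀ z : ℕ → ℝ, (∏ m ∈ K, (X - C (z m))).Monic := fun z =>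
    monic_prod_of_monic _ _ fun m _ => monic_X_sub_C _
  have hMd : ∀ z : ℕ → ℝ, (∏ m ∈ K, (X - C (z m))).natDegree = K.card := fun z => by
    rw [natDegree_prod_of_monic _ _ fun m _ => monic_X_sub_C _]
    simp
  have hs0 : -s ≠ 0 := neg_ne_zero.2 hs.ne'
  have hN : ((X - C p) * ∏ m ∈ K, (X - C (ξ₀ m))).Monic := (monic_X_sub_C p).mul (hM ξ₀)
  have hNd : (C (-s) * ((X - C p) * ∏ m ∈ K, (X - C (ξ₀ m)))).natDegree = K.card + 1 := by
    rw [natDegree_C_mul hs0, (monic_X_sub_C p).natDegree_mul (hM ξ₀), natDegree_X_sub_C, hMd,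
      add_comm]
  have hlt : (C σ * ∏ m ∈ K, (X - C (ξ₁ m))).natDegree <
      (C (-s) * ((X - C p) * ∏ m ∈ K, (X - C (ξ₀ m)))).natDegree := by
    rw [hNd]
    exact Nat.lt_succ_of_le ((natDegree_C_mul_le _ _).trans (hMd ξ₁).le)
  refine ⟨by rw [CA_S, natDegree_add_eq_right_of_natDegree_lt hlt, hNd], ?_⟩
  rw [CA_S, leadingCoeff_add_of_degree_lt (degree_lt_degree hlt), leadingCoeff_mul,
    leadingCoeff_C, hN.leadingCoeff, mul_one]
  linarith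

theorem CA_S_per (h : Fam K b a w) {p : ℝ} (hp : ∀ l ∈ K, p < b l ∨ a l < p) {ξ₀ ξ₁ : ℕ → ℝ}
    (h₀ : Roots K b a w ξ₀) (h₁ : Roots K b a (fun l t => w l t * |t - p|⁻¹) ξ₁)
    (h' : Fam K b a (fun l t => w l t * |t - p|⁻¹)) (σ s : ℝ) {m : ℕ} (hm : m ∈ K) :
    II (b m) (a m) (fun t => (CA_S K ξ₀ ξ₁ p σ s).eval t * (w m t * |t - p|⁻¹)) = 0 := by
  obtain ⟨ε, hε⟩ : ∃ ε : ℝ, ∀ t ∈ Set.Ioo (b m) (a m), (t - p) * |t - p|⁻¹ = ε := by
    rcases hp m hm with h1 | h1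
    · refine ⟨1, fun t ht => ?_⟩
      have : 0 < t - p := by linarith [ht.1]
      rw [abs_of_pos this, mul_inv_cancel₀ this.ne']
    · refine ⟨-1, fun t ht => ?_⟩
      have : t - p < 0 := by linarith [ht.2]
      rw [abs_of_neg this, inv_neg, mul_neg, mul_inv_cancel₀ this.ne]
  have hc : ∀ z : ℕ → ℝ, Continuous fun t : ℝ => ∏ m ∈ K, (t - z m) := fun z =>
    continuous_finsetProd _ fun m _ => by fun_prop
  rw [II_congr (h.lt m hm) (g := fun t => σ * ((∏ m ∈ K, (t - ξ₁ m)) * (w m t * |t - p|⁻¹)) -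
      (s * ε) * ((∏ m ∈ K, (t - ξ₀ m)) * w m t)) (fun t ht => by
        rw [CA_S_eval, ← hε t ht]
        ring),
    II_sub (h.lt m hm) (f := fun t => σ * ((∏ m ∈ K, (t - ξ₁ m)) * (w m t * |t - p|⁻¹)))
      (g := fun t => (s * ε) * ((∏ m ∈ K, (t - ξ₀ m)) * w m t))
      (continuousOn_const.mul ((hc ξ₁).continuousOn.mul (h'.cont m hm)))
      (continuousOn_const.mul ((hc ξ₀).continuousOn.mul (h.cont m hm))),
    II_const_mul, II_const_mul, h₀.per m hm, h₁.per m hm]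
  simp

theorem CA_small {α β : ℝ} (hα : 0 < α) : ∃ s > 0, 0 < α - s * β := by
  refine ⟨α / (|β| + 1), by positivity, ?_⟩
  have h1 : 0 < |β| + 1 := by positivity
  have h2 : α / (|β| + 1) * β < α := by
    rw [div_mul_eq_mul_div, div_lt_iff₀ h1]
    exact mul_lt_mul_of_pos_left (by linarith [le_abs_self β]) hα
  linarith

theorem CA_large {α β : ℝ} (hβ : β < 0) : ∃ s > 0, 0 < α - s * β := by
  refine ⟨(|α| + 1) / (-β), div_pos (by positivity) (by linarith), ?_⟩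
  have h1 : (|α| + 1) / (-β) * β = -(|α| + 1) := by
    have := hβ.ne
    field_simp
  rw [h1]
  linarith [neg_abs_le α]

theorem CA {K : Finset ℕ} {b a : ℕ → ℝ} {w : ℕ → ℝ → ℝ} (h : Fam K b a w) {p : ℝ}
    (hp : ∀ l ∈ K, p < b l ∨ a l < p) {ξ₀ ξ₁ : ℕ → ℝ} (h₀ : Roots K b a w ξ₀)
    (h₁ : Roots K b a (fun l t => w l t * |t - p|⁻¹) ξ₁) {l : ℕ} (hl : l ∈ K) :
    (p < b l → ξ₁ l ≤ ξ₀ l) ∧ (a l < p → ξ₀ l ≤ ξ₁ l) := by
  have hne : ∀ m ∈ K, ∀ t ∈ Set.Icc (b m) (a m), t - p ≠ 0 := fun m hm t ht => by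
    rcases hp m hm with h1 | h1
    · exact (by linarith [ht.1] : 0 < t - p).ne'
    · exact (by linarith [ht.2] : t - p < 0).ne
  have h' : Fam K b a (fun l t => w l t * |t - p|⁻¹) :=
    h.mul (ρ := fun t => |t - p|⁻¹)
      (fun m hm => ContinuousOn.inv₀ (by fun_prop) fun t ht => abs_ne_zero.2 (hne m hm t ht))
      (fun m hm t ht => inv_pos.2 (abs_pos.2 (hne m hm t ht)))
  have hcont : ∀ σ t : ℝ, Continuous fun s => (CA_S K ξ₀ ξ₁ p σ s).eval t := fun σ t => by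
    simp only [CA_S_eval]
    fun_prop
  have key : ∀ t ∈ Set.Icc (b l) (a l), ∃ u v : ℝ, 0 < u ∧ 0 < v ∧ ∀ σ s : ℝ,
      (CA_S K ξ₀ ξ₁ p σ s).eval t * ∏ m ∈ K.erase l, (t - ξ₁ m) =
        σ * (t - ξ₁ l) * u - s * ((t - p) * (t - ξ₀ l) * v) := fun t ht => by
    refine ⟨_, _, CA_prod_pos h hl h₁.mem h₁.mem ht ht, CA_prod_pos h hl h₀.mem h₁.mem ht ht,
      fun σ s => ?_⟩
    rw [CA_S_eval, ← Finset.mul_prod_erase K (fun m => t - ξ₁ m) hl,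
      ← Finset.mul_prod_erase K (fun m => t - ξ₀ m) hl]
    ring
  obtain ⟨a₀, b₀⟩ := h₀.mem l hl
  obtain ⟨a₁, b₁⟩ := h₁.mem l hl
  constructor
  · intro hpl
    by_contra hlt
    push Not at hlt
    refine CA_core h' hl (S := CA_S K ξ₀ ξ₁ p 1) h₁.mem (fun s hs => CA_S_deg K ξ₀ ξ₁ p 1 hs)
      (fun s _ m hm => CA_S_per h hp h₀ h₁ h' 1 s hm) (hcont 1) hlt.le a₀ b₁ ?_ ?_ ?_
    · intro s hs t ht
      obtain ⟨u, v, hu, hv, e⟩ := key t ⟨by linarith [ht.1], by linarith [ht.2]⟩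
      rw [e]
      have h1 : 0 < t - p := by linarith [ht.1]
      have h2 : 0 < s * ((t - p) * v) := by positivity
      rcases ht.1.eq_or_lt with rfl | h3
      · nlinarith
      · have h4 : 0 < s * ((t - p) * v) * (t - ξ₀ l) := mul_pos h2 (by linarith)
        have h5 : (t - ξ₁ l) * u ≤ 0 := mul_nonpos_of_nonpos_of_nonneg (by linarith [ht.2]) hu.le
        nlinarith
    · obtain ⟨t, ht1, ht2⟩ := exists_between a₀
      obtain ⟨u, v, hu, hv, e⟩ := key t ⟨ht1.le, by linarith⟩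
      obtain ⟨s, hs, h1⟩ := CA_large (α := 1 * (t - ξ₁ l) * u)
        (mul_neg_of_neg_of_pos (mul_neg_of_pos_of_neg (by linarith : 0 < t - p)
          (by linarith : t - ξ₀ l < 0)) hv)
      exact ⟨s, hs, t, ⟨ht1, ht2⟩, by rwa [e]⟩
    · obtain ⟨t, ht1, ht2⟩ := exists_between b₁
      obtain ⟨u, v, hu, hv, e⟩ := key t ⟨by linarith, ht2.le⟩
      obtain ⟨s, hs, h1⟩ := CA_small (β := (t - p) * (t - ξ₀ l) * v)
        (mul_pos (by linarith : 0 < 1 * (t - ξ₁ l)) hu)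
      exact ⟨s, hs, t, ⟨ht1, ht2⟩, by rwa [e]⟩
  · intro hpl
    by_contra hlt
    push Not at hlt
    refine CA_core h' hl (S := CA_S K ξ₀ ξ₁ p (-1)) h₁.mem
      (fun s hs => CA_S_deg K ξ₀ ξ₁ p (-1) hs)
      (fun s _ m hm => CA_S_per h hp h₀ h₁ h' (-1) s hm) (hcont (-1)) hlt.le a₁ b₀ ?_ ?_ ?_
    · intro s hs t ht
      obtain ⟨u, v, hu, hv, e⟩ := key t ⟨by linarith [ht.1], by linarith [ht.2]⟩
      rw [e]
      have h1 : 0 < p - t := by linarith [ht.2]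
      have h2 : 0 < s * ((p - t) * v) := by positivity
      rcases ht.2.eq_or_lt with rfl | h3
      · nlinarith
      · have h4 : 0 < s * ((p - t) * v) * (ξ₀ l - t) := mul_pos h2 (by linarith)
        have h5 : 0 ≤ (t - ξ₁ l) * u := mul_nonneg (by linarith [ht.1]) hu.le
        nlinarith
    · obtain ⟨t, ht1, ht2⟩ := exists_between a₁
      obtain ⟨u, v, hu, hv, e⟩ := key t ⟨ht1.le, by linarith⟩
      obtain ⟨s, hs, h1⟩ := CA_small (β := (t - p) * (t - ξ₀ l) * v)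
        (mul_pos (by linarith : 0 < -1 * (t - ξ₁ l)) hu)
      exact ⟨s, hs, t, ⟨ht1, ht2⟩, by rwa [e]⟩
    · obtain ⟨t, ht1, ht2⟩ := exists_between b₀
      obtain ⟨u, v, hu, hv, e⟩ := key t ⟨by linarith, ht2.le⟩
      obtain ⟨s, hs, h1⟩ := CA_large (α := -1 * (t - ξ₁ l) * u)
        (mul_neg_of_neg_of_pos (mul_neg_of_neg_of_pos (by linarith : t - p < 0)
          (by linarith : 0 < t - ξ₀ l)) hv)
      exact ⟨s, hs, t, ⟨ht1, ht2⟩, by rwa [e]⟩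

end MW.AN
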