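import Pool.Agent.P.MP_064970_gt.AN.MP

/-! Row AN-GW: the explicit functions `gg`, `ww`, `wI`. Locally `gg = Re log (ζ + s)` with
`s² = ζ² - 1`, `|ζ + s| > 1`, and `ww = Re √(1 - ζ²)`
(`ww² = (|1 - ζ²| + Re (1 - ζ²)) / 2`, `ww² - (Im ζ)² = (|1 - ζ²| + 1 - |ζ|²) / 2 ∈ [0, 1]`). -/

open Complex InnerProductSpace Set Filter Topology Metric MeasureTheory
open scoped Real ComplexConjugate

namespace MW.AN

theorem GW_one_le (ζ : ℂ) : 1 ≤ (‖ζ - 1‖ + ‖ζ + 1‖) / 2 := by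
  have h := norm_sub_le (ζ + 1) (ζ - 1)
  rw [show ζ + 1 - (ζ - 1) = 2 by ring, Complex.norm_two] at h
  linarith

theorem GW_norm_le (ζ : ℂ) : ‖ζ‖ ≤ (‖ζ - 1‖ + ‖ζ + 1‖) / 2 := by
  have h := norm_add_le (ζ - 1) (ζ + 1)
  rw [show ζ - 1 + (ζ + 1) = 2 * ζ by ring, norm_mul, Complex.norm_two] at h
  linarith

theorem GW_conj (ζ : ℂ) : (‖conj ζ - 1‖ + ‖conj ζ + 1‖) / 2 = (‖ζ - 1‖ + ‖ζ + 1‖) / 2 := by
  rw [← Complex.norm_conj (ζ - 1), ← Complex.norm_conj (ζ + 1), map_sub, map_add, map_one]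

theorem GW_par (ζ : ℂ) : ‖ζ - 1‖ ^ 2 + ‖ζ + 1‖ ^ 2 = 2 * (‖ζ‖ ^ 2 + 1) := by
  simp only [Complex.sq_norm, normSq_apply, sub_re, sub_im, add_re, add_im, one_re, one_im]
  ring

theorem GW_sq (ζ : ℂ) :
    ((‖ζ - 1‖ + ‖ζ + 1‖) / 2) ^ 2 = (‖ζ‖ ^ 2 + 1 + ‖1 - ζ ^ 2‖) / 2 := by
  have h : ‖1 - ζ ^ 2‖ = ‖ζ - 1‖ * ‖ζ + 1‖ := by
    rw [← norm_mul, norm_sub_rev]; congr 1; ring
  rw [h]
  linarith [GW_par ζ]

theorem GW_log {W : ℂ} (h : 1 ≤ ‖W‖) : gg ((W + W⁻¹) / 2) = Real.log ‖W‖ := by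
  have h0 : 0 < ‖W‖ := by linarith
  have hW : W ≠ 0 := norm_pos_iff.1 h0
  have e1 : (W + W⁻¹) / 2 - 1 = (W - 1) ^ 2 / (2 * W) := by field_simp; ring
  have e2 : (W + W⁻¹) / 2 + 1 = (W + 1) ^ 2 / (2 * W) := by field_simp; ring
  unfold gg
  rw [e1, e2, ← Real.arcosh_cosh (Real.log_nonneg h), Real.cosh_log h0]
  congr 1
  simp only [norm_div, norm_pow, norm_mul, Complex.norm_two]
  rw [← add_div, GW_par]
  field_simp

/-- Local square roots. -/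
theorem GW_sqrt {G : ℂ → ℂ} {z s0 G' : ℂ} (hG : AnalyticAt ℂ G z) (hG' : HasDerivAt G G' z)
    (h : s0 ^ 2 = G z) (h0 : s0 ≠ 0) : ∃ s : ℂ → ℂ, AnalyticAt ℂ s z ∧ s z = s0 ∧
      (∀ᶠ w in 𝓝 z, s w ^ 2 = G w) ∧ HasDerivAt s (G' / (2 * s0)) z := by
  have h2 : s0 ^ 2 ≠ 0 := pow_ne_zero 2 h0
  have h1 : G z / s0 ^ 2 = 1 := by rw [← h, div_self h2]
  have hs : G z / s0 ^ 2 ∈ slitPlane := by rw [h1]; exact one_mem_slitPlane
  refine ⟨fun w => s0 * Complex.exp (Complex.log (G w / s0 ^ 2) / 2), ?_, by simp [h1], ?_, ?_⟩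
  · exact analyticAt_const.mul
      ((((hG.div_const (c := s0 ^ 2)).clog hs).div_const (c := 2)).cexp')
  · filter_upwards [hG.continuousAt.eventually_ne (h ▸ h2)] with w hw
    rw [mul_pow, sq (Complex.exp _), ← Complex.exp_add, add_halves,
      Complex.exp_log (div_ne_zero hw h2)]
    field_simp
  · have := ((((hG'.div_const (s0 ^ 2)).clog hs).div_const 2).cexp).const_mul s0
    simp only [h1, Complex.log_one, zero_div, Complex.exp_zero] at this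
    refine this.congr_deriv ?_
    field_simp

theorem GW_lo0 (z : ℂ) : z.im ^ 2 ≤ ((‖z - 1‖ + ‖z + 1‖) / 2) ^ 2 - z.re ^ 2 := by
  have h3 : ‖z‖ ^ 2 = z.re ^ 2 + z.im ^ 2 := by rw [Complex.sq_norm, normSq_apply]; ring
  have h4 := norm_sub_norm_le (z ^ 2) 1
  rw [norm_one, norm_pow, norm_sub_rev] at h4
  rw [GW_sq]
  linarith

theorem GW_lo (z : ℂ) : |z.im| ≤ ww z := Real.abs_le_sqrt (GW_lo0 z)

theorem GW_abs {ζ s : ℂ} (h : s ^ 2 = 1 - ζ ^ 2) : ww ζ = |s.re| := by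
  have h1 := congrArg Complex.re h
  simp only [pow_two, mul_re, sub_re, one_re] at h1
  have h2 : ‖ζ‖ ^ 2 = ζ.re ^ 2 + ζ.im ^ 2 := by rw [Complex.sq_norm, normSq_apply]; ring
  have h3 : ‖s‖ ^ 2 = s.re ^ 2 + s.im ^ 2 := by rw [Complex.sq_norm, normSq_apply]; ring
  unfold ww
  rw [GW_sq, ← h, norm_pow, h2, h3, ← Real.sqrt_sq_eq_abs]
  congr 1
  linarith

theorem GW_of_real {ζ : ℂ} {r : ℝ} (h : 1 - ζ ^ 2 = r) : ww ζ = √r := by
  rcases le_total 0 r with h0 | h0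
  · rw [GW_abs (s := (√r : ℝ)) (by rw [h, ← ofReal_pow, Real.sq_sqrt h0]), ofReal_re,
      abs_of_nonneg (Real.sqrt_nonneg r)]
  · rw [GW_abs (s := (√(-r) : ℝ) * I) (by
      rw [h, mul_pow, I_sq, ← ofReal_pow, Real.sq_sqrt (by linarith)]; push_cast; ring),
      Real.sqrt_eq_zero_of_nonpos h0]
    simp

theorem GW_scale {h : ℝ} (hh : 0 < h) (r : ℝ) : h * √r = √(h ^ 2 * r) := by
  rw [Real.sqrt_mul (by positivity), Real.sqrt_sq hh.le]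

theorem GW_loc {ζ : ℂ} (h : 0 < ww ζ) : HarmonicAt ww ζ ∧ D ww ζ ^ 2 * (1 - ζ ^ 2) = ζ ^ 2 := by
  obtain ⟨s0, hs0, h1⟩ : ∃ s : ℂ, s ^ 2 = 1 - ζ ^ 2 ∧ 0 < s.re := by
    obtain ⟨s, hs⟩ := IsAlgClosed.exists_pow_nat_eq (1 - ζ ^ 2) two_pos
    rw [GW_abs hs] at h
    rcases lt_or_gt_of_ne (abs_pos.1 h) with h1 | h1
    · exact ⟨-s, by rw [neg_sq, hs], by simpa using h1⟩
    · exact ⟨s, hs, h1⟩
  have hne : s0 ≠ 0 := by rintro rfl; simp at h1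
  obtain ⟨s, sa, s1, s2, s3⟩ := GW_sqrt (G := fun w => 1 - w ^ 2) (G' := -(2 * ζ)) (by fun_prop)
    (by simpa using (hasDerivAt_pow 2 ζ).const_sub 1) hs0 hne
  have ev : ww =ᶠ[𝓝 ζ] fun w => (s w).re := by
    have c1 : ContinuousAt (fun w => (s w).re) ζ :=
      continuous_re.continuousAt.comp sa.continuousAt
    filter_upwards [s2, c1.eventually (lt_mem_nhds (by simpa [s1] using h1))] with w h3 h4
    rw [GW_abs h3, abs_of_pos h4]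
  refine ⟨(harmonicAt_congr_nhds ev).2 sa.harmonicAt_re, ?_⟩
  rw [D_of_re s3 ev, ← hs0]
  field_simp

theorem gg_cont : Continuous gg :=
  continuousOn_univ.1 (Real.continuousOn_arcosh.comp (f := fun ζ : ℂ => (‖ζ - 1‖ + ‖ζ + 1‖) / 2)
    (by fun_prop) fun ζ _ => GW_one_le ζ)

theorem gg_conj (ζ : ℂ) : gg (conj ζ) = gg ζ := by
  unfold gg
  rw [GW_conj]

theorem gg_nonneg (ζ : ℂ) : 0 ≤ gg ζ :=
  Real.arcosh_nonneg (GW_one_le ζ)

theorem cosh_gg (ζ : ℂ) : Real.cosh (gg ζ) = (‖ζ - 1‖ + ‖ζ + 1‖) / 2 :=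
  Real.cosh_arcosh (GW_one_le ζ)

theorem gg_eq_zero_iff (ζ : ℂ) : gg ζ = 0 ↔ ζ.im = 0 ∧ |ζ.re| ≤ 1 := by
  unfold gg
  rw [Real.arcosh_eq_zero_iff (GW_one_le ζ)]
  have h1 := GW_sq ζ
  have h2 := GW_one_le ζ
  have h3 : ‖ζ‖ ^ 2 = ζ.re ^ 2 + ζ.im ^ 2 := by rw [Complex.sq_norm, normSq_apply]; ring
  have h4 : ‖1 - ζ ^ 2‖ ^ 2 = (1 - ζ.re ^ 2 + ζ.im ^ 2) ^ 2 + (2 * ζ.re * ζ.im) ^ 2 := by
    rw [Complex.sq_norm, normSq_apply]; simp [pow_two]; ring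
  have h5 := norm_nonneg (1 - ζ ^ 2)
  constructor
  · intro h
    rw [h, h3] at h1
    have h6 : ‖1 - ζ ^ 2‖ = 1 - ζ.re ^ 2 - ζ.im ^ 2 := by linarith
    rw [h6] at h4 h5
    have h7 : ζ.im ^ 2 = 0 := by nlinarith
    exact ⟨pow_eq_zero_iff two_ne_zero |>.1 h7, (sq_le_one_iff_abs_le_one _).1 (by linarith)⟩
  · rintro ⟨h6, h7⟩
    have h8 := (sq_le_one_iff_abs_le_one _).2 h7
    rw [h6] at h3 h4
    have h9 : ‖1 - ζ ^ 2‖ = 1 - ζ.re ^ 2 :=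
      (pow_left_inj₀ h5 (by linarith) two_ne_zero).1 (by rw [h4]; ring)
    refine (pow_left_inj₀ (by linarith) zero_le_one two_ne_zero).1 ?_
    rw [h1, h3, h9]; ring

theorem gg_harm {ζ : ℂ} (h : 0 < gg ζ) : HarmonicAt gg ζ ∧ D gg ζ ^ 2 * (ζ ^ 2 - 1) = 1 := by
  have key : ∀ w s : ℂ, s ^ 2 = w ^ 2 - 1 → 1 ≤ ‖w + s‖ → gg w = Real.log ‖w + s‖ := by
    intro w s hs h1
    have h0 : w + s ≠ 0 := norm_pos_iff.1 (by linarith)
    have h2 : (w + s)⁻¹ = w - s := inv_eq_of_mul_eq_one_right (by linear_combination -hs)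
    have h3 := GW_log h1
    rw [h2] at h3
    rw [← h3]; congr 1; ring
  obtain ⟨s0, hs0, h1⟩ : ∃ s : ℂ, s ^ 2 = ζ ^ 2 - 1 ∧ 1 ≤ ‖ζ + s‖ := by
    obtain ⟨s, hs⟩ := IsAlgClosed.exists_pow_nat_eq (ζ ^ 2 - 1) two_pos
    by_cases h1 : 1 ≤ ‖ζ + s‖
    · exact ⟨s, hs, h1⟩
    · refine ⟨-s, by rw [neg_sq, hs], ?_⟩
      have h2 : ‖ζ + s‖ * ‖ζ + -s‖ = 1 := by
        rw [← norm_mul, show (ζ + s) * (ζ + -s) = 1 by linear_combination -hs, norm_one]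
      nlinarith [norm_nonneg (ζ + s), norm_nonneg (ζ + -s)]
  have h2 : 1 < ‖ζ + s0‖ := by
    refine lt_of_le_of_ne h1 fun h2 => ?_
    rw [key ζ s0 hs0 h1, ← h2, Real.log_one] at h
    exact lt_irrefl _ h
  have hW : ζ + s0 ≠ 0 := norm_pos_iff.1 (by linarith)
  have hne : s0 ≠ 0 := by
    rintro rfl
    have h3 : (ζ - 1) * (ζ + 1) = 0 := by linear_combination -hs0
    rcases mul_eq_zero.1 h3 with h4 | h4
    · rw [sub_eq_zero.1 h4] at h2; simp at h2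
    · rw [eq_neg_of_add_eq_zero_left h4] at h2; simp at h2
  obtain ⟨s, sa, s1, s2, s3⟩ := GW_sqrt (G := fun w => w ^ 2 - 1) (G' := 2 * ζ) (by fun_prop)
    (by simpa using (hasDerivAt_pow 2 ζ).sub_const 1) hs0 hne
  have hslit : (ζ + s ζ) / (ζ + s0) ∈ slitPlane := by rw [s1, div_self hW]; exact one_mem_slitPlane
  have ev : gg =ᶠ[𝓝 ζ]
      fun w => (Complex.log ((w + s w) / (ζ + s0)) + (Real.log ‖ζ + s0‖ : ℝ)).re := by
    have c1 : ContinuousAt (fun w => ‖w + s w‖) ζ :=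
      (continuousAt_id.add sa.continuousAt).norm
    filter_upwards [s2, c1.eventually (lt_mem_nhds (by simpa [s1] using h2))] with w h3 h4
    rw [key w _ h3 h4.le, add_re, log_re, ofReal_re, norm_div,
      Real.log_div (by linarith) (by linarith)]
    ring
  have an : AnalyticAt ℂ
      (fun w => Complex.log ((w + s w) / (ζ + s0)) + (Real.log ‖ζ + s0‖ : ℝ)) ζ :=
    (((analyticAt_id.add sa).div_const (c := ζ + s0)).clog hslit).add analyticAt_const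
  refine ⟨(harmonicAt_congr_nhds ev).2 an.harmonicAt_re, ?_⟩
  have d1 := ((((hasDerivAt_id ζ).add s3).div_const (ζ + s0)).clog hslit).add_const
    ((Real.log ‖ζ + s0‖ : ℝ) : ℂ)
  rw [D_of_re d1 ev, ← hs0]
  simp only [Pi.add_apply, id, s1]
  field_simp
  ring

theorem cosh_two_gg (ζ : ℂ) : Real.cosh (2 * gg ζ) = ‖ζ‖ ^ 2 + ‖ζ ^ 2 - 1‖ := by
  rw [Real.cosh_two_mul, Real.sinh_sq, cosh_gg, GW_sq, norm_sub_rev]
  ring

theorem arcosh_le_gg {ζ : ℂ} (h : 1 ≤ ‖ζ‖) : Real.arcosh ‖ζ‖ ≤ gg ζ :=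
  (Real.arcosh_le_arcosh (by linarith) (by linarith [GW_one_le ζ])).2 (GW_norm_le ζ)

theorem gg_real {t : ℝ} (h : 1 ≤ |t|) : gg t = Real.arcosh |t| := by
  unfold gg
  congr 1
  have e1 : (t : ℂ) - 1 = ((t - 1 : ℝ) : ℂ) := by push_cast; ring
  have e2 : (t : ℂ) + 1 = ((t + 1 : ℝ) : ℂ) := by push_cast; ring
  rw [e1, e2, norm_real, norm_real, Real.norm_eq_abs, Real.norm_eq_abs]
  rcases le_abs'.1 h with h1 | h1
  · rw [abs_of_nonpos (by linarith), abs_of_nonpos (by linarith), abs_of_nonpos (by linarith)]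
    ring
  · rw [abs_of_nonneg (by linarith), abs_of_nonneg (by linarith), abs_of_nonneg (by linarith)]
    ring

theorem ww_mart : Mart 1 ww := by
  refine ⟨⟨by unfold ww; fun_prop, fun z => by unfold ww; rw [GW_conj, conj_re],
    fun z => Real.sqrt_nonneg _, fun z h => (GW_loc h).1, fun z h => ?_⟩, GW_lo, fun z => ?_⟩
  · exact (abs_pos.2 h.ne').trans_le (GW_lo z)
  · refine Real.sqrt_le_iff.2 ⟨by positivity, ?_⟩
    have h3 : ‖z‖ ^ 2 = z.re ^ 2 + z.im ^ 2 := by rw [Complex.sq_norm, normSq_apply]; ring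
    have h4 := norm_sub_le 1 (z ^ 2)
    rw [norm_one, norm_pow] at h4
    rw [GW_sq]
    nlinarith [sq_abs z.im, abs_nonneg z.im]

theorem ww_sq (ζ : ℂ) : ww ζ ^ 2 + ζ.re ^ 2 = Real.cosh (gg ζ) ^ 2 := by
  rw [cosh_gg]
  unfold ww
  rw [Real.sq_sqrt (by nlinarith [GW_lo0 ζ, sq_nonneg ζ.im])]
  ring

theorem D_ww {ζ : ℂ} (h : 0 < ww ζ) : D ww ζ ^ 2 * (1 - ζ ^ 2) = ζ ^ 2 :=
  (GW_loc h).2

theorem wI_mart {a b : ℝ} (hab : a < b) : Mart ((b - a) / 2) (wI a b) := by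
  have hh : 0 < (b - a) / 2 := by linarith
  have him : ∀ z : ℂ, ((z - (((a + b) / 2 : ℝ) : ℂ)) / (((b - a) / 2 : ℝ) : ℂ)).im =
      z.im / ((b - a) / 2) := fun z => by rw [div_ofReal_im, sub_im, ofReal_im, sub_zero]
  have habs : ∀ z : ℂ, (b - a) / 2 * |((z - (((a + b) / 2 : ℝ) : ℂ)) /
      (((b - a) / 2 : ℝ) : ℂ)).im| = |z.im| := fun z => by
    rw [him, abs_div, abs_of_pos hh, mul_div_cancel₀ _ hh.ne']
  have hlo : ∀ z : ℂ, |z.im| ≤ wI a b z := fun z => by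
    rw [← habs]; exact mul_le_mul_of_nonneg_left (ww_mart.lo _) hh.le
  refine ⟨⟨?_, fun z => ?_, fun z => mul_nonneg hh.le (ww_mart.nonneg _), fun z h => ?_,
    fun z h => (abs_pos.2 h.ne').trans_le (hlo z)⟩, hlo, fun z => ?_⟩
  · have := ww_mart.cont
    unfold wI
    fun_prop
  · unfold wI
    rw [← ww_mart.even, map_div₀, map_sub, conj_ofReal, conj_ofReal, conj_conj]
  · exact harm_const_mul _ (harm_comp
      (φ := fun z => (z - (((a + b) / 2 : ℝ) : ℂ)) / (((b - a) / 2 : ℝ) : ℂ)) (by fun_prop)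
      (ww_mart.harm _ ((mul_pos_iff_of_pos_left hh).1 h)))
  · have := mul_le_mul_of_nonneg_left (ww_mart.hi ((z - (((a + b) / 2 : ℝ) : ℂ)) /
      (((b - a) / 2 : ℝ) : ℂ))) hh.le
    rw [mul_add, habs, mul_one] at this
    exact this

theorem wI_real {a b : ℝ} (hab : a < b) (t : ℝ) : wI a b t = √((t - a) * (b - t)) := by
  have hh : 0 < (b - a) / 2 := by linarith
  unfold wI
  rw [GW_of_real (r := 1 - ((t - (a + b) / 2) / ((b - a) / 2)) ^ 2) (by push_cast; ring),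
    GW_scale hh]
  congr 1
  rw [mul_sub, ← mul_pow, mul_div_cancel₀ _ hh.ne']
  ring

theorem wI_mid {a b : ℝ} (hab : a < b) (y : ℝ) :
    wI a b ((((a + b) / 2 : ℝ) : ℂ) + y * I) = √(((b - a) / 2) ^ 2 + y ^ 2) := by
  have hh : 0 < (b - a) / 2 := by linarith
  unfold wI
  rw [GW_of_real (r := 1 + (y / ((b - a) / 2)) ^ 2) (by
    rw [add_sub_cancel_left, mul_div_right_comm, mul_pow, I_sq]; push_cast; ring), GW_scale hh]
  congr 1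
  rw [mul_add, ← mul_pow, mul_div_cancel₀ _ hh.ne', mul_one]

/-- Lower barrier (from `COMP`). -/
theorem LOWB {u : ℂ → ℝ} (h : Half u) {α a b : ℝ} (hα : 0 < α) (hlo : ∀ z : ℂ, α * |z.im| ≤ u z)
    (hab : a < b) (hG : ∀ t ∈ Ioo a b, 0 < u t) (z : ℂ) : α * wI a b z ≤ u z := by
  have h1 := COMP (wI_mart hab).toHalf (wI_mart hab).hi (h.const_mul (inv_pos.2 hα))
    (fun z => by rw [inv_mul_eq_div, le_div_iff₀ hα, mul_comm]; exact hlo z)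
    (fun t ht => by
      rw [wI_real hab, Real.sqrt_pos] at ht
      refine mul_pos (inv_pos.2 hα) (hG t ⟨?_, ?_⟩) <;> nlinarith) z
  rw [inv_mul_eq_div, le_div_iff₀ hα, mul_comm] at h1
  exact h1

end MW.AN
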