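import Pool.Agent.P.MP_064970_gt.AN.Bas

/-! Row AN-SP: Schwarz–Pick gradient estimates and their consequences. -/

open Complex InnerProductSpace Set Filter Topology Metric MeasureTheory
open scoped Real ComplexConjugate

namespace MW.AN

theorem SP_aux {G : ℂ → ℂ} {c G' : ℂ} {ρ : ℝ} (hρ : 0 < ρ) (hG : DifferentiableOn ℂ G (ball c ρ))
    (h0 : ∀ z ∈ ball c ρ, 0 < (G z).re) (hd : HasDerivAt G G' c) :
    ‖G'‖ ≤ 2 * (G c).re / ρ := by
  have hc : 0 < (G c).re := h0 c (mem_ball_self hρ)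
  have hne : ∀ z ∈ ball c ρ, G z + conj (G c) ≠ 0 := fun z hz e => by
    have h1 := congrArg Complex.re e
    have h2 := h0 z hz
    simp only [add_re, conj_re, zero_re] at h1
    linarith
  have hφ : DifferentiableOn ℂ (fun z => (G z - G c) / (G z + conj (G c))) (ball c ρ) :=
    (hG.sub_const _).div (hG.add_const _) hne
  have hm : MapsTo (fun z => (G z - G c) / (G z + conj (G c))) (ball c ρ)
      (closedBall ((fun z => (G z - G c) / (G z + conj (G c))) c) 1) := fun z hz => by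
    simp only [sub_self, zero_div, mem_closedBall, dist_zero_right, norm_div]
    refine div_le_one_of_le₀ ?_ (norm_nonneg _)
    refine (sq_le_sq₀ (norm_nonneg _) (norm_nonneg _)).1 ?_
    rw [Complex.sq_norm, Complex.sq_norm, normSq_apply, normSq_apply]
    have h2 := h0 z hz
    simp only [sub_re, sub_im, add_re, add_im, conj_re, conj_im]
    nlinarith [mul_pos h2 hc]
  have hs := Complex.norm_deriv_le_div_of_mapsTo_ball hφ hm hρ
  have hder : HasDerivAt (fun z => (G z - G c) / (G z + conj (G c)))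
      ((G' * (G c + conj (G c)) - (G c - G c) * G') / (G c + conj (G c)) ^ 2) c :=
    (hd.sub_const _).div (hd.add_const _) (hne c (mem_ball_self hρ))
  have he : G c + conj (G c) = ((2 * (G c).re : ℝ) : ℂ) := Complex.add_conj _
  have hn : (((2 * (G c).re : ℝ)) : ℂ) ≠ 0 := by
    rw [← he]; exact hne c (mem_ball_self hρ)
  have hv : (G' * (G c + conj (G c)) - (G c - G c) * G') / (G c + conj (G c)) ^ 2
      = G' / ((2 * (G c).re : ℝ) : ℂ) := by
    rw [he]; field_simp; ring
  rw [hder.deriv, hv, norm_div, Complex.norm_real, Real.norm_of_nonneg (by positivity),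
    div_le_iff₀ (by positivity)] at hs
  calc ‖G'‖ ≤ 1 / ρ * (2 * (G c).re) := hs
    _ = 2 * (G c).re / ρ := by ring

/-- `f + ε = Re F`, `φ = (F - F c) / (F + conj (F c))`, Schwarz lemma. -/
theorem SP_ball {f : ℂ → ℝ} {c : ℂ} {ρ : ℝ} (hρ : 0 < ρ) (hh : ∀ z ∈ ball c ρ, HarmonicAt f z)
    (h0 : ∀ z ∈ ball c ρ, 0 ≤ f z) : ‖D f c‖ ≤ 2 * f c / ρ := by
  obtain ⟨F, hF, hre⟩ := HarmonicOnNhd.exists_analyticOnNhd_ball_re_eq (z := c) (R := ρ) hh
  have hc := mem_ball_self (x := c) hρ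
  have hd : HasDerivAt F (deriv F c) c := (hF c hc).differentiableAt.hasDerivAt
  have hD : D f c = deriv F c :=
    D_of_re hd (Filter.eventually_of_mem (ball_mem_nhds c hρ) fun w hw => (hre hw).symm)
  rw [hD]
  refine le_of_forall_pos_le_add fun ε hε => ?_
  have h := SP_aux (G := fun z => F z + ((ε * ρ / 2 : ℝ) : ℂ)) hρ
    (hF.differentiableOn.add_const _) (fun z hz => by
      have h1 : (F z).re = f z := hre hz
      have h2 := h0 z hz
      simp only [add_re, ofReal_re, h1]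
      positivity) (hd.add_const _)
  have h1 : (F c).re = f c := hre hc
  simp only [add_re, ofReal_re, h1] at h
  calc ‖deriv F c‖ ≤ 2 * (f c + ε * ρ / 2) / ρ := h
    _ = 2 * f c / ρ + ε := by field_simp

theorem SP_im_pos {x y : ℝ} (hy : 0 < y) {w : ℂ} (hw : w ∈ ball (0 : ℂ) 1) :
    0 < ((x : ℂ) + y * I * ((1 + w) / (1 - w))).im := by
  have h1 : ‖w‖ < 1 := by simpa using hw
  have h2 : w.re * w.re + w.im * w.im < 1 := by
    rw [← normSq_apply, ← Complex.sq_norm]
    nlinarith [norm_nonneg w]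
  have h3 : 0 < normSq (1 - w) := by
    refine normSq_pos.2 fun e => ?_
    have : w = 1 := (sub_eq_zero.1 e).symm
    simp [this] at h1
  have h4 : ((1 + w) / (1 - w)).re = (1 - (w.re * w.re + w.im * w.im)) / normSq (1 - w) := by
    rw [div_re]
    simp only [add_re, one_re, sub_re, add_im, one_im, sub_im]
    ring
  have h5 : ((x : ℂ) + y * I * ((1 + w) / (1 - w))).im = y * ((1 + w) / (1 - w)).re := by
    simp only [add_im, ofReal_im, mul_im, mul_re, ofReal_re, I_re, I_im]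
    ring
  rw [h5, h4]
  exact mul_pos hy (div_pos (by linarith) h3)

/-- `SP_ball` for `f ∘ m`, `m w = x + i y (1 + w) / (1 - w)`, `m' 0 = 2 i y`. -/
theorem SP_half {f : ℂ → ℝ} (h : PosH f) {z : ℂ} (hz : 0 < z.im) : ‖D f z‖ ≤ f z / z.im := by
  set m : ℂ → ℂ := fun w => (z.re : ℂ) + z.im * I * ((1 + w) / (1 - w)) with hm
  have hm0 : m 0 = z := by simp [hm]
  have hne : ∀ w ∈ ball (0 : ℂ) 1, 1 - w ≠ 0 := fun w hw e => by
    have : w = 1 := (sub_eq_zero.1 e).symm
    simp [this] at hw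
  have han : ∀ w ∈ ball (0 : ℂ) 1, AnalyticAt ℂ m w := fun w hw =>
    analyticAt_const.add (analyticAt_const.mul
      ((analyticAt_const.add analyticAt_id).div (analyticAt_const.sub analyticAt_id) (hne w hw)))
  have hb := SP_ball (f := fun w => f (m w)) (c := 0) one_pos
    (fun w hw => harm_comp (han w hw) (h.harm _ (SP_im_pos hz hw)))
    (fun w hw => h.nonneg _ (SP_im_pos hz hw))
  have hd0 : HasDerivAt (fun w : ℂ => (1 + w) / (1 - w))
      ((1 * (1 - 0) - (1 + 0) * (-1)) / (1 - 0) ^ 2) 0 :=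
    ((hasDerivAt_id' (0 : ℂ)).const_add 1).div ((hasDerivAt_id' (0 : ℂ)).const_sub 1) (by simp)
  have hd : HasDerivAt m (z.im * I * ((1 * (1 - 0) - (1 + 0) * (-1)) / (1 - 0) ^ 2)) 0 :=
    (hd0.const_mul _).const_add _
  rw [D_comp hd (by rw [hm0]; exact h.harm z hz), hm0, norm_mul] at hb
  have hn : ‖(z.im : ℂ) * I * ((1 * (1 - 0) - (1 + 0) * (-1)) / (1 - 0) ^ 2)‖ = 2 * z.im := by
    have : (z.im : ℂ) * I * ((1 * (1 - 0) - (1 + 0) * (-1)) / (1 - 0) ^ 2)
        = ((2 * z.im : ℝ) : ℂ) * I := by push_cast; ring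
    rw [this, norm_mul, norm_I, mul_one, Complex.norm_real, Real.norm_of_nonneg (by positivity)]
  rw [hn] at hb
  rw [le_div_iff₀ hz]
  linarith

theorem SP_im_eq (x y : ℝ) : ((x : ℂ) + y * I).im = y := by simp

theorem SP_pt {f : ℂ → ℝ} (h : PosH f) (x : ℝ) {y : ℝ} (hy : 0 < y) :
    HarmonicAt f (x + y * I) ∧ |(D f (x + y * I)).im| * y ≤ f (x + y * I) ∧
      |(D f (x + y * I)).re| * y ≤ f (x + y * I) := by
  have hz : 0 < ((x : ℂ) + y * I).im := by rw [SP_im_eq]; exact hy
  have hs := SP_half h hz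
  rw [SP_im_eq, le_div_iff₀ hy] at hs
  exact ⟨h.harm _ hz,
    (mul_le_mul_of_nonneg_right (abs_im_le_norm _) hy.le).trans hs,
    (mul_le_mul_of_nonneg_right (abs_re_le_norm _) hy.le).trans hs⟩

theorem SP_mono {g g' : ℝ → ℝ} {s : Set ℝ} (hs : Convex ℝ s) (hd : ∀ t ∈ s, HasDerivAt g (g' t) t)
    (h0 : ∀ t ∈ s, 0 ≤ g' t) : MonotoneOn g s :=
  monotoneOn_of_deriv_nonneg hs (fun t ht => (hd t ht).continuousAt.continuousWithinAt)
    (fun t ht => (hd t (interior_subset ht)).differentiableAt.differentiableWithinAt)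
    fun t ht => by rw [(hd t (interior_subset ht)).deriv]; exact h0 t (interior_subset ht)

theorem PosH.ratio_anti {f : ℂ → ℝ} (h : PosH f) (x : ℝ) {y y' : ℝ} (hy : 0 < y) (hyy : y ≤ y') :
    f (x + y' * I) / y' ≤ f (x + y * I) / y := by
  have hm := SP_mono (g := fun s : ℝ => -(f (x + s * I) / s))
    (g' := fun s => -((-(D f (x + s * I)).im * s - f (x + s * I) * 1) / s ^ 2)) (convex_Ioi 0)
    (fun s hs => (((hasDerivAt_vert (SP_pt h x hs).1).div (hasDerivAt_id' s)
      (ne_of_gt hs))).neg)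
    (fun s hs => by
      have h1 := (SP_pt h x hs).2.1
      have h2 : -(D f (x + s * I)).im * s ≤ |(D f (x + s * I)).im| * s :=
        mul_le_mul_of_nonneg_right (neg_le_abs _) (le_of_lt hs)
      exact neg_nonneg.2 (div_nonpos_of_nonpos_of_nonneg (by linarith) (sq_nonneg _)))
  exact neg_le_neg_iff.1 (hm (mem_Ioi.2 hy) (mem_Ioi.2 (hy.trans_le hyy)) hyy)

theorem PosH.mul_mono {f : ℂ → ℝ} (h : PosH f) (x : ℝ) {y y' : ℝ} (hy : 0 < y) (hyy : y ≤ y') :
    y * f (x + y * I) ≤ y' * f (x + y' * I) := by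
  have hm := SP_mono (g := fun s : ℝ => s * f (x + s * I))
    (g' := fun s => 1 * f (x + s * I) + s * -(D f (x + s * I)).im) (convex_Ioi 0)
    (fun s hs => (hasDerivAt_id' s).mul (hasDerivAt_vert (SP_pt h x hs).1))
    (fun s hs => by
      have h1 := (SP_pt h x hs).2.1
      have h2 : (D f (x + s * I)).im * s ≤ |(D f (x + s * I)).im| * s :=
        mul_le_mul_of_nonneg_right (le_abs_self _) (le_of_lt hs)
      linarith)
  exact hm (mem_Ioi.2 hy) (mem_Ioi.2 (hy.trans_le hyy)) hyy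

theorem SP_exp {f : ℂ → ℝ} (h : PosH f) {y : ℝ} (hy : 0 < y) {σ : ℝ} (hσ : σ = 1 ∨ σ = -1)
    {x x' : ℝ} (hx : x ≤ x') :
    σ * (Real.exp (σ * x / y) * f (x + y * I)) ≤ σ * (Real.exp (σ * x' / y) * f (x' + y * I)) := by
  have hm := SP_mono (g := fun t : ℝ => σ * (Real.exp (σ * t / y) * f (t + y * I)))
    (g' := fun t => σ * (Real.exp (σ * t / y) * (σ * 1 / y) * f (t + y * I)
      + Real.exp (σ * t / y) * (D f (t + y * I)).re)) convex_univ
    (fun t _ => (((((hasDerivAt_id' t).const_mul σ).div_const y).exp).mul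
      (hasDerivAt_hor (SP_pt h t hy).1)).const_mul σ)
    (fun t _ => by
      have h1 := (SP_pt h t hy).2.2
      have h2 : |(D f (t + y * I)).re| ≤ f (t + y * I) / y := (le_div_iff₀ hy).2 h1
      have h3 := abs_le.1 h2
      have he := Real.exp_pos (σ * t / y)
      have e : σ * (Real.exp (σ * t / y) * (σ * 1 / y) * f (t + y * I)
          + Real.exp (σ * t / y) * (D f (t + y * I)).re)
          = Real.exp (σ * t / y) * (σ * σ * (f (t + y * I) / y) + σ * (D f (t + y * I)).re) := by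
        ring
      rw [e]
      refine mul_nonneg he.le ?_
      rcases hσ with rfl | rfl <;> linarith [h3.1, h3.2])
  exact hm (mem_univ _) (mem_univ _) hx

theorem PosH.harnack {f : ℂ → ℝ} (h : PosH f) (x x' : ℝ) {y : ℝ} (hy : 0 < y) :
    f (x' + y * I) ≤ Real.exp (|x - x'| / y) * f (x + y * I) := by
  rcases le_total x x' with hx | hx
  · have h1 := SP_exp h hy (Or.inr rfl) hx
    have e : Real.exp (|x - x'| / y) * Real.exp (-1 * x' / y) = Real.exp (-1 * x / y) := by
      rw [← Real.exp_add, abs_of_nonpos (by linarith)]; congr 1; ring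
    refine le_of_mul_le_mul_left ?_ (Real.exp_pos (-1 * x' / y))
    rw [← e] at h1
    linarith
  · have h1 := SP_exp h hy (Or.inl rfl) hx
    have e : Real.exp (|x - x'| / y) * Real.exp (1 * x' / y) = Real.exp (1 * x / y) := by
      rw [← Real.exp_add, abs_of_nonneg (by linarith)]; congr 1; ring
    refine le_of_mul_le_mul_left ?_ (Real.exp_pos (1 * x' / y))
    rw [← e] at h1
    linarith

theorem PosH.zero_of_zero {f : ℂ → ℝ} (h : PosH f) {z : ℂ} (hz : 0 < z.im) (h0 : f z = 0)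
    (w : ℂ) (hw : 0 < w.im) : f w = 0 := by
  have hz0 : f (z.re + z.im * I) = 0 := by rw [re_add_im]; exact h0
  have h1 : f (z.re + w.im * I) ≤ 0 := by
    rcases le_total z.im w.im with hh | hh
    · have := h.ratio_anti z.re hz hh
      rw [hz0, zero_div, div_le_iff₀ hw, zero_mul] at this
      exact this
    · have := h.mul_mono z.re hw hh
      rw [hz0, mul_zero] at this
      exact nonpos_of_mul_nonpos_right this hw |> fun h => h
  have h2 := h.harnack z.re w.re hw
  rw [re_add_im] at h2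
  exact le_antisymm (h2.trans (mul_nonpos_of_nonneg_of_nonpos (Real.exp_pos _).le h1))
    (h.nonneg w hw)

theorem PosH.exists_slope {f : ℂ → ℝ} (h : PosH f) : ∃ α, Slope f α := by
  have hpos : ∀ (x : ℝ) {y : ℝ}, 0 < y → 0 ≤ f (x + y * I) := fun x y hy =>
    h.nonneg _ (by rw [SP_im_eq]; exact hy)
  set g : ℝ → ℝ := fun y => f ((0 : ℝ) + (max y 1 : ℝ) * I) / max y 1 with hg
  have h1 : ∀ y : ℝ, 0 < max y 1 := fun y => lt_max_of_lt_right one_pos
  have hanti : Antitone g := fun y y' hy => h.ratio_anti 0 (h1 y) (max_le_max_right 1 hy)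
  have hg0 : ∀ y, 0 ≤ g y := fun y => div_nonneg (hpos 0 (h1 y)) (h1 y).le
  have hlim0 := tendsto_atTop_ciInf hanti ⟨0, by rintro _ ⟨y, rfl⟩; exact hg0 y⟩
  set α := ⨅ y, g y
  have hlim1 : Tendsto (fun y : ℝ => f ((0 : ℝ) + y * I) / y) atTop (𝓝 α) := by
    refine hlim0.congr' ?_
    filter_upwards [eventually_ge_atTop (1 : ℝ)] with y hy
    simp only [hg, max_eq_left hy]
  have hlim : ∀ x : ℝ, Tendsto (fun y : ℝ => f (x + y * I) / y) atTop (𝓝 α) := fun x => by
    have he : ∀ c : ℝ, Tendsto (fun y : ℝ => Real.exp (c / y) * (f ((0 : ℝ) + y * I) / y)) atTop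
        (𝓝 α) := fun c => by
      have h2 : Tendsto (fun y : ℝ => c / y) atTop (𝓝 0) := tendsto_const_nhds.div_atTop tendsto_id
      have h3 := ((Real.continuous_exp.tendsto 0).comp h2).mul hlim1
      rw [Real.exp_zero, one_mul] at h3
      exact h3
    refine tendsto_of_tendsto_of_tendsto_of_le_of_le' (he (-|x - 0|)) (he |0 - x|) ?_ ?_
    · filter_upwards [eventually_gt_atTop (0 : ℝ)] with y hy
      have h2 := h.harnack x 0 hy
      rw [← mul_div_assoc]
      refine div_le_div_of_nonneg_right ?_ hy.le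
      rw [neg_div, Real.exp_neg, inv_mul_le_iff₀ (Real.exp_pos _)]
      exact h2
    · filter_upwards [eventually_gt_atTop (0 : ℝ)] with y hy
      rw [← mul_div_assoc]
      exact div_le_div_of_nonneg_right (h.harnack 0 x hy) hy.le
  refine ⟨α, le_ciInf hg0, hlim, fun z hz => ?_⟩
  have h2 : α ≤ f (z.re + z.im * I) / z.im :=
    le_of_tendsto (hlim z.re) ((eventually_ge_atTop z.im).mono fun y hy =>
      h.ratio_anti z.re hz hy)
  rw [re_add_im] at h2
  exact (le_div_iff₀ hz).1 h2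

/-- `η = f - α y` is again nonnegative harmonic, of slope zero. -/
theorem Slope.eta {f : ℂ → ℝ} {α : ℝ} (h : PosH f) (hs : Slope f α) :
    PosH (fun z => f z - α * z.im) ∧ Slope (fun z => f z - α * z.im) 0 ∧
      ∀ z : ℂ, 0 < z.im → D f z = -I * α + D (fun z => f z - α * z.im) z := by
  refine ⟨⟨fun z hz => harm_sub (h.harm z hz) (harm_const_mul α (harm_im z)),
    fun z hz => sub_nonneg.2 (hs.lo z hz)⟩, ⟨le_rfl, fun x => ?_, fun z hz => ?_⟩, fun z hz => ?_⟩
  · have h1 := (hs.lim x).sub_const α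
    rw [sub_self] at h1
    refine h1.congr' ?_
    filter_upwards [eventually_gt_atTop (0 : ℝ)] with y hy
    rw [SP_im_eq]
    field_simp
  · rw [zero_mul]; exact sub_nonneg.2 (hs.lo z hz)
  · rw [D_sub (h.harm z hz) (harm_const_mul α (harm_im z)), D_const_mul α (harm_im z), D_im]
    ring

theorem liouville_pos {f : ℂ → ℝ} (hh : ∀ z, HarmonicAt f z) (h0 : ∀ z, 0 ≤ f z) :
    ∃ c, ∀ z, f z = c := by
  have hD : ∀ z, D f z = 0 := fun z => by
    have h1 : Tendsto (fun ρ : ℝ => 2 * f z / ρ) atTop (𝓝 0) :=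
      tendsto_const_nhds.div_atTop tendsto_id
    refine norm_le_zero_iff.1 (ge_of_tendsto h1 ?_)
    filter_upwards [eventually_gt_atTop (0 : ℝ)] with ρ hρ
    exact SP_ball hρ (fun w _ => hh w) fun w _ => h0 w
  have hd : Differentiable ℝ f := fun z => (hh z).1.differentiableAt (by norm_num)
  refine ⟨f 0, fun z => is_const_of_fderiv_eq_zero hd (fun w => ?_) z 0⟩
  ext v
  rw [fderiv_eq_re_D, hD]
  simp

end MW.AN
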