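import Pool.Agent.P.MP_064970_gt.AN.MP
import Pool.Agent.P.MP_064970_gt.AN.SP

/-! Row AN-Struct: structure of the boundary data. -/

open Complex InnerProductSpace Set Filter Topology Metric MeasureTheory
open scoped Real ComplexConjugate

namespace MW.AN

theorem Struct_not_both {u₁ u₂ : ℂ → ℝ} (hD : Data u₁ u₂) {t : ℝ} (h₁ : 0 < u₁ t)
    (h₂ : 0 < u₂ t) : False :=
  (mul_pos h₁ h₂).ne' (hD.prod t)

theorem Struct_pos_or {u₁ u₂ : ℂ → ℝ} (hD : Data u₁ u₂) {t : ℝ} (h : ¬ (u₁ t = 0 ∧ u₂ t = 0)) :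
    0 < u₁ t ∨ 0 < u₂ t := by
  rcases (hD.h₁.nonneg t).lt_or_eq with h1 | h1
  · exact Or.inl h1
  · rcases (hD.h₂.nonneg t).lt_or_eq with h2 | h2
    · exact Or.inr h2
    · exact absurd ⟨h1.symm, h2.symm⟩ h

theorem Data.type_const {u₁ u₂ : ℂ → ℝ} (hD : Data u₁ u₂) {s : Set ℝ} (hs : IsPreconnected s)
    (hZ : ∀ t ∈ s, 0 < u₁ t ∨ 0 < u₂ t) : (∀ t ∈ s, 0 < u₁ t) ∨ (∀ t ∈ s, 0 < u₂ t) := by
  have h1 : IsOpen {t : ℝ | 0 < u₁ t} :=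
    isOpen_lt continuous_const (hD.h₁.cont.comp continuous_ofReal)
  have h2 : IsOpen {t : ℝ | 0 < u₂ t} :=
    isOpen_lt continuous_const (hD.h₂.cont.comp continuous_ofReal)
  exact hs.subset_or_subset h1 h2
    (Set.disjoint_left.2 fun t ht ht' => Struct_not_both hD ht ht') hZ

/-- The types alternate at a common zero. -/
theorem Data.alt {u₁ u₂ : ℂ → ℝ} (hD : Data u₁ u₂) {c : ℝ} (h₁ : u₁ c = 0) (h₂ : u₂ c = 0) :
    ∃ r > 0, ((∀ t ∈ Ioo (c - r) c, 0 < u₁ t) ∧ ∀ t ∈ Ioo c (c + r), 0 < u₂ t) ∨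
      ((∀ t ∈ Ioo (c - r) c, 0 < u₂ t) ∧ ∀ t ∈ Ioo c (c + r), 0 < u₁ t) := by
  have hf := (hD.fin (c - 1) (c + 1)).subset (sdiff_subset (t := {c}))
  obtain ⟨ρ, hρ, hb⟩ := Metric.isOpen_iff.1 hf.isClosed.isOpen_compl c fun h => h.2 rfl
  have hr : 0 < min ρ 1 := lt_min hρ one_pos
  have key : ∀ t : ℝ, t ≠ c → |t - c| < min ρ 1 → 0 < u₁ t ∨ 0 < u₂ t := by
    intro t ht h
    refine Struct_pos_or hD fun hz => hb (a := t) ?_ ⟨⟨?_, hz⟩, ht⟩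
    · rw [mem_ball, Real.dist_eq]
      exact h.trans_le (min_le_left _ _)
    · have := abs_lt.1 (h.trans_le (min_le_right _ _))
      constructor <;> linarith [this.1, this.2]
  have hl := hD.type_const (s := Ioo (c - min ρ 1) c) isPreconnected_Ioo fun t ht =>
    key t ht.2.ne (abs_lt.2 ⟨by linarith [ht.1], by linarith [ht.2]⟩)
  have hu := hD.type_const (s := Ioo c (c + min ρ 1)) isPreconnected_Ioo fun t ht =>
    key t ht.1.ne' (abs_lt.2 ⟨by linarith [ht.1], by linarith [ht.2]⟩)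
  have iso : ∀ {u : ℂ → ℝ}, Half u → u c = 0 → (∀ t ∈ Ioo (c - min ρ 1) c, 0 < u t) →
      (∀ t ∈ Ioo c (c + min ρ 1), 0 < u t) → False := by
    intro u hu h0 ha hb
    refine (no_isolated_zero hu hr fun t ht h => ?_).ne' h0
    have := abs_lt.1 h
    rcases ht.lt_or_gt with h3 | h3
    · exact ha t ⟨by linarith [this.1], h3⟩
    · exact hb t ⟨h3, by linarith [this.2]⟩
  refine ⟨min ρ 1, hr, ?_⟩
  rcases hl with hl | hl <;> rcases hu with hu | hu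
  · exact (iso hD.h₁ h₁ hl hu).elim
  · exact Or.inl ⟨hl, hu⟩
  · exact Or.inr ⟨hl, hu⟩
  · exact (iso hD.h₂ h₂ hl hu).elim

theorem Struct_grad {u₁ u₂ : ℂ → ℝ} (hD : Data u₁ u₂) {z : ℂ} (hz : 0 < z.im) :
    ‖D u₁ z‖ ≤ √(1 + ‖D u₂ z‖ ^ 2) := by
  apply Real.le_sqrt_of_sq_le
  have h1 : D u₁ z ^ 2 = -1 - D u₂ z ^ 2 := by rw [← hD.eq z hz]; ring
  rw [← norm_pow, h1, ← norm_pow]
  refine (norm_sub_le _ _).trans ?_
  rw [norm_neg, norm_one]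

/-- At a real point with `u₂ > 0`: `|D u₁|² ≤ 1 + |D u₂|²` near the point, `u₁ x₀ = 0`, and
`u₁ (x₀ + i σ) / σ` decreases. -/
theorem EDGE {u₁ u₂ : ℂ → ℝ} (hD : Data u₁ u₂) {x₀ : ℝ} (h : 0 < u₂ x₀) {σ : ℝ} (hσ : 0 < σ) :
    u₁ (x₀ + σ * I) ≤ σ * √(1 + (D u₂ x₀).re ^ 2) := by
  have h0 : u₁ x₀ = 0 := (mul_eq_zero.1 (hD.prod x₀)).resolve_right h.ne'
  have hh := hD.h₂.harm _ h
  have hn : ‖D u₂ x₀‖ ^ 2 = (D u₂ x₀).re ^ 2 := by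
    rw [Complex.sq_norm, Complex.normSq_apply, D_im_eq_zero_of_even hD.h₂.even hh]
    ring
  have hline : Continuous fun s : ℝ => (x₀ : ℂ) + s * I := by fun_prop
  have hc : ContinuousAt (fun s : ℝ => √(1 + ‖D u₂ (x₀ + s * I)‖ ^ 2)) 0 := by
    have h1 : ContinuousAt (D u₂) ((x₀ : ℂ) + ((0 : ℝ) : ℂ) * I) := by
      simpa using (D_analyticAt hh).continuousAt
    have h2 : ContinuousAt (fun s : ℝ => D u₂ (x₀ + s * I)) 0 :=
      ContinuousAt.comp (f := fun s : ℝ => (x₀ : ℂ) + s * I) h1 hline.continuousAt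
    exact (continuousAt_const.add (h2.norm.pow 2)).sqrt
  rw [mul_comm σ, ← div_le_iff₀ hσ]
  refine le_of_forall_gt_imp_ge_of_dense fun K hK => ?_
  have h3 : ∀ᶠ s : ℝ in 𝓝 0, √(1 + ‖D u₂ (x₀ + s * I)‖ ^ 2) < K := by
    refine hc.eventually_lt continuousAt_const ?_
    simpa [hn] using hK
  obtain ⟨δ, hδ, h4⟩ := Metric.eventually_nhds_iff.1 h3
  have hs : 0 < min δ σ := lt_min hδ hσ
  refine (hD.h₁.posH.ratio_anti x₀ hs (min_le_right _ _)).trans ?_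
  obtain ⟨s, hs', h5⟩ := exists_hasDerivAt_eq_slope (fun s : ℝ => u₁ (x₀ + s * I))
    (fun s : ℝ => -(D u₁ (x₀ + s * I)).im) hs (hD.h₁.cont.comp hline).continuousOn
    fun s hs => hasDerivAt_vert (hD.h₁.harm_of_im_ne (by simpa using hs.1.ne'))
  have h6 : u₁ (x₀ + ((0 : ℝ) : ℂ) * I) = 0 := by simpa using h0
  rw [h6, sub_zero, sub_zero] at h5
  rw [← h5]
  have h7 : 0 < ((x₀ : ℂ) + s * I).im := by simpa using hs'.1
  have h8 := h4 (y := s) (by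
    rw [Real.dist_eq, sub_zero, abs_of_pos hs'.1]
    exact hs'.2.trans_le (min_le_left _ _))
  exact ((neg_le_abs _).trans (Complex.abs_im_le_norm _)).trans ((Struct_grad hD h7).trans h8.le)

/-- At the maximum of `u₂` on a bounded interval. -/
theorem EDGE_max {u₁ u₂ : ℂ → ℝ} (hD : Data u₁ u₂) {a b : ℝ} (hab : a < b) (ha : u₂ a = 0)
    (hb : u₂ b = 0) (h : ∀ t ∈ Ioo a b, 0 < u₂ t) :
    ∃ c ∈ Ioo a b, ∀ σ : ℝ, 0 < σ → u₁ (c + σ * I) ≤ σ := by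
  have hc : Continuous fun t : ℝ => u₂ t := hD.h₂.cont.comp continuous_ofReal
  obtain ⟨c, hc1, hc2⟩ := isCompact_Icc.exists_isMaxOn (nonempty_Icc.2 hab.le) hc.continuousOn
  have hm : (a + b) / 2 ∈ Ioo a b := ⟨by linarith, by linarith⟩
  have hpos : 0 < u₂ c := (h _ hm).trans_le (hc2 (Ioo_subset_Icc_self hm))
  have hc3 : c ∈ Ioo a b := by
    refine ⟨lt_of_le_of_ne hc1.1 ?_, lt_of_le_of_ne hc1.2 ?_⟩
    · rintro rfl
      exact hpos.ne' ha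
    · rintro rfl
      exact hpos.ne' hb
  have hloc : IsLocalMax (fun t : ℝ => u₂ t) c := hc2.isLocalMax (Icc_mem_nhds hc3.1 hc3.2)
  have h0 : (D u₂ c).re = 0 := hloc.hasDerivAt_eq_zero (hasDerivAt_real (hD.h₂.harm _ hpos))
  refine ⟨c, hc3, fun σ hσ => ?_⟩
  simpa [h0] using EDGE hD hpos hσ

/-- The type changes from one segment to the next. -/
theorem Struct_step {u₁ u₂ : ℂ → ℝ} (hD : Data u₁ u₂) {a c b : ℝ} (hac : a < c) (hcb : c < b)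
    (h₁ : u₁ c = 0) (h₂ : u₂ c = 0) (hZ : ∀ t ∈ Ioo c b, 0 < u₁ t ∨ 0 < u₂ t)
    (h : ∀ t ∈ Ioo a c, 0 < u₁ t) : ∀ t ∈ Ioo c b, 0 < u₂ t := by
  obtain ⟨r, hr, H⟩ := hD.alt h₁ h₂
  obtain ⟨s, hs1, hs2⟩ := exists_between (max_lt hac (sub_lt_self c hr))
  obtain ⟨t, ht1, ht2⟩ := exists_between (lt_min hcb (lt_add_of_pos_right c hr))
  rcases H with H | H
  · refine (hD.type_const isPreconnected_Ioo hZ).resolve_left fun h' => ?_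
    exact Struct_not_both hD (h' t ⟨ht1, ht2.trans_le (min_le_left _ _)⟩)
      (H.2 t ⟨ht1, ht2.trans_le (min_le_right _ _)⟩)
  · exact (Struct_not_both hD (h s ⟨(le_max_left _ _).trans_lt hs1, hs2⟩)
      (H.1 s ⟨(le_max_right _ _).trans_lt hs1, hs2⟩)).elim

theorem Struct_enum {u₁ u₂ : ℂ → ℝ} (hD : Data u₁ u₂) {e : ℤ → ℝ} (hm : StrictMono e)
    (hz : ∀ i, u₁ (e i) = 0 ∧ u₂ (e i) = 0)
    (hs : ∀ t : ℝ, u₁ t = 0 ∧ u₂ t = 0 → ∃ i, e i = t)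
    (hc : ∀ t : ℝ, ∃ i : ℤ, e i ≤ t ∧ t < e (i + 1))
    (h0 : ∀ t ∈ Ioo (e 0) (e (0 + 1)), 0 < u₁ t) : Enum e u₁ u₂ := by
  have hlt : ∀ i, e i < e (i + 1) := fun i => hm (lt_add_one i)
  have hZ : ∀ i, ∀ t ∈ Ioo (e i) (e (i + 1)), 0 < u₁ t ∨ 0 < u₂ t := by
    intro i t ht
    refine Struct_pos_or hD fun h => ?_
    obtain ⟨j, rfl⟩ := hs t h
    have h1 := hm.lt_iff_lt.1 ht.1
    have h2 := hm.lt_iff_lt.1 ht.2
    omega
  let T : ℤ → Prop := fun i => ∀ t ∈ Ioo (e i) (e (i + 1)), 0 < u₁ t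
  let S : ℤ → Prop := fun i => ∀ t ∈ Ioo (e i) (e (i + 1)), 0 < u₂ t
  have hTS : ∀ i, T i ∨ S i := fun i => hD.type_const isPreconnected_Ioo (hZ i)
  have hno : ∀ i, T i → S i → False := fun i h1 h2 => by
    obtain ⟨t, ht⟩ := exists_between (hlt i)
    exact Struct_not_both hD (h1 t ht) (h2 t ht)
  have s1 : ∀ i, T i → S (i + 1) := fun i h =>
    Struct_step hD (hlt i) (hlt (i + 1)) (hz _).1 (hz _).2 (hZ (i + 1)) h
  have s2 : ∀ i, S i → T (i + 1) := fun i h =>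
    Struct_step hD.symm (hlt i) (hlt (i + 1)) (hz _).2 (hz _).1
      (fun t ht => (hZ (i + 1) t ht).symm) h
  have hT : ∀ k : ℤ, T (2 * k) := by
    intro k
    induction k using Int.induction_on with
    | zero => exact h0
    | succ n ih =>
      have := s2 _ (s1 _ ih)
      rwa [show 2 * (n : ℤ) + 1 + 1 = 2 * (n + 1) by ring] at this
    | pred n ih =>
      refine (hTS _).resolve_right fun h => hno _ ih ?_
      have := s1 _ (s2 _ h)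
      rwa [show 2 * (-(n : ℤ) - 1) + 1 + 1 = 2 * -(n : ℤ) by ring] at this
  have hS : ∀ k : ℤ, ∀ t ∈ Ioo (e (2 * k + 1)) (e (2 * k + 2)), 0 < u₂ t := fun k => by
    have := s1 _ (hT k)
    simp only [S] at this
    rwa [show 2 * k + 1 + 1 = 2 * k + 2 by ring] at this
  refine ⟨hm, hT, hS, fun k t ht => ?_, fun k t ht => ?_, hc⟩
  · rcases ht.1.eq_or_lt with rfl | h1
    · exact (hz _).1
    · rcases ht.2.eq_or_lt with rfl | h2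
      · exact (hz _).1
      · exact (mul_eq_zero.1 (hD.prod t)).resolve_right (hS k t ⟨h1, h2⟩).ne'
  · rcases ht.1.eq_or_lt with rfl | h1
    · exact (hz _).2
    · rcases ht.2.eq_or_lt with rfl | h2
      · exact (hz _).2
      · exact (mul_eq_zero.1 (hD.prod t)).resolve_left (hT k t ⟨h1, h2⟩).ne'

/-- A locally finite set of reals that is unbounded on both sides is enumerated by `ℤ`. -/
theorem Struct_exists_enum {Z : Set ℝ} (hf : ∀ a b : ℝ, {x : ℝ | x ∈ Icc a b ∧ x ∈ Z}.Finite)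
    (hu : ∀ a, ∃ t ∈ Z, a < t) (hl : ∀ a, ∃ t ∈ Z, t < a) :
    ∃ e : ℤ → ℝ, StrictMono e ∧ (∀ i, e i ∈ Z) ∧ (∀ t ∈ Z, ∃ i, e i = t) ∧
      ∀ t : ℝ, ∃ i : ℤ, e i ≤ t ∧ t < e (i + 1) := by
  classical
  let _ : LocallyFiniteOrder Z := LocallyFiniteOrder.ofFiniteIcc fun a b =>
    ((hf a b).preimage Subtype.val_injective.injOn).subset fun x hx => ⟨hx, x.2⟩
  let _ : SuccOrder Z := LinearLocallyFiniteOrder.succOrder Z
  let _ : PredOrder Z := LinearLocallyFiniteOrder.predOrder Z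
  have : NoMaxOrder Z := ⟨fun a => by
    obtain ⟨t, ht, h⟩ := hu a
    exact ⟨⟨t, ht⟩, h⟩⟩
  have : NoMinOrder Z := ⟨fun a => by
    obtain ⟨t, ht, h⟩ := hl a
    exact ⟨⟨t, ht⟩, h⟩⟩
  have : Nonempty Z := by
    obtain ⟨t, ht, -⟩ := hu 0
    exact ⟨⟨t, ht⟩⟩
  let φ : Z ≃o ℤ := orderIsoIntOfLinearSuccPredArch
  have hm : StrictMono fun i : ℤ => (φ.symm i : ℝ) := fun i j h => φ.symm.strictMono h
  have hs : ∀ t ∈ Z, ∃ i, (φ.symm i : ℝ) = t := fun t ht => ⟨φ ⟨t, ht⟩, by simp⟩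
  refine ⟨fun i => φ.symm i, hm, fun i => (φ.symm i).2, hs, fun t => ?_⟩
  obtain ⟨a, ha, hat⟩ := hl t
  obtain ⟨b, hb, htb⟩ := hu t
  obtain ⟨i, rfl⟩ := hs a ha
  obtain ⟨j, rfl⟩ := hs b hb
  obtain ⟨k, hk, hmax⟩ := Int.exists_greatest_of_bdd (P := fun k => (φ.symm k : ℝ) ≤ t)
    ⟨j, fun k hk => (hm.lt_iff_lt.1 (hk.trans_lt htb)).le⟩ ⟨i, hat.le⟩
  refine ⟨k, hk, not_le.1 fun h => ?_⟩
  have := hmax (k + 1) h
  omega

theorem Enum.pos₁_iff {e : ℤ → ℝ} {u₁ u₂ : ℂ → ℝ} (h : Enum e u₁ u₂) (t : ℝ) :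
    0 < u₁ t ↔ ∃ k : ℤ, t ∈ Ioo (e (2 * k)) (e (2 * k + 1)) := by
  refine ⟨fun ht => ?_, fun ⟨k, hk⟩ => h.pos₁ k t hk⟩
  obtain ⟨i, h1, h2⟩ := h.cover t
  obtain ⟨k, rfl | rfl⟩ := Int.even_or_odd' i
  · refine ⟨k, lt_of_le_of_ne h1 ?_, h2⟩
    rintro rfl
    refine ht.ne' (h.zero₁ (k - 1) _ ⟨h.mono.monotone (by omega), h.mono.monotone (by omega)⟩)
  · exact absurd (h.zero₁ k t ⟨h1, h2.le.trans (h.mono.monotone (by omega))⟩) ht.ne'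

theorem Enum.pos₂_iff {e : ℤ → ℝ} {u₁ u₂ : ℂ → ℝ} (h : Enum e u₁ u₂) (t : ℝ) :
    0 < u₂ t ↔ ∃ k : ℤ, t ∈ Ioo (e (2 * k + 1)) (e (2 * k + 2)) := by
  refine ⟨fun ht => ?_, fun ⟨k, hk⟩ => h.pos₂ k t hk⟩
  obtain ⟨i, h1, h2⟩ := h.cover t
  obtain ⟨k, rfl | rfl⟩ := Int.even_or_odd' i
  · exact absurd (h.zero₂ k t ⟨h1, h2.le⟩) ht.ne'
  · refine ⟨k, lt_of_le_of_ne h1 ?_, h2.trans_le (h.mono.monotone (by omega))⟩
    rintro rfl
    exact ht.ne' (h.zero₂ k _ ⟨h.mono.monotone (by omega), le_rfl⟩)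

theorem Enum.swap {e : ℤ → ℝ} {u₁ u₂ : ℂ → ℝ} (h : Enum e u₁ u₂) :
    Enum (fun i => e (i + 1)) u₂ u₁ := by
  refine ⟨fun i j hij => h.mono (by omega), fun k t ht => h.pos₂ k t ?_,
    fun k t ht => h.pos₁ (k + 1) t ?_, fun k t ht => h.zero₂ (k + 1) t ?_,
    fun k t ht => h.zero₁ k t ?_, fun t => ?_⟩
  · rwa [show 2 * k + 2 = 2 * k + 1 + 1 by ring]
  · rwa [show 2 * (k + 1) + 1 = 2 * k + 2 + 1 by ring, show 2 * (k + 1) = 2 * k + 1 + 1 by ring]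
  · rwa [show 2 * (k + 1) + 1 = 2 * k + 2 + 1 by ring, show 2 * (k + 1) = 2 * k + 1 + 1 by ring]
  · rwa [show 2 * k + 2 = 2 * k + 1 + 1 by ring]
  · obtain ⟨i, h1, h2⟩ := h.cover t
    exact ⟨i - 1, by simpa using h1, by simpa using h2⟩

/-- Enumeration of the common zeros. -/
theorem ENUM {u₁ u₂ : ℂ → ℝ} (hD : Data u₁ u₂) {Lb : ℝ}
    (hL : ∀ a : ℝ, ∃ t ∈ Icc a (a + Lb), u₁ t = 0 ∧ u₂ t = 0) : ∃ e : ℤ → ℝ, Enum e u₁ u₂ := by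
  obtain ⟨e, hm, hz, hs, hc⟩ := Struct_exists_enum (Z := {t : ℝ | u₁ t = 0 ∧ u₂ t = 0}) hD.fin
    (fun a => by
      obtain ⟨t, ht, h⟩ := hL (a + 1)
      exact ⟨t, h, by linarith [ht.1]⟩)
    (fun a => by
      obtain ⟨t, ht, h⟩ := hL (a - 1 - Lb)
      exact ⟨t, h, by linarith [ht.2]⟩)
  have hZ : ∀ t ∈ Ioo (e 0) (e (0 + 1)), 0 < u₁ t ∨ 0 < u₂ t := by
    intro t ht
    refine Struct_pos_or hD fun h => ?_
    obtain ⟨j, rfl⟩ := hs t h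
    have h1 := hm.lt_iff_lt.1 ht.1
    have h2 := hm.lt_iff_lt.1 ht.2
    omega
  rcases hD.type_const isPreconnected_Ioo hZ with h0 | h0
  · exact ⟨e, Struct_enum hD hm hz hs hc h0⟩
  · exact ⟨_, (Struct_enum hD.symm hm (fun i => (hz i).symm) (fun t h => hs t h.symm) hc h0).swap⟩

end MW.AN
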