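import Pool.Agent.P.MP_064970_gt.AN.SM
import Pool.Agent.P.MP_064970_gt.AN.GW
import Pool.Agent.P.MP_064970_gt.AN.Struct

/-! Row AN-Case0: the case `α = 1`, `β = 0`. -/

open Complex InnerProductSpace Set Filter Topology Metric MeasureTheory
open scoped Real ComplexConjugate

namespace MW.AN

/-- The first zero to the right of a point of positivity. -/
theorem c0_first_zero {f : ℝ → ℝ} (hf : Continuous f) (h0 : ∀ t, 0 ≤ f t) {p : ℝ} (hp : 0 < f p)
    (hz : ¬ ∀ t, p < t → 0 < f t) : ∃ b, p < b ∧ f b = 0 ∧ ∀ t ∈ Ico p b, 0 < f t := by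
  have hcl : IsClosed (Ici p ∩ f ⁻¹' {0}) := isClosed_Ici.inter (isClosed_singleton.preimage hf)
  have hb : BddBelow (Ici p ∩ f ⁻¹' {0}) := ⟨p, fun t ht => ht.1⟩
  have hne : (Ici p ∩ f ⁻¹' {0}).Nonempty := by
    by_contra hn
    exact hz fun t ht => (h0 t).lt_of_ne fun h1 => hn ⟨t, ht.le, h1.symm⟩
  have hm := hcl.csInf_mem hne hb
  have hz' : f (sInf (Ici p ∩ f ⁻¹' {0})) = 0 := hm.2
  refine ⟨_, (mem_Ici.1 hm.1).lt_of_ne fun h1 => hp.ne' (h1 ▸ hz'), hz', fun t ht => ?_⟩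
  exact (h0 t).lt_of_ne fun h1 => (csInf_le hb ⟨ht.1, h1.symm⟩).not_gt ht.2

/-- The last zero to the left of a point of positivity. -/
theorem c0_last_zero {f : ℝ → ℝ} (hf : Continuous f) (h0 : ∀ t, 0 ≤ f t) {p : ℝ} (hp : 0 < f p)
    (hz : ¬ ∀ t, t < p → 0 < f t) : ∃ a, a < p ∧ f a = 0 ∧ ∀ t ∈ Ioc a p, 0 < f t := by
  obtain ⟨b, h1, h2, h3⟩ := c0_first_zero (f := fun t => f (-t)) (hf.comp continuous_neg)
    (fun t => h0 _) (p := -p) (by simpa using hp) fun h => hz fun t ht => by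
      simpa using h (-t) (by linarith)
  refine ⟨-b, by linarith, h2, fun t ht => ?_⟩
  simpa using h3 (-t) ⟨by linarith [ht.2], by linarith [ht.1]⟩

theorem c0_cont {u : ℂ → ℝ} (h : Half u) : Continuous fun t : ℝ => u t :=
  h.cont.comp continuous_ofReal

theorem c0_zero_of_pos {u₁ u₂ : ℂ → ℝ} (hD : Data u₁ u₂) {t : ℝ} (h : 0 < u₁ t) : u₂ t = 0 :=
  (mul_eq_zero.1 (hD.prod t)).resolve_left h.ne'

theorem c0_exists_pos {u₁ u₂ : ℂ → ℝ} (hD : Data u₁ u₂) {c : ℝ} (h₂ : u₂ c = 0) :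
    ∃ t : ℝ, 0 < u₁ t := by
  rcases (hD.h₁.nonneg c).eq_or_lt with h | h
  · obtain ⟨r, hr, h1 | h1⟩ := hD.alt h.symm h₂
    · exact ⟨c - r / 2, h1.1 _ ⟨by linarith, by linarith⟩⟩
    · exact ⟨c + r / 2, h1.2 _ ⟨by linarith, by linarith⟩⟩
  · exact ⟨c, h⟩

/-- No bounded component of `{u₂ > 0}`. -/
theorem c0_no_bdd {u₁ u₂ : ℂ → ℝ} (hD : Data u₁ u₂) (h₁ : Slope u₁ 1) {a b : ℝ} (hab : a < b)
    (ha : u₂ a = 0) (hb : u₂ b = 0) (h : ∀ t ∈ Ioo a b, 0 < u₂ t) : False := by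
  obtain ⟨c, -, hc⟩ := EDGE_max hD hab ha hb h
  have hη := (Slope.eta hD.h₁.posH h₁).1
  have him : ((c : ℂ) + (1 : ℝ) * I).im = 1 := by simp
  have h0 : u₁ (c + (1 : ℝ) * I) - 1 * ((c : ℂ) + (1 : ℝ) * I).im = 0 := by
    have h1 := hc 1 one_pos
    have h2 := hη.nonneg (c + (1 : ℝ) * I) (by rw [him]; exact one_pos)
    rw [him] at h2 ⊢
    linarith
  have h3 := hη.zero_of_zero (by rw [him]; exact one_pos) h0
  have h4 := eq_of_eqOn_upper hD.h₁.cont mart_abs_im.cont hD.h₁.even mart_abs_im.even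
    fun z hz => by
      have h5 : u₁ z - 1 * z.im = 0 := h3 z hz
      rw [abs_of_pos hz]; linarith
  obtain ⟨t, ht⟩ := c0_exists_pos hD ha
  rw [h4] at ht
  simp at ht

theorem c0_lo {u₁ : ℂ → ℝ} (h : Half u₁) (h₁ : Slope u₁ 1) {a b : ℝ} (hab : a < b)
    (hG : ∀ t ∈ Ioo a b, 0 < u₁ t) (z : ℂ) : wI a b z ≤ u₁ z := by
  have h1 := LOWB h one_pos (h₁.abs_lo h) hab hG z
  rwa [one_mul] at h1

theorem c0_no_right {u₁ : ℂ → ℝ} (h : Half u₁) (h₁ : Slope u₁ 1) (p : ℝ) :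
    ¬ ∀ t : ℝ, p < t → 0 < u₁ t := by
  intro hp
  have h0 := h.nonneg ((p + 1 : ℝ) : ℂ)
  have h1 := c0_lo h h₁ (a := p) (b := p + 1 + (u₁ ((p + 1 : ℝ) : ℂ) + 1) ^ 2) (by nlinarith)
    (fun t ht => hp t ht.1) ((p + 1 : ℝ) : ℂ)
  rw [wI_real (by nlinarith), add_sub_cancel_left, add_sub_cancel_left, one_mul,
    Real.sqrt_sq (by linarith)] at h1
  linarith

theorem c0_no_left {u₁ : ℂ → ℝ} (h : Half u₁) (h₁ : Slope u₁ 1) (p : ℝ) :
    ¬ ∀ t : ℝ, t < p → 0 < u₁ t := by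
  intro hp
  have h0 := h.nonneg ((p - 1 : ℝ) : ℂ)
  have h1 := c0_lo h h₁ (a := p - 1 - (u₁ ((p - 1 : ℝ) : ℂ) + 1) ^ 2) (b := p) (by nlinarith)
    (fun t ht => hp t ht.2) ((p - 1 : ℝ) : ℂ)
  rw [wI_real (by nlinarith), sub_sub_cancel, sub_sub_cancel, mul_one,
    Real.sqrt_sq (by linarith)] at h1
  linarith

/-- No bounded component of `{u₂ > 0}` (`EDGE_max`, `zero_of_zero`, `Data.alt`), no unbounded
component of `{u₁ > 0}` (`LOWB`). -/
theorem case0_struct {u₁ u₂ : ℂ → ℝ} (hD : Data u₁ u₂) (h₁ : Slope u₁ 1) :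
    (∀ t : ℝ, 0 < u₂ t) ∨ ∃ a b : ℝ, a < b ∧ (∀ t : ℝ, 0 < u₁ t ↔ t ∈ Ioo a b) := by
  by_cases h : ∀ t : ℝ, 0 < u₂ t
  · exact Or.inl h
  right
  obtain ⟨t₀, ht₀⟩ := not_forall.1 h
  obtain ⟨p, hp⟩ := c0_exists_pos hD (le_antisymm (not_lt.1 ht₀) (hD.h₂.nonneg _))
  obtain ⟨b, hpb, hb, hbp⟩ := c0_first_zero (c0_cont hD.h₁) (fun t => hD.h₁.nonneg _) hp
    (c0_no_right hD.h₁ h₁ p)
  obtain ⟨a, hap, ha, hpa⟩ := c0_last_zero (c0_cont hD.h₁) (fun t => hD.h₁.nonneg _) hp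
    (c0_no_left hD.h₁ h₁ p)
  have hab := hap.trans hpb
  have hG : ∀ t ∈ Ioo a b, 0 < u₁ t := fun t ht => by
    rcases le_total t p with h1 | h1
    · exact hpa t ⟨ht.1, h1⟩
    · exact hbp t ⟨h1, ht.2⟩
  have hz : ∀ t ∈ Icc a b, u₂ t = 0 := by
    have hcl : IsClosed ((fun t : ℝ => u₂ t) ⁻¹' {0}) :=
      isClosed_singleton.preimage (c0_cont hD.h₂)
    rw [← closure_Ioo hab.ne]
    exact fun t ht => hcl.closure_subset_iff.2 (fun s hs => c0_zero_of_pos hD (hG s hs)) ht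
  have ha₂ := hz a (left_mem_Icc.2 hab.le)
  have hb₂ := hz b (right_mem_Icc.2 hab.le)
  have hright : ∀ t : ℝ, b < t → 0 < u₂ t := by
    obtain ⟨r, hr, h1 | h1⟩ := hD.alt hb hb₂
    · by_contra hn
      obtain ⟨b', k1, k2, k3⟩ := c0_first_zero (c0_cont hD.h₂) (fun t => hD.h₂.nonneg _)
        (p := b + r / 2) (h1.2 _ ⟨by linarith, by linarith⟩) fun h2 => hn fun t ht => by
          rcases lt_or_ge t (b + r) with h3 | h3
          · exact h1.2 t ⟨ht, h3⟩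
          · exact h2 t (by linarith)
      refine c0_no_bdd hD h₁ (a := b) (b := b') (by linarith) hb₂ k2 fun t ht => ?_
      rcases lt_or_ge t (b + r) with h3 | h3
      · exact h1.2 t ⟨ht.1, h3⟩
      · exact k3 t ⟨by linarith, ht.2⟩
    · have h2 : max a (b - r / 2) < b := max_lt hab (by linarith)
      have h3 := h1.1 (max a (b - r / 2)) ⟨lt_max_of_lt_right (by linarith), h2⟩
      exact absurd (hz _ ⟨le_max_left _ _, h2.le⟩) h3.ne'
  have hleft : ∀ t : ℝ, t < a → 0 < u₂ t := by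
    obtain ⟨r, hr, h1 | h1⟩ := hD.alt ha ha₂
    · have h2 : a < min b (a + r / 2) := lt_min hab (by linarith)
      have h3 := h1.2 (min b (a + r / 2)) ⟨h2, min_lt_of_right_lt (by linarith)⟩
      exact absurd (hz _ ⟨h2.le, min_le_left _ _⟩) h3.ne'
    · by_contra hn
      obtain ⟨a', k1, k2, k3⟩ := c0_last_zero (c0_cont hD.h₂) (fun t => hD.h₂.nonneg _)
        (p := a - r / 2) (h1.1 _ ⟨by linarith, by linarith⟩) fun h2 => hn fun t ht => by
          rcases lt_or_ge (a - r) t with h3 | h3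
          · exact h1.1 t ⟨h3, ht⟩
          · exact h2 t (by linarith)
      refine c0_no_bdd hD h₁ (a := a') (b := a) (by linarith) k2 ha₂ fun t ht => ?_
      rcases lt_or_ge (a - r) t with h3 | h3
      · exact h1.1 t ⟨h3, ht.2⟩
      · exact k3 t ⟨ht.1, by linarith⟩
  refine ⟨a, b, hab, fun t => ⟨fun ht => ⟨?_, ?_⟩, hG t⟩⟩
  · by_contra hn
    rcases (not_lt.1 hn).eq_or_lt with h1 | h1
    · exact ht.ne' (h1 ▸ ha)
    · exact (hleft t h1).ne' (c0_zero_of_pos hD ht)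
  · by_contra hn
    rcases (not_lt.1 hn).eq_or_lt with h1 | h1
    · exact ht.ne' (h1 ▸ hb)
    · exact (hright t h1).ne' (c0_zero_of_pos hD ht)

/-- A `Half` function of slope zero along the imaginary axis is sublinear. -/
theorem c0_sublinear {f : ℂ → ℝ} (hf : Half f)
    (hl : ∀ ε > 0, ∀ᶠ y : ℝ in atTop, f ((0 : ℝ) + y * I) ≤ ε * y) :
    ∀ ε > 0, ∃ R₀ : ℝ, ∀ z : ℂ, R₀ ≤ ‖z‖ → f z ≤ ε * ‖z‖ := by
  intro ε hε
  obtain ⟨C, hC, hS⟩ := SM
  obtain ⟨R, hR⟩ := eventually_atTop.1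
    ((hl (ε / C) (div_pos hε hC)).and (eventually_gt_atTop 0))
  refine ⟨R, fun z hz => ?_⟩
  obtain ⟨h1, h2⟩ := hR _ hz
  have h3 := hS f hf 0 ‖z‖ h2 z (by rw [sub_zero]; exact abs_re_le_norm z) (abs_im_le_norm z)
  calc f z ≤ C * (ε / C * ‖z‖) := h3.trans (mul_le_mul_of_nonneg_left h1 hC.le)
    _ = ε * ‖z‖ := by field_simp

theorem c0_eq_wI {u₁ : ℂ → ℝ} (h : Half u₁) (h₁ : Slope u₁ 1) {a b : ℝ} (hab : a < b)
    (hG : ∀ t : ℝ, 0 < u₁ t ↔ t ∈ Ioo a b) (z : ℂ) : u₁ z = wI a b z := by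
  have hw := wI_mart hab
  have hlo := c0_lo h h₁ hab fun t ht => (hG t).2 ht
  have hcont : Continuous fun z => u₁ z - wI a b z := h.cont.sub hw.cont
  have hev : ∀ z, u₁ (conj z) - wI a b (conj z) = u₁ z - wI a b z := fun z => by
    rw [h.even, hw.even]
  have hh : ∀ z : ℂ, (z.im ≠ 0 ∨ 0 < u₁ z - wI a b z) →
      HarmonicAt (fun z => u₁ z - wI a b z) z ∧ HarmonicAt (wI a b) z := by
    intro z hz
    have key : 0 < u₁ z ∧ 0 < wI a b z := by
      by_cases him : z.im = 0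
      · have h1 : 0 < u₁ z := by
          have h2 := hz.resolve_left (not_not.2 him)
          linarith [hw.nonneg z]
        have h3 : z = (z.re : ℂ) := Complex.ext rfl him
        refine ⟨h1, ?_⟩
        rw [h3] at h1 ⊢
        have h4 := (hG _).1 h1
        rw [wI_real hab]
        exact Real.sqrt_pos.2 (mul_pos (sub_pos.2 h4.1) (sub_pos.2 h4.2))
      · exact ⟨h.pos_of_im_ne him, hw.toHalf.pos_of_im_ne him⟩
    exact ⟨harm_sub (h.harm z key.1) (hw.harm z key.2), hw.harm z key.2⟩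
  by_cases hpos : ∀ z : ℂ, 0 < z.im → 0 < u₁ z - wI a b z
  · have hf : Half fun z => u₁ z - wI a b z :=
      ⟨hcont, hev, fun z => sub_nonneg.2 (hlo z), fun z hz => (hh z (Or.inr hz)).1, hpos⟩
    refine le_antisymm (sub_nonpos.1 (PL hcont hw.cont hw.lo hh (c0_sublinear hf ?_) z)) (hlo z)
    intro ε hε
    filter_upwards [(h₁.lim 0).eventually (gt_mem_nhds (show (1 : ℝ) < 1 + ε by linarith)),
      eventually_gt_atTop 0] with y h1 h2
    have h3 := hw.lo ((0 : ℝ) + y * I)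
    have h4 : (((0 : ℝ) : ℂ) + y * I).im = y := by simp
    rw [h4, abs_of_pos h2] at h3
    rw [div_lt_iff₀ h2] at h1
    linarith
  · obtain ⟨z₀, hz₀⟩ := not_forall.1 hpos
    obtain ⟨k1, k2⟩ := Classical.not_imp.1 hz₀
    have hP : PosH fun z => u₁ z - wI a b z :=
      ⟨fun z hz => (hh z (Or.inl hz.ne')).1, fun z _ => sub_nonneg.2 (hlo z)⟩
    have h0 := hP.zero_of_zero k1 (le_antisymm (not_lt.1 k2) (sub_nonneg.2 (hlo z₀)))
    exact eq_of_eqOn_upper h.cont hw.cont h.even hw.even (fun z hz => sub_eq_zero.1 (h0 z hz)) z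

/-- Rescaling does not change `D`. -/
theorem c0_D_scale {f : ℂ → ℝ} {x₀ c : ℝ} (hc : 0 < c) {z : ℂ}
    (h : HarmonicAt f ((z - x₀) / c)) :
    HarmonicAt (fun w => c * f ((w - x₀) / c)) z ∧
      D (fun w => c * f ((w - x₀) / c)) z = D f ((z - x₀) / c) := by
  have hc' : (c : ℂ) ≠ 0 := ofReal_ne_zero.2 hc.ne'
  have h1 : HarmonicAt (fun w => f ((w - x₀) / c)) z :=
    harm_comp (φ := fun w => (w - x₀) / c) (by fun_prop) h
  have h2 : HasDerivAt (fun w : ℂ => (w - x₀) / c) (1 / c) z :=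
    ((hasDerivAt_id z).sub_const _).div_const _
  refine ⟨harm_const_mul c h1, ?_⟩
  rw [D_const_mul c h1, D_comp h2 h]
  field_simp

/-- `u₁ - wI a b ≥ 0` is zero or `Half`, sublinear by `SM`, so `PL` applies; then
`(D u₂)² = (D g)²`. -/
theorem case0_cat {u₁ u₂ : ℂ → ℝ} (hD : Data u₁ u₂) (h₁ : Slope u₁ 1) {a b : ℝ} (hab : a < b)
    (hG : ∀ t : ℝ, 0 < u₁ t ↔ t ∈ Ioo a b) : IsCat u₁ u₂ := by
  have hmid : u₂ (((a + b) / 2 : ℝ) : ℂ) = 0 :=
    c0_zero_of_pos hD ((hG _).2 ⟨by linarith, by linarith⟩)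
  have hc : 0 < (b - a) / 2 := by linarith
  have hu : u₁ = fun z => (b - a) / 2 *
      ww ((z - (((a + b) / 2 : ℝ) : ℂ)) / (((b - a) / 2 : ℝ) : ℂ)) :=
    funext (c0_eq_wI hD.h₁ h₁ hab hG)
  generalize (b - a) / 2 = c at hc hu
  generalize (a + b) / 2 = x₀ at hmid hu
  have hc' : (c : ℂ) ≠ 0 := ofReal_ne_zero.2 hc.ne'
  have him : ∀ z : ℂ, 0 < z.im → 0 < ((z - x₀) / c).im := fun z hz => by
    rw [div_ofReal_im, sub_im, ofReal_im, sub_zero]
    exact div_pos hz hc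
  have hgg : ∀ z : ℂ, 0 < z.im → 0 < gg ((z - x₀) / c) := fun z hz =>
    (gg_nonneg _).lt_of_ne fun h0 => (him z hz).ne' ((gg_eq_zero_iff _).1 h0.symm).1
  have hGd := fun z hz => c0_D_scale (x₀ := x₀) hc (gg_harm (hgg z hz)).1
  have hGc : Continuous fun w : ℂ => c * gg ((w - x₀) / c) :=
    continuous_const.mul (gg_cont.comp (by fun_prop))
  have hGe : ∀ w : ℂ, c * gg ((conj w - x₀) / c) = c * gg ((w - x₀) / c) := fun w => by
    rw [← gg_conj ((w - x₀) / c), map_div₀, map_sub, conj_ofReal, conj_ofReal]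
  have hG0 : c * gg (((x₀ : ℂ) - x₀) / c) = 0 := by
    rw [sub_self, zero_div, (gg_eq_zero_iff 0).2 (by simp), mul_zero]
  have hh₂ : ∀ z : ℂ, 0 < z.im → HarmonicAt u₂ z := hD.h₂.posH.harm
  have hsq : ∀ z : ℂ, 0 < z.im → (D u₂ z - D (fun w => c * gg ((w - x₀) / c)) z) *
      (D u₂ z + D (fun w => c * gg ((w - x₀) / c)) z) = 0 := by
    intro z hz
    have hw := ww_mart.pos _ (him z hz)
    have e1 := hD.eq z hz
    rw [hu, (c0_D_scale hc (ww_mart.harm _ hw)).2] at e1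
    have e2 := D_ww hw
    have e3 := (gg_harm (hgg z hz)).2
    rw [(hGd z hz).2]
    have hne : ((z - x₀) / c) ^ 2 - 1 ≠ 0 := fun h0 => by
      rw [h0, mul_zero] at e3
      exact zero_ne_one e3
    refine mul_right_cancel₀ hne ?_
    linear_combination (((z - x₀) / c) ^ 2 - 1) * e1 + e2 - e3
  have hu₂ : ∀ z, u₂ z = c * gg ((z - x₀) / c) := by
    rcases eq_zero_or_of_mul
      (fun z hz => (D_analyticAt (hh₂ z hz)).sub (D_analyticAt (hGd z hz).1))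
      (fun z hz => (D_analyticAt (hh₂ z hz)).add (D_analyticAt (hGd z hz).1)) hsq with h | h
    · obtain ⟨k, hk⟩ := const_of_D_eq_zero (f := fun w => u₂ w - c * gg ((w - x₀) / c))
        (fun z hz => harm_sub (hh₂ z hz) (hGd z hz).1)
        fun z hz => (D_sub (hh₂ z hz) (hGd z hz).1).trans (h z hz)
      have h2 := eq_of_eqOn_upper (f := fun w => u₂ w - c * gg ((w - x₀) / c)) (g := fun _ => k)
        (hD.h₂.cont.sub hGc) continuous_const
        (fun z => by simp only [hD.h₂.even, hGe]) (fun _ => rfl) hk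
      have h3 := h2 x₀
      simp only [hmid, hG0, sub_zero] at h3
      intro z
      have h4 := h2 z
      simp only [← h3] at h4
      linarith
    · obtain ⟨k, hk⟩ := const_of_D_eq_zero (f := fun w => u₂ w + c * gg ((w - x₀) / c))
        (fun z hz => harm_add (hh₂ z hz) (hGd z hz).1)
        fun z hz => (D_add (hh₂ z hz) (hGd z hz).1).trans (h z hz)
      have h2 := eq_of_eqOn_upper (f := fun w => u₂ w + c * gg ((w - x₀) / c)) (g := fun _ => k)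
        (hD.h₂.cont.add hGc) continuous_const
        (fun z => by simp only [hD.h₂.even, hGe]) (fun _ => rfl) hk
      have h3 := h2 x₀
      simp only [hmid, hG0, add_zero] at h3
      have h4 := h2 I
      have h5 := hD.h₂.pos I (by simp)
      have h6 := mul_nonneg hc.le (gg_nonneg ((I - x₀) / c))
      simp only [← h3] at h4
      linarith
  refine ⟨x₀, c, hc, fun z => ?_⟩
  have h1 := ww_sq ((z - x₀) / c)
  rw [div_ofReal_re, sub_re, ofReal_re] at h1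
  rw [hu₂, mul_div_cancel_left₀ _ hc.ne', ← h1, hu]
  field_simp

theorem CASE0 {u₁ u₂ : ℂ → ℝ} (hD : Data u₁ u₂) (h₁ : Slope u₁ 1) :
    (∃ c, ∀ z, u₂ z = c) ∨ IsCat u₁ u₂ := by
  rcases case0_struct hD h₁ with h | ⟨a, b, hab, hG⟩
  · refine Or.inl (liouville_pos (fun z => ?_) hD.h₂.nonneg)
    by_cases him : z.im = 0
    · have h3 : z = (z.re : ℂ) := Complex.ext rfl him
      rw [h3]
      exact hD.h₂.harm _ (h _)
    · exact hD.h₂.harm_of_im_ne him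
  · exact Or.inr (case0_cat hD h₁ hab hG)

end MW.AN
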