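import Pool.Agent.P.MP_064970_gt.AN.LL

/-! Row AN-CoerS: Schur test with a logarithmic loss. Cauchy–Schwarz with
`(τ l - τ k)² ≤ |l - k| ∑_{j between} (τ (j+1) - τ j)²`; the loss is
`(∑_{d ≤ n} 1/d)² ≤ C n^{1/8}`. -/

open Filter Topology MeasureTheory Finset Polynomial
open scoped Real

namespace MW.AN

theorem coerS_cast_dist (k l : ℕ) : |(k : ℝ) - l| = (Nat.dist k l : ℝ) := by
  rcases le_total k l with h | h
  · rw [Nat.dist_eq_sub_of_le h, Nat.cast_sub h, abs_sub_comm, abs_of_nonneg]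
    exact sub_nonneg.2 (by exact_mod_cast h)
  · rw [Nat.dist_eq_sub_of_le_right h, Nat.cast_sub h, abs_of_nonneg]
    exact sub_nonneg.2 (by exact_mod_cast h)

theorem coerS_sum_le {s t : Finset ℕ} {φ : ℕ → ℕ} {f : ℕ → ℝ} (hf : ∀ i, 0 ≤ f i)
    (hφ : Set.InjOn φ s) (hm : ∀ l ∈ s, φ l ∈ t) : ∑ l ∈ s, f (φ l) ≤ ∑ i ∈ t, f i := by
  rw [← Finset.sum_image (f := f) hφ]
  refine Finset.sum_le_sum_of_subset_of_nonneg ?_ fun i _ _ => hf i
  intro i hi
  obtain ⟨l, hl, rfl⟩ := Finset.mem_image.1 hi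
  exact hm l hl

/-- Schur test. -/
theorem coerS_schur (n : ℕ) (v : ℕ → ℕ → ℝ) (x : ℕ → ℝ) {H : ℝ} (hH : 0 ≤ H)
    (hv : ∀ k l, 0 ≤ v k l) (hs : ∀ k l, v k l = v l k)
    (hrow : ∀ k < n, ∑ l ∈ range n, v k l ≤ H) :
    ∑ k ∈ range n, (∑ l ∈ range n, x l * v k l) ^ 2 ≤ H ^ 2 * ∑ l ∈ range n, x l ^ 2 := by
  calc ∑ k ∈ range n, (∑ l ∈ range n, x l * v k l) ^ 2
      ≤ ∑ k ∈ range n, H * ∑ l ∈ range n, x l ^ 2 * v k l := by
        refine Finset.sum_le_sum fun k hk => ?_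
        have h1 : (∑ l ∈ range n, x l * v k l) ^ 2 ≤
            (∑ l ∈ range n, v k l) * ∑ l ∈ range n, x l ^ 2 * v k l :=
          Finset.sum_sq_le_sum_mul_sum_of_sq_le_mul _ (fun l _ => hv k l)
            (fun l _ => mul_nonneg (sq_nonneg _) (hv k l)) fun l _ => le_of_eq (by ring)
        exact h1.trans (mul_le_mul_of_nonneg_right (hrow k (mem_range.1 hk))
          (Finset.sum_nonneg fun l _ => mul_nonneg (sq_nonneg _) (hv k l)))
    _ = H * ∑ l ∈ range n, x l ^ 2 * ∑ k ∈ range n, v l k := by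
        rw [← Finset.mul_sum, Finset.sum_comm]
        congr 1
        refine Finset.sum_congr rfl fun l _ => ?_
        rw [Finset.mul_sum]
        exact Finset.sum_congr rfl fun k _ => by rw [hs k l]
    _ ≤ H * ∑ l ∈ range n, x l ^ 2 * H := by
        refine mul_le_mul_of_nonneg_left (Finset.sum_le_sum fun l hl => ?_) hH
        exact mul_le_mul_of_nonneg_left (hrow l (mem_range.1 hl)) (sq_nonneg _)
    _ = H ^ 2 * ∑ l ∈ range n, x l ^ 2 := by rw [← Finset.sum_mul]; ring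

theorem coerS_harm {n : ℕ} (hn : 1 ≤ n) :
    ∑ i ∈ range n, (1 + (i : ℝ))⁻¹ ≤ 17 * (n : ℝ) ^ (1 / 16 : ℝ) := by
  have h1 := harmonic_le_one_add_log n
  have h2 : ((harmonic n : ℚ) : ℝ) = ∑ i ∈ range n, (1 + (i : ℝ))⁻¹ := by
    simp only [harmonic, Rat.cast_sum, Rat.cast_inv, Rat.cast_natCast]
    exact Finset.sum_congr rfl fun i _ => by rw [Nat.cast_add_one, add_comm]
  have h3 := Real.log_le_rpow_div (x := n) (Nat.cast_nonneg n) (ε := 1 / 16) (by norm_num)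
  have h4 : (1 : ℝ) ≤ (n : ℝ) ^ (1 / 16 : ℝ) :=
    Real.one_le_rpow (by exact_mod_cast hn) (by norm_num)
  rw [← h2]
  linarith

theorem coerS_row {n k : ℕ} (hk : k < n) :
    ∑ l ∈ range n, (1 + (Nat.dist k l : ℝ))⁻¹ ≤ 34 * (n : ℝ) ^ (1 / 16 : ℝ) := by
  have h0 := coerS_harm (n := n) (by omega)
  rw [← Finset.sum_filter_add_sum_filter_not (range n) (fun l => l ≤ k)]
  have h1 : ∑ l ∈ (range n).filter (fun l => l ≤ k), (1 + (Nat.dist k l : ℝ))⁻¹ ≤
      ∑ i ∈ range n, (1 + (i : ℝ))⁻¹ := by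
    refine coerS_sum_le (f := fun i => (1 + (i : ℝ))⁻¹) (fun i => by positivity) ?_ ?_
    · intro a ha b hb h
      simp only [coe_filter, mem_range, Set.mem_ofPred_eq] at ha hb
      simp only [Nat.dist] at h
      omega
    · intro l hl
      simp only [mem_filter, mem_range] at hl
      simp only [Nat.dist, mem_range]
      omega
  have h2 : ∑ l ∈ (range n).filter (fun l => ¬ l ≤ k), (1 + (Nat.dist k l : ℝ))⁻¹ ≤
      ∑ i ∈ range n, (1 + (i : ℝ))⁻¹ := by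
    refine coerS_sum_le (f := fun i => (1 + (i : ℝ))⁻¹) (fun i => by positivity) ?_ ?_
    · intro a ha b hb h
      simp only [coe_filter, mem_range, Set.mem_ofPred_eq] at ha hb
      simp only [Nat.dist] at h
      omega
    · intro l hl
      simp only [mem_filter, mem_range] at hl
      simp only [Nat.dist, mem_range]
      omega
  linarith

/-- The weights beyond the edge `j`. -/
theorem coerS_tail (n k j : ℕ) :
    ∑ l ∈ (range n).filter (fun l => min k l ≤ j ∧ j < max k l),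
      ((1 + (Nat.dist k l : ℝ)) ^ 2)⁻¹ ≤ 2 * (1 + (Nat.dist k j : ℝ))⁻¹ := by
  have h1 := sum_Ioo_inv_sq_le (α := ℝ) (Nat.dist k j) (n + k + 2)
  have h2 : ∑ l ∈ (range n).filter (fun l => min k l ≤ j ∧ j < max k l),
      (((1 + Nat.dist k l : ℕ) : ℝ) ^ 2)⁻¹ ≤
      ∑ i ∈ Ioo (Nat.dist k j) (n + k + 2), ((i : ℝ) ^ 2)⁻¹ := by
    refine coerS_sum_le (φ := fun l => 1 + Nat.dist k l) (f := fun i => ((i : ℝ) ^ 2)⁻¹)
      (fun i => by positivity) ?_ ?_
    · intro a ha b hb h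
      simp only [coe_filter, mem_range, Set.mem_ofPred_eq] at ha hb
      simp only [Nat.dist] at h
      omega
    · intro l hl
      simp only [mem_filter, mem_range] at hl
      simp only [Nat.dist, mem_Ioo]
      omega
  push_cast at h2
  rw [← div_eq_mul_inv, add_comm (1 : ℝ) (Nat.dist k j : ℝ)]
  exact h2.trans h1

theorem coerS_tele (τ : ℕ → ℝ) {n k l : ℕ} (hk : k < n) (hl : l < n) :
    |τ l - τ k| ≤ ∑ j ∈ range (n - 1),
      if min k l ≤ j ∧ j < max k l then |τ j - τ (j + 1)| else 0 := by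
  have h1 : |τ l - τ k| = dist (τ (min k l)) (τ (max k l)) := by
    rcases le_total k l with h | h
    · rw [min_eq_left h, max_eq_right h, Real.dist_eq, abs_sub_comm]
    · rw [min_eq_right h, max_eq_left h, Real.dist_eq]
  rw [h1, ← Finset.sum_filter]
  refine (dist_le_Ico_sum_dist τ min_le_max).trans (le_of_eq ?_)
  refine Finset.sum_congr ?_ fun j _ => Real.dist_eq _ _
  ext j
  simp only [mem_Ico, mem_filter, mem_range]
  omega

theorem coerS_tau (τ : ℕ → ℝ) {n k : ℕ} (hk : k < n) :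
    ∑ l ∈ range n, |τ l - τ k| * ((1 + (Nat.dist k l : ℝ)) ^ 2)⁻¹ ≤
      ∑ j ∈ range (n - 1), 2 * |τ j - τ (j + 1)| * (1 + (Nat.dist k j : ℝ))⁻¹ := by
  calc ∑ l ∈ range n, |τ l - τ k| * ((1 + (Nat.dist k l : ℝ)) ^ 2)⁻¹
      ≤ ∑ l ∈ range n, ∑ j ∈ range (n - 1), |τ j - τ (j + 1)| *
          if min k l ≤ j ∧ j < max k l then ((1 + (Nat.dist k l : ℝ)) ^ 2)⁻¹ else 0 := by
        refine Finset.sum_le_sum fun l hl => ?_
        refine (mul_le_mul_of_nonneg_right (coerS_tele τ hk (mem_range.1 hl))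
          (by positivity)).trans (le_of_eq ?_)
        rw [Finset.sum_mul]
        refine Finset.sum_congr rfl fun j _ => ?_
        split_ifs <;> simp
    _ = ∑ j ∈ range (n - 1), |τ j - τ (j + 1)| *
          ∑ l ∈ (range n).filter (fun l => min k l ≤ j ∧ j < max k l),
            ((1 + (Nat.dist k l : ℝ)) ^ 2)⁻¹ := by
        rw [Finset.sum_comm]
        refine Finset.sum_congr rfl fun j _ => ?_
        rw [Finset.sum_filter, Finset.mul_sum]
    _ ≤ _ := by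
        refine Finset.sum_le_sum fun j _ => ?_
        have h1 := mul_le_mul_of_nonneg_left (coerS_tail n k j) (abs_nonneg (τ j - τ (j + 1)))
        linarith

theorem coerS_cut (n : ℕ) (f : ℕ → ℝ) :
    ∑ j ∈ range n, (if j < n - 1 then f j else 0) = ∑ j ∈ range (n - 1), f j := by
  rw [← Finset.sum_filter]
  refine Finset.sum_congr ?_ fun _ _ => rfl
  ext j
  simp only [mem_filter, mem_range]
  omega

theorem coer_seq (B : ℝ) : ∃ C : ℝ, 0 < C ∧ ∀ (n : ℕ) (δ σ τ : ℕ → ℝ),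
    (∀ k < n, |δ k| ≤ B * ∑ l ∈ range n, (|σ l| + |τ l - τ k|) / (1 + |(k : ℝ) - l|) ^ 2) →
    ∑ k ∈ range n, δ k ^ 2 ≤ C * (n : ℝ) ^ (1 / 8 : ℝ) *
      (∑ l ∈ range n, σ l ^ 2 + ∑ k ∈ range (n - 1), (τ k - τ (k + 1)) ^ 2) := by
  refine ⟨8 * 34 ^ 2 * B ^ 2 + 1, by positivity, fun n δ σ τ h => ?_⟩
  set x : ℕ → ℝ := fun l => |σ l| + if l < n - 1 then 2 * |τ l - τ (l + 1)| else 0 with hx
  set v : ℕ → ℕ → ℝ := fun k l => (1 + (Nat.dist k l : ℝ))⁻¹ with hv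
  have h1 : ∀ k < n, ∑ l ∈ range n, (|σ l| + |τ l - τ k|) / (1 + |(k : ℝ) - l|) ^ 2 ≤
      ∑ l ∈ range n, x l * v k l := by
    intro k hk
    have h2 : ∑ l ∈ range n, x l * v k l = ∑ l ∈ range n, |σ l| * v k l +
        ∑ j ∈ range (n - 1), 2 * |τ j - τ (j + 1)| * (1 + (Nat.dist k j : ℝ))⁻¹ := by
      rw [← coerS_cut n, ← Finset.sum_add_distrib]
      refine Finset.sum_congr rfl fun l _ => ?_
      simp only [hx, hv]
      split_ifs <;> ring
    have h3 : ∑ l ∈ range n, (|σ l| + |τ l - τ k|) / (1 + |(k : ℝ) - l|) ^ 2 =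
        ∑ l ∈ range n, |σ l| * ((1 + (Nat.dist k l : ℝ)) ^ 2)⁻¹ +
        ∑ l ∈ range n, |τ l - τ k| * ((1 + (Nat.dist k l : ℝ)) ^ 2)⁻¹ := by
      rw [← Finset.sum_add_distrib]
      refine Finset.sum_congr rfl fun l _ => ?_
      rw [coerS_cast_dist, div_eq_mul_inv, add_mul]
    rw [h2, h3]
    refine add_le_add (Finset.sum_le_sum fun l _ => ?_) (coerS_tau τ hk)
    refine mul_le_mul_of_nonneg_left ?_ (abs_nonneg _)
    have h4 : (0 : ℝ) ≤ Nat.dist k l := Nat.cast_nonneg _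
    exact inv_anti₀ (by positivity) (by nlinarith)
  have h2 : ∀ k < n, δ k ^ 2 ≤ B ^ 2 * (∑ l ∈ range n, x l * v k l) ^ 2 := by
    intro k hk
    have h3 : 0 ≤ ∑ l ∈ range n, (|σ l| + |τ l - τ k|) / (1 + |(k : ℝ) - l|) ^ 2 :=
      Finset.sum_nonneg fun l _ => by positivity
    have h4 : |δ k| ≤ |B| * ∑ l ∈ range n, x l * v k l :=
      ((h k hk).trans (mul_le_mul_of_nonneg_right (le_abs_self B) h3)).trans
        (mul_le_mul_of_nonneg_left (h1 k hk) (abs_nonneg B))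
    have h5 := pow_le_pow_left₀ (abs_nonneg _) h4 2
    rwa [sq_abs, mul_pow, sq_abs] at h5
  have h3 := coerS_schur n v x (H := 34 * (n : ℝ) ^ (1 / 16 : ℝ)) (by positivity)
    (fun k l => by positivity) (fun k l => by simp only [hv, Nat.dist_comm k l])
    fun k hk => coerS_row hk
  have h4 : ∑ l ∈ range n, x l ^ 2 ≤ 8 *
      (∑ l ∈ range n, σ l ^ 2 + ∑ k ∈ range (n - 1), (τ k - τ (k + 1)) ^ 2) := by
    rw [← coerS_cut n, ← Finset.sum_add_distrib, Finset.mul_sum]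
    refine Finset.sum_le_sum fun l _ => ?_
    simp only [hx]
    split_ifs
    · rw [← sq_abs (σ l), ← sq_abs (τ l - τ (l + 1))]
      nlinarith [sq_nonneg (|σ l| - 2 * |τ l - τ (l + 1)|), sq_nonneg |σ l|]
    · rw [add_zero, add_zero, sq_abs]
      nlinarith [sq_nonneg (σ l)]
  have h5 : (34 * (n : ℝ) ^ (1 / 16 : ℝ)) ^ 2 = 34 ^ 2 * (n : ℝ) ^ (1 / 8 : ℝ) := by
    rw [mul_pow, ← Real.rpow_natCast ((n : ℝ) ^ (1 / 16 : ℝ)), ← Real.rpow_mul (Nat.cast_nonneg n)]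
    norm_num
  have h6 : 0 ≤ ∑ l ∈ range n, σ l ^ 2 + ∑ k ∈ range (n - 1), (τ k - τ (k + 1)) ^ 2 := by
    positivity
  have h7 : 0 ≤ (n : ℝ) ^ (1 / 8 : ℝ) := by positivity
  rw [h5] at h3
  calc ∑ k ∈ range n, δ k ^ 2 ≤ ∑ k ∈ range n, B ^ 2 * (∑ l ∈ range n, x l * v k l) ^ 2 :=
        Finset.sum_le_sum fun k hk => h2 k (mem_range.1 hk)
    _ = B ^ 2 * ∑ k ∈ range n, (∑ l ∈ range n, x l * v k l) ^ 2 := by rw [Finset.mul_sum]
    _ ≤ B ^ 2 * (34 ^ 2 * (n : ℝ) ^ (1 / 8 : ℝ) * (8 *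
        (∑ l ∈ range n, σ l ^ 2 + ∑ k ∈ range (n - 1), (τ k - τ (k + 1)) ^ 2))) := by
        refine mul_le_mul_of_nonneg_left (h3.trans ?_) (sq_nonneg B)
        exact mul_le_mul_of_nonneg_left h4 (by positivity)
    _ ≤ _ := by nlinarith [mul_nonneg h7 h6]

end MW.AN
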