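import Pool.Agent.P.MP_064970_gt.AN.LL
import Pool.Agent.P.MP_064970_gt.AN.FinEx
import Pool.Agent.P.MP_064970_gt.AN.Bnd

/-! Row AN-UB: uniform bounds at the critical points. With `W` as in `W_ratio`:
`II ((t - x l) W) = 0` keeps `x l` away from the ends; `L |P| = II (|t - x l| W) = 2 u (x l)` lies
between `2 √((x l - b) (a - x l))` (`LOWB`) and `2 C` (`BND`), and
`g² = W (x l)² / ((x l - b) (a - x l))`. -/

open Filter Topology MeasureTheory Finset Polynomial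
open scoped Real

namespace MW.AN

theorem fin_mart (m M : ℝ) (hm : 0 < m) : ∃ C : ℝ, ∀ (n : ℕ) (e : ℕ → ℝ) (u : ℂ → ℝ) (C₀ : ℝ),
    Len n e m M → Mart C₀ u →
    (∀ t : ℝ, 0 < u t ↔ ∃ k < n, t ∈ Set.Ioo (e (2 * k)) (e (2 * k + 1))) → Mart C u := by
  obtain ⟨C, hC⟩ := BND (m / 2) (M + m / 2) (by linarith)
  refine ⟨C, fun n e u C₀ hL hu hG => hC u C₀ hu fun t ht => ?_⟩
  obtain ⟨k, hk, ht1, ht2⟩ := (hG t).1 ht
  have hmono := hL.mono hm
  have h1 := (hL (2 * k) (by omega)).2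
  refine ⟨e (2 * k + 1) + m / 2, abs_le.2 ⟨by linarith, by linarith⟩, fun s hs => ?_⟩
  rw [abs_le] at hs
  refine le_antisymm (not_lt.1 fun hpos => ?_) (hu.nonneg _)
  obtain ⟨j, hj, hs1, hs2⟩ := (hG s).1 hpos
  rcases lt_trichotomy j k with hjk | rfl | hjk
  · have h2 := hmono (show 2 * j + 1 < 2 * k + 1 by omega) (by omega)
    linarith [hs.1]
  · linarith [hs.1]
  · have h2 := (hL (2 * k + 1) (by omega)).1
    have h3 : e (2 * k + 1 + 1) ≤ e (2 * j) := by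
      rcases (show 2 * k + 1 + 1 ≤ 2 * j by omega).lt_or_eq with h4 | h4
      · exact (hmono h4 (by omega)).le
      · rw [h4]
    linarith [hs.2]

/-- A vanishing weighted first moment keeps the point away from the ends. -/
theorem UB_ends {b a ξ w₁ w₂ : ℝ} {W : ℝ → ℝ} (h : b < a) (hξ : ξ ∈ Set.Icc b a) (hw : 0 ≤ w₁)
    (hW : ContinuousOn W (Set.Icc b a)) (h1 : ∀ t ∈ Set.Icc b a, w₁ ≤ W t ∧ W t ≤ w₂)
    (h0 : II b a (fun t => (t - ξ) * W t) = 0) :
    w₁ * ((a + b) / 2 - ξ) ≤ (ξ - b) * w₂ ∧ w₁ * (ξ - (a + b) / 2) ≤ (a - ξ) * w₂ := by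
  have hc : ContinuousOn (fun t => (t - ξ) * W t) (Set.Icc b a) :=
    (continuousOn_id.sub continuousOn_const).mul hW
  have hl : ContinuousOn (fun t : ℝ => w₁ * (t - ξ)) (Set.Icc b a) := by fun_prop
  have hw2 : 0 ≤ w₂ := hw.trans ((h1 ξ hξ).1.trans (h1 ξ hξ).2)
  constructor
  · have h2 := II_mono h (f := fun t => w₁ * (t - ξ) - (ξ - b) * w₂) (hl.sub continuousOn_const) hc
      (fun t ht => by
        obtain ⟨h3, h4⟩ := h1 t ht
        rcases le_total ξ t with h5 | h5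
        · nlinarith [mul_nonneg (sub_nonneg.2 hξ.1) hw2,
            mul_nonneg (sub_nonneg.2 h5) (sub_nonneg.2 h3)]
        · nlinarith [mul_nonneg (sub_nonneg.2 h5) (sub_nonneg.2 h4),
            mul_nonneg (sub_nonneg.2 ht.1) hw2, mul_nonneg (sub_nonneg.2 h5) hw])
    rw [h0, II_sub h hl continuousOn_const, II_const_mul, II_sub_const, II_const] at h2
    refine le_of_mul_le_mul_left ?_ Real.pi_pos
    linarith
  · have h2 := II_mono h (g := fun t => w₁ * (t - ξ) + (a - ξ) * w₂) hc (hl.add continuousOn_const)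
      (fun t ht => by
        obtain ⟨h3, h4⟩ := h1 t ht
        rcases le_total ξ t with h5 | h5
        · nlinarith [mul_nonneg (sub_nonneg.2 h5) (sub_nonneg.2 h4),
            mul_nonneg (sub_nonneg.2 ht.2) hw2, mul_nonneg (sub_nonneg.2 h5) hw]
        · nlinarith [mul_nonneg (sub_nonneg.2 hξ.2) hw2,
            mul_nonneg (sub_nonneg.2 h5) (sub_nonneg.2 h3)])
    rw [h0, II_add h hl continuousOn_const, II_const_mul, II_sub_const, II_const] at h2
    refine le_of_mul_le_mul_left ?_ Real.pi_pos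
    linarith

/-- Two-sided bound of the absolute weighted first moment. -/
theorem UB_abs {b a ξ w₁ w₂ M : ℝ} {W : ℝ → ℝ} (h : b < a) (hM : a - b ≤ M)
    (hξ : ξ ∈ Set.Icc b a) (hw : 0 ≤ w₁)
    (hW : ContinuousOn W (Set.Icc b a)) (h1 : ∀ t ∈ Set.Icc b a, w₁ ≤ W t ∧ W t ≤ w₂) :
    w₁ / M * (π / 2 * ((a - b) / 2) ^ 2) ≤ II b a (fun t => |t - ξ| * W t) ∧
      II b a (fun t => |t - ξ| * W t) ≤ π * (M * w₂) := by
  have hM0 : 0 < M := by linarith
  have hc : ContinuousOn (fun t => |t - ξ| * W t) (Set.Icc b a) :=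
    (continuousOn_id.sub continuousOn_const).abs.mul hW
  have habs : ∀ t ∈ Set.Icc b a, |t - ξ| ≤ M := fun t ht =>
    abs_le.2 ⟨by linarith [ht.1, hξ.2], by linarith [ht.2, hξ.1]⟩
  constructor
  · refine le_trans ?_ (II_mono h (f := fun t => w₁ / M * (t - ξ) ^ 2) (by fun_prop) hc
      fun t ht => ?_)
    · rw [II_const_mul]
      exact mul_le_mul_of_nonneg_left (II_sq b a ξ) (div_nonneg hw hM0.le)
    · have h2 : (t - ξ) ^ 2 ≤ |t - ξ| * M := by
        rw [← sq_abs, sq]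
        exact mul_le_mul_of_nonneg_left (habs t ht) (abs_nonneg _)
      calc w₁ / M * (t - ξ) ^ 2 ≤ w₁ / M * (|t - ξ| * M) :=
            mul_le_mul_of_nonneg_left h2 (div_nonneg hw hM0.le)
        _ = |t - ξ| * w₁ := by field_simp
        _ ≤ |t - ξ| * W t := mul_le_mul_of_nonneg_left (h1 t ht).1 (abs_nonneg _)
  · rw [← II_const b a]
    exact II_mono h hc continuousOn_const fun t ht =>
      mul_le_mul (habs t ht) (h1 t ht).2 (hw.trans (h1 t ht).1) hM0.le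

theorem UB_side {n : ℕ} {e x : ℕ → ℝ} (h : Mono n e) (hx : Crit n e x) {l j : ℕ} (hl : l < n)
    (hj : j < n) {t : ℝ} (ht : t ∈ Set.Icc (e (2 * l)) (e (2 * l + 1))) :
    (j < l → x j < t) ∧ (l < j → t < x j) := by
  constructor
  · intro hjl
    have h1 := h (show 2 * j + 1 < 2 * l by omega) (by omega)
    linarith [(hx.mem j hj).2, ht.1]
  · intro hjl
    have h1 := h (show 2 * l + 1 < 2 * j by omega) (by omega)
    linarith [(hx.mem j hj).1, ht.2]

theorem UB_P {n : ℕ} (x : ℕ → ℝ) {l : ℕ} (hl : l < n) (t : ℝ) :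
    (Pp n x).eval t = (t - x l) * ∏ j ∈ (range n).erase l, (t - x j) := by
  rw [Pp_eval, Finset.mul_prod_erase (range n) (fun j => t - x j) (Finset.mem_range.2 hl)]

theorem UB_moment {n : ℕ} {e x : ℕ → ℝ} (h : Mono n e) (hx : Crit n e x) {l : ℕ} (hl : l < n) :
    II (e (2 * l)) (e (2 * l + 1))
      (fun t => (t - x l) * ((∏ j ∈ (range n).erase l, |t - x j|) * Wt n e l t)) = 0 := by
  have h0 : II (e (2 * l)) (e (2 * l + 1)) (fun t => (Pp n x).eval t * Wt n e l t) = 0 :=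
    hx.per l hl
  have hσ : (∏ j ∈ (range n).erase l, (if j < l then (1 : ℝ) else -1)) ≠ 0 :=
    Finset.prod_ne_zero_iff.2 fun j _ => by split_ifs <;> norm_num
  rw [II_congr (h.gap_lt hl) (g := fun t =>
    (∏ j ∈ (range n).erase l, (if j < l then (1 : ℝ) else -1)) *
      ((t - x l) * ((∏ j ∈ (range n).erase l, |t - x j|) * Wt n e l t))), II_const_mul] at h0
  · exact (mul_eq_zero.1 h0).resolve_left hσ
  · intro t ht
    have h1 : ∏ j ∈ (range n).erase l, (t - x j) =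
        (∏ j ∈ (range n).erase l, (if j < l then (1 : ℝ) else -1)) *
          ∏ j ∈ (range n).erase l, |t - x j| := by
      rw [← Finset.prod_mul_distrib]
      refine Finset.prod_congr rfl fun j hj => ?_
      obtain ⟨hjl, hjn⟩ := Finset.mem_erase.1 hj
      obtain ⟨h2, h3⟩ := UB_side h hx hl (Finset.mem_range.1 hjn) (Set.Ioo_subset_Icc_self ht)
      split_ifs with h4
      · rw [abs_of_pos (sub_pos.2 (h2 h4)), one_mul]
      · rw [abs_of_neg (sub_neg.2 (h3 (by omega)))]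
        ring
    rw [UB_P x hl, h1]
    ring

theorem UB_g2 {n : ℕ} {e x : ℕ → ℝ} (h : Mono n e) (hx : Crit n e x) {l : ℕ} (hl : l < n) :
    g2 n e x l = ((∏ j ∈ (range n).erase l, |x l - x j|) * Wt n e l (x l)) ^ 2 /
      ((x l - e (2 * l)) * (e (2 * l + 1) - x l)) := by
  have hm := hx.mem l hl
  have hR := Rp_neg h hl hm
  have h1 := congrArg (fun s : ℝ => s ^ 2) (inv_sqrt_Rp h hl hm)
  have hD : 0 ≤ (x l - e (2 * l)) * (e (2 * l + 1) - x l) :=
    mul_nonneg (sub_nonneg.2 hm.1.le) (sub_nonneg.2 hm.2.le)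
  simp only [div_pow, one_pow] at h1
  rw [Real.sq_sqrt (abs_nonneg _), Real.sq_sqrt hD, abs_of_neg hR] at h1
  rw [g2, dPp_eval x hl, mul_pow, mul_div_assoc, ← h1, ← Finset.abs_prod, sq_abs, one_div,
    inv_neg, div_eq_mul_inv]
  ring

theorem UB_kap {n : ℕ} (e x : ℕ → ℝ) {l : ℕ} (hl : l < n) :
    kap n e x l = ∑ j ∈ (range n).erase l, (1 / (x l - x j) - 1 / (x l - e (2 * j))) +
      ∑ j ∈ (range n).erase l, (1 / (x l - x j) - 1 / (x l - e (2 * j + 1))) -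
        1 / (x l - e (2 * l)) + 1 / (e (2 * l + 1) - x l) := by
  have h1 : 1 / (e (2 * l + 1) - x l) = -(1 / (x l - e (2 * l + 1))) := by
    rw [← neg_sub, one_div, one_div, inv_neg]
  rw [kap, sum_range_eq_others hl (fun j => 1 / (x l - e j)),
    sum_others_eq hl (fun j => 1 / (x l - e j)), Finset.sum_add_distrib, Finset.sum_sub_distrib,
    Finset.sum_sub_distrib, h1]
  ring

theorem UB (m M : ℝ) (hm : 0 < m) : ∃ c C : ℝ, 0 < c ∧ ∀ (n : ℕ) (e x : ℕ → ℝ), Len n e m M →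
    Crit n e x → ∀ l < n, c ≤ x l - e (2 * l) ∧ c ≤ e (2 * l + 1) - x l ∧
      c ≤ g2 n e x l ∧ g2 n e x l ≤ C ∧ |kap n e x l| ≤ C := by
  by_cases hM : m ≤ M
  swap
  · refine ⟨1, 0, one_pos, fun n e x hL _ l hl => absurd ?_ hM⟩
    exact (hL (2 * l) (by omega)).1.trans (hL (2 * l) (by omega)).2
  have hM0 : 0 < M := hm.trans_le hM
  obtain ⟨K, hK1, hK⟩ := W_ratio m M hm
  obtain ⟨K', hK'⟩ := KK m M hm
  obtain ⟨B, hB⟩ := fin_mart m M hm
  have hK0 : 0 < K := by linarith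
  obtain ⟨c₁, hc₁⟩ : ∃ c₁ : ℝ, c₁ = m / (2 * (K ^ 2 + 1)) := ⟨_, rfl⟩
  have hc0 : 0 < c₁ := by
    rw [hc₁]
    positivity
  refine ⟨min c₁ ((2 * c₁ / (π * M * K)) ^ 2 / M ^ 2),
    max ((16 * K * M * B / (π * m ^ 2)) ^ 2 / c₁ ^ 2) (2 * K' + 2 / c₁),
    lt_min hc0 (by positivity), fun n e x hL hx l hl => ?_⟩
  have h := hL.mono hm
  have hlt := h.gap_lt hl
  have hmem := hx.mem l hl
  have hξ := Set.Ioo_subset_Icc_self hmem
  obtain ⟨hlen1, hlen2⟩ := hL (2 * l) (by omega)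
  have hxI : ∀ j < n, x j ∈ Set.Icc (e (2 * j)) (e (2 * j + 1)) := fun j hj =>
    Set.Ioo_subset_Icc_self (hx.mem j hj)
  obtain ⟨W, hWdef⟩ : ∃ W : ℝ → ℝ,
    W = fun t => (∏ j ∈ (range n).erase l, |t - x j|) * Wt n e l t := ⟨_, rfl⟩
  have hWc : ContinuousOn W (Set.Icc (e (2 * l)) (e (2 * l + 1))) := by
    rw [hWdef]
    exact (continuous_finsetProd _ fun j _ => by fun_prop).continuousOn.mul
      (h.fam.cont l (Finset.mem_range.2 hl))
  have hW0 : 0 < W (x l) := by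
    rw [hWdef]
    refine mul_pos (Finset.prod_pos fun j hj => abs_pos.2 (sub_ne_zero.2 ?_))
      (h.fam.pos l (Finset.mem_range.2 hl) _ hξ)
    obtain ⟨hjl, hjn⟩ := Finset.mem_erase.1 hj
    obtain ⟨h2, h3⟩ := UB_side h hx hl (Finset.mem_range.1 hjn) hξ
    rcases lt_or_gt_of_ne hjl with h4 | h4
    exacts [(h2 h4).ne', (h3 h4).ne]
  have hWb : ∀ t ∈ Set.Icc (e (2 * l)) (e (2 * l + 1)),
      W (x l) / K ≤ W t ∧ W t ≤ K * W (x l) := by
    intro t ht
    rw [div_le_iff₀' hK0, hWdef]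
    exact ⟨hK n e hL l hl x hxI _ hξ _ ht, hK n e hL l hl x hxI _ ht _ hξ⟩
  have hw1 : 0 ≤ W (x l) / K := by positivity
  obtain ⟨he1, he2⟩ := UB_ends hlt hξ hw1 hWc hWb (by rw [hWdef]; exact UB_moment h hx hl)
  have hend : ∀ d s : ℝ, W (x l) / K * s ≤ d * (K * W (x l)) → m / 2 ≤ s + d → c₁ ≤ d := by
    intro d s h1 h2
    have h3 : s ≤ d * K ^ 2 := by
      refine le_of_mul_le_mul_left ?_ (div_pos hW0 hK0)
      refine h1.trans (le_of_eq ?_)
      field_simp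
    rw [hc₁, div_le_iff₀ (by positivity)]
    linarith
  have hb : c₁ ≤ x l - e (2 * l) := hend _ _ he1 (by linarith)
  have ha : c₁ ≤ e (2 * l + 1) - x l := hend _ _ he2 (by linarith)
  obtain ⟨-, u, C₀, hu, hG, -, -, hL2⟩ := FINEX h hx
  have hII : II (e (2 * l)) (e (2 * l + 1)) (fun t => |t - x l| * W t) = 2 * u (x l) := by
    rw [hL2 l hl, hWdef]
    refine II_congr hlt fun t _ => ?_
    simp only [UB_P x hl, abs_mul, Finset.abs_prod, mul_assoc]
  obtain ⟨hab1, hab2⟩ := UB_abs hlt hlen2 hξ hw1 hWc hWb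
  rw [hII] at hab1 hab2
  have hD1 : c₁ ^ 2 ≤ (x l - e (2 * l)) * (e (2 * l + 1) - x l) := by
    rw [sq]
    exact mul_le_mul hb ha hc0.le (hc0.le.trans hb)
  have hD2 : (x l - e (2 * l)) * (e (2 * l + 1) - x l) ≤ M ^ 2 := by
    rw [sq]
    exact mul_le_mul (by linarith) (by linarith) (hc0.le.trans ha) hM0.le
  have hulo : c₁ ≤ u (x l) := by
    have h1 := LOWB hu.toHalf one_pos (fun z => by rw [one_mul]; exact hu.lo z) hlt
      (fun t ht => (hG t).2 ⟨l, hl, ht⟩) (x l)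
    rw [one_mul, wI_real hlt] at h1
    exact (Real.le_sqrt_of_sq_le hD1).trans h1
  have huhi : u (x l) ≤ B := by simpa using (hB n e u C₀ hL hu hG).hi (x l)
  have hWlo : 2 * c₁ / (π * M * K) ≤ W (x l) := by
    rw [div_le_iff₀ (by positivity)]
    linarith
  have hWhi : W (x l) ≤ 16 * K * M * B / (π * m ^ 2) := by
    have h1 : W (x l) / K / M * (π / 2 * (m / 2) ^ 2) ≤ 2 * B := by
      refine le_trans ?_ (hab1.trans (by linarith))
      gcongr
    have h2 : W (x l) / K / M * (π / 2 * (m / 2) ^ 2) = W (x l) * (π * m ^ 2) / (8 * K * M) := by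
      field_simp
      ring
    rw [h2, div_le_iff₀ (by positivity)] at h1
    rw [le_div_iff₀ (by positivity)]
    linarith
  have hg : g2 n e x l = W (x l) ^ 2 / ((x l - e (2 * l)) * (e (2 * l + 1) - x l)) := by
    rw [hWdef]
    exact UB_g2 h hx hl
  have hD0 : 0 < (x l - e (2 * l)) * (e (2 * l + 1) - x l) := lt_of_lt_of_le (by positivity) hD1
  refine ⟨(min_le_left _ _).trans hb, (min_le_left _ _).trans ha, (min_le_right _ _).trans ?_,
    le_trans ?_ (le_max_left _ _), le_trans ?_ (le_max_right _ _)⟩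
  · rw [hg]
    gcongr
  · rw [hg]
    gcongr
  · have h1 := abs_le.1 (hK' n e hL l hl x (fun j => e (2 * j)) hxI
      (fun j hj => Set.left_mem_Icc.2 (h.gap_lt hj).le) _ hξ)
    have h2 := abs_le.1 (hK' n e hL l hl x (fun j => e (2 * j + 1)) hxI
      (fun j hj => Set.right_mem_Icc.2 (h.gap_lt hj).le) _ hξ)
    have h3 : 1 / (x l - e (2 * l)) ≤ 1 / c₁ := one_div_le_one_div_of_le hc0 hb
    have h4 : 1 / (e (2 * l + 1) - x l) ≤ 1 / c₁ := one_div_le_one_div_of_le hc0 ha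
    have h5 : 0 ≤ 1 / (x l - e (2 * l)) := one_div_nonneg.2 (hc0.le.trans hb)
    have h6 : 0 ≤ 1 / (e (2 * l + 1) - x l) := one_div_nonneg.2 (hc0.le.trans ha)
    have h7 : 2 / c₁ = 2 * (1 / c₁) := by ring
    rw [UB_kap e x hl, abs_le, h7]
    constructor <;> linarith [h1.1, h1.2, h2.1, h2.2]

end MW.AN
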