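import Pool.Agent.P.MP_064970_gt.AN.Sign
import Pool.Agent.P.MP_064970_gt.AN.UB

/-! Row AN-WLow: neighbouring conductances are bounded below. On gap `l = k + 1` let
`ψ t = (t - x k)⁻³ ∏_{j ≠ k, l} |t - ξ j| / |t - x j|`. For `t₁ ≤ t₂` in the gap,
`ψ t₂ ≤ ψ t₁ ((t₁ - x k) / (t₂ - x k))²` (factors `j > l` decrease since `ξ j ≤ x j`; the factors
`j < k` telescope, `ξ j ≤ x (j + 1)`). Then
`(x l - ξ l) II (ψ W) = II ((x l - t) (ψ t - ψ (x l)) W) ≥ c ψ (x l) II ((t - x l)² W)`. -/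

open Filter Topology MeasureTheory Finset Polynomial
open scoped Real

namespace MW.AN

theorem wlow_point {s s₀ f f₀ T : ℝ} (hs : 0 < s) (hs₀ : 0 < s₀) (hT : s ≤ T) (hf₀ : 0 < f₀)
    (h₁ : s ≤ s₀ → f₀ ≤ f) (h₂ : s₀ ≤ s → f ≤ f₀) :
    f₀ / s₀ ^ 2 / T * (s - s₀) ^ 2 ≤ (s₀ - s) * (f / s ^ 2 - f₀ / s₀ ^ 2) := by
  have e0 : f₀ / s₀ ^ 2 / T * (s - s₀) ^ 2 ≤ f₀ / s₀ ^ 2 / s * (s - s₀) ^ 2 :=
    mul_le_mul_of_nonneg_right (div_le_div_of_nonneg_left (by positivity) hs hT) (sq_nonneg _)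
  have e1 : (s₀ - s) * (f₀ / s ^ 2 - f₀ / s₀ ^ 2) =
      f₀ / s₀ ^ 2 / s * (s - s₀) ^ 2 + f₀ / s₀ / s ^ 2 * (s - s₀) ^ 2 := by
    field_simp
    ring
  have e2 : 0 ≤ f₀ / s₀ / s ^ 2 * (s - s₀) ^ 2 := by positivity
  have e3 : 0 ≤ (s₀ - s) * ((f - f₀) / s ^ 2) := by
    rcases le_total s s₀ with h | h
    · exact mul_nonneg (by linarith) (div_nonneg (by linarith [h₁ h]) (by positivity))
    · exact mul_nonneg_of_nonpos_of_nonpos (by linarith)
        (div_nonpos_of_nonpos_of_nonneg (by linarith [h₂ h]) (by positivity))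
  have e4 : (s₀ - s) * (f / s ^ 2 - f₀ / s₀ ^ 2) =
      (s₀ - s) * (f₀ / s ^ 2 - f₀ / s₀ ^ 2) + (s₀ - s) * ((f - f₀) / s ^ 2) := by ring
  linarith

theorem wlow_core {b a p c ξ m T C C' : ℝ} {φ W : ℝ → ℝ} (hm : 0 < m) (hab : m ≤ a - b)
    (hc : c ∈ Set.Icc b a) (hξ : ξ ≤ c) (hC : 0 < C) (hC' : 0 < C')
    (hp : ∀ t ∈ Set.Icc b a, m ≤ t - p ∧ t - p ≤ T)
    (hφ : ContinuousOn φ (Set.Icc b a)) (hW : ContinuousOn W (Set.Icc b a))
    (hφ0 : 0 < φ c) (hW0 : ∀ t ∈ Set.Icc b a, 0 < W t) (hanti : AntitoneOn φ (Set.Icc b a))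
    (hφC : ∀ t ∈ Set.Icc b a, φ t ≤ C * φ c)
    (hWC : ∀ t ∈ Set.Icc b a, ∀ t' ∈ Set.Icc b a, W t ≤ C' * W t')
    (h₁ : II b a (fun t => (t - c) * W t) = 0)
    (h₂ : II b a (fun t => (t - ξ) * (φ t / (t - p) ^ 2 * W t)) = 0) :
    m ^ 4 / (8 * T ^ 3 * C * C' ^ 2) ≤ c - ξ := by
  have hba : b < a := by linarith
  have hs : ∀ t ∈ Set.Icc b a, 0 < t - p := fun t ht => hm.trans_le (hp t ht).1
  have hT : 0 < T := (hs c hc).trans_le (hp c hc).2
  have hWc := hW0 c hc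
  set V : ℝ → ℝ := fun t => φ t / (t - p) ^ 2 * W t with hV
  have hVc : ContinuousOn V (Set.Icc b a) :=
    (hφ.div (by fun_prop) fun t ht => pow_ne_zero 2 (hs t ht).ne').mul hW
  set lam : ℝ := φ c / (c - p) ^ 2 with hlam
  have hlam0 : 0 < lam := div_pos hφ0 (pow_pos (hs c hc) 2)
  have c1 : ContinuousOn (fun t => (t - ξ) * V t) (Set.Icc b a) :=
    ContinuousOn.mul (by fun_prop) hVc
  have c2 : ContinuousOn (fun t => (t - c) * W t) (Set.Icc b a) :=
    ContinuousOn.mul (by fun_prop) hW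
  have c3 : ContinuousOn (fun t => (c - ξ) * V t) (Set.Icc b a) :=
    ContinuousOn.mul (by fun_prop) hVc
  have c4 : ContinuousOn (fun t => lam * ((t - c) * W t)) (Set.Icc b a) :=
    ContinuousOn.mul (by fun_prop) c2
  have e1 : II b a (fun t => ((c - ξ) * V t - (t - ξ) * V t) + lam * ((t - c) * W t)) =
      (c - ξ) * II b a V := by
    have c5 : ContinuousOn (fun t => (c - ξ) * V t - (t - ξ) * V t) (Set.Icc b a) := c3.sub c1
    rw [II_add hba c5 c4, II_sub hba c3 c1, II_const_mul, II_const_mul, h₁, h₂]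
    ring
  have e2 : II b a (fun t => lam / T * (W c / C') * (t - c) ^ 2) ≤
      II b a (fun t => ((c - ξ) * V t - (t - ξ) * V t) + lam * ((t - c) * W t)) := by
    refine II_mono hba (by fun_prop) ((c3.sub c1).add c4) fun t ht => ?_
    have k1 := wlow_point (f := φ t) (hs t ht) (hs c hc) (hp t ht).2 hφ0
      (fun h => hanti ht hc (by linarith)) (fun h => hanti hc ht (by linarith))
    have k2 : W c / C' ≤ W t := by
      rw [div_le_iff₀ hC', mul_comm]
      exact hWC c hc t ht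
    have k3 : t - p - (c - p) = t - c := by ring
    rw [k3, ← hlam] at k1
    calc lam / T * (W c / C') * (t - c) ^ 2 = lam / T * (t - c) ^ 2 * (W c / C') := by ring
      _ ≤ lam / T * (t - c) ^ 2 * W t := mul_le_mul_of_nonneg_left k2 (by positivity)
      _ ≤ (c - p - (t - p)) * (φ t / (t - p) ^ 2 - lam) * W t :=
          mul_le_mul_of_nonneg_right k1 (hW0 t ht).le
      _ = _ := by simp only [hV]; ring
  have e3 : II b a V ≤ π * (C * φ c / m ^ 2 * (C' * W c)) := by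
    rw [← II_const b a]
    refine II_mono hba hVc continuousOn_const fun t ht => ?_
    refine mul_le_mul ?_ (hWC t ht c hc) (hW0 t ht).le (by positivity)
    exact (div_le_div_of_nonneg_right (hφC t ht) (sq_nonneg _)).trans
      (div_le_div_of_nonneg_left (by positivity) (by positivity)
        (pow_le_pow_left₀ hm.le (hp t ht).1 2))
  have e4 : π / 2 * (m / 2) ^ 2 ≤ II b a (fun t => (t - c) ^ 2) :=
    le_trans (mul_le_mul_of_nonneg_left (pow_le_pow_left₀ (by positivity) (by linarith) 2)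
      (by positivity)) (II_sq b a c)
  have e5 : φ c / T ^ 2 ≤ lam :=
    div_le_div_of_nonneg_left hφ0.le (pow_pos (hs c hc) 2)
      (pow_le_pow_left₀ (hs c hc).le (hp c hc).2 2)
  rw [e1, II_const_mul] at e2
  have e6 : φ c / T ^ 2 / T * (W c / C') * (π / 2 * (m / 2) ^ 2) ≤
      (c - ξ) * (π * (C * φ c / m ^ 2 * (C' * W c))) := by
    refine le_trans ?_ (e2.trans (mul_le_mul_of_nonneg_left e3 (by linarith)))
    gcongr
  have hpos : 0 < π * (C * φ c / m ^ 2 * (C' * W c)) := by positivity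
  refine le_of_mul_le_mul_right (le_trans (le_of_eq ?_) e6) hpos
  field_simp
  ring

section
variable {n : ℕ} {e : ℕ → ℝ}

theorem wlow_lt (h : Mono n e) {j l : ℕ} (hjl : j < l) (hl : l < n) {y t : ℝ}
    (hy : y ∈ Set.Icc (e (2 * j)) (e (2 * j + 1))) (ht : t ∈ Set.Icc (e (2 * l)) (e (2 * l + 1))) :
    y < t :=
  hy.2.trans_lt ((h (by omega) (by omega)).trans_le ht.1)

theorem wlow_ne (h : Mono n e) {j l : ℕ} (hjl : j ≠ l) (hj : j < n) (hl : l < n) {y t : ℝ}
    (hy : y ∈ Set.Icc (e (2 * j)) (e (2 * j + 1))) (ht : t ∈ Set.Icc (e (2 * l)) (e (2 * l + 1))) :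
    0 < |t - y| := by
  rw [abs_pos, sub_ne_zero]
  rcases lt_or_gt_of_ne hjl with h' | h'
  · exact (wlow_lt h h' hl hy ht).ne'
  · exact (wlow_lt h h' hj ht hy).ne

theorem wlow_sign (h : Mono n e) {l : ℕ} (hl : l < n) {K : Finset ℕ} {y : ℕ → ℝ}
    (hK : ∀ j ∈ K, j ≠ l ∧ j < n ∧ y j ∈ Set.Icc (e (2 * j)) (e (2 * j + 1))) :
    ∃ ε : ℝ, ε ≠ 0 ∧ ∀ t ∈ Set.Icc (e (2 * l)) (e (2 * l + 1)),
      ∏ j ∈ K, (t - y j) = ε * ∏ j ∈ K, |t - y j| := by
  refine ⟨∏ j ∈ K, if j < l then 1 else -1, prod_ne_zero_iff.2 fun j _ => ?_, fun t ht => ?_⟩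
  · split_ifs <;> norm_num
  · rw [← prod_mul_distrib]
    refine prod_congr rfl fun j hj => ?_
    obtain ⟨h1, h2, h3⟩ := hK j hj
    split_ifs with h4
    · rw [abs_of_pos (sub_pos.2 (wlow_lt h h4 hl h3 ht)), one_mul]
    · rw [abs_of_neg (sub_neg.2 (wlow_lt h (by omega) h2 ht h3))]
      ring

theorem wlow_split1 {k : ℕ} (hk : k + 1 < n) (f : ℕ → ℝ) :
    ∏ j ∈ ((range n).erase k).erase (k + 1), f j =
      (∏ j ∈ range k, f j) * ∏ j ∈ Ico (k + 2) n, f j := by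
  rw [← prod_union]
  · congr 1
    ext j
    simp only [mem_erase, mem_range, mem_union, mem_Ico]
    omega
  · rw [disjoint_left]
    intro j h1 h2
    simp only [mem_range, mem_Ico] at h1 h2
    omega

theorem wlow_split2 {k : ℕ} (hk : k + 1 < n) (f : ℕ → ℝ) :
    ∏ j ∈ (range n).erase (k + 1), f j =
      (∏ j ∈ range k, f (j + 1)) * f 0 * ∏ j ∈ Ico (k + 2) n, f j := by
  rw [← prod_range_succ', ← prod_union]
  · congr 1
    ext j
    simp only [mem_erase, mem_range, mem_union, mem_Ico]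
    omega
  · rw [disjoint_left]
    intro j h1 h2
    simp only [mem_range, mem_Ico] at h1 h2
    omega

theorem wlow_split3 {k : ℕ} (hk : k + 1 < n) (f : ℕ → ℝ) :
    ∏ j ∈ (range n).erase (k + 1), f j = f k * ∏ j ∈ ((range n).erase k).erase (k + 1), f j := by
  rw [erase_right_comm, mul_prod_erase]
  simp only [mem_erase, mem_range]
  omega

theorem wlow_anti (h : Mono n e) {k : ℕ} (hk : k + 1 < n) {x ξ : ℕ → ℝ}
    (hx : ∀ j < n, x j ∈ Set.Icc (e (2 * j)) (e (2 * j + 1)))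
    (hξ : ∀ j < n, j ≠ k → ξ j ∈ Set.Icc (e (2 * j)) (e (2 * j + 1)))
    (hle : ∀ l < n, k < l → ξ l ≤ x l) {s t : ℝ}
    (hs : s ∈ Set.Icc (e (2 * (k + 1))) (e (2 * (k + 1) + 1)))
    (ht : t ∈ Set.Icc (e (2 * (k + 1))) (e (2 * (k + 1) + 1))) (hst : s ≤ t) :
    (∏ j ∈ ((range n).erase k).erase (k + 1), |t - ξ j|) *
        ∏ j ∈ (range n).erase (k + 1), |s - x j| ≤
      (∏ j ∈ ((range n).erase k).erase (k + 1), |s - ξ j|) *
        ∏ j ∈ (range n).erase (k + 1), |t - x j| := by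
  have h1 : (∏ j ∈ range k, |t - ξ j|) * ∏ j ∈ range k, |s - x (j + 1)| ≤
      (∏ j ∈ range k, |s - ξ j|) * ∏ j ∈ range k, |t - x (j + 1)| := by
    rw [← prod_mul_distrib, ← prod_mul_distrib]
    refine prod_le_prod (fun j _ => by positivity) fun j hj => ?_
    have hj' := mem_range.1 hj
    have a1 := wlow_lt h (j := j) (l := j + 1) (by omega) (by omega)
      (hξ j (by omega) (by omega)) (hx (j + 1) (by omega))
    have a2 := wlow_lt h (j := j + 1) (by omega) hk (hx (j + 1) (by omega)) hs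
    rw [abs_of_pos (by linarith), abs_of_pos (by linarith), abs_of_pos (by linarith),
      abs_of_pos (by linarith)]
    nlinarith [mul_nonneg (sub_nonneg.2 hst) (sub_nonneg.2 a1.le)]
  have h2 : |s - x 0| ≤ |t - x 0| := by
    have a2 := wlow_lt h (j := 0) (by omega) hk (hx 0 (by omega)) hs
    rw [abs_of_pos (by linarith), abs_of_pos (by linarith)]
    linarith
  have h3 : (∏ j ∈ Ico (k + 2) n, |t - ξ j|) * ∏ j ∈ Ico (k + 2) n, |s - x j| ≤
      (∏ j ∈ Ico (k + 2) n, |s - ξ j|) * ∏ j ∈ Ico (k + 2) n, |t - x j| := by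
    rw [← prod_mul_distrib, ← prod_mul_distrib]
    refine prod_le_prod (fun j _ => by positivity) fun j hj => ?_
    have hj' := mem_Ico.1 hj
    have a1 := hle j hj'.2 (by omega)
    have a2 := wlow_lt h (j := k + 1) (l := j) (by omega) hj'.2 ht (hξ j hj'.2 (by omega))
    rw [abs_of_neg (by linarith), abs_of_neg (by linarith), abs_of_neg (by linarith),
      abs_of_neg (by linarith)]
    nlinarith [mul_nonneg (sub_nonneg.2 hst) (sub_nonneg.2 a1)]
  rw [wlow_split1 hk, wlow_split1 hk, wlow_split2 hk, wlow_split2 hk]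
  have h4 := mul_le_mul (mul_le_mul h1 h2 (abs_nonneg _) (by positivity)) h3 (by positivity)
    (by positivity)
  calc _ = _ := by ring
    _ ≤ _ := h4
    _ = _ := by ring

theorem wlow_dist {m M : ℝ} (h : Len n e m M) {k : ℕ} (hk : k + 1 < n) {y t : ℝ}
    (hy : y ∈ Set.Icc (e (2 * k)) (e (2 * k + 1)))
    (ht : t ∈ Set.Icc (e (2 * (k + 1))) (e (2 * (k + 1) + 1))) :
    m ≤ t - y ∧ t - y ≤ 3 * max M 1 := by
  have h1 := h (2 * k) (by omega)
  have h2 := h (2 * k + 1) (by omega)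
  have h3 := h (2 * (k + 1)) (by omega)
  have h4 : 2 * k + 1 + 1 = 2 * (k + 1) := by ring
  rw [h4] at h2
  have h5 := le_max_left M 1
  constructor <;> linarith [hy.1, hy.2, ht.1, ht.2, h1.2, h2.1, h2.2, h3.2]

theorem wlow_upd {k : ℕ} {x ξ : ℕ → ℝ} (hx : ∀ j < n, x j ∈ Set.Icc (e (2 * j)) (e (2 * j + 1)))
    (hξ : ∀ j < n, j ≠ k → ξ j ∈ Set.Icc (e (2 * j)) (e (2 * j + 1))) :
    ∀ j < n, Function.update ξ k (x k) j ∈ Set.Icc (e (2 * j)) (e (2 * j + 1)) := by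
  intro j hj
  by_cases h : j = k
  · subst h
    rw [Function.update_self]
    exact hx j hj
  · rw [Function.update_of_ne h]
    exact hξ j hj h

end

theorem root_gap (m M : ℝ) (hm : 0 < m) : ∃ c : ℝ, 0 < c ∧ ∀ (n : ℕ) (e x ξ : ℕ → ℝ) (k : ℕ),
    Len n e m M → Crit n e x → k + 1 < n →
    Roots ((range n).erase k) (fun l => e (2 * l)) (fun l => e (2 * l + 1))
      (fun l t => Wt n e l t / (t - x k) ^ 2) ξ →
    (∀ l < n, k < l → ξ l ≤ x l) → c ≤ x (k + 1) - ξ (k + 1) := by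
  obtain ⟨C, hC, hLL⟩ := LL m M hm
  obtain ⟨C', hC', hWr⟩ := W_ratio m M hm
  set T : ℝ := 3 * max M 1 with hT
  have hT0 : 0 < T := by positivity
  refine ⟨m ^ 4 / (8 * T ^ 3 * (C * T / m) * C' ^ 2), by positivity,
    fun n e x ξ k hlen hx hk hξ hle => ?_⟩
  have h := hlen.mono hm
  have hx' : ∀ j < n, x j ∈ Set.Icc (e (2 * j)) (e (2 * j + 1)) :=
    fun j hj => Set.Ioo_subset_Icc_self (hx.mem j hj)
  have hξ' : ∀ j < n, j ≠ k → ξ j ∈ Set.Icc (e (2 * j)) (e (2 * j + 1)) :=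
    fun j hj hjk => Set.Ioo_subset_Icc_self (hξ.mem j (mem_erase.2 ⟨hjk, mem_range.2 hj⟩))
  have hba := h.gap_lt hk
  have hlm : k + 1 ∈ range n := mem_range.2 hk
  have hK : ∀ j ∈ ((range n).erase k).erase (k + 1), j ≠ k + 1 ∧ j ≠ k ∧ j < n := by
    intro j hj
    simpa only [mem_erase, mem_range] using hj
  set A : ℝ → ℝ := fun t => ∏ j ∈ ((range n).erase k).erase (k + 1), |t - ξ j| with hA
  set B : ℝ → ℝ := fun t => ∏ j ∈ (range n).erase (k + 1), |t - x j| with hB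
  have hA0 : ∀ t ∈ Set.Icc (e (2 * (k + 1))) (e (2 * (k + 1) + 1)), 0 < A t := fun t ht =>
    prod_pos fun j hj => wlow_ne h (hK j hj).1 (hK j hj).2.2 hk
      (hξ' j (hK j hj).2.2 (hK j hj).2.1) ht
  have hB0 : ∀ t ∈ Set.Icc (e (2 * (k + 1))) (e (2 * (k + 1) + 1)), 0 < B t := fun t ht =>
    prod_pos fun j hj => wlow_ne h (mem_erase.1 hj).1 (mem_range.1 (mem_erase.1 hj).2) hk
      (hx' j (mem_range.1 (mem_erase.1 hj).2)) ht
  have hAc : Continuous A := continuous_finsetProd _ fun j _ => by fun_prop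
  have hBc : Continuous B := continuous_finsetProd _ fun j _ => by fun_prop
  have hWt := h.fam.pos (k + 1) hlm
  have hd := fun t ht => wlow_dist hlen hk (t := t) (hx' k (by omega)) ht
  refine wlow_core (b := e (2 * (k + 1))) (a := e (2 * (k + 1) + 1)) (p := x k)
    (φ := fun t => A t / B t) (W := fun t => B t * Wt n e (k + 1) t) hm
    (hlen _ (by omega)).1 (hx' _ hk) (hle _ hk (by omega)) (by positivity) (by positivity) hd
    (hAc.continuousOn.div hBc.continuousOn fun t ht => (hB0 t ht).ne')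
    (hBc.continuousOn.mul (h.fam.cont (k + 1) hlm)) (div_pos (hA0 _ (hx' _ hk)) (hB0 _ (hx' _ hk)))
    (fun t ht => mul_pos (hB0 t ht) (hWt t ht)) ?_ ?_ (hWr n e hlen (k + 1) hk x hx') ?_ ?_
  · intro s hs t ht hst
    rw [div_le_div_iff₀ (hB0 t ht) (hB0 s hs)]
    exact wlow_anti h hk hx' hξ' hle hs ht hst
  · intro t ht
    have hc := hx' _ hk
    have hsub : ∀ s ∈ Set.Icc (e (2 * (k + 1))) (e (2 * (k + 1) + 1)),
        s ∈ Set.Icc (e (2 * k)) (e (2 * (k + 1) + 1)) :=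
      fun s hs => ⟨(h (by omega) (by omega)).le.trans hs.1, hs.2⟩
    have k1 := hLL n e hlen k (k + 1) (by omega) le_rfl hk _ x (wlow_upd hx' hξ') hx' t
      (hsub t ht) _ (hsub _ hc)
    rw [prod_congr rfl fun j hj => by rw [Function.update_of_ne (hK j hj).2.1],
      prod_congr (s₁ := ((range n).erase k).erase (k + 1))
        (f := fun j => |t - x j| * |x (k + 1) - Function.update ξ k (x k) j|) rfl
        fun j hj => by rw [Function.update_of_ne (hK j hj).2.1],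
      prod_mul_distrib, prod_mul_distrib] at k1
    have k2 := hd t ht
    have k3 := hd _ hc
    rw [← mul_div_assoc, div_le_div_iff₀ (hB0 t ht) (hB0 _ hc)]
    simp only [hA, hB]
    rw [wlow_split3 hk, wlow_split3 hk, abs_of_pos (by linarith : 0 < x (k + 1) - x k),
      abs_of_pos (by linarith : 0 < t - x k)]
    have k4 : x (k + 1) - x k ≤ T / m * (t - x k) := by
      refine k3.2.trans ?_
      rw [div_mul_eq_mul_div, le_div_iff₀ hm]
      exact mul_le_mul_of_nonneg_left k2.1 hT0.le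
    have k5 := mul_le_mul k1 k4 (by linarith) (by positivity)
    calc _ = _ := by ring
      _ ≤ _ := k5
      _ = _ := by ring
  · obtain ⟨ε, hε, hs⟩ := wlow_sign h hk (K := (range n).erase (k + 1)) (y := x) fun j hj =>
      ⟨(mem_erase.1 hj).1, mem_range.1 (mem_erase.1 hj).2, hx' j (mem_range.1 (mem_erase.1 hj).2)⟩
    have k1 := hx.per (k + 1) hk
    rw [L, II_congr hba (g := fun t => ε * ((t - x (k + 1)) * (B t * Wt n e (k + 1) t))),
      II_const_mul] at k1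
    · exact (mul_eq_zero.1 k1).resolve_left hε
    · intro t ht
      rw [Pp_eval, ← mul_prod_erase _ _ hlm, hs t (Set.Ioo_subset_Icc_self ht)]
      simp only [hB]
      ring
  · obtain ⟨ε, hε, hs⟩ := wlow_sign h hk (K := ((range n).erase k).erase (k + 1)) (y := ξ)
      fun j hj => ⟨(hK j hj).1, (hK j hj).2.2, hξ' j (hK j hj).2.2 (hK j hj).2.1⟩
    have hlm' : k + 1 ∈ (range n).erase k := mem_erase.2 ⟨by omega, hlm⟩
    have k1 := hξ.per (k + 1) hlm'
    rw [II_congr hba (g := fun t => ε * ((t - ξ (k + 1)) *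
      (A t / B t / (t - x k) ^ 2 * (B t * Wt n e (k + 1) t)))), II_const_mul] at k1
    · exact (mul_eq_zero.1 k1).resolve_left hε
    · intro t ht
      have := (hB0 t (Set.Ioo_subset_Icc_self ht)).ne'
      rw [← mul_prod_erase _ _ hlm', hs t (Set.Ioo_subset_Icc_self ht)]
      change _ = ε * ((t - ξ (k + 1)) * (A t / B t / (t - x k) ^ 2 * (B t * Wt n e (k + 1) t)))
      have e1 : A t / B t / (t - x k) ^ 2 * (B t * Wt n e (k + 1) t) =
          A t * (Wt n e (k + 1) t / (t - x k) ^ 2) := by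
        rw [div_right_comm, ← mul_assoc, div_mul_cancel₀ _ this]
        ring
      rw [e1]
      simp only [hA]
      ring

theorem WLOW (m M : ℝ) (hm : 0 < m) : ∃ c : ℝ, 0 < c ∧ ∀ (n : ℕ) (e x : ℕ → ℝ) (S : ℕ → ℝ[X])
    (k : ℕ), Len n e m M → Crit n e x → k + 1 < n → Dip n e x k (S k) →
    c ≤ wk n x S k (k + 1) := by
  obtain ⟨c, hc, hgap⟩ := root_gap m M hm
  obtain ⟨C, hC, hLL⟩ := LL m M hm
  obtain ⟨c', C', hc', hUB⟩ := UB m M hm
  set T : ℝ := 3 * max M 1 with hT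
  have hT0 : 0 < T := by positivity
  refine ⟨c / T / (T * T) / max C' 1 * (1 / C), by positivity,
    fun n e x S k hlen hx hk hS => ?_⟩
  have h := hlen.mono hm
  obtain ⟨ξ, hξ, hf, hle, -⟩ := hS.roots h hx (by omega)
  have hx' : ∀ j < n, x j ∈ Set.Icc (e (2 * j)) (e (2 * j + 1)) :=
    fun j hj => Set.Ioo_subset_Icc_self (hx.mem j hj)
  have hξ' : ∀ j < n, j ≠ k → ξ j ∈ Set.Icc (e (2 * j)) (e (2 * j + 1)) :=
    fun j hj hjk => Set.Ioo_subset_Icc_self (hξ.mem j (mem_erase.2 ⟨hjk, mem_range.2 hj⟩))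
  have hK : ∀ j ∈ ((range n).erase k).erase (k + 1), j ≠ k + 1 ∧ j ≠ k ∧ j < n := by
    intro j hj
    simpa only [mem_erase, mem_range] using hj
  have hkn : k < n := by omega
  rw [wk_eq h hx hkn hk (by omega) hS hξ.mem hf]
  have k1 := hgap n e x ξ k hlen hx hk hξ hle
  have k2 := wlow_dist hlen hk (hx' k hkn) (hx' _ hk)
  have k3 := wlow_dist hlen hk (hx' k hkn) (hξ' _ hk (by omega))
  obtain ⟨-, -, k4, k5, -⟩ := hUB n e x hlen hx k hkn
  have k6 := hLL n e hlen k (k + 1) (by omega) le_rfl hk x _ hx' (wlow_upd hx' hξ') (x (k + 1))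
    ⟨(h (by omega) (by omega)).le.trans (hx' _ hk).1, (hx' _ hk).2⟩ (x k)
    ⟨(hx' k hkn).1, (hx' k hkn).2.trans (h (by omega) (by omega)).le⟩
  rw [prod_congr rfl fun j hj => by rw [Function.update_of_ne (hK j hj).2.1],
    prod_congr (s₁ := ((range n).erase k).erase (k + 1))
      (f := fun j => |x (k + 1) - Function.update ξ k (x k) j| * |x k - x j|) rfl
      fun j hj => by rw [Function.update_of_ne (hK j hj).2.1]] at k6
  have k7 : 0 < ∏ j ∈ ((range n).erase k).erase (k + 1), |x (k + 1) - x j| * |x k - ξ j| :=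
    prod_pos fun j hj => mul_pos
      (wlow_ne h (hK j hj).1 (hK j hj).2.2 hk (hx' j (hK j hj).2.2) (hx' _ hk))
      (wlow_ne h (hK j hj).2.1 (hK j hj).2.2 hkn (hξ' j (hK j hj).2.2 (hK j hj).2.1) (hx' k hkn))
  have a1 : 0 < x (k + 1) - x k := by linarith [k2.1]
  have a2 : 0 < ξ (k + 1) - x k := by linarith [k3.1]
  have a3 : 0 < g2 n e x k := by linarith
  have a4 : 0 < x (k + 1) - ξ (k + 1) := by linarith
  refine mul_le_mul ?_ ?_ (by positivity) (by positivity)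
  · have a5 := k5.trans (le_max_left C' 1)
    have a6 := k2.2
    have a7 := k3.2
    gcongr
  · rw [div_le_div_iff₀ (by linarith) k7, one_mul, mul_comm]
    exact k6

end MW.AN
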