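import Pool.Agent.P.MP_064970_gt.AN.CoerS
import Pool.Agent.P.MP_064970_gt.AN.WLow
import Pool.Agent.P.MP_064970_gt.AN.Bil

/-! Row AN-Cvx: coercivity of the Hessian and the monotonicity inequality. -/

open Filter Topology MeasureTheory Finset Polynomial
open scoped Real

namespace MW.AN

theorem Cvx_dist {n : ℕ} {e x : ℕ → ℝ} {m M c : ℝ} (hm : 0 < m) (hc : 0 < c) (h : Len n e m M)
    {k l j : ℕ} (hk : k < n) (hl : l < n) (hj : j = 2 * k ∨ j = 2 * k + 1)
    (h1 : c ≤ x l - e (2 * l)) (h2 : c ≤ e (2 * l + 1) - x l) :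
    min c m * (1 + |(k : ℝ) - l|) ≤ |e j - x l| := by
  have hc' : min c m ≤ c := min_le_left _ _
  have hm' : min c m ≤ m := min_le_right _ _
  have h0 : 0 < min c m := lt_min hc hm
  rcases le_or_gt j (2 * l) with hjl | hjl
  · have hd := (h.dist hjl (by omega)).1
    have hkl : k ≤ l := by omega
    have h3 : (k : ℝ) ≤ l := by exact_mod_cast hkl
    have h4 : (l : ℝ) - k ≤ ((2 * l : ℕ) : ℝ) - j := by
      have : l + j ≤ 2 * l + k := by omega
      have : ((l + j : ℕ) : ℝ) ≤ ((2 * l + k : ℕ) : ℝ) := by exact_mod_cast this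
      push_cast at this ⊢
      linarith
    rw [abs_of_nonpos (by linarith), abs_sub_comm]
    refine le_trans ?_ (le_abs_self _)
    nlinarith [mul_le_mul_of_nonneg_left h4 hm.le, mul_le_mul_of_nonneg_right hm' (sub_nonneg.2 h3)]
  · have hd := (h.dist (show 2 * l + 1 ≤ j from hjl) (by omega)).1
    have hkl : l ≤ k := by omega
    have h3 : (l : ℝ) ≤ k := by exact_mod_cast hkl
    have h4 : (k : ℝ) - l ≤ (j : ℝ) - ((2 * l + 1 : ℕ) : ℝ) := by
      have : k + (2 * l + 1) ≤ j + l := by omega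
      have : ((k + (2 * l + 1) : ℕ) : ℝ) ≤ ((j + l : ℕ) : ℝ) := by exact_mod_cast this
      push_cast at this ⊢
      linarith
    rw [abs_of_nonneg (by linarith)]
    refine le_trans ?_ (le_abs_self _)
    nlinarith [mul_le_mul_of_nonneg_left h4 hm.le, mul_le_mul_of_nonneg_right hm' (sub_nonneg.2 h3)]

theorem Cvx_term {A B g κ σ δ c C M r : ℝ} (hc : 0 < c) (hr : 0 < r) (hA : r ≤ |A|) (hB : r ≤ |B|)
    (hAB : |A - B| ≤ M) (hg : c ≤ g) (hκ : |κ| ≤ C) :
    |(δ / g / A ^ 2 + (σ - κ * δ / g) / A) - (δ / g / B ^ 2 + (σ - κ * δ / g) / B)|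
      ≤ (2 / c + M + C * M / c) * (|σ| + |δ|) / r ^ 2 := by
  have hA0 : A ≠ 0 := abs_pos.1 (hr.trans_le hA)
  have hB0 : B ≠ 0 := abs_pos.1 (hr.trans_le hB)
  have hg0 : 0 < g := hc.trans_le hg
  have hM : 0 ≤ M := (abs_nonneg _).trans hAB
  have hC : 0 ≤ C := (abs_nonneg _).trans hκ
  have hr2 : 0 < r ^ 2 := by positivity
  have hA2 : 1 / A ^ 2 ≤ 1 / r ^ 2 :=
    one_div_le_one_div_of_le hr2 (by rw [← sq_abs A]; gcongr)
  have hB2 : 1 / B ^ 2 ≤ 1 / r ^ 2 :=
    one_div_le_one_div_of_le hr2 (by rw [← sq_abs B]; gcongr)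
  have h1 : |1 / A ^ 2 - 1 / B ^ 2| ≤ 2 / r ^ 2 := by
    have : 0 < 1 / A ^ 2 := by positivity
    have : 0 < 1 / B ^ 2 := by positivity
    have : 2 / r ^ 2 = 1 / r ^ 2 + 1 / r ^ 2 := by ring
    rw [abs_le]
    constructor <;> linarith
  have h2 : |1 / A - 1 / B| ≤ M / r ^ 2 := by
    have : 1 / A - 1 / B = (B - A) / (A * B) := by field_simp
    rw [this, abs_div, abs_mul, abs_sub_comm, sq]
    exact div_le_div₀ hM hAB (by positivity) (mul_le_mul hA hB hr.le (abs_nonneg _))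
  have h3 : |δ / g| ≤ |δ| / c := by
    rw [abs_div, abs_of_pos hg0]
    gcongr
  have h4 : |σ - κ * δ / g| ≤ |σ| + C * (|δ| / c) := by
    refine (abs_sub _ _).trans ?_
    rw [mul_div_assoc, abs_mul]
    gcongr
  have h5 : (δ / g / A ^ 2 + (σ - κ * δ / g) / A) - (δ / g / B ^ 2 + (σ - κ * δ / g) / B)
      = δ / g * (1 / A ^ 2 - 1 / B ^ 2) + (σ - κ * δ / g) * (1 / A - 1 / B) := by ring
  rw [h5]
  refine (abs_add_le _ _).trans ?_
  rw [abs_mul, abs_mul]
  calc |δ / g| * |1 / A ^ 2 - 1 / B ^ 2| + |σ - κ * δ / g| * |1 / A - 1 / B|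
      ≤ |δ| / c * (2 / r ^ 2) + (|σ| + C * (|δ| / c)) * (M / r ^ 2) := by gcongr
    _ = ((2 / c + C * M / c) * |δ| + M * |σ|) / r ^ 2 := by ring
    _ ≤ (2 / c + M + C * M / c) * (|σ| + |δ|) / r ^ 2 := by
      have : 0 ≤ (2 / c + C * M / c) * |σ| := by positivity
      have : 0 ≤ M * |δ| := by positivity
      gcongr
      nlinarith

/-- `pf_double` for `N` minus `τ k` times `pf_double` for `P² - R`, with `UB`, `Len.dist`. -/
theorem gap_change (m M : ℝ) (hm : 0 < m) : ∃ B : ℝ, ∀ (n : ℕ) (e x v : ℕ → ℝ) (N : ℝ[X]),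
    Len n e m M → Crit n e x → Interp n e x v N → ∀ k < n,
      |v (2 * k + 1) - v (2 * k)| ≤ B * ∑ l ∈ range n,
        (|sig n e x N l| + |tau n e x N l - tau n e x N k|) / (1 + |(k : ℝ) - l|) ^ 2 := by
  obtain ⟨c, C, hc, hU⟩ := UB m M hm
  refine ⟨(2 / c + M + C * M / c) / (min c m) ^ 2, fun n e x v N hL hx hN k hk => ?_⟩
  have hmono := hL.mono hm
  obtain ⟨hone, hone'⟩ := interp_one hmono hx
  have key : ∀ j < 2 * n, v j - tau n e x N k = ∑ l ∈ range n,
      ((tau n e x N l - tau n e x N k) / g2 n e x l / (e j - x l) ^ 2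
        + (sig n e x N l - kap n e x l * (tau n e x N l - tau n e x N k) / g2 n e x l)
          / (e j - x l)) := by
    intro j hj
    have h1 := pf_double hmono hx hN hj
    have h2 := pf_double hmono hx hone hj
    have h3 : tau n e x N k = ∑ l ∈ range n, (tau n e x N k / g2 n e x l / (e j - x l) ^ 2
        + (-(kap n e x l * tau n e x N k / g2 n e x l)) / (e j - x l)) := by
      conv_lhs => rw [← mul_one (tau n e x N k), h2, Finset.mul_sum]
      refine Finset.sum_congr rfl fun l hl => ?_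
      rw [(hone' l (mem_range.1 hl)).1, (hone' l (mem_range.1 hl)).2]
      ring
    conv_lhs => rw [h1, h3, ← Finset.sum_sub_distrib]
    exact Finset.sum_congr rfl fun l _ => by ring
  have h4 : v (2 * k + 1) - v (2 * k)
      = (v (2 * k + 1) - tau n e x N k) - (v (2 * k) - tau n e x N k) := by ring
  rw [h4, key _ (by omega), key _ (by omega), ← Finset.sum_sub_distrib, Finset.mul_sum]
  refine (Finset.abs_sum_le_sum_abs _ _).trans (Finset.sum_le_sum fun l hl => ?_)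
  have hl' := mem_range.1 hl
  obtain ⟨u1, u2, u3, -, u5⟩ := hU n e x hL hx l hl'
  have h0 : 0 < min c m := lt_min hc hm
  have hlen := hL (2 * k) (by omega)
  refine (Cvx_term (r := min c m * (1 + |(k : ℝ) - l|)) (M := M) hc (by positivity)
    (Cvx_dist hm hc hL hk hl' (Or.inr rfl) u1 u2) (Cvx_dist hm hc hL hk hl' (Or.inl rfl) u1 u2)
    ?_ u3 u5).trans (le_of_eq ?_)
  · rw [sub_sub_sub_cancel_right, abs_of_nonneg (hm.le.trans hlen.1)]
    exact hlen.2
  · rw [mul_pow]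
    field_simp

theorem COER (m M : ℝ) (hm : 0 < m) : ∃ c : ℝ, 0 < c ∧ ∀ (n : ℕ) (e x v rd : ℕ → ℝ) (Pd : ℝ[X]),
    Len n e m M → Crit n e x → Adm n e x v Pd rd →
      c * ∑ k ∈ range n, (v (2 * k + 1) - v (2 * k)) ^ 2
        ≤ (n : ℝ) ^ (1 / 8 : ℝ) * -∑ j ∈ range (2 * n), v j * rd j := by
  obtain ⟨B, hB⟩ := gap_change m M hm
  obtain ⟨C, hC, hS⟩ := coer_seq B
  obtain ⟨c₁, C₁, hc₁, hU⟩ := UB m M hm
  obtain ⟨c₂, hc₂, hW⟩ := WLOW m M hm
  have hc : 0 < min c₁ c₂ := lt_min hc₁ hc₂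
  refine ⟨min c₁ c₂ / C, by positivity, fun n e x v rd Pd hL hx hA => ?_⟩
  have hmono := hL.mono hm
  obtain ⟨N, hN⟩ := exists_interp hmono x v
  have hdip : ∀ k, ∃ S, k < n → Dip n e x k S := fun k => by
    by_cases hk : k < n
    · exact (exists_dip hmono hx hk).imp fun _ h _ => h
    · exact ⟨0, fun h => absurd h hk⟩
  choose S hSd using hdip
  have h1 := hS n (fun k => v (2 * k + 1) - v (2 * k)) (sig n e x N) (tau n e x N)
    (hB n e x v N hL hx hN)
  have h2 : min c₁ c₂ * ∑ l ∈ range n, sig n e x N l ^ 2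
      ≤ ∑ l ∈ range n, sig n e x N l ^ 2 * g2 n e x l := by
    rw [Finset.mul_sum]
    refine Finset.sum_le_sum fun l hl => ?_
    rw [mul_comm]
    exact mul_le_mul_of_nonneg_left
      ((min_le_left _ _).trans (hU n e x hL hx l (mem_range.1 hl)).2.2.1) (sq_nonneg _)
  have hnn : ∀ l < n, ∀ k ∈ (range n).erase l,
      0 ≤ wk n x S k l * (tau n e x N k - tau n e x N l) ^ 2 := fun l hl k hk =>
    mul_nonneg (wk_nonneg hmono hx (mem_range.1 (mem_of_mem_erase hk)) hl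
      (ne_of_mem_erase hk).symm (hSd k (mem_range.1 (mem_of_mem_erase hk)))) (sq_nonneg _)
  have h3 : min c₁ c₂ * ∑ k ∈ range (n - 1), (tau n e x N k - tau n e x N (k + 1)) ^ 2
      ≤ ∑ l ∈ range n, ∑ k ∈ (range n).erase l,
        wk n x S k l * (tau n e x N k - tau n e x N l) ^ 2 := by
    rcases Nat.eq_zero_or_pos n with h0 | h0
    · simp [h0]
    have hn : n = n - 1 + 1 := by omega
    have hsplit : ∀ f : ℕ → ℝ, ∑ l ∈ range n, f l = ∑ k ∈ range (n - 1), f (k + 1) + f 0 :=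
      fun f => by
        conv_lhs => rw [hn]
        exact Finset.sum_range_succ' f _
    rw [hsplit, Finset.mul_sum]
    refine le_add_of_le_of_nonneg (Finset.sum_le_sum fun k hk => ?_)
      (Finset.sum_nonneg (hnn 0 h0))
    have hk' : k + 1 < n := by have := mem_range.1 hk; omega
    refine le_trans ?_ (Finset.single_le_sum (hnn (k + 1) hk')
      (show k ∈ (range n).erase (k + 1) from mem_erase.2 ⟨by omega, mem_range.2 (by omega)⟩))
    exact mul_le_mul_of_nonneg_right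
      ((min_le_right _ _).trans (hW n e x S k hL hx hk' (hSd k (by omega)))) (sq_nonneg _)
  rw [QFORM hmono hx hSd hA hN]
  have hp : 0 ≤ (n : ℝ) ^ (1 / 8 : ℝ) := by positivity
  calc min c₁ c₂ / C * ∑ k ∈ range n, (v (2 * k + 1) - v (2 * k)) ^ 2
      ≤ min c₁ c₂ / C * (C * (n : ℝ) ^ (1 / 8 : ℝ) * (∑ l ∈ range n, sig n e x N l ^ 2
        + ∑ k ∈ range (n - 1), (tau n e x N k - tau n e x N (k + 1)) ^ 2)) :=
        mul_le_mul_of_nonneg_left h1 (by positivity)
    _ = (n : ℝ) ^ (1 / 8 : ℝ) * (min c₁ c₂ * ∑ l ∈ range n, sig n e x N l ^ 2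
        + min c₁ c₂ * ∑ k ∈ range (n - 1), (tau n e x N k - tau n e x N (k + 1)) ^ 2) := by
        field_simp
    _ ≤ _ := mul_le_mul_of_nonneg_left (add_le_add h2 h3) hp

theorem Cvx_abel (d v : ℕ → ℝ) (K : ℕ) :
    ∑ i ∈ range K, (∑ j ∈ range (i + 1), d j) * (v (i + 1) - v i)
      = (∑ j ∈ range (K + 1), d j) * v K - ∑ j ∈ range (K + 1), d j * v j := by
  induction K with
  | zero => simp
  | succ K ih =>
    rw [Finset.sum_range_succ, ih, Finset.sum_range_succ d (K + 1),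
      Finset.sum_range_succ (fun j => d j * v j) (K + 1)]
    ring

/-- Mean value theorem along `e + t (e' - e)`, Abel summation with `∑ rr = 0`. -/
theorem CVX (m M : ℝ) (hm : 0 < m) : ∃ c : ℝ, 0 < c ∧ ∀ (n : ℕ) (e e' x x' : ℕ → ℝ),
    Len n e m M → Len n e' m M → Crit n e x → Crit n e' x' →
      c * ∑ k ∈ range n, ((e' (2 * k + 1) - e' (2 * k)) - (e (2 * k + 1) - e (2 * k))) ^ 2
        ≤ (n : ℝ) ^ (1 / 8 : ℝ) * ∑ i ∈ range (2 * n - 1),
            (ss n e' x' i - ss n e x i) * ((e' (i + 1) - e' i) - (e (i + 1) - e i)) := by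
  obtain ⟨c, hc, hC⟩ := COER m M hm
  refine ⟨π * c, by positivity, fun n e e' x x' hL hL' hx hx' => ?_⟩
  rcases Nat.eq_zero_or_pos n with h0 | h0
  · simp [h0]
  set v : ℕ → ℝ := fun j => e' j - e j with hv
  have hLt : ∀ t ∈ Set.Icc (0 : ℝ) 1, Len n (fun j => e j + t * v j) m M := by
    intro t ht i hi
    obtain ⟨a1, a2⟩ := hL i hi
    obtain ⟨b1, b2⟩ := hL' i hi
    have : e (i + 1) + t * v (i + 1) - (e i + t * v i)
        = (1 - t) * (e (i + 1) - e i) + t * (e' (i + 1) - e' i) := by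
      simp only [hv]
      ring
    rw [this]
    have h1 : 0 ≤ 1 - t := sub_nonneg.2 ht.2
    constructor
    · nlinarith [mul_le_mul_of_nonneg_left a1 h1, mul_le_mul_of_nonneg_left b1 ht.1]
    · nlinarith [mul_le_mul_of_nonneg_left a2 h1, mul_le_mul_of_nonneg_left b2 ht.1]
  set φ : ℝ → ℝ := fun t => ∑ j ∈ range (2 * n),
    v j * rr n (fun j => e j + t * v j) (crit n (fun j => e j + t * v j)) j with hφ
  have hder : ∀ t ∈ Set.Icc (0 : ℝ) 1, ∃ a, HasDerivAt φ a t ∧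
      c * ∑ k ∈ range n, (v (2 * k + 1) - v (2 * k)) ^ 2 ≤ (n : ℝ) ^ (1 / 8 : ℝ) * -a := by
    intro t ht
    have hmono := (hLt t ht).mono hm
    obtain ⟨Pd, rd, hA, hd⟩ := DIFF hmono
    exact ⟨_, HasDerivAt.fun_sum fun j hj => (hd j (mem_range.1 hj)).const_mul (v j),
      hC n _ _ v rd Pd (hLt t ht) (crit_spec hmono) hA⟩
  obtain ⟨t, ht, hs⟩ := exists_deriv_eq_slope φ zero_lt_one
    (fun t ht => (hder t ht).choose_spec.1.continuousAt.continuousWithinAt)
    fun t ht => (hder t (Set.Ioo_subset_Icc_self ht)).choose_spec.1.differentiableAt.differentiableWithinAt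
  obtain ⟨a, ha, hb⟩ := hder t (Set.Ioo_subset_Icc_self ht)
  rw [ha.deriv, sub_zero, div_one] at hs
  have hrr : ∀ (f y : ℕ → ℝ), Mono n f → Crit n f y → ∀ j, rr n f (crit n f) j = rr n f y j :=
    fun f y hf hy j => by unfold rr; rw [Crit.unique hf (crit_spec hf) hy]
  have e0 : (fun j => e j + 0 * v j) = e := by funext j; ring
  have e1 : (fun j => e j + 1 * v j) = e' := by funext j; simp only [hv]; ring
  have hφ0 : φ 0 = ∑ j ∈ range (2 * n), v j * rr n e x j := by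
    simp only [hφ, e0, hrr e x (hL.mono hm) hx]
  have hφ1 : φ 1 = ∑ j ∈ range (2 * n), v j * rr n e' x' j := by
    simp only [hφ, e1, hrr e' x' (hL'.mono hm) hx']
  have hab := Cvx_abel (fun j => rr n e' x' j - rr n e x j) v (2 * n - 1)
  rw [show 2 * n - 1 + 1 = 2 * n by omega, Finset.sum_sub_distrib, (FINEX (hL.mono hm) hx).1,
    (FINEX (hL'.mono hm) hx').1] at hab
  have h1 : ∑ i ∈ range (2 * n - 1),
      (ss n e' x' i - ss n e x i) * ((e' (i + 1) - e' i) - (e (i + 1) - e i)) = π * -a := by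
    rw [hs, hφ0, hφ1, ← Finset.sum_sub_distrib]
    have h2 : ∑ j ∈ range (2 * n), (v j * rr n e' x' j - v j * rr n e x j)
        = ∑ j ∈ range (2 * n), (rr n e' x' j - rr n e x j) * v j :=
      Finset.sum_congr rfl fun j _ => by ring
    rw [h2, show -∑ j ∈ range (2 * n), (rr n e' x' j - rr n e x j) * v j
      = (0 - 0) * v (2 * n - 1) - ∑ j ∈ range (2 * n), (rr n e' x' j - rr n e x j) * v j by ring,
      ← hab, Finset.mul_sum]
    refine Finset.sum_congr rfl fun i _ => ?_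
    simp only [ss, hv, Finset.sum_sub_distrib]
    ring
  have h3 : ∑ k ∈ range n, ((e' (2 * k + 1) - e' (2 * k)) - (e (2 * k + 1) - e (2 * k))) ^ 2
      = ∑ k ∈ range n, (v (2 * k + 1) - v (2 * k)) ^ 2 :=
    Finset.sum_congr rfl fun k _ => by simp only [hv]; ring
  rw [h1, h3, mul_assoc, mul_left_comm ((n : ℝ) ^ (1 / 8 : ℝ))]
  exact mul_le_mul_of_nonneg_left hb Real.pi_pos.le

end MW.AN
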