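import Mathlib

/-!
# Meeks–Wolf, the half-plane theorem `AN`: definitions

A quarter of a doubly symmetric minimal surface is parametrised by the upper half-plane through
`z = x₃ + i x₃^*`; `u₁ = x₁`, `u₂ = x₂` are extended evenly to `ℂ`.
-/

open Complex InnerProductSpace Set Filter Topology
open scoped Real ComplexConjugate Polynomial

namespace MW.AN

/-- `D u = u_x - i u_y` (holomorphic where `u` is harmonic; `D (Re F) = F'`). -/
noncomputable def D (u : ℂ → ℝ) (z : ℂ) : ℂ :=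
  ((fderiv ℝ u z 1 : ℝ) : ℂ) - I * ((fderiv ℝ u z I : ℝ) : ℂ)

/-- Nonnegative harmonic function on the open upper half-plane. -/
structure PosH (f : ℂ → ℝ) : Prop where
  harm : ∀ z : ℂ, 0 < z.im → HarmonicAt f z
  nonneg : ∀ z : ℂ, 0 < z.im → 0 ≤ f z

/-- Continuous, even, nonnegative, harmonic where positive, positive on the upper half-plane. -/
structure Half (u : ℂ → ℝ) : Prop where
  cont : Continuous u
  even : ∀ z : ℂ, u (conj z) = u z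
  nonneg : ∀ z : ℂ, 0 ≤ u z
  harm : ∀ z : ℂ, 0 < u z → HarmonicAt u z
  pos : ∀ z : ℂ, 0 < z.im → 0 < u z

/-- The half-plane data of a doubly symmetric minimal surface. -/
structure Data (u₁ u₂ : ℂ → ℝ) : Prop where
  h₁ : Half u₁
  h₂ : Half u₂
  prod : ∀ x : ℝ, u₁ x * u₂ x = 0
  eq : ∀ z : ℂ, 0 < z.im → D u₁ z ^ 2 + D u₂ z ^ 2 = -1
  fin : ∀ a b : ℝ, {x : ℝ | x ∈ Icc a b ∧ u₁ x = 0 ∧ u₂ x = 0}.Finite

/-- Catenoid with axis the `x₂`-direction. -/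
def IsCat (u₁ u₂ : ℂ → ℝ) : Prop :=
  ∃ x₀ c : ℝ, 0 < c ∧ ∀ z : ℂ, u₁ z ^ 2 + (z.re - x₀) ^ 2 = c ^ 2 * Real.cosh (u₂ z / c) ^ 2

/-- Singly periodic Scherk surface. -/
def IsScherk (u₁ u₂ : ℂ → ℝ) : Prop :=
  ∃ x₀ l θ : ℝ, 0 < l ∧ 0 < θ ∧ θ < π / 2 ∧ ∀ z : ℂ,
    Real.cos θ ^ 2 * Real.cosh (u₁ z / (l * Real.cos θ))
      - Real.sin θ ^ 2 * Real.cosh (u₂ z / (l * Real.sin θ)) = Real.cos ((z.re - x₀) / l)

/-- `α` is the slope of `f` at infinity, and `f ≥ α y`. -/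
structure Slope (f : ℂ → ℝ) (α : ℝ) : Prop where
  nonneg : 0 ≤ α
  lim : ∀ x : ℝ, Tendsto (fun y : ℝ => f (x + y * I) / y) atTop (𝓝 α)
  lo : ∀ z : ℂ, 0 < z.im → α * z.im ≤ f z

/-- Martin function with bound `C`: `|y| ≤ u ≤ |y| + C`. -/
structure Mart (C : ℝ) (u : ℂ → ℝ) : Prop extends Half u where
  lo : ∀ z : ℂ, |z.im| ≤ u z
  hi : ∀ z : ℂ, u z ≤ |z.im| + C

/-- Green's function of `ℂ ∖ [-1,1]` with pole at infinity. -/
noncomputable def gg (ζ : ℂ) : ℝ := Real.arcosh ((‖ζ - 1‖ + ‖ζ + 1‖) / 2)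

/-- `Re √(1 - ζ²)`, the Martin function with the single gap `(-1,1)`. -/
noncomputable def ww (ζ : ℂ) : ℝ := √(((‖ζ - 1‖ + ‖ζ + 1‖) / 2) ^ 2 - ζ.re ^ 2)

/-- The Martin function with the single gap `(a,b)`. -/
noncomputable def wI (a b : ℝ) (z : ℂ) : ℝ :=
  (b - a) / 2 * ww ((z - (((a + b) / 2 : ℝ) : ℂ)) / (((b - a) / 2 : ℝ) : ℂ))

/-- `e` enumerates the common zeros; `u₁ > 0` on the even segments, `u₂ > 0` on the odd ones. -/
structure Enum (e : ℤ → ℝ) (u₁ u₂ : ℂ → ℝ) : Prop where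
  mono : StrictMono e
  pos₁ : ∀ k : ℤ, ∀ t ∈ Ioo (e (2 * k)) (e (2 * k + 1)), 0 < u₁ t
  pos₂ : ∀ k : ℤ, ∀ t ∈ Ioo (e (2 * k + 1)) (e (2 * k + 2)), 0 < u₂ t
  zero₁ : ∀ k : ℤ, ∀ t ∈ Icc (e (2 * k + 1)) (e (2 * k + 2)), u₁ t = 0
  zero₂ : ∀ k : ℤ, ∀ t ∈ Icc (e (2 * k)) (e (2 * k + 1)), u₂ t = 0
  cover : ∀ t : ℝ, ∃ i : ℤ, e i ≤ t ∧ t < e (i + 1)

/-- All segment lengths lie in `[m, M]`. -/
def Chain (e : ℤ → ℝ) (m M : ℝ) : Prop := ∀ i : ℤ, m ≤ e (i + 1) - e i ∧ e (i + 1) - e i ≤ M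

/-- The normalised pair in the case `α β > 0` (`U₁ = u₁ / α`, `U₂ = u₂ / β`). -/
structure Pair (α β C : ℝ) (e : ℤ → ℝ) (U₁ U₂ : ℂ → ℝ) : Prop where
  hα : 0 < α
  hβ : 0 < β
  hsq : α ^ 2 + β ^ 2 = 1
  m₁ : Mart C U₁
  m₂ : Mart C U₂
  enum : Enum e U₁ U₂
  eq : ∀ z : ℂ, 0 < z.im → (α : ℂ) ^ 2 * D U₁ z ^ 2 + (β : ℂ) ^ 2 * D U₂ z ^ 2 = -1

/-! ## Finite configurations: `n` gaps `(e (2k), e (2k+1))`, `k < n` -/

open Finset Polynomial

/-- The first `2 n` points are strictly increasing. -/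
def Mono (n : ℕ) (e : ℕ → ℝ) : Prop := ∀ ⦃i j : ℕ⦄, i < j → j < 2 * n → e i < e j

/-- All `2 n - 1` lengths lie in `[m, M]`. -/
def Len (n : ℕ) (e : ℕ → ℝ) (m M : ℝ) : Prop :=
  ∀ i : ℕ, i + 1 < 2 * n → m ≤ e (i + 1) - e i ∧ e (i + 1) - e i ≤ M

/-- `R = ∏ (X - e j)`. -/
noncomputable def Rp (n : ℕ) (e : ℕ → ℝ) : ℝ[X] := ∏ j ∈ range (2 * n), (X - C (e j))

/-- `P = ∏ (X - x m)`. -/
noncomputable def Pp (n : ℕ) (x : ℕ → ℝ) : ℝ[X] := ∏ m ∈ range n, (X - C (x m))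

/-- Chebyshev parametrisation of `[b, a]` by `θ ∈ [0, π]`. -/
noncomputable def XX (b a θ : ℝ) : ℝ := (a + b) / 2 - (a - b) / 2 * Real.cos θ

/-- `II b a f = ∫_b^a f(t) dt / √((t-b)(a-t))`, written without singularities. -/
noncomputable def II (b a : ℝ) (f : ℝ → ℝ) : ℝ := ∫ θ in (0 : ℝ)..π, f (XX b a θ)

/-- The indices of the points that are not ends of gap `k`. -/
def others (n k : ℕ) : Finset ℕ := ((range (2 * n)).erase (2 * k)).erase (2 * k + 1)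

/-- The regular part of `1 / √|R|` on gap `k`. -/
noncomputable def Wt (n : ℕ) (e : ℕ → ℝ) (k : ℕ) (t : ℝ) : ℝ :=
  1 / √(∏ j ∈ others n k, |t - e j|)

/-- The period `∫_{gap k} f / √|R|`. -/
noncomputable def L (n : ℕ) (e : ℕ → ℝ) (k : ℕ) (f : ℝ → ℝ) : ℝ :=
  II (e (2 * k)) (e (2 * k + 1)) (fun t => f t * Wt n e k t)

/-- `x` lists the critical points: `P = ∏ (X - x m)` has vanishing periods. -/
structure Crit (n : ℕ) (e x : ℕ → ℝ) : Prop where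
  mem : ∀ k < n, x k ∈ Set.Ioo (e (2 * k)) (e (2 * k + 1))
  per : ∀ k < n, L n e k (fun t => (Pp n x).eval t) = 0

open Classical in
/-- A choice of the critical points. -/
noncomputable def crit (n : ℕ) (e : ℕ → ℝ) : ℕ → ℝ :=
  if h : ∃ x, Crit n e x then h.choose else 0

/-- Residue of `p² = -P²/R` at `e j`. -/
noncomputable def rr (n : ℕ) (e x : ℕ → ℝ) (j : ℕ) : ℝ :=
  -((Pp n x).eval (e j)) ^ 2 / (derivative (Rp n e)).eval (e j)

/-- Momentum on the segment `(e i, e (i+1))`. -/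
noncomputable def ss (n : ℕ) (e x : ℕ → ℝ) (i : ℕ) : ℝ := π * ∑ j ∈ range (i + 1), rr n e x j

open Classical in
/-- Momentum at a real point. -/
noncomputable def sx (n : ℕ) (e x : ℕ → ℝ) (t : ℝ) : ℝ :=
  π * ∑ j ∈ (range (2 * n)).filter (fun j => e j < t), rr n e x j

/-- A finite family of disjoint closed intervals `[b l, a l]`, `l ∈ K`, with positive weights. -/
structure Fam (K : Finset ℕ) (b a : ℕ → ℝ) (w : ℕ → ℝ → ℝ) : Prop where
  lt : ∀ l ∈ K, b l < a l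
  sep : ∀ l ∈ K, ∀ l' ∈ K, l ≠ l' → a l < b l' ∨ a l' < b l
  cont : ∀ l ∈ K, ContinuousOn (w l) (Set.Icc (b l) (a l))
  pos : ∀ l ∈ K, ∀ t ∈ Set.Icc (b l) (a l), 0 < w l t

/-- `ξ l` lies in the open interval `l` and `∏ (t - ξ m)` has vanishing weighted periods. -/
structure Roots (K : Finset ℕ) (b a : ℕ → ℝ) (w : ℕ → ℝ → ℝ) (ξ : ℕ → ℝ) : Prop where
  mem : ∀ l ∈ K, ξ l ∈ Set.Ioo (b l) (a l)
  per : ∀ l ∈ K, II (b l) (a l) (fun t => (∏ m ∈ K, (t - ξ m)) * w l t) = 0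

/-- A square root with the cut along the negative imaginary axis. -/
noncomputable def rt (z : ℂ) : ℂ := Complex.exp (I * π / 4) * (-I * z) ^ (1 / 2 : ℂ)

/-- The branch of `√R` on the closed upper half-plane with `sqR ~ z ^ n` at infinity. -/
noncomputable def sqR (n : ℕ) (e : ℕ → ℝ) (z : ℂ) : ℂ := ∏ j ∈ range (2 * n), rt (z - e j)

/-- The affine function with values `v (2k)`, `v (2k+1)` at the ends of gap `k`. -/
noncomputable def ell (e v : ℕ → ℝ) (k : ℕ) (t : ℝ) : ℝ :=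
  v (2 * k) + (v (2 * k + 1) - v (2 * k)) * (t - e (2 * k)) / (e (2 * k + 1) - e (2 * k))

/-- Derivative of `t ↦ L^t_k f` for a fixed `f`, as an integrand: velocity `v` of the points. -/
noncomputable def drag (n : ℕ) (e v : ℕ → ℝ) (k : ℕ) (f : ℝ[X]) (t : ℝ) : ℝ :=
  ell e v k t * (derivative f).eval t
    + f.eval t / 2 * ∑ j ∈ others n k, (v j - ell e v k t) / (t - e j)

/-- `(Pd, rd)` is the derivative of `(P, r)` when the points move with velocity `v`. -/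
structure Adm (n : ℕ) (e x v : ℕ → ℝ) (Pd : ℝ[X]) (rd : ℕ → ℝ) : Prop where
  deg : Pd.degree < n
  per : ∀ k < n, L n e k (fun t => Pd.eval t + drag n e v k (Pp n x) t) = 0
  sum : ∑ j ∈ range (2 * n), rd j = 0
  pf : ∀ t : ℝ, (∀ j < 2 * n, t ≠ e j) →
    ∑ j ∈ range (2 * n), rd j / (t - e j) + ∑ j ∈ range (2 * n), rr n e x j * v j / (t - e j) ^ 2
      = -2 * (Pp n x).eval t * Pd.eval t / (Rp n e).eval t
        - (Pp n x).eval t ^ 2 / (Rp n e).eval t * ∑ j ∈ range (2 * n), v j / (t - e j)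

/-- `S / ((X - x k)² √(-R))` is the derivative of the dipole potential at `x k`. -/
def Dip (n : ℕ) (e x : ℕ → ℝ) (k : ℕ) (S : ℝ[X]) : Prop :=
  S.degree < n ∧ ∃ Ω : ℝ[X], (∀ l < n, L n e l (fun t => Ω.eval t) = 0) ∧
    S = C (-1 / (derivative (Pp n x)).eval (x k))
          * (C (1 / 2) * derivative (Rp n e) * (X - C (x k)) - Rp n e)
        + (X - C (x k)) ^ 2 * Ω

/-- `g_l² = u''(x l)²`. -/
noncomputable def g2 (n : ℕ) (e x : ℕ → ℝ) (l : ℕ) : ℝ :=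
  -((derivative (Pp n x)).eval (x l)) ^ 2 / (Rp n e).eval (x l)

/-- Logarithmic derivative of `p² / (t - x l)²` at `x l`. -/
noncomputable def kap (n : ℕ) (e x : ℕ → ℝ) (l : ℕ) : ℝ :=
  2 * ∑ m ∈ (range n).erase l, 1 / (x l - x m) - ∑ j ∈ range (2 * n), 1 / (x l - e j)

/-- `τ_l = Ψ(x l)`, `Ψ = -N / R`. -/
noncomputable def tau (n : ℕ) (e x : ℕ → ℝ) (N : ℝ[X]) (l : ℕ) : ℝ :=
  -N.eval (x l) / (Rp n e).eval (x l)

/-- `σ_l = Ψ'(x l) / g_l²`, `Ψ = -N / R`. -/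
noncomputable def sig (n : ℕ) (e x : ℕ → ℝ) (N : ℝ[X]) (l : ℕ) : ℝ :=
  -((derivative N).eval (x l) * (Rp n e).eval (x l)
      - N.eval (x l) * (derivative (Rp n e)).eval (x l))
    / (Rp n e).eval (x l) ^ 2 / g2 n e x l

/-- The conductance `w_{kl}`. -/
noncomputable def wk (n : ℕ) (x : ℕ → ℝ) (S : ℕ → ℝ[X]) (k l : ℕ) : ℝ :=
  -(S k).eval (x l) / ((x l - x k) ^ 2 * (derivative (Pp n x)).eval (x l))

/-- `N / P²` is the rational vector field with values `v j` at the points `e j`. -/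
structure Interp (n : ℕ) (e x v : ℕ → ℝ) (N : ℝ[X]) : Prop where
  deg : N.degree < (2 * n : ℕ)
  val : ∀ j < 2 * n, N.eval (e j) = v j * (Pp n x).eval (e j) ^ 2

/-- Numerator (over `√(-R)`) of `ṗ + (ρ p)'`, `ρ = N / P²`. -/
noncomputable def Om (n : ℕ) (e x v : ℕ → ℝ) (Pd N : ℝ[X]) (t : ℝ) : ℝ :=
  Pd.eval t
    + ((derivative N).eval t * (Pp n x).eval t - N.eval t * (derivative (Pp n x)).eval t)
        / (Pp n x).eval t ^ 2
    + (Pp n x).eval t / 2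
        * ∑ j ∈ range (2 * n), (v j - N.eval t / (Pp n x).eval t ^ 2) / (t - e j)

end MW.AN
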