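import Pool.Agent.P.MP_064970_gt.AN.PF

/-! Row AN-DiffA: differentiability of the periods and of `P` along `e + t v`
(differentiation under the integral over `[0, π]`, Cramer's rule). -/

open Filter Topology MeasureTheory Finset Polynomial
open scoped Real

namespace MW.AN

variable {n : ℕ} {e v : ℕ → ℝ} {t₀ : ℝ}

theorem Mono.eventually (h : Mono n (fun j => e j + t₀ * v j)) :
    ∀ᶠ t in 𝓝 t₀, Mono n (fun j => e j + t * v j) := by
  have h1 : ∀ᶠ t in 𝓝 t₀, ∀ j ∈ range (2 * n), ∀ i ∈ range j,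
      e i + t * v i < e j + t * v j := by
    refine (eventually_all_finset _).2 fun j hj => (eventually_all_finset _).2 fun i hi => ?_
    exact ContinuousAt.eventually_lt (f := fun t : ℝ => e i + t * v i)
      (g := fun t : ℝ => e j + t * v j) (by fun_prop) (by fun_prop)
      (h (mem_range.1 hi) (mem_range.1 hj))
  filter_upwards [h1] with t ht i j hij hj
  exact ht j (mem_range.2 hj) i (mem_range.2 hij)

namespace DiffA

theorem inv_sqrt_eq (s : Finset ℕ) (g : ℕ → ℝ) (hg : ∀ j ∈ s, g j ≠ 0) :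
    1 / √(∏ j ∈ s, |g j|) = Real.exp (-((∑ j ∈ s, Real.log (g j)) / 2)) := by
  rw [Real.exp_neg, Real.exp_half, Real.exp_sum, one_div]
  congr 2
  refine Finset.prod_congr rfl fun j hj => ?_
  rw [Real.exp_log_eq_abs (hg j hj)]

theorem hasDerivAt_inv_sqrt (s : Finset ℕ) (g : ℕ → ℝ → ℝ) (g' : ℕ → ℝ) {t : ℝ}
    (hd : ∀ j ∈ s, HasDerivAt (g j) (g' j) t) (hg : ∀ j ∈ s, g j t ≠ 0) :
    HasDerivAt (fun t => 1 / √(∏ j ∈ s, |g j t|))
      (1 / √(∏ j ∈ s, |g j t|) * -((∑ j ∈ s, g' j / g j t) / 2)) t := by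
  have h1 : HasDerivAt (fun t => ∑ j ∈ s, Real.log (g j t)) (∑ j ∈ s, g' j / g j t) t :=
    HasDerivAt.fun_sum fun j hj => (hd j hj).log (hg j hj)
  have h2 := (h1.div_const 2).fun_neg.exp
  rw [← inv_sqrt_eq s (fun j => g j t) hg] at h2
  refine h2.congr_of_eventuallyEq ?_
  have h3 : ∀ᶠ u in 𝓝 t, ∀ j ∈ s, g j u ≠ 0 :=
    (eventually_all_finset _).2 fun j hj => (hd j hj).continuousAt.eventually_ne (hg j hj)
  filter_upwards [h3] with u hu
  exact inv_sqrt_eq s (fun j => g j u) hu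

theorem ell_XX {e : ℕ → ℝ} {k : ℕ} (h : e (2 * k) < e (2 * k + 1)) (θ : ℝ) :
    ell e v k (XX (e (2 * k)) (e (2 * k + 1)) θ) = XX (v (2 * k)) (v (2 * k + 1)) θ := by
  have h1 : e (2 * k + 1) - e (2 * k) ≠ 0 := (sub_pos.2 h).ne'
  unfold ell XX
  field_simp
  ring

/-- The moving point. -/
noncomputable def pt (e v : ℕ → ℝ) (k : ℕ) (t θ : ℝ) : ℝ :=
  XX (e (2 * k) + t * v (2 * k)) (e (2 * k + 1) + t * v (2 * k + 1)) θ

theorem pt_hasDerivAt (e v : ℕ → ℝ) (k : ℕ) (t θ : ℝ) :
    HasDerivAt (fun t => pt e v k t θ) (XX (v (2 * k)) (v (2 * k + 1)) θ) t := by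
  have e1 : (fun t => pt e v k t θ) = fun t =>
      XX (e (2 * k)) (e (2 * k + 1)) θ + t * XX (v (2 * k)) (v (2 * k + 1)) θ := by
    funext t
    unfold pt XX
    ring
  rw [e1]
  exact (hasDerivAt_mul_const _).const_add _

theorem pt_ne {t : ℝ} (h : Mono n (fun j => e j + t * v j)) {k j : ℕ} (hk : k < n)
    (hj : j ∈ others n k) (θ : ℝ) : pt e v k t θ - (e j + t * v j) ≠ 0 :=
  sub_ne_zero.2 (h.ne_of_mem_others hk hj (XX_mem (h.gap_lt hk) θ))

/-- The integrand. -/
noncomputable def FF (n : ℕ) (e v : ℕ → ℝ) (k : ℕ) (f : ℝ[X]) (t θ : ℝ) : ℝ :=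
  f.eval (pt e v k t θ) * (1 / √(∏ j ∈ others n k, |pt e v k t θ - (e j + t * v j)|))

/-- Its derivative. -/
noncomputable def FD (n : ℕ) (e v : ℕ → ℝ) (k : ℕ) (f : ℝ[X]) (t θ : ℝ) : ℝ :=
  (XX (v (2 * k)) (v (2 * k + 1)) θ * (derivative f).eval (pt e v k t θ)
    + f.eval (pt e v k t θ) / 2 * ∑ j ∈ others n k,
      (v j - XX (v (2 * k)) (v (2 * k + 1)) θ) / (pt e v k t θ - (e j + t * v j)))
    * (1 / √(∏ j ∈ others n k, |pt e v k t θ - (e j + t * v j)|))

theorem FF_hasDerivAt {t : ℝ} (h : Mono n (fun j => e j + t * v j)) {k : ℕ} (hk : k < n)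
    (f : ℝ[X]) (θ : ℝ) : HasDerivAt (fun t => FF n e v k f t θ) (FD n e v k f t θ) t := by
  have h1 := pt_hasDerivAt e v k t θ
  have h2 := (f.hasDerivAt (pt e v k t θ)).comp t h1
  have h3 := hasDerivAt_inv_sqrt (others n k) (fun j t => pt e v k t θ - (e j + t * v j))
    (fun j => XX (v (2 * k)) (v (2 * k + 1)) θ - v j) (t := t)
    (fun j _ => h1.fun_sub ((hasDerivAt_mul_const (v j)).const_add (e j)))
    (fun j hj => pt_ne h hk hj θ)
  have h4 := h2.fun_mul h3
  have e1 : ∑ j ∈ others n k, (XX (v (2 * k)) (v (2 * k + 1)) θ - v j) /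
      (pt e v k t θ - (e j + t * v j)) = -∑ j ∈ others n k,
      (v j - XX (v (2 * k)) (v (2 * k + 1)) θ) / (pt e v k t θ - (e j + t * v j)) := by
    rw [← Finset.sum_neg_distrib]
    exact Finset.sum_congr rfl fun j _ => by ring
  refine HasDerivAt.congr_deriv h4 ?_
  unfold FD
  simp only [Function.comp]
  rw [e1]
  ring

theorem continuous_pt (e v : ℕ → ℝ) (k : ℕ) :
    Continuous (fun p : ℝ × ℝ => pt e v k p.1 p.2) := by
  unfold pt XX
  fun_prop

theorem continuousOn_W {k : ℕ} (hk : k < n) :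
    ContinuousOn (fun p : ℝ × ℝ =>
      1 / √(∏ j ∈ others n k, |pt e v k p.1 p.2 - (e j + p.1 * v j)|))
      {p | Mono n (fun j => e j + p.1 * v j)} := by
  have h1 := continuous_pt e v k
  refine continuousOn_const.div (Continuous.continuousOn (by fun_prop)) fun p hp => ?_
  exact (Real.sqrt_pos.2 (Finset.prod_pos fun j hj => abs_pos.2 (pt_ne hp hk hj _))).ne'

theorem continuousOn_FF {k : ℕ} (hk : k < n) (f : ℝ[X]) :
    ContinuousOn (fun p : ℝ × ℝ => FF n e v k f p.1 p.2)
      {p | Mono n (fun j => e j + p.1 * v j)} :=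
  (f.continuous.comp (continuous_pt e v k)).continuousOn.mul (continuousOn_W hk)

theorem continuousOn_FD {k : ℕ} (hk : k < n) (f : ℝ[X]) :
    ContinuousOn (fun p : ℝ × ℝ => FD n e v k f p.1 p.2)
      {p | Mono n (fun j => e j + p.1 * v j)} := by
  have h1 := continuous_pt e v k
  have h2 : Continuous (fun p : ℝ × ℝ => XX (v (2 * k)) (v (2 * k + 1)) p.2) := by
    unfold XX
    fun_prop
  refine ContinuousOn.mul (ContinuousOn.add
    (h2.mul ((derivative f).continuous.comp h1)).continuousOn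
    (ContinuousOn.mul ((f.continuous.comp h1).div_const 2).continuousOn ?_)) (continuousOn_W hk)
  refine continuousOn_finsetSum _ fun j hj => ?_
  exact (continuous_const.sub h2).continuousOn.div (Continuous.continuousOn (by fun_prop))
    fun p hp => pt_ne hp hk hj _

theorem continuous_slice {G : ℝ × ℝ → ℝ} {t : ℝ} (h : Mono n (fun j => e j + t * v j))
    (hG : ContinuousOn G {p | Mono n (fun j => e j + p.1 * v j)}) :
    Continuous fun θ : ℝ => G (t, θ) :=
  hG.comp_continuous (by fun_prop) fun _ => h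

end DiffA

open DiffA in
theorem L_hasDerivAt (h : Mono n (fun j => e j + t₀ * v j)) {k : ℕ} (hk : k < n) (f : ℝ[X]) :
    HasDerivAt (fun t : ℝ => L n (fun j => e j + t * v j) k (fun s => f.eval s))
      (L n (fun j => e j + t₀ * v j) k (drag n (fun j => e j + t₀ * v j) v k f)) t₀ := by
  obtain ⟨K, hK, hKn, hKM⟩ : ∃ K : Set ℝ, IsCompact K ∧ K ∈ 𝓝 t₀ ∧
      ∀ t ∈ K, Mono n (fun j => e j + t * v j) := by
    obtain ⟨K, h1, h2, h3⟩ := local_compact_nhds h.eventually
    exact ⟨K, h3, h1, fun t ht => h2 ht⟩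
  obtain ⟨C, hC⟩ := (hK.prod (isCompact_uIcc (a := (0 : ℝ)) (b := π))).exists_bound_of_continuousOn
    ((continuousOn_FD (e := e) (v := v) hk f).mono fun p hp => hKM p.1 hp.1)
  have key := intervalIntegral.hasDerivAt_integral_of_dominated_loc_of_deriv_le
    (μ := volume) (a := 0) (b := π) (F := FF n e v k f) (F' := FD n e v k f) (x₀ := t₀)
    (bound := fun _ => C) hKn
    (h.eventually.mono fun t ht =>
      (continuous_slice ht (continuousOn_FF hk f)).aestronglyMeasurable)
    ((continuous_slice h (continuousOn_FF hk f)).intervalIntegrable _ _)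
    (continuous_slice h (continuousOn_FD hk f)).aestronglyMeasurable
    (Eventually.of_forall fun θ hθ t ht => hC (t, θ) ⟨ht, Set.uIoc_subset_uIcc hθ⟩)
    intervalIntegrable_const
    (Eventually.of_forall fun θ _ t ht => FF_hasDerivAt (hKM t ht) hk f θ)
  have e1 : L n (fun j => e j + t₀ * v j) k (drag n (fun j => e j + t₀ * v j) v k f) =
      ∫ θ in (0 : ℝ)..π, FD n e v k f t₀ θ := by
    unfold L II
    congr 1
    funext θ
    have := ell_XX (e := fun j => e j + t₀ * v j) (v := v) (k := k) (h.gap_lt hk) θ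
    unfold drag
    beta_reduce
    rw [this]
    rfl
  rw [e1]
  exact key.2

namespace DiffA

theorem L_sum {ι : Type*} (h : Mono n e) {k : ℕ} (hk : k < n) (s : Finset ι) (c : ι → ℝ)
    (φ : ι → ℝ → ℝ) (hφ : ∀ i ∈ s, ContinuousOn (φ i) (Set.Icc (e (2 * k)) (e (2 * k + 1)))) :
    L n e k (fun t => ∑ i ∈ s, c i * φ i t) = ∑ i ∈ s, c i * L n e k (φ i) := by
  have hW := h.fam.cont k (mem_range.2 hk)
  unfold L
  have e1 : (fun t => (∑ i ∈ s, c i * φ i t) * Wt n e k t) =
      fun t => ∑ i ∈ s, c i * (φ i t * Wt n e k t) := by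
    funext t
    rw [Finset.sum_mul]
    exact Finset.sum_congr rfl fun i _ => mul_assoc _ _ _
  rw [e1, II_sum (f := fun i t => c i * (φ i t * Wt n e k t)) (h.gap_lt hk) s
    fun i hi => continuousOn_const.mul ((hφ i hi).mul hW)]
  exact Finset.sum_congr rfl fun i _ => II_const_mul _ _ _ _

theorem L_add (h : Mono n e) {k : ℕ} (hk : k < n) {φ ψ : ℝ → ℝ}
    (hφ : ContinuousOn φ (Set.Icc (e (2 * k)) (e (2 * k + 1))))
    (hψ : ContinuousOn ψ (Set.Icc (e (2 * k)) (e (2 * k + 1)))) :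
    L n e k (fun t => φ t + ψ t) = L n e k φ + L n e k ψ := by
  have hW := h.fam.cont k (mem_range.2 hk)
  unfold L
  rw [← II_add (f := fun t => φ t * Wt n e k t) (g := fun t => ψ t * Wt n e k t) (h.gap_lt hk)
    (hφ.mul hW) (hψ.mul hW)]
  congr 1
  funext t
  ring

theorem continuousOn_drag (h : Mono n e) {k : ℕ} (hk : k < n) (f : ℝ[X]) :
    ContinuousOn (drag n e v k f) (Set.Icc (e (2 * k)) (e (2 * k + 1))) := by
  have h1 : Continuous (ell e v k) := by
    unfold ell
    fun_prop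
  refine ContinuousOn.add (h1.mul (derivative f).continuous).continuousOn
    (ContinuousOn.mul (f.continuous.div_const 2).continuousOn ?_)
  refine continuousOn_finsetSum _ fun j hj => ?_
  exact (continuous_const.sub h1).continuousOn.div (Continuous.continuousOn (by fun_prop))
    fun t ht => sub_ne_zero.2 (h.ne_of_mem_others hk hj ht)

theorem drag_sum {ι : Type*} (k : ℕ) (s : Finset ι) (c : ι → ℝ) (g : ι → ℝ[X]) (t : ℝ) :
    drag n e v k (∑ i ∈ s, C (c i) * g i) t = ∑ i ∈ s, c i * drag n e v k (g i) t := by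
  unfold drag
  simp only [map_sum, derivative_C_mul, eval_finsetSum, eval_mul, eval_C]
  rw [Finset.mul_sum, Finset.sum_div, Finset.sum_mul, ← Finset.sum_add_distrib]
  exact Finset.sum_congr rfl fun i _ => by ring

theorem L_poly {ι : Type*} (h : Mono n e) {k : ℕ} (hk : k < n) (s : Finset ι) (c : ι → ℝ)
    (g : ι → ℝ[X]) :
    L n e k (fun t => (∑ i ∈ s, C (c i) * g i).eval t) =
      ∑ i ∈ s, c i * L n e k (fun t => (g i).eval t) := by
  rw [← L_sum h hk s c (fun i t => (g i).eval t) fun i _ => (g i).continuous.continuousOn]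
  simp only [eval_finsetSum, eval_mul, eval_C]

theorem L_drag {ι : Type*} (h : Mono n e) {k : ℕ} (hk : k < n) (s : Finset ι) (c : ι → ℝ)
    (g : ι → ℝ[X]) :
    L n e k (drag n e v k (∑ i ∈ s, C (c i) * g i)) =
      ∑ i ∈ s, c i * L n e k (drag n e v k (g i)) := by
  rw [← L_sum h hk s c (fun i => drag n e v k (g i)) fun i _ => continuousOn_drag h hk _]
  congr 1
  funext t
  exact drag_sum k s c g t

/-- The period matrix. -/
noncomputable def AA (n : ℕ) (e : ℕ → ℝ) : Matrix (Fin n) (Fin n) ℝ :=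
  fun k i => L n e k (fun s => (X ^ (i : ℕ) : ℝ[X]).eval s)

theorem coeff_sum_fin (c : Fin n → ℝ) (i : Fin n) :
    (∑ j : Fin n, C (c j) * X ^ (j : ℕ) : ℝ[X]).coeff i = c i := by
  rw [finsetSum_coeff, Finset.sum_eq_single i]
  · rw [coeff_C_mul_X_pow, if_pos rfl]
  · intro j _ hj
    rw [coeff_C_mul_X_pow, if_neg fun h => hj (Fin.ext h).symm]
  · intro hi
    exact absurd (Finset.mem_univ i) hi

theorem AA_mulVec (h : Mono n e) (c : Fin n → ℝ) (k : Fin n) :
    (AA n e).mulVec c k =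
      L n e k (fun t => (∑ j : Fin n, C (c j) * X ^ (j : ℕ) : ℝ[X]).eval t) := by
  rw [L_poly h k.2, Matrix.mulVec, dotProduct]
  exact Finset.sum_congr rfl fun j _ => mul_comm _ _

theorem det_ne (h : Mono n e) : (AA n e).det ≠ 0 := by
  intro h0
  obtain ⟨c, hc, hA⟩ := Matrix.exists_mulVec_eq_zero_iff.2 h0
  have h1 := zero_of_periods h (degree_sum_fin_lt c) fun l hl => by
    rw [← AA_mulVec h c ⟨l, hl⟩, hA]; rfl
  apply hc
  funext i
  rw [← coeff_sum_fin c i, h1]
  rfl

theorem Pp_eq (x : ℕ → ℝ) :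
    Pp n x = ∑ i ∈ range (n + 1), C ((Pp n x).coeff i) * X ^ i :=
  as_sum_range_C_mul_X_pow' _ (by rw [Pp_monic.2]; exact Nat.lt_succ_self n)

theorem Pp_coeff_self (x : ℕ → ℝ) : (Pp n x).coeff n = 1 := by
  have := (Pp_monic (n := n) (x := x)).1.coeff_natDegree
  rwa [Pp_monic.2] at this

theorem period_eq (h : Mono n e) {k : ℕ} (hk : k < n) :
    ∑ i ∈ range (n + 1), (Pp n (crit n e)).coeff i *
      L n e k (fun s => (X ^ i : ℝ[X]).eval s) = 0 := by
  rw [← L_poly h hk, ← Pp_eq]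
  exact (crit_spec h).per k hk

theorem coeff_eq (h : Mono n e) (i : Fin n) : (Pp n (crit n e)).coeff i =
    ((AA n e).updateCol i fun k : Fin n => -L n e k (fun s => (X ^ n : ℝ[X]).eval s)).det /
      (AA n e).det := by
  have h1 : (AA n e).mulVec (fun j : Fin n => (Pp n (crit n e)).coeff j) =
      fun k : Fin n => -L n e k (fun s => (X ^ n : ℝ[X]).eval s) := by
    funext k
    have h2 := period_eq h k.2
    rw [Finset.sum_range_succ, Pp_coeff_self, one_mul, Finset.sum_range] at h2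
    rw [Matrix.mulVec, dotProduct, eq_neg_iff_add_eq_zero, ← h2]
    congr 1
    exact Finset.sum_congr rfl fun j _ => mul_comm _ _
  rw [← Matrix.cramer_apply, ← h1, Matrix.cramer_eq_adjugate_mulVec, Matrix.mulVec_mulVec,
    Matrix.adjugate_mul, Matrix.smul_mulVec, Matrix.one_mulVec, Pi.smul_apply, smul_eq_mul,
    mul_div_cancel_left₀ _ (det_ne h)]

theorem differentiableAt_det {M : ℝ → Matrix (Fin n) (Fin n) ℝ}
    (hM : ∀ i j, DifferentiableAt ℝ (fun t => M t i j) t₀) :
    DifferentiableAt ℝ (fun t => (M t).det) t₀ := by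
  simp only [Matrix.det_apply']
  exact DifferentiableAt.fun_sum fun σ _ =>
    (DifferentiableAt.fun_finsetProd fun i _ => hM (σ i) i).const_mul _

theorem differentiableAt_coeff (h : Mono n (fun j => e j + t₀ * v j)) (i : Fin n) :
    DifferentiableAt ℝ (fun t : ℝ => (Pp n (crit n (fun j => e j + t * v j))).coeff i) t₀ := by
  have hA : ∀ k j, DifferentiableAt ℝ (fun t : ℝ => AA n (fun j => e j + t * v j) k j) t₀ :=
    fun k j => (L_hasDerivAt h k.2 _).differentiableAt
  have h1 : DifferentiableAt ℝ (fun t : ℝ => ((AA n (fun j => e j + t * v j)).updateCol i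
      fun k : Fin n => -L n (fun j => e j + t * v j) k (fun s => (X ^ n : ℝ[X]).eval s)).det)
      t₀ := by
    refine differentiableAt_det fun k j => ?_
    simp only [Matrix.updateCol_apply]
    by_cases hj : j = i
    · simp only [if_pos hj]
      exact (L_hasDerivAt h k.2 _).differentiableAt.fun_neg
    · simp only [if_neg hj]
      exact hA k j
  refine (h1.fun_div (differentiableAt_det hA) (det_ne h)).congr_of_eventuallyEq ?_
  filter_upwards [h.eventually] with t ht
  exact coeff_eq ht i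

end DiffA

open DiffA in
theorem DIFFA (h : Mono n (fun j => e j + t₀ * v j)) :
    ∃ Pd : ℝ[X], Pd.degree < n ∧
      (∀ i : ℕ, HasDerivAt (fun t : ℝ => (Pp n (crit n (fun j => e j + t * v j))).coeff i)
        (Pd.coeff i) t₀) ∧
      ∀ k < n, L n (fun j => e j + t₀ * v j) k (fun s => Pd.eval s
        + drag n (fun j => e j + t₀ * v j) v k (Pp n (crit n (fun j => e j + t₀ * v j))) s) = 0 := by
  obtain ⟨Pd, hPd⟩ : ∃ Pd : ℝ[X], Pd = ∑ i : Fin n,
      C (deriv (fun t : ℝ => (Pp n (crit n (fun j => e j + t * v j))).coeff i) t₀) *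
        X ^ (i : ℕ) := ⟨_, rfl⟩
  have hdeg : Pd.degree < n := by rw [hPd]; exact degree_sum_fin_lt _
  have hco : ∀ i : ℕ, HasDerivAt
      (fun t : ℝ => (Pp n (crit n (fun j => e j + t * v j))).coeff i) (Pd.coeff i) t₀ := by
    intro i
    rcases lt_trichotomy i n with hi | hi | hi
    · have h1 := coeff_sum_fin (fun i : Fin n =>
        deriv (fun t : ℝ => (Pp n (crit n (fun j => e j + t * v j))).coeff i) t₀) ⟨i, hi⟩
      rw [← hPd] at h1
      rw [h1]
      exact (differentiableAt_coeff h ⟨i, hi⟩).hasDerivAt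
    · rw [coeff_eq_zero_of_degree_lt (hdeg.trans_le (by exact_mod_cast hi.ge)), hi]
      simp only [Pp_coeff_self]
      exact hasDerivAt_const _ _
    · rw [coeff_eq_zero_of_degree_lt (hdeg.trans_le (by exact_mod_cast hi.le))]
      have : ∀ x : ℕ → ℝ, (Pp n x).coeff i = 0 := fun x =>
        coeff_eq_zero_of_natDegree_lt (by rw [Pp_monic.2]; exact hi)
      simp only [this]
      exact hasDerivAt_const _ _
  refine ⟨Pd, hdeg, hco, fun k hk => ?_⟩
  have h1 := HasDerivAt.fun_sum (u := range (n + 1)) fun i _ =>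
    (hco i).fun_mul (L_hasDerivAt h hk (X ^ i))
  have h2 : HasDerivAt (fun t : ℝ => ∑ i ∈ range (n + 1),
      (Pp n (crit n (fun j => e j + t * v j))).coeff i *
        L n (fun j => e j + t * v j) k (fun s => (X ^ i : ℝ[X]).eval s)) 0 t₀ := by
    refine (hasDerivAt_const t₀ (0 : ℝ)).congr_of_eventuallyEq ?_
    filter_upwards [h.eventually] with t ht
    exact period_eq ht hk
  have h3 := h1.unique h2
  have h4 : Pd = ∑ i ∈ range (n + 1), C (Pd.coeff i) * X ^ i :=
    as_sum_range_C_mul_X_pow' _ (Nat.lt_succ_of_le (natDegree_le_of_degree_le hdeg.le))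
  rw [Finset.sum_add_distrib, ← L_poly h hk, ← L_drag h hk, ← h4, ← Pp_eq] at h3
  rw [L_add h hk Pd.continuous.continuousOn (continuousOn_drag h hk _)]
  exact h3

end MW.AN
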