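import Pool.Agent.P.MP_064970_gt.AN.ZPrim
import Pool.Agent.P.MP_064970_gt.AN.PF

/-! Row AN-GR: reciprocity. `Θ = c Ξ + Θ₀`, `Ξ = -i sqR / (z - x k)`, `Θ₀` from `ZPRIM Ω`;
`Θ' = -i S / ((z - x k)² sqR)`. `ASY_log` and `Re Θ = 0` on the outer bands kill the coefficient
`n + 1` of `S`. Then `Θ → Λ`, `Re Λ = 0`, `Θ - Λ = i s_n / z + O(z⁻²)` (`ASY` with `k = 1` for
`Θ - i s_n / z`), `F = (Θ - Λ) p = -c P / (z - x k) + (Θ₀ - Λ) p = s_n / z + O(z⁻²)`,
`p = -i P / sqR`. The primitive `Ψ` of `F` (`PRIM`) has `Im Ψ` constant on bands, and on gap `l`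
`Im Ψ - (κ_l - Im Λ) Re U` is constant (`U` from `ZPRIM P`); `CHAIN` and `ASY_log` give
`π s_n = 0`. -/

open Complex InnerProductSpace Filter Topology Metric MeasureTheory Finset Polynomial
open scoped Real ComplexConjugate

namespace MW.AN

/-- `g = A + O(1/|z|)` on the closed upper half-plane. -/
def GRAsy (g : ℂ → ℂ) (A : ℂ) : Prop :=
  ∃ K R₀ : ℝ, 1 ≤ R₀ ∧ ∀ z : ℂ, 0 ≤ z.im → R₀ ≤ ‖z‖ → ‖g z - A‖ ≤ K / ‖z‖

theorem GRAsy.mul {g g' : ℂ → ℂ} {A A' : ℂ} (h : GRAsy g A) (h' : GRAsy g' A') :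
    GRAsy (fun z => g z * g' z) (A * A') := by
  obtain ⟨K, R₀, hR, h⟩ := h
  obtain ⟨K', R₀', -, h'⟩ := h'
  refine ⟨K * K' + K * ‖A'‖ + ‖A‖ * K', max R₀ R₀', le_max_of_le_left hR, fun z hz hn => ?_⟩
  have h1 := h z hz ((le_max_left _ _).trans hn)
  have h2 := h' z hz ((le_max_right _ _).trans hn)
  have hz1 : 1 ≤ ‖z‖ := hR.trans ((le_max_left _ _).trans hn)
  have hz0 : 0 < ‖z‖ := one_pos.trans_le hz1
  have hK' : 0 ≤ K' := by
    have h3 := (norm_nonneg _).trans h2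
    rwa [le_div_iff₀ hz0, zero_mul] at h3
  have h3 : ‖g' z - A'‖ ≤ K' := h2.trans (div_le_self hK' hz1)
  have h4 : g z * g' z - A * A' = (g z - A) * (g' z - A') + (g z - A) * A' + A * (g' z - A') := by
    ring
  have h5 : 0 ≤ K / ‖z‖ := (norm_nonneg _).trans h1
  rw [h4]
  calc ‖(g z - A) * (g' z - A') + (g z - A) * A' + A * (g' z - A')‖
      ≤ ‖g z - A‖ * ‖g' z - A'‖ + ‖g z - A‖ * ‖A'‖ + ‖A‖ * ‖g' z - A'‖ := by
        refine (norm_add₃_le).trans (le_of_eq ?_)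
        rw [norm_mul, norm_mul, norm_mul]
    _ ≤ K / ‖z‖ * K' + K / ‖z‖ * ‖A'‖ + ‖A‖ * (K' / ‖z‖) := by gcongr
    _ = (K * K' + K * ‖A'‖ + ‖A‖ * K') / ‖z‖ := by ring

theorem GRAsy.const (A : ℂ) : GRAsy (fun _ => A) A :=
  ⟨0, 1, le_rfl, fun z _ _ => by simp⟩

theorem GRAsy.poly (f : ℝ[X]) {d : ℕ} (hd : f.natDegree ≤ d) :
    GRAsy (fun z => aeval z f / z ^ d) (f.coeff d : ℝ) := by
  obtain ⟨K, hK⟩ := poly_asymp f hd
  exact ⟨K, 1, le_rfl, fun z _ hz => hK z hz⟩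

theorem GRAsy.sqR (n : ℕ) (e : ℕ → ℝ) : GRAsy (fun z => z ^ n / sqR n e z) 1 := by
  obtain ⟨K, R₀, hR, hK⟩ := sqR_asymp (n := n) (e := e)
  exact ⟨K, R₀, hR, fun z hz hn => (hK z hz hn).2⟩

theorem GRAsy.lin (a : ℂ) : GRAsy (fun z => z / (z - a)) 1 := by
  refine ⟨2 * ‖a‖, 2 * ‖a‖ + 1, by linarith [norm_nonneg a], fun z _ hn => ?_⟩
  have ha := norm_nonneg a
  have h1 : ‖z‖ - ‖a‖ ≤ ‖z - a‖ := norm_sub_norm_le z a
  have h2 : 0 < ‖z - a‖ := by linarith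
  have h3 : z - a ≠ 0 := norm_pos_iff.1 h2
  have h4 : z / (z - a) - 1 = a / (z - a) := by
    field_simp
    ring
  rw [h4, norm_div, div_le_div_iff₀ h2 (by linarith)]
  nlinarith

theorem GR_far (n : ℕ) (e : ℕ → ℝ) (a : ℝ) : ∃ B : ℝ, 1 ≤ B ∧ |a| < B ∧ ∀ j < 2 * n, |e j| < B := by
  have h0 : 0 ≤ ∑ j ∈ range (2 * n), |e j| := Finset.sum_nonneg fun j _ => abs_nonneg _
  refine ⟨|a| + ∑ j ∈ range (2 * n), |e j| + 1, by linarith [abs_nonneg a], by linarith,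
    fun j hj => ?_⟩
  have h1 : |e j| ≤ ∑ j ∈ range (2 * n), |e j| :=
    Finset.single_le_sum (f := fun j => |e j|) (fun j _ => abs_nonneg _) (Finset.mem_range.2 hj)
  linarith [abs_nonneg a]

theorem GR_ne {B a : ℝ} (ha : |a| < B) {z : ℂ} (hz : B ≤ ‖z‖) : z ≠ a := by
  rintro rfl
  rw [Complex.norm_real, Real.norm_eq_abs] at hz
  linarith

theorem GR_ne_im {z : ℂ} (hz : 0 < z.im) (a : ℝ) : z ≠ a := by
  rintro rfl
  simp at hz

theorem GR_off {n : ℕ} {e : ℕ → ℝ} {B t : ℝ} (hB : ∀ j < 2 * n, |e j| < B) (ht : B ≤ |t|) :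
    ∀ k < n, t ∉ Set.Ioo (e (2 * k)) (e (2 * k + 1)) := by
  intro k hk hm
  have h1 := abs_lt.1 (hB (2 * k) (by omega))
  have h2 := abs_lt.1 (hB (2 * k + 1) (by omega))
  have h3 : |t| < B := abs_lt.2 ⟨by linarith [hm.1], by linarith [hm.2]⟩
  linarith

/-- `ASY_log` with the hypothesis on `z Φ z`. -/
theorem GR_log {Ψ Φ g : ℂ → ℂ} {R₀ : ℝ} {γ : ℂ}
    (hc : ContinuousOn Ψ {z : ℂ | 0 ≤ z.im ∧ R₀ ≤ ‖z‖})
    (hd : ∀ z : ℂ, 0 < z.im → HasDerivAt Ψ (Φ z) z) (hg : GRAsy g γ)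
    (he : ∀ z : ℂ, 0 < z.im → g z = z * Φ z) :
    Tendsto (fun R : ℝ => Ψ ((-R : ℝ) : ℂ) - Ψ (R : ℂ)) atTop (𝓝 (I * π * γ)) := by
  obtain ⟨K, R₁, hR, hK⟩ := hg
  refine ASY_log (Φ := Φ) (C := K) (R₀ := max R₀ R₁) γ (lt_max_of_lt_right (by linarith))
    (hc.mono fun z hz => ⟨hz.1, (le_max_left _ _).trans hz.2⟩) (fun z hz _ => hd z hz)
    fun z hz hn => ?_
  have h1 := hK z hz.le ((le_max_right _ _).trans hn)
  have hz0 : z ≠ 0 := by simpa using GR_ne_im hz 0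
  have hz1 : 0 < ‖z‖ := norm_pos_iff.2 hz0
  have h2 : Φ z - γ / z = (g z - γ) / z := by
    rw [he z hz]
    field_simp
  rw [h2, norm_div, sq, ← div_div]
  gcongr

/-- The function `Θ` of the first contour argument. -/
noncomputable def GRTh (n : ℕ) (e : ℕ → ℝ) (a c : ℝ) (Θ₀ : ℂ → ℂ) (z : ℂ) : ℂ :=
  c * (-I * sqR n e z / (z - a)) + Θ₀ z

theorem GRTh_deriv {n : ℕ} {e : ℕ → ℝ} {a c : ℝ} {Θ₀ : ℂ → ℂ} {Ω S : ℝ[X]}
    (hS : S = C c * (C (1 / 2) * derivative (Rp n e) * (X - C a) - Rp n e) + (X - C a) ^ 2 * Ω)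
    {z : ℂ} (hz : 0 < z.im) (h0 : HasDerivAt Θ₀ (-I * aeval z Ω / sqR n e z) z) :
    HasDerivAt (GRTh n e a c Θ₀) (-I * aeval z S / ((z - a) ^ 2 * sqR n e z)) z := by
  have hne : ∀ j < 2 * n, z ≠ e j := fun j _ => GR_ne_im hz _
  have hw : sqR n e z ≠ 0 := sqR_ne_zero hne
  have ha : z - a ≠ 0 := sub_ne_zero.2 (GR_ne_im hz a)
  have h1 := ((((sqR_hasDerivAt hz.le hne).const_mul (-I)).div
    ((hasDerivAt_id z).sub_const (a : ℂ)) ha).const_mul (c : ℂ)).add h0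
  refine HasDerivAt.congr_deriv h1 ?_
  have h2 : aeval z S = c * (1 / 2 * aeval z (derivative (Rp n e)) * (z - a) - sqR n e z ^ 2)
      + (z - a) ^ 2 * aeval z Ω := by
    rw [hS, sqR_sq]
    simp
  rw [h2]
  simp only [id]
  field_simp
  ring

theorem GRTh_cont {n : ℕ} {e : ℕ → ℝ} {a c B : ℝ} {Θ₀ : ℂ → ℂ} (ha : |a| < B)
    (h0 : ContinuousOn Θ₀ {z : ℂ | 0 ≤ z.im}) :
    ContinuousOn (GRTh n e a c Θ₀) {z : ℂ | 0 ≤ z.im ∧ B ≤ ‖z‖} := by
  refine ContinuousOn.add (continuousOn_const.mul (ContinuousOn.div ?_ ?_ ?_))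
    (h0.mono fun z hz => hz.1)
  · exact continuousOn_const.mul (sqR_continuousOn.mono fun z hz => hz.1)
  · exact (continuous_id.sub continuous_const).continuousOn
  · exact fun z hz => sub_ne_zero.2 (GR_ne ha hz.2)

theorem GRTh_re {n : ℕ} {e : ℕ → ℝ} (h : Mono n e) {a c t : ℝ} {Θ₀ : ℂ → ℂ}
    (ht : ∀ k < n, t ∉ Set.Ioo (e (2 * k)) (e (2 * k + 1))) (h0 : (Θ₀ t).re = 0) :
    (GRTh n e a c Θ₀ t).re = 0 := by
  have h1 : sqR n e t = ((sqR n e t).re : ℂ) :=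
    Complex.ext (by simp) (by simpa using sqR_band h ht)
  unfold GRTh
  rw [h1, ← Complex.ofReal_sub, mul_div_assoc, ← Complex.ofReal_div, Complex.add_re, h0]
  generalize (sqR n e t).re / (t - a) = r
  simp

/-- The expansion of `Θ` at infinity when there is no logarithmic term. -/
theorem GR_exp {Θ Φ g : ℂ → ℂ} {R₀ : ℝ} {γ : ℂ}
    (hc : ContinuousOn Θ {z : ℂ | 0 ≤ z.im ∧ R₀ ≤ ‖z‖})
    (hd : ∀ z : ℂ, 0 < z.im → HasDerivAt Θ (Φ z) z) (hg : GRAsy g γ)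
    (he : ∀ z : ℂ, 0 < z.im → g z = z ^ 2 * Φ z) :
    ∃ Λ : ℂ, GRAsy (fun z => z * (Θ z - Λ)) (-γ) := by
  obtain ⟨K, R₁, hR, hK⟩ := hg
  have hR1 : 1 ≤ max R₀ R₁ := le_max_of_le_right hR
  obtain ⟨Λ, K', hΛ⟩ := ASY (Ψ := fun z => Θ z + γ / z) (Φ := fun z => Φ z - γ / z ^ 2) (C := K)
    (R₀ := max R₀ R₁) 1 (by linarith)
    ((hc.mono fun z hz => ⟨hz.1, (le_max_left _ _).trans hz.2⟩).add
      (continuousOn_const.div continuousOn_id fun z hz =>
        norm_pos_iff.1 (one_pos.trans_le (hR1.trans hz.2))))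
    (fun z hz _ => by
      have hz0 : z ≠ 0 := by simpa using GR_ne_im hz 0
      have h1 := (hd z hz).add ((hasDerivAt_const z γ).div (hasDerivAt_id z) hz0)
      refine HasDerivAt.congr_deriv h1 ?_
      simp only [id]
      ring)
    (fun z hz hn => by
      have h1 := hK z hz.le ((le_max_right _ _).trans hn)
      have hz0 : z ≠ 0 := by simpa using GR_ne_im hz 0
      have hz1 : 0 < ‖z‖ := norm_pos_iff.2 hz0
      have h2 : Φ z - γ / z ^ 2 = (g z - γ) / z ^ 2 := by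
        rw [he z hz]
        field_simp
      have h3 : K / ‖z‖ ^ (1 + 2) = K / ‖z‖ / ‖z‖ ^ 2 := by
        field_simp
      rw [h2, norm_div, norm_pow, h3]
      gcongr)
  refine ⟨Λ, K', max R₀ R₁, hR1, fun z hz hn => ?_⟩
  have hz1 : 0 < ‖z‖ := one_pos.trans_le (hR1.trans hn)
  have hz0 : z ≠ 0 := norm_pos_iff.1 hz1
  have h1 : z * (Θ z - Λ) - -γ = z * (Θ z + γ / z - Λ) := by
    field_simp
    ring
  have h2 : K' / ‖z‖ = ‖z‖ * (K' / ‖z‖ ^ (1 + 1)) := by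
    field_simp
  rw [h1, norm_mul, h2]
  exact mul_le_mul_of_nonneg_left (hΛ z hz hn) hz1.le

theorem GR_re_lim {Θ : ℂ → ℂ} {Λ A : ℂ} {B : ℝ} (h : GRAsy (fun z => z * (Θ z - Λ)) A)
    (h0 : ∀ t : ℝ, B ≤ t → (Θ t).re = 0) : Λ.re = 0 := by
  obtain ⟨K, R₀, hR, hK⟩ := h
  have hlim : Tendsto (fun t : ℝ => (K / t + ‖A‖) / t) atTop (𝓝 0) := by
    have h1 : Tendsto (fun t : ℝ => K / t + ‖A‖) atTop (𝓝 (0 + ‖A‖)) :=
      (tendsto_const_nhds.div_atTop tendsto_id).add tendsto_const_nhds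
    exact h1.div_atTop tendsto_id
  refine abs_nonpos_iff.1 (ge_of_tendsto hlim ?_)
  filter_upwards [eventually_ge_atTop B, eventually_ge_atTop R₀] with t hB ht
  have ht0 : 0 < t := by linarith
  have hn : ‖(t : ℂ)‖ = t := by rw [Complex.norm_real, Real.norm_of_nonneg ht0.le]
  have h1 := hK t (by simp) (by rwa [hn])
  rw [hn] at h1
  have h2 : ‖(t : ℂ) * (Θ t - Λ)‖ ≤ K / t + ‖A‖ := by
    have h3 := norm_add_le ((t : ℂ) * (Θ t - Λ) - A) A
    rw [sub_add_cancel] at h3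
    linarith
  rw [norm_mul, hn] at h2
  have h3 : |Λ.re| ≤ ‖Θ t - Λ‖ := by
    have h4 := Complex.abs_re_le_norm (Θ t - Λ)
    rwa [Complex.sub_re, h0 t hB, zero_sub, abs_neg] at h4
  rw [le_div_iff₀ ht0]
  nlinarith

theorem GR_aeval_real (f : ℝ[X]) (t : ℝ) : aeval (t : ℂ) f = ((f.eval t : ℝ) : ℂ) := by
  rw [← Complex.coe_algebraMap, aeval_algebraMap_apply_eq_algebraMap_eval]

theorem GR_bdd {g : ℂ → ℂ} (hg : ContinuousOn g {z : ℂ | 0 ≤ z.im}) (R : ℝ) :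
    ∃ K : ℝ, 0 ≤ K ∧ ∀ z : ℂ, 0 ≤ z.im → ‖z‖ ≤ R → ‖g z‖ ≤ K := by
  have hK : IsCompact (closedBall (0 : ℂ) R ∩ {z : ℂ | 0 ≤ z.im}) :=
    (isCompact_closedBall _ _).inter_right (isClosed_le continuous_const Complex.continuous_im)
  obtain ⟨K, hK'⟩ := hK.exists_bound_of_continuousOn (hg.mono Set.inter_subset_right)
  exact ⟨max K 0, le_max_right _ _, fun z hz hn =>
    (hK' z ⟨mem_closedBall_zero_iff.2 hn, hz⟩).trans (le_max_left _ _)⟩

/-- The second contour argument. -/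
theorem GR_second {n : ℕ} {e x : ℕ → ℝ} (h : Mono n e) (hx : Crit n e x) (Q : ℝ[X])
    {Θ g : ℂ → ℂ} {γ : ℝ} (hc : ContinuousOn Θ {z : ℂ | 0 ≤ z.im})
    (hd : DifferentiableOn ℂ Θ {z : ℂ | 0 < z.im})
    (hre : ∀ t : ℝ, (∀ k < n, t ∉ Set.Ioo (e (2 * k)) (e (2 * k + 1))) → (Θ t).re = 0)
    (him : ∀ k < n, ∃ κ : ℝ, ∀ t ∈ Set.Icc (e (2 * k)) (e (2 * k + 1)), (Θ t).im = κ)
    (hg : GRAsy g γ) (he : ∀ z : ℂ, 0 < z.im →
      g z = z * (aeval z Q + Θ z * (-I * aeval z (Pp n x) / sqR n e z))) : γ = 0 := by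
  obtain ⟨U, hUc, hUd, hUr, hUre, -⟩ := ZPRIM h hx.per
  have hpoly : ∀ f : ℝ[X], Differentiable ℂ fun z : ℂ => aeval z f := fun f =>
    f.differentiable_aeval
  obtain ⟨Ψ, hΨc, hΨd, hΨr⟩ := PRIM (e '' Set.Iio (2 * n)) ((Set.finite_Iio _).image _)
    (Φ := fun z => aeval z Q + Θ z * (-I * aeval z (Pp n x) / sqR n e z))
    ((hpoly Q).differentiableOn.add (hd.mul
      (((hpoly _).const_mul (-I)).differentiableOn.div
        (fun z hz => (sqR_analyticAt (le_of_lt hz)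
          fun j _ => GR_ne_im hz _).differentiableAt.differentiableWithinAt)
        fun z hz => sqR_ne_zero fun j _ => GR_ne_im hz _)))
    ((hpoly Q).continuous.continuousOn.add ((hc.mono Set.sdiff_subset).mul
      (((hpoly _).const_mul (-I)).continuous.continuousOn.div
        (sqR_continuousOn.mono Set.sdiff_subset)
        fun z hz => sqR_ne_zero fun j hj hzj => hz.2 ⟨e j, ⟨j, hj, rfl⟩, hzj.symm⟩)))
    (fun R => by
      obtain ⟨K₁, hK₁, h1⟩ := GR_bdd (hpoly Q).continuous.continuousOn R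
      obtain ⟨K₂, hK₂, h2⟩ := GR_bdd (hc.mul (hpoly (Pp n x)).continuous.continuousOn) R
      obtain ⟨K₃, h3⟩ := sqR_inv_le h
      refine ⟨K₁ + K₂ * K₃, fun z hz hn => ?_⟩
      have h4 : Θ z * (-I * aeval z (Pp n x) / sqR n e z) =
          -I * (Θ z * aeval z (Pp n x) * (sqR n e z)⁻¹) := by ring
      have h5 : 0 ≤ 1 / √z.im := by positivity
      have h6 := h2 z hz.le hn
      have h7 := h3 z hz
      calc ‖aeval z Q + Θ z * (-I * aeval z (Pp n x) / sqR n e z)‖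
          ≤ ‖aeval z Q‖ + ‖Θ z * aeval z (Pp n x)‖ * ‖(sqR n e z)⁻¹‖ := by
            refine (norm_add_le _ _).trans (le_of_eq ?_)
            rw [h4, norm_mul, norm_neg, Complex.norm_I, one_mul, norm_mul]
        _ ≤ K₁ * (1 + 1 / √z.im) + K₂ * (K₃ * (1 + 1 / √z.im)) := by
            refine add_le_add ((h1 z hz.le hn).trans ?_)
              (mul_le_mul h6 h7 (norm_nonneg _) hK₂)
            nlinarith
        _ = (K₁ + K₂ * K₃) * (1 + 1 / √z.im) := by ring)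
  have hreal : ∀ {G : ℂ → ℂ}, ContinuousOn G {z : ℂ | 0 ≤ z.im} →
      Continuous fun t : ℝ => G t := fun hG =>
    hG.comp_continuous Complex.continuous_ofReal fun t => by simp
  have hHc : Continuous fun t : ℝ => (Ψ t).im := Complex.continuous_im.comp (hreal hΨc)
  have hHd : ∀ t : ℝ, (∀ j < 2 * n, t ≠ e j) → HasDerivAt (fun s : ℝ => (Ψ s).im)
      (Θ t * (-I * aeval (t : ℂ) (Pp n x) / sqR n e t)).im t := by
    intro t ht
    have h1 := Complex.imCLM.hasFDerivAt.comp_hasDerivAt t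
      (hΨr t (by rintro ⟨j, hj, rfl⟩; exact ht j hj rfl))
    refine HasDerivAt.congr_deriv h1 ?_
    rw [Complex.imCLM_apply, Complex.add_im, GR_aeval_real Q, Complex.ofReal_im, zero_add]
  have hband : ∀ t : ℝ, (∀ k < n, t ∉ Set.Icc (e (2 * k)) (e (2 * k + 1))) →
      HasDerivAt (fun s : ℝ => (Ψ s).im) 0 t := by
    intro t ht
    have ht' : ∀ k < n, t ∉ Set.Ioo (e (2 * k)) (e (2 * k + 1)) := fun k hk hm =>
      ht k hk (Set.Ioo_subset_Icc_self hm)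
    have hne : ∀ j < 2 * n, t ≠ e j := by
      intro j hj hte
      have hk : j / 2 < n := by omega
      have hlt := (h.gap_lt hk).le
      refine ht (j / 2) hk ?_
      rcases Nat.even_or_odd' j with ⟨m, rfl | rfl⟩
      · have h2 : 2 * m / 2 = m := by omega
        rw [h2] at hlt ⊢
        exact ⟨hte.ge, hte.le.trans hlt⟩
      · have h2 : (2 * m + 1) / 2 = m := by omega
        rw [h2] at hlt ⊢
        exact ⟨hlt.trans hte.ge, hte.le⟩
    refine HasDerivAt.congr_deriv (hHd t hne) ?_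
    have h1 : sqR n e t = ((sqR n e t).re : ℂ) :=
      Complex.ext (by simp) (by simpa using sqR_band h ht')
    rw [h1, GR_aeval_real, mul_div_assoc, ← Complex.ofReal_div, Complex.mul_im, hre t ht']
    simp
  have hgap : ∀ k < n, (Ψ (e (2 * k + 1))).im = (Ψ (e (2 * k))).im := by
    intro k hk
    obtain ⟨κ, hκ⟩ := him k hk
    have hlt := h.gap_lt hk
    have hcont : Continuous fun s : ℝ => (Ψ s).im - κ * (U s).re :=
      hHc.sub (continuous_const.mul (Complex.continuous_re.comp (hreal hUc)))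
    have hder : ∀ t ∈ Set.Ioo (e (2 * k)) (e (2 * k + 1)),
        HasDerivAt (fun s : ℝ => (Ψ s).im - κ * (U s).re) 0 t := by
      intro t ht
      have hne : ∀ j < 2 * n, t ≠ e j := fun j hj => h.ne_of_mem_Ioo hk hj ht
      have h1 := Complex.reCLM.hasFDerivAt.comp_hasDerivAt t (hUr t hne)
      refine HasDerivAt.congr_deriv ((hHd t hne).sub (h1.const_mul κ)) ?_
      rw [Complex.reCLM_apply, diff_gap h _ hk ht, Complex.mul_im, Complex.ofReal_im,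
        Complex.ofReal_re, hκ t (Set.Ioo_subset_Icc_self ht)]
      ring
    obtain ⟨t, -, ht⟩ := exists_hasDerivAt_eq_slope _ (fun _ => (0 : ℝ)) hlt hcont.continuousOn hder
    have hend : ∀ j < 2 * n, (U (e j)).re = 0 := fun j hj =>
      hUre _ fun l hl hm => h.ne_of_mem_Ioo hl hj hm rfl
    rw [hend _ (by omega), hend _ (by omega), eq_div_iff (sub_pos.2 hlt).ne'] at ht
    linarith
  obtain ⟨B, hB1, -, hB⟩ := GR_far n e 0
  have hlim := (Complex.continuous_im.tendsto _).comp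
    (GR_log (R₀ := 0) (hΨc.mono fun z hz => hz.1) hΨd hg he)
  have hzero : (fun _ : ℝ => (0 : ℝ)) =ᶠ[atTop]
      (Complex.im ∘ fun R : ℝ => Ψ ((-R : ℝ) : ℂ) - Ψ (R : ℂ)) := by
    filter_upwards [eventually_ge_atTop B] with R hR
    have hR' : B ≤ |R| := hR.trans (le_abs_self R)
    have h1 := CHAIN h hHc hband hgap (GR_off hB (t := -R) (by rwa [abs_neg])) (GR_off hB hR')
    simp only [Function.comp_apply, Complex.sub_im]
    linarith
  have h1 := tendsto_nhds_unique (tendsto_const_nhds.congr' hzero) hlim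
  have h2 : π * γ = 0 := by simpa using h1.symm
  exact (mul_eq_zero.1 h2).resolve_left Real.pi_ne_zero

theorem GR {n : ℕ} {e x : ℕ → ℝ} (h : Mono n e) (hx : Crit n e x) {k : ℕ} (hk : k < n) (c : ℝ)
    {Ω S : ℝ[X]} (h0 : ∀ l < n, L n e l (fun t => Ω.eval t) = 0)
    (hS : S = C c * (C (1 / 2) * derivative (Rp n e) * (X - C (x k)) - Rp n e)
      + (X - C (x k)) ^ 2 * Ω)
    (hd : S.natDegree ≤ n + 1) : S.degree < n := by
  obtain ⟨Θ₀, hc0, hd0, -, hre0, him0⟩ := ZPRIM h h0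
  obtain ⟨B, hB1, hBa, hB⟩ := GR_far n e (x k)
  have hΘc := GRTh_cont (n := n) (e := e) (c := c) hBa hc0
  have hΘd : ∀ z : ℂ, 0 < z.im → HasDerivAt (GRTh n e (x k) c Θ₀)
      (-I * aeval z S / ((z - x k) ^ 2 * sqR n e z)) z := fun z hz => GRTh_deriv hS hz (hd0 z hz)
  have hΘre : ∀ t : ℝ, B ≤ |t| → (GRTh n e (x k) c Θ₀ t).re = 0 := fun t ht =>
    GRTh_re h (GR_off hB ht) (hre0 t (GR_off hB ht))
  have hasy : ∀ d : ℕ, S.natDegree ≤ d → GRAsy (fun z : ℂ => -I * (aeval z S / z ^ d) *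
      (z / (z - x k)) * (z / (z - x k)) * (z ^ n / sqR n e z)) (-I * (S.coeff d : ℝ)) := by
    intro d hdd
    simpa only [mul_one] using ((((GRAsy.const (-I)).mul (GRAsy.poly S hdd)).mul
      (GRAsy.lin (x k))).mul (GRAsy.lin (x k))).mul (GRAsy.sqR n e)
  have hz0 : ∀ z : ℂ, 0 < z.im → z ≠ 0 ∧ z - x k ≠ 0 ∧ sqR n e z ≠ 0 := fun z hz =>
    ⟨by simpa using GR_ne_im hz 0, sub_ne_zero.2 (GR_ne_im hz _),
      sqR_ne_zero fun j _ => GR_ne_im hz _⟩
  have h1 : S.coeff (n + 1) = 0 := by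
    have hlim := (Complex.continuous_re.tendsto _).comp
      (GR_log hΘc hΘd (hasy _ hd) fun z hz => by
        obtain ⟨h1, h2, h3⟩ := hz0 z hz
        field_simp
        ring)
    have hzero : (fun _ : ℝ => (0 : ℝ)) =ᶠ[atTop] (Complex.re ∘ fun R : ℝ =>
        GRTh n e (x k) c Θ₀ ((-R : ℝ) : ℂ) - GRTh n e (x k) c Θ₀ (R : ℂ)) := by
      filter_upwards [eventually_ge_atTop B] with R hR
      have hR' : B ≤ |R| := hR.trans (le_abs_self R)
      simp only [Function.comp_apply, Complex.sub_re]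
      rw [hΘre R hR', hΘre (-R) (by rwa [abs_neg]), sub_zero]
    have h2 := tendsto_nhds_unique (tendsto_const_nhds.congr' hzero) hlim
    have h3 : π * S.coeff (n + 1) = 0 := by simpa using h2.symm
    exact (mul_eq_zero.1 h3).resolve_left Real.pi_ne_zero
  have hd' : S.natDegree ≤ n := by
    rw [natDegree_le_iff_coeff_eq_zero] at hd ⊢
    intro N hN
    rcases (Nat.succ_le_of_lt hN).lt_or_eq with h2 | h2
    · exact hd N h2
    · rw [← h2]
      exact h1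
  obtain ⟨Λ, hΛ⟩ := GR_exp hΘc hΘd (hasy _ hd') fun z hz => by
    obtain ⟨h1, h2, h3⟩ := hz0 z hz
    field_simp
  have hΛre : Λ.re = 0 := GR_re_lim hΛ fun t ht => hΘre t (ht.trans (le_abs_self t))
  have hP : Pp n x = (X - C (x k)) * ∏ m ∈ (range n).erase k, (X - C (x m)) :=
    (Finset.mul_prod_erase (range n) (fun m => X - C (x m)) (Finset.mem_range.2 hk)).symm
  have h2 : S.coeff n = 0 := by
    have hPc : (Pp n x).coeff n = 1 := by
      have h3 := (Pp_monic (n := n) (x := x)).1.coeff_natDegree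
      rwa [(Pp_monic (n := n) (x := x)).2] at h3
    have hasy2 := ((hΛ.mul (GRAsy.const (-I))).mul
      (GRAsy.poly (Pp n x) (Pp_monic (n := n) (x := x)).2.le)).mul (GRAsy.sqR n e)
    have hval : -(-I * ((S.coeff n : ℝ) : ℂ)) * -I * (((Pp n x).coeff n : ℝ) : ℂ) * 1 =
        ((S.coeff n : ℝ) : ℂ) := by
      rw [hPc]
      push_cast
      linear_combination (-((S.coeff n : ℝ) : ℂ)) * Complex.I_mul_I
    rw [hval] at hasy2
    refine GR_second h hx (C (-c) * ∏ m ∈ (range n).erase k, (X - C (x m)))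
      (Θ := fun z => Θ₀ z - Λ) (hc0.sub continuousOn_const)
      (fun z hz => ((hd0 z hz).differentiableAt.sub_const Λ).differentiableWithinAt)
      (fun t ht => by rw [Complex.sub_re, hre0 t ht, hΛre, sub_zero])
      (fun l hl => by
        obtain ⟨κ, hκ⟩ := him0 l hl
        exact ⟨κ - Λ.im, fun t ht => by rw [Complex.sub_im, hκ t ht]⟩)
      hasy2 fun z hz => ?_
    obtain ⟨h3, h4, h5⟩ := hz0 z hz
    have h6 : aeval z (Pp n x) =
        (z - x k) * aeval z (∏ m ∈ (range n).erase k, (X - C (x m))) := by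
      rw [hP, map_mul]
      simp
    have h7 : aeval z (C (-c) * ∏ m ∈ (range n).erase k, (X - C (x m))) =
        -c * aeval z (∏ m ∈ (range n).erase k, (X - C (x m))) := by
      rw [map_mul]
      simp
    rw [h7, h6]
    unfold GRTh
    field_simp
    linear_combination (c * sqR n e z * aeval z (∏ m ∈ (range n).erase k, (X - C (x m)))) *
      Complex.I_mul_I
  rw [degree_lt_iff_coeff_zero]
  intro m hm
  rcases hm.lt_or_eq with h3 | h3
  · exact coeff_eq_zero_of_natDegree_lt (hd'.trans_lt h3)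
  · rw [← h3]
    exact h2

end MW.AN
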