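import Pool.Agent.P.MP_064970_gt.AN.Defs

/-! Row AN-IB: the integrals `II` and `L`. -/

open Filter Topology MeasureTheory Finset Polynomial
open scoped Real

namespace MW.AN

theorem XX_mem {b a : ℝ} (h : b < a) (θ : ℝ) : XX b a θ ∈ Set.Icc b a := by
  have h1 := Real.cos_le_one θ
  have h2 := Real.neg_one_le_cos θ
  unfold XX
  constructor <;> nlinarith

theorem XX_mem_Ioo {b a θ : ℝ} (h : b < a) (hθ : θ ∈ Set.Ioo 0 π) : XX b a θ ∈ Set.Ioo b a := by
  have h1 : Real.cos θ < 1 := by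
    have := Real.cos_lt_cos_of_nonneg_of_le_pi le_rfl hθ.2.le hθ.1
    simpa using this
  have h2 : -1 < Real.cos θ := by
    have := Real.cos_lt_cos_of_nonneg_of_le_pi hθ.1.le le_rfl hθ.2
    simpa using this
  unfold XX
  constructor <;> nlinarith

theorem IB_XX_cont (b a : ℝ) : Continuous (XX b a) := by
  unfold XX
  fun_prop

theorem IB_comp_cont {b a : ℝ} (h : b < a) {f : ℝ → ℝ} (hf : ContinuousOn f (Set.Icc b a)) :
    Continuous (fun θ => f (XX b a θ)) :=
  hf.comp_continuous (IB_XX_cont b a) (XX_mem h)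

theorem IB_XX_zero (b a : ℝ) : XX b a 0 = b := by
  unfold XX
  rw [Real.cos_zero]
  ring

theorem IB_XX_pi (b a : ℝ) : XX b a π = a := by
  unfold XX
  rw [Real.cos_pi]
  ring

theorem IB_XX_surj {b a t : ℝ} (h : b < a) (ht : t ∈ Set.Icc b a) :
    ∃ θ ∈ Set.Icc (0 : ℝ) π, XX b a θ = t := by
  have hab : 0 < a - b := sub_pos.2 h
  refine ⟨Real.arccos ((a + b - 2 * t) / (a - b)),
    ⟨Real.arccos_nonneg _, Real.arccos_le_pi _⟩, ?_⟩
  unfold XX
  rw [Real.cos_arccos]
  · field_simp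
    ring
  · rw [le_div_iff₀ hab]
    linarith [ht.2]
  · rw [div_le_iff₀ hab]
    linarith [ht.1]

theorem IB_XX_mono {b a : ℝ} (h : b < a) {θ η : ℝ} (h0 : 0 ≤ θ) (hθη : θ ≤ η) (hπ : η ≤ π) :
    XX b a θ ≤ XX b a η := by
  have := Real.cos_le_cos_of_nonneg_of_le_pi h0 hπ hθη
  unfold XX
  nlinarith

theorem II_congr {b a : ℝ} (h : b < a) {f g : ℝ → ℝ} (hfg : ∀ t ∈ Set.Ioo b a, f t = g t) :
    II b a f = II b a g := by
  unfold II
  apply intervalIntegral.integral_congr_ae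
  have hπ : ∀ᵐ θ ∂(volume : Measure ℝ), θ ≠ π := Measure.ae_ne volume π
  filter_upwards [hπ] with θ hθ hmem
  rw [Set.uIoc_of_le Real.pi_pos.le] at hmem
  exact hfg _ (XX_mem_Ioo h ⟨hmem.1, lt_of_le_of_ne hmem.2 hθ⟩)

theorem II_add {b a : ℝ} (h : b < a) {f g : ℝ → ℝ} (hf : ContinuousOn f (Set.Icc b a))
    (hg : ContinuousOn g (Set.Icc b a)) :
    II b a (fun t => f t + g t) = II b a f + II b a g := by
  unfold II
  exact intervalIntegral.integral_add ((IB_comp_cont h hf).intervalIntegrable _ _)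
    ((IB_comp_cont h hg).intervalIntegrable _ _)

theorem II_sub {b a : ℝ} (h : b < a) {f g : ℝ → ℝ} (hf : ContinuousOn f (Set.Icc b a))
    (hg : ContinuousOn g (Set.Icc b a)) :
    II b a (fun t => f t - g t) = II b a f - II b a g := by
  unfold II
  exact intervalIntegral.integral_sub ((IB_comp_cont h hf).intervalIntegrable _ _)
    ((IB_comp_cont h hg).intervalIntegrable _ _)

theorem II_const_mul (b a c : ℝ) (f : ℝ → ℝ) : II b a (fun t => c * f t) = c * II b a f := by
  unfold II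
  exact intervalIntegral.integral_const_mul _ _

theorem II_sum {ι : Type*} {b a : ℝ} (h : b < a) (s : Finset ι) {f : ι → ℝ → ℝ}
    (hf : ∀ i ∈ s, ContinuousOn (f i) (Set.Icc b a)) :
    II b a (fun t => ∑ i ∈ s, f i t) = ∑ i ∈ s, II b a (f i) := by
  unfold II
  exact intervalIntegral.integral_finsetSum
    (fun i hi => (IB_comp_cont h (hf i hi)).intervalIntegrable _ _)

theorem II_mono {b a : ℝ} (h : b < a) {f g : ℝ → ℝ} (hf : ContinuousOn f (Set.Icc b a))
    (hg : ContinuousOn g (Set.Icc b a)) (hfg : ∀ t ∈ Set.Icc b a, f t ≤ g t) :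
    II b a f ≤ II b a g := by
  unfold II
  exact intervalIntegral.integral_mono_on Real.pi_pos.le
    ((IB_comp_cont h hf).intervalIntegrable _ _) ((IB_comp_cont h hg).intervalIntegrable _ _)
    (fun θ _ => hfg _ (XX_mem h θ))

theorem II_pos {b a : ℝ} (h : b < a) {f : ℝ → ℝ} (hf : ContinuousOn f (Set.Icc b a))
    (h0 : ∀ t ∈ Set.Icc b a, 0 ≤ f t) (h1 : ∃ t ∈ Set.Icc b a, 0 < f t) : 0 < II b a f := by
  unfold II
  obtain ⟨t, ht, hft⟩ := h1
  obtain ⟨θ, hθ, rfl⟩ := IB_XX_surj h ht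
  exact intervalIntegral.integral_pos Real.pi_pos (IB_comp_cont h hf).continuousOn
    (fun η _ => h0 _ (XX_mem h η)) ⟨θ, hθ, hft⟩

theorem II_sign {b a : ℝ} (h : b < a) {f : ℝ → ℝ} (hf : ContinuousOn f (Set.Icc b a))
    (h0 : II b a f = 0) (h1 : ∃ t ∈ Set.Icc b a, f t ≠ 0) :
    (∃ t ∈ Set.Ioo b a, 0 < f t) ∧ ∃ t ∈ Set.Ioo b a, f t < 0 := by
  have hcl : closure (Set.Ioo b a) = Set.Icc b a := closure_Ioo h.ne
  obtain ⟨t, ht, hft⟩ := h1
  constructor
  · by_contra hcon
    push Not at hcon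
    have hle : ∀ s ∈ Set.Icc b a, f s ≤ 0 := by
      intro s hs
      exact le_on_closure (f := f) (g := fun _ => (0 : ℝ)) hcon (hcl ▸ hf) continuousOn_const
        (hcl ▸ hs)
    have hpos := II_pos h (f := fun s => -1 * f s) (continuousOn_const.mul hf)
      (fun s hs => by linarith [hle s hs])
      ⟨t, ht, by have := lt_of_le_of_ne (hle t ht) hft; linarith⟩
    rw [II_const_mul, h0] at hpos
    simp at hpos
  · by_contra hcon
    push Not at hcon
    have hle : ∀ s ∈ Set.Icc b a, 0 ≤ f s := by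
      intro s hs
      exact le_on_closure (f := fun _ => (0 : ℝ)) (g := f) hcon continuousOn_const (hcl ▸ hf)
        (hcl ▸ hs)
    have hpos := II_pos h hf hle ⟨t, ht, lt_of_le_of_ne (hle t ht) (Ne.symm hft)⟩
    rw [h0] at hpos
    exact lt_irrefl _ hpos

theorem II_const (b a c : ℝ) : II b a (fun _ => c) = π * c := by
  unfold II
  simp

theorem II_sub_const (b a c : ℝ) : II b a (fun t => t - c) = π * ((a + b) / 2 - c) := by
  unfold II XX
  have h1 : (fun θ : ℝ => (a + b) / 2 - (a - b) / 2 * Real.cos θ - c)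
      = fun θ : ℝ => ((a + b) / 2 - c) - (a - b) / 2 * Real.cos θ := by
    funext θ
    ring
  rw [h1, intervalIntegral.integral_sub (by apply Continuous.intervalIntegrable; fun_prop)
    (by apply Continuous.intervalIntegrable; fun_prop), intervalIntegral.integral_const_mul,
    integral_cos]
  simp only [Real.sin_pi, Real.sin_zero, sub_zero, mul_zero, intervalIntegral.integral_const,
    smul_eq_mul]

theorem II_sq (b a c : ℝ) : π / 2 * ((a - b) / 2) ^ 2 ≤ II b a (fun t => (t - c) ^ 2) := by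
  unfold II XX
  have h1 : (fun θ : ℝ => ((a + b) / 2 - (a - b) / 2 * Real.cos θ - c) ^ 2)
      = fun θ : ℝ => (((a + b) / 2 - c) ^ 2 - (2 * ((a + b) / 2 - c) * ((a - b) / 2)) * Real.cos θ)
        + ((a - b) / 2) ^ 2 * Real.cos θ ^ 2 := by
    funext θ
    ring
  rw [h1, intervalIntegral.integral_add (by apply Continuous.intervalIntegrable; fun_prop)
    (by apply Continuous.intervalIntegrable; fun_prop),
    intervalIntegral.integral_sub (by apply Continuous.intervalIntegrable; fun_prop)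
    (by apply Continuous.intervalIntegrable; fun_prop), intervalIntegral.integral_const_mul,
    intervalIntegral.integral_const_mul, integral_cos, integral_cos_sq]
  simp only [Real.sin_pi, Real.sin_zero, sub_zero, mul_zero, zero_add, intervalIntegral.integral_const,
    smul_eq_mul]
  have := mul_nonneg Real.pi_pos.le (sq_nonneg ((a + b) / 2 - c))
  nlinarith

theorem IB_sqrt {b a θ : ℝ} (h : b < a) (hθ : θ ∈ Set.Ioo 0 π) :
    √((XX b a θ - b) * (a - XX b a θ)) = (a - b) / 2 * Real.sin θ := by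
  have hs : 0 < Real.sin θ := Real.sin_pos_of_pos_of_lt_pi hθ.1 hθ.2
  have hab : 0 < a - b := sub_pos.2 h
  have h1 : (XX b a θ - b) * (a - XX b a θ) = ((a - b) / 2 * Real.sin θ) ^ 2 := by
    unfold XX
    rw [mul_pow, Real.sin_sq]
    ring
  rw [h1, Real.sqrt_sq (by positivity)]

theorem IB_ftc {b a : ℝ} (h : b < a) {H f : ℝ → ℝ} (hH : ContinuousOn H (Set.Icc b a))
    (hf : ContinuousOn f (Set.Icc b a))
    (hd : ∀ t ∈ Set.Ioo b a, HasDerivAt H (f t / √((t - b) * (a - t))) t)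
    {α β : ℝ} (h0 : 0 ≤ α) (hαβ : α ≤ β) (hπ : β ≤ π) :
    ∫ θ in α..β, f (XX b a θ) = H (XX b a β) - H (XX b a α) := by
  apply intervalIntegral.integral_eq_sub_of_hasDerivAt_of_le hαβ
    (f := fun θ => H (XX b a θ)) (IB_comp_cont h hH).continuousOn ?_
    ((IB_comp_cont h hf).intervalIntegrable _ _)
  intro θ hθ
  have hθ' : θ ∈ Set.Ioo 0 π := ⟨lt_of_le_of_lt h0 hθ.1, lt_of_lt_of_le hθ.2 hπ⟩
  have hs : 0 < Real.sin θ := Real.sin_pos_of_pos_of_lt_pi hθ'.1 hθ'.2
  have hab : 0 < a - b := sub_pos.2 h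
  have hX : HasDerivAt (XX b a) ((a - b) / 2 * Real.sin θ) θ := by
    have := ((Real.hasDerivAt_cos θ).const_mul ((a - b) / 2)).const_sub ((a + b) / 2)
    exact this.congr_deriv (by ring)
  have hc := (hd _ (XX_mem_Ioo h hθ')).comp θ hX
  rw [IB_sqrt h hθ', div_mul_cancel₀ _ (by positivity)] at hc
  exact hc

theorem II_ftc {b a : ℝ} (h : b < a) {H f : ℝ → ℝ} (hH : ContinuousOn H (Set.Icc b a))
    (hf : ContinuousOn f (Set.Icc b a))
    (hd : ∀ t ∈ Set.Ioo b a, HasDerivAt H (f t / √((t - b) * (a - t))) t) :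
    H a - H b = II b a f := by
  unfold II
  rw [IB_ftc h hH hf hd le_rfl Real.pi_pos.le le_rfl, IB_XX_pi, IB_XX_zero]

theorem II_ftc_abs {b a c : ℝ} (hc : c ∈ Set.Ioo b a) {H f : ℝ → ℝ}
    (hH : ContinuousOn H (Set.Icc b a)) (hf : ContinuousOn f (Set.Icc b a))
    (hd : ∀ t ∈ Set.Ioo b a, HasDerivAt H (f t / √((t - b) * (a - t))) t)
    (h₁ : ∀ t ∈ Set.Icc b c, 0 ≤ f t) (h₂ : ∀ t ∈ Set.Icc c a, f t ≤ 0) :
    2 * H c - H b - H a = II b a (fun t => |f t|) := by
  have h : b < a := hc.1.trans hc.2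
  obtain ⟨γ, hγ, hγc⟩ := IB_XX_surj h (Set.Ioo_subset_Icc_self hc)
  have hcont : Continuous (fun θ => |f (XX b a θ)|) := (IB_comp_cont h hf).abs
  unfold II
  rw [← intervalIntegral.integral_add_adjacent_intervals (b := γ) (hcont.intervalIntegrable _ _)
    (hcont.intervalIntegrable _ _)]
  have e1 : ∫ θ in (0 : ℝ)..γ, |f (XX b a θ)| = ∫ θ in (0 : ℝ)..γ, f (XX b a θ) := by
    apply intervalIntegral.integral_congr
    intro θ hθ
    rw [Set.uIcc_of_le hγ.1] at hθ
    exact abs_of_nonneg (h₁ _ ⟨(XX_mem h θ).1, hγc ▸ IB_XX_mono h hθ.1 hθ.2 hγ.2⟩)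
  have e2 : ∫ θ in γ..π, |f (XX b a θ)| = ∫ θ in γ..π, -f (XX b a θ) := by
    apply intervalIntegral.integral_congr
    intro θ hθ
    rw [Set.uIcc_of_le hγ.2] at hθ
    exact abs_of_nonpos (h₂ _ ⟨hγc ▸ IB_XX_mono h hγ.1 hθ.1 hθ.2, (XX_mem h θ).2⟩)
  rw [e1, e2, intervalIntegral.integral_neg, IB_ftc h hH hf hd le_rfl hγ.1 hγ.2,
    IB_ftc h hH hf hd hγ.1 hγ.2 le_rfl, IB_XX_pi, IB_XX_zero, hγc]
  ring

variable {n : ℕ} {e : ℕ → ℝ}

theorem Mono.gap_lt (h : Mono n e) {k : ℕ} (hk : k < n) : e (2 * k) < e (2 * k + 1) := by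
  exact h (Nat.lt_succ_self _) (by omega)

theorem IB_mem_others {k j : ℕ} : j ∈ others n k ↔ j < 2 * n ∧ j ≠ 2 * k ∧ j ≠ 2 * k + 1 := by
  unfold others
  simp only [mem_erase, mem_range]
  tauto

theorem Mono.ne_of_mem_others (h : Mono n e) {k j : ℕ} (hk : k < n) (hj : j ∈ others n k) {t : ℝ}
    (ht : t ∈ Set.Icc (e (2 * k)) (e (2 * k + 1))) : t ≠ e j := by
  obtain ⟨h1, h2, h3⟩ := IB_mem_others.1 hj
  rcases lt_or_gt_of_ne h2 with hlt | hgt
  · exact (lt_of_lt_of_le (h hlt (by omega)) ht.1).ne'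
  · exact (lt_of_le_of_lt ht.2 (h (by omega) h1)).ne

theorem Mono.ne_of_mem_Ioo (h : Mono n e) {k j : ℕ} (hk : k < n) (hj : j < 2 * n) {t : ℝ}
    (ht : t ∈ Set.Ioo (e (2 * k)) (e (2 * k + 1))) : t ≠ e j := by
  by_cases h2 : j = 2 * k
  · rw [h2]
    exact ht.1.ne'
  by_cases h3 : j = 2 * k + 1
  · rw [h3]
    exact ht.2.ne
  exact h.ne_of_mem_others hk (IB_mem_others.2 ⟨hj, h2, h3⟩) (Set.Ioo_subset_Icc_self ht)

theorem Len.mono {m M : ℝ} (hm : 0 < m) (h : Len n e m M) : Mono n e := by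
  intro i j hij hj
  induction j, hij using Nat.le_induction with
  | base => linarith [(h i hj).1]
  | succ j hij ih => linarith [(h j hj).1, ih (by omega)]

theorem sum_range_eq_others {k : ℕ} (hk : k < n) (f : ℕ → ℝ) :
    ∑ j ∈ range (2 * n), f j = f (2 * k) + f (2 * k + 1) + ∑ j ∈ others n k, f j := by
  have h1 : 2 * k ∈ range (2 * n) := mem_range.2 (by omega)
  have h2 : 2 * k + 1 ∈ (range (2 * n)).erase (2 * k) :=
    mem_erase.2 ⟨by omega, mem_range.2 (by omega)⟩
  rw [← add_sum_erase _ _ h1, ← add_sum_erase _ _ h2, add_assoc]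
  rfl

theorem prod_range_eq_others {k : ℕ} (hk : k < n) (f : ℕ → ℝ) :
    ∏ j ∈ range (2 * n), f j = f (2 * k) * f (2 * k + 1) * ∏ j ∈ others n k, f j := by
  have h1 : 2 * k ∈ range (2 * n) := mem_range.2 (by omega)
  have h2 : 2 * k + 1 ∈ (range (2 * n)).erase (2 * k) :=
    mem_erase.2 ⟨by omega, mem_range.2 (by omega)⟩
  rw [← mul_prod_erase _ _ h1, ← mul_prod_erase _ _ h2, mul_assoc]
  rfl

theorem IB_others_eq (n k : ℕ) :
    others n k = ((range n).erase k).biUnion (fun m => ({2 * m, 2 * m + 1} : Finset ℕ)) := by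
  ext j
  rw [IB_mem_others]
  simp only [mem_biUnion, mem_erase, mem_range, mem_insert, mem_singleton]
  constructor
  · rintro ⟨h1, h2, h3⟩
    exact ⟨j / 2, ⟨by omega, by omega⟩, by omega⟩
  · rintro ⟨m, ⟨h1, h2⟩, h3⟩
    omega

theorem IB_pairwise (s : Finset ℕ) :
    (s : Set ℕ).PairwiseDisjoint (fun m => ({2 * m, 2 * m + 1} : Finset ℕ)) := by
  intro i _ j _ hij
  simp only [Function.onFun, disjoint_left, mem_insert, mem_singleton]
  intro x hx hy
  omega

/-- `others n k` is the union of the end pairs of the gaps `m ≠ k`. -/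
theorem prod_others_eq {k : ℕ} (hk : k < n) (f : ℕ → ℝ) :
    ∏ j ∈ others n k, f j = ∏ m ∈ (range n).erase k, f (2 * m) * f (2 * m + 1) := by
  have _ := hk
  rw [IB_others_eq, prod_biUnion (IB_pairwise _)]
  exact prod_congr rfl (fun m _ => prod_pair (by omega))

theorem sum_others_eq {k : ℕ} (hk : k < n) (f : ℕ → ℝ) :
    ∑ j ∈ others n k, f j = ∑ m ∈ (range n).erase k, (f (2 * m) + f (2 * m + 1)) := by
  have _ := hk
  rw [IB_others_eq, sum_biUnion (IB_pairwise _)]
  exact sum_congr rfl (fun m _ => sum_pair (by omega))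

theorem IB_prod_pos (h : Mono n e) {k : ℕ} (hk : k < n) {t : ℝ}
    (ht : t ∈ Set.Icc (e (2 * k)) (e (2 * k + 1))) : 0 < ∏ j ∈ others n k, |t - e j| :=
  prod_pos (fun _ hj => abs_pos.2 (sub_ne_zero.2 (h.ne_of_mem_others hk hj ht)))

theorem IB_prod_deriv (s : Finset ℕ) {t : ℝ} (ht : ∀ j ∈ s, t ≠ e j) :
    HasDerivAt (fun t => ∏ j ∈ s, |t - e j|)
      ((∏ j ∈ s, |t - e j|) * ∑ j ∈ s, 1 / (t - e j)) t := by
  induction s using Finset.induction_on with
  | empty => simpa using hasDerivAt_const t (1 : ℝ)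
  | insert i s hi ih =>
    have hti : t - e i ≠ 0 := sub_ne_zero.2 (ht i (mem_insert_self _ _))
    have h1 : HasDerivAt (fun t => |t - e i|) (|t - e i| * (1 / (t - e i))) t := by
      have h2 : HasDerivAt (fun t => t - e i) 1 t := (hasDerivAt_id t).sub_const _
      rcases lt_or_gt_of_ne hti with hlt | hgt
      · have := (hasDerivAt_abs_neg hlt).comp t h2
        refine this.congr_deriv ?_
        rw [abs_of_neg hlt]
        field_simp
      · have := (hasDerivAt_abs_pos hgt).comp t h2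
        refine this.congr_deriv ?_
        rw [abs_of_pos hgt]
        field_simp
    have h3 := h1.mul (ih (fun j hj => ht j (mem_insert_of_mem hj)))
    simp only [prod_insert hi, sum_insert hi]
    exact h3.congr_deriv (by ring)

theorem IB_Wt_deriv (h : Mono n e) {k : ℕ} (hk : k < n) {t : ℝ}
    (ht : t ∈ Set.Icc (e (2 * k)) (e (2 * k + 1))) :
    HasDerivAt (Wt n e k) (-(Wt n e k t / 2 * ∑ j ∈ others n k, 1 / (t - e j))) t := by
  have hP := IB_prod_pos h hk ht
  have h1 := IB_prod_deriv (e := e) (others n k) (fun j hj => h.ne_of_mem_others hk hj ht)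
  have hs : 0 < √(∏ j ∈ others n k, |t - e j|) := Real.sqrt_pos.2 hP
  have h2 := (hasDerivAt_const t (1 : ℝ)).div (h1.sqrt hP.ne') hs.ne'
  unfold Wt
  refine h2.congr_deriv ?_
  rw [Real.sq_sqrt hP.le]
  field_simp
  ring

theorem Mono.fam (h : Mono n e) :
    Fam (range n) (fun k => e (2 * k)) (fun k => e (2 * k + 1)) (Wt n e) := by
  refine ⟨fun l hl => h.gap_lt (mem_range.1 hl), fun l hl l' hl' hne => ?_,
    fun l hl t ht => (IB_Wt_deriv h (mem_range.1 hl) ht).continuousAt.continuousWithinAt,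
    fun l hl t ht => ?_⟩
  · have h1 := mem_range.1 hl
    have h2 := mem_range.1 hl'
    rcases lt_or_gt_of_ne hne with hlt | hgt
    · exact Or.inl (h (by omega) (by omega))
    · exact Or.inr (h (by omega) (by omega))
  · unfold Wt
    exact one_div_pos.2 (Real.sqrt_pos.2 (IB_prod_pos h (mem_range.1 hl) ht))

theorem Wt_hasDerivAt (h : Mono n e) {k : ℕ} (hk : k < n) {t : ℝ}
    (ht : t ∈ Set.Icc (e (2 * k)) (e (2 * k + 1))) :
    HasDerivAt (Wt n e k) (-(Wt n e k t / 2 * ∑ j ∈ others n k, 1 / (t - e j))) t := by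
  exact IB_Wt_deriv h hk ht

theorem Rp_eval (t : ℝ) : (Rp n e).eval t = ∏ j ∈ range (2 * n), (t - e j) := by
  simp [Rp, eval_prod]

theorem Pp_eval (x : ℕ → ℝ) (t : ℝ) : (Pp n x).eval t = ∏ m ∈ range n, (t - x m) := by
  simp [Pp, eval_prod]

theorem Rp_neg (h : Mono n e) {k : ℕ} (hk : k < n) {t : ℝ}
    (ht : t ∈ Set.Ioo (e (2 * k)) (e (2 * k + 1))) : (Rp n e).eval t < 0 := by
  rw [Rp_eval, prod_range_eq_others hk, prod_others_eq hk]
  have h1 : (t - e (2 * k)) * (t - e (2 * k + 1)) < 0 :=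
    mul_neg_of_pos_of_neg (sub_pos.2 ht.1) (sub_neg.2 ht.2)
  refine mul_neg_of_neg_of_pos h1 (prod_pos (fun m hm => ?_))
  obtain ⟨hmk, hmn⟩ := mem_erase.1 hm
  have hmn' := mem_range.1 hmn
  have hg := h.gap_lt hmn'
  rcases lt_or_gt_of_ne hmk with hlt | hgt
  · have : e (2 * m + 1) < e (2 * k) := h (by omega) (by omega)
    exact mul_pos (by linarith [ht.1]) (by linarith [ht.1])
  · have : e (2 * k + 1) < e (2 * m) := h (by omega) (by omega)
    exact mul_pos_of_neg_of_neg (by linarith [ht.2]) (by linarith [ht.2])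

theorem inv_sqrt_Rp (h : Mono n e) {k : ℕ} (hk : k < n) {t : ℝ}
    (ht : t ∈ Set.Ioo (e (2 * k)) (e (2 * k + 1))) :
    1 / √|(Rp n e).eval t| = Wt n e k t / √((t - e (2 * k)) * (e (2 * k + 1) - t)) := by
  have _ := h
  have h1 : 0 < t - e (2 * k) := sub_pos.2 ht.1
  have h2 : t - e (2 * k + 1) < 0 := sub_neg.2 ht.2
  have h3 : |(Rp n e).eval t|
      = ((t - e (2 * k)) * (e (2 * k + 1) - t)) * ∏ j ∈ others n k, |t - e j| := by
    rw [Rp_eval, abs_prod, prod_range_eq_others hk (fun j => |t - e j|), abs_of_pos h1,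
      abs_of_neg h2, neg_sub]
  rw [h3, Real.sqrt_mul (mul_pos h1 (by linarith)).le]
  unfold Wt
  rw [div_div, mul_comm]

theorem IB_cont_left {b a : ℝ} (h : b < a) {H W : ℝ → ℝ} {c : ℝ} (hd : HasDerivAt H c b)
    (hb : H b = 0) (hW : ContinuousAt W b) :
    ContinuousWithinAt (fun t => H t * W t / √((t - b) * (a - t))) (Set.Icc b a) b := by
  have h1 : ContinuousAt (dslope H b) b := continuousAt_dslope_same.2 hd.differentiableAt
  have h2 : ContinuousAt (fun t => dslope H b t * √(t - b) * W t / √(a - t)) b := by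
    refine ((h1.mul (by fun_prop)).mul hW).div (by fun_prop) ?_
    exact (Real.sqrt_pos.2 (sub_pos.2 h)).ne'
  have h3 : ∀ t ∈ Set.Icc b a, H t * W t / √((t - b) * (a - t))
      = dslope H b t * √(t - b) * W t / √(a - t) := by
    intro t ht
    have h4 : H t = (t - b) * dslope H b t := by
      have := sub_smul_dslope H b t
      rw [hb, sub_zero, smul_eq_mul] at this
      exact this.symm
    rw [Real.sqrt_mul (sub_nonneg.2 ht.1), h4, ← Real.div_sqrt (x := t - b), Real.div_sqrt]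
    have h5 : (t - b) / √(t - b) = √(t - b) := Real.div_sqrt
    calc (t - b) * dslope H b t * W t / (√(t - b) * √(a - t))
        = dslope H b t * ((t - b) / √(t - b)) * W t / √(a - t) := by ring
      _ = _ := by rw [h5]
  exact h2.continuousWithinAt.congr h3 (h3 b (Set.left_mem_Icc.2 h.le))

theorem IB_cont_right {b a : ℝ} (h : b < a) {H W : ℝ → ℝ} {c : ℝ} (hd : HasDerivAt H c a)
    (ha : H a = 0) (hW : ContinuousAt W a) :
    ContinuousWithinAt (fun t => H t * W t / √((t - b) * (a - t))) (Set.Icc b a) a := by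
  have h1 : ContinuousAt (dslope H a) a := continuousAt_dslope_same.2 hd.differentiableAt
  have h2 : ContinuousAt (fun t => -(dslope H a t * √(a - t) * W t / √(t - b))) a := by
    refine (((h1.mul (by fun_prop)).mul hW).div (by fun_prop) ?_).neg
    exact (Real.sqrt_pos.2 (sub_pos.2 h)).ne'
  have h3 : ∀ t ∈ Set.Icc b a, H t * W t / √((t - b) * (a - t))
      = -(dslope H a t * √(a - t) * W t / √(t - b)) := by
    intro t ht
    have h4 : H t = (t - a) * dslope H a t := by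
      have := sub_smul_dslope H a t
      rw [ha, sub_zero, smul_eq_mul] at this
      exact this.symm
    rw [Real.sqrt_mul (sub_nonneg.2 ht.1), h4]
    have h5 : (a - t) / √(a - t) = √(a - t) := Real.div_sqrt
    calc (t - a) * dslope H a t * W t / (√(t - b) * √(a - t))
        = -(dslope H a t * ((a - t) / √(a - t)) * W t / √(t - b)) := by ring
      _ = _ := by rw [h5]
  exact h2.continuousWithinAt.congr h3 (h3 a (Set.right_mem_Icc.2 h.le))

/-- Exact forms have zero period: `φ / √|R| = (h / √|R|)'`. -/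
theorem EXACT (h : Mono n e) {k : ℕ} (hk : k < n) {H H' φ : ℝ → ℝ}
    (hφ : ContinuousOn φ (Set.Icc (e (2 * k)) (e (2 * k + 1))))
    (hd : ∀ t ∈ Set.Icc (e (2 * k)) (e (2 * k + 1)), HasDerivAt H (H' t) t)
    (hb : H (e (2 * k)) = 0) (ha : H (e (2 * k + 1)) = 0)
    (heq : ∀ t ∈ Set.Ioo (e (2 * k)) (e (2 * k + 1)),
      φ t = H' t - H t / 2 * ∑ j ∈ range (2 * n), 1 / (t - e j)) :
    L n e k φ = 0 := by
  have hlt := h.gap_lt hk
  have hW : ∀ t ∈ Set.Icc (e (2 * k)) (e (2 * k + 1)), ContinuousAt (Wt n e k) t :=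
    fun t ht => (Wt_hasDerivAt h hk ht).continuousAt
  have hder : ∀ t ∈ Set.Ioo (e (2 * k)) (e (2 * k + 1)),
      HasDerivAt (fun t => H t * Wt n e k t / √((t - e (2 * k)) * (e (2 * k + 1) - t)))
        (φ t * Wt n e k t / √((t - e (2 * k)) * (e (2 * k + 1) - t))) t := by
    intro t ht
    have ht' := Set.Ioo_subset_Icc_self ht
    have h1 : 0 < t - e (2 * k) := sub_pos.2 ht.1
    have h2 : 0 < e (2 * k + 1) - t := sub_pos.2 ht.2
    have h2' : t - e (2 * k + 1) ≠ 0 := (sub_neg.2 ht.2).ne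
    have hq : 0 < (t - e (2 * k)) * (e (2 * k + 1) - t) := mul_pos h1 h2
    have hs : 0 < √((t - e (2 * k)) * (e (2 * k + 1) - t)) := Real.sqrt_pos.2 hq
    have hQ : HasDerivAt (fun t => (t - e (2 * k)) * (e (2 * k + 1) - t))
        ((e (2 * k + 1) - t) - (t - e (2 * k))) t := by
      have := ((hasDerivAt_id t).sub_const (e (2 * k))).mul
        ((hasDerivAt_id t).const_sub (e (2 * k + 1)))
      refine this.congr_deriv ?_
      simp only [id]
      ring
    have h3 := ((hd t ht').mul (Wt_hasDerivAt h hk ht')).div (hQ.sqrt hq.ne') hs.ne'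
    refine h3.congr_deriv ?_
    rw [heq t ht, sum_range_eq_others hk (fun j => 1 / (t - e j))]
    simp only [Pi.mul_apply]
    have hsq : √((t - e (2 * k)) * (e (2 * k + 1) - t)) ^ 2
        = (t - e (2 * k)) * (e (2 * k + 1) - t) := Real.sq_sqrt hq.le
    have key : 1 / (t - e (2 * k)) + 1 / (t - e (2 * k + 1))
        = ((e (2 * k + 1) - t) - (t - e (2 * k)))
          / √((t - e (2 * k)) * (e (2 * k + 1) - t)) ^ 2 := by
      rw [hsq]
      field_simp
      ring
    rw [key]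
    generalize √((t - e (2 * k)) * (e (2 * k + 1) - t)) = s at hs
    field_simp
    ring
  have hcont : ContinuousOn
      (fun t => H t * Wt n e k t / √((t - e (2 * k)) * (e (2 * k + 1) - t)))
      (Set.Icc (e (2 * k)) (e (2 * k + 1))) := by
    intro t ht
    rcases eq_or_lt_of_le ht.1 with h1 | h1
    · subst h1
      exact IB_cont_left hlt (hd _ ht) hb (hW _ ht)
    rcases eq_or_lt_of_le ht.2 with h2 | h2
    · subst h2
      exact IB_cont_right hlt (hd _ ht) ha (hW _ ht)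
    exact (hder t ⟨h1, h2⟩).continuousAt.continuousWithinAt
  have hmain := II_ftc hlt (f := fun t => φ t * Wt n e k t) hcont
    (hφ.mul (fun t ht => (hW t ht).continuousWithinAt)) hder
  unfold L
  rw [← hmain]
  simp [ha, hb]

end MW.AN
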