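import Pool.Agent.P.MP_064970_gt.AN.IB

/-! Row AN-LL: uniform estimates for interlacing products. A factor equals
`1 + (p - q) (t - t') / ((q - t) (p - t'))`, and gap `j` is at distance at least
`m · (index distance)`. -/

open Filter Topology MeasureTheory Finset Polynomial
open scoped Real

namespace MW.AN

theorem Len.dist {n : ℕ} {e : ℕ → ℝ} {m M : ℝ} (h : Len n e m M) {i j : ℕ} (hij : i ≤ j)
    (hj : j < 2 * n) : m * ((j : ℝ) - i) ≤ e j - e i ∧ e j - e i ≤ M * ((j : ℝ) - i) := by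
  induction j, hij using Nat.le_induction with
  | base => simp
  | succ j hij ih =>
    have h1 := ih (by omega)
    have h2 := h j hj
    push_cast
    constructor <;> nlinarith [h1.1, h1.2, h2.1, h2.2]

theorem LL_step (x : ℤ) : 1 / (1 + |(x : ℝ)|) ^ 2
    ≤ 2 * (((x : ℝ) + 1) / (1 + |(x : ℝ) + 1|)) - 2 * ((x : ℝ) / (1 + |(x : ℝ)|)) := by
  rcases le_or_gt 0 x with hx | hx
  · have hx' : (0 : ℝ) ≤ x := by exact_mod_cast hx
    rw [abs_of_nonneg hx', abs_of_nonneg (by linarith)]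
    have h1 : (0 : ℝ) < 1 + x := by linarith
    have h2 : (0 : ℝ) < 1 + (x + 1) := by linarith
    have e1 : 2 * (((x : ℝ) + 1) / (1 + ((x : ℝ) + 1))) - 2 * ((x : ℝ) / (1 + (x : ℝ)))
        = 2 / ((1 + (x : ℝ)) * (1 + ((x : ℝ) + 1))) := by
      field_simp; ring
    rw [e1, div_le_div_iff₀ (by positivity) (by positivity)]
    nlinarith
  · have hx1 : x + 1 ≤ 0 := by omega
    have hx' : (x : ℝ) + 1 ≤ 0 := by exact_mod_cast hx1
    rw [abs_of_nonpos hx', abs_of_nonpos (by linarith)]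
    have h1 : (0 : ℝ) < 1 + -(x : ℝ) := by linarith
    have h2 : (0 : ℝ) < 1 + -((x : ℝ) + 1) := by linarith
    have e1 : 2 * (((x : ℝ) + 1) / (1 + -((x : ℝ) + 1))) - 2 * ((x : ℝ) / (1 + -(x : ℝ)))
        = 2 / ((1 + -(x : ℝ)) * (1 + -((x : ℝ) + 1))) := by
      field_simp; ring
    rw [e1, div_le_div_iff₀ (by positivity) (by positivity)]
    nlinarith

theorem LL_phi (x : ℝ) : -1 ≤ x / (1 + |x|) ∧ x / (1 + |x|) ≤ 1 := by
  have h : 0 < 1 + |x| := by positivity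
  constructor
  · rw [le_div_iff₀ h]; linarith [neg_abs_le x]
  · rw [div_le_iff₀ h]; linarith [le_abs_self x]

theorem sum_inv_sq_le (n k : ℕ) : ∑ l ∈ range n, 1 / (1 + |(k : ℝ) - l|) ^ 2 ≤ 4 := by
  have key : ∀ n : ℕ, ∑ l ∈ range n, 1 / (1 + |(k : ℝ) - l|) ^ 2
      ≤ 2 + 2 * (((n : ℝ) - k) / (1 + |(n : ℝ) - k|)) := by
    intro n
    induction n with
    | zero =>
      have := (LL_phi (((0 : ℕ) : ℝ) - k)).1
      rw [range_zero, sum_empty]; linarith
    | succ n ih =>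
      rw [sum_range_succ]
      have h := LL_step ((n : ℤ) - k)
      push_cast at h ⊢
      rw [abs_sub_comm (k : ℝ) n]
      have e1 : (n : ℝ) + 1 - k = (n : ℝ) - k + 1 := by ring
      rw [e1]
      linarith
  have := (LL_phi ((n : ℝ) - k)).2
  linarith [key n]

/-- Gap `j` is far from the gaps `k ≤ l ≤ k + 1` and the band between them. -/
theorem Len.far {n : ℕ} {e : ℕ → ℝ} {m M : ℝ} (hm : 0 < m) (h : Len n e m M) {k l j : ℕ}
    (hkl : k ≤ l) (hlk : l ≤ k + 1) (hl : l < n) (hj : j < n) (hjk : j ≠ k) (hjl : j ≠ l)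
    {p t : ℝ} (hp : p ∈ Set.Icc (e (2 * j)) (e (2 * j + 1)))
    (ht : t ∈ Set.Icc (e (2 * k)) (e (2 * l + 1))) :
    m / 3 * (1 + |(k : ℝ) - j|) ≤ |t - p| := by
  rcases lt_or_gt_of_ne hjk with hlt | hgt
  · have h1 := (h.dist (i := 2 * j + 1) (j := 2 * k) (by omega) (by omega)).1
    have h2 : (j : ℝ) + 1 ≤ k := by exact_mod_cast hlt
    push_cast at h1
    rw [abs_of_nonneg (by linarith : (0 : ℝ) ≤ (k : ℝ) - j)]
    refine le_trans ?_ (le_abs_self _)
    nlinarith [hp.2, ht.1]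
  · have hlj : l < j := by omega
    have h1 := (h.dist (i := 2 * l + 1) (j := 2 * j) (by omega) (by omega)).1
    have h2 : (l : ℝ) + 1 ≤ j := by exact_mod_cast hlj
    have h3 : (l : ℝ) ≤ k + 1 := by exact_mod_cast hlk
    have h4 : (k : ℝ) ≤ l := by exact_mod_cast hkl
    push_cast at h1
    rw [abs_of_nonpos (by linarith : (k : ℝ) - j ≤ 0)]
    refine le_trans ?_ (neg_le_abs _)
    nlinarith [hp.1, ht.2]

theorem LL_abs_sub {a b p q : ℝ} (hp : p ∈ Set.Icc a b) (hq : q ∈ Set.Icc a b) :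
    |p - q| ≤ b - a := by
  rw [abs_le]; constructor <;> linarith [hp.1, hp.2, hq.1, hq.2]

theorem LL_factor {t t' p q d A : ℝ} (hd : 0 < d) (h1 : d ≤ |t - q|) (h2 : d ≤ |t' - p|)
    (hA : |p - q| * |t - t'| ≤ A) :
    |t - p| * |t' - q| ≤ Real.exp (A / d ^ 2) * (|t - q| * |t' - p|) := by
  have hA0 : 0 ≤ A := le_trans (by positivity) hA
  have e1 : (t - p) * (t' - q) = (t - q) * (t' - p) + (p - q) * (t - t') := by ring
  have h3 : |t - p| * |t' - q| ≤ |t - q| * |t' - p| + |p - q| * |t - t'| := by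
    rw [← abs_mul, ← abs_mul, ← abs_mul, e1]; exact abs_add_le _ _
  have h4 : d ^ 2 ≤ |t - q| * |t' - p| := by
    rw [sq]; exact mul_le_mul h1 h2 hd.le (abs_nonneg _)
  have h5 : A ≤ A / d ^ 2 * (|t - q| * |t' - p|) := by
    calc A = A / d ^ 2 * d ^ 2 := by field_simp
      _ ≤ _ := mul_le_mul_of_nonneg_left h4 (by positivity)
  have h6 : A / d ^ 2 + 1 ≤ Real.exp (A / d ^ 2) := Real.add_one_le_exp _
  have h7 : 0 ≤ |t - q| * |t' - p| := by positivity
  nlinarith [mul_le_mul_of_nonneg_right h6 h7]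

theorem LL_sum_le {n k : ℕ} {s : Finset ℕ} (hs : s ⊆ range n) {c : ℝ} (hc : 0 ≤ c) :
    ∑ j ∈ s, c * (1 / (1 + |(k : ℝ) - j|) ^ 2) ≤ c * 4 := by
  rw [← mul_sum]
  refine mul_le_mul_of_nonneg_left (le_trans ?_ (sum_inv_sq_le n k)) hc
  exact sum_le_sum_of_subset_of_nonneg hs (fun _ _ _ => by positivity)

theorem LL (m M : ℝ) (hm : 0 < m) : ∃ C : ℝ, 1 ≤ C ∧ ∀ (n : ℕ) (e : ℕ → ℝ), Len n e m M →
    ∀ k l : ℕ, k ≤ l → l ≤ k + 1 → l < n → ∀ p q : ℕ → ℝ,
      (∀ j < n, p j ∈ Set.Icc (e (2 * j)) (e (2 * j + 1))) →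
      (∀ j < n, q j ∈ Set.Icc (e (2 * j)) (e (2 * j + 1))) →
      ∀ t ∈ Set.Icc (e (2 * k)) (e (2 * l + 1)), ∀ t' ∈ Set.Icc (e (2 * k)) (e (2 * l + 1)),
        ∏ j ∈ ((range n).erase k).erase l, |t - p j| * |t' - q j|
          ≤ C * ∏ j ∈ ((range n).erase k).erase l, |t - q j| * |t' - p j| := by
  refine ⟨Real.exp (27 * M ^ 2 / m ^ 2 * 4), Real.one_le_exp (by positivity), ?_⟩
  intro n e h k l hkl hlk hl p q hp hq t ht t' ht'
  have hM : 0 ≤ M := by
    have := h (2 * l) (by omega)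
    linarith [this.1, this.2]
  have htt : |t - t'| ≤ 3 * M := by
    have h1 := (h.dist (i := 2 * k) (j := 2 * l + 1) (by omega) (by omega)).2
    have h3 : (l : ℝ) ≤ k + 1 := by exact_mod_cast hlk
    push_cast at h1
    refine le_trans (LL_abs_sub ht ht') (le_trans h1 ?_)
    nlinarith
  have hsub : ((range n).erase k).erase l ⊆ range n :=
    (erase_subset _ _).trans (erase_subset _ _)
  calc ∏ j ∈ ((range n).erase k).erase l, |t - p j| * |t' - q j|
      ≤ ∏ j ∈ ((range n).erase k).erase l,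
          Real.exp (27 * M ^ 2 / m ^ 2 * (1 / (1 + |(k : ℝ) - j|) ^ 2))
            * (|t - q j| * |t' - p j|) := by
        refine prod_le_prod (fun _ _ => by positivity) (fun j hj => ?_)
        simp only [mem_erase, mem_range] at hj
        obtain ⟨hjl, hjk, hjn⟩ := hj
        have hpq : |p j - q j| ≤ M :=
          le_trans (LL_abs_sub (hp j hjn) (hq j hjn)) (h (2 * j) (by omega)).2
        have hA : |p j - q j| * |t - t'| ≤ M * (3 * M) :=
          mul_le_mul hpq htt (abs_nonneg _) hM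
        have h1 := LL_factor (by positivity)
          (h.far hm hkl hlk hl hjn hjk hjl (hq j hjn) ht)
          (h.far hm hkl hlk hl hjn hjk hjl (hp j hjn) ht') hA
        have e1 : M * (3 * M) / (m / 3 * (1 + |(k : ℝ) - j|)) ^ 2
            = 27 * M ^ 2 / m ^ 2 * (1 / (1 + |(k : ℝ) - j|) ^ 2) := by
          field_simp; ring
        rwa [e1] at h1
    _ = Real.exp (∑ j ∈ ((range n).erase k).erase l,
            27 * M ^ 2 / m ^ 2 * (1 / (1 + |(k : ℝ) - j|) ^ 2))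
          * ∏ j ∈ ((range n).erase k).erase l, |t - q j| * |t' - p j| := by
        rw [prod_mul_distrib, Real.exp_sum]
    _ ≤ _ := by
        refine mul_le_mul_of_nonneg_right (Real.exp_le_exp.2 ?_)
          (prod_nonneg fun _ _ => by positivity)
        exact LL_sum_le hsub (by positivity)

theorem KK (m M : ℝ) (hm : 0 < m) : ∃ C : ℝ, ∀ (n : ℕ) (e : ℕ → ℝ), Len n e m M →
    ∀ l : ℕ, l < n → ∀ p q : ℕ → ℝ,
      (∀ j < n, p j ∈ Set.Icc (e (2 * j)) (e (2 * j + 1))) →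
      (∀ j < n, q j ∈ Set.Icc (e (2 * j)) (e (2 * j + 1))) →
      ∀ t ∈ Set.Icc (e (2 * l)) (e (2 * l + 1)),
        |∑ j ∈ (range n).erase l, (1 / (t - p j) - 1 / (t - q j))| ≤ C := by
  refine ⟨9 * M / m ^ 2 * 4, ?_⟩
  intro n e h l hl p q hp hq t ht
  have hM : 0 ≤ M := by
    have := h (2 * l) (by omega)
    linarith [this.1, this.2]
  refine le_trans (abs_sum_le_sum_abs _ _) (le_trans (sum_le_sum fun j hj => ?_)
    (LL_sum_le (k := l) (erase_subset l (range n)) (by positivity)))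
  simp only [mem_erase, mem_range] at hj
  obtain ⟨hjl, hjn⟩ := hj
  have h1 := h.far hm le_rfl (Nat.le_succ l) hl hjn hjl hjl (hp j hjn) ht
  have h2 := h.far hm le_rfl (Nat.le_succ l) hl hjn hjl hjl (hq j hjn) ht
  have hd : 0 < m / 3 * (1 + |(l : ℝ) - j|) := by positivity
  have hp0 : t - p j ≠ 0 := abs_pos.1 (lt_of_lt_of_le hd h1)
  have hq0 : t - q j ≠ 0 := abs_pos.1 (lt_of_lt_of_le hd h2)
  have hpq : |p j - q j| ≤ M :=
    le_trans (LL_abs_sub (hp j hjn) (hq j hjn)) (h (2 * j) (by omega)).2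
  have e1 : 1 / (t - p j) - 1 / (t - q j) = (p j - q j) / ((t - p j) * (t - q j)) := by
    field_simp; ring
  have e2 : 9 * M / m ^ 2 * (1 / (1 + |(l : ℝ) - j|) ^ 2)
      = M / ((m / 3 * (1 + |(l : ℝ) - j|)) * (m / 3 * (1 + |(l : ℝ) - j|))) := by
    field_simp; ring
  rw [e1, e2, abs_div, abs_mul]
  exact div_le_div₀ hM hpq (mul_pos hd hd) (mul_le_mul h1 h2 hd.le (abs_nonneg _))

/-- The weight `W = ∏_{j ≠ l} |t - x j| · Wt` has bounded oscillation on gap `l`
(`W²` is a product of two `LL` products). -/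
theorem W_ratio (m M : ℝ) (hm : 0 < m) : ∃ C : ℝ, 1 ≤ C ∧ ∀ (n : ℕ) (e : ℕ → ℝ), Len n e m M →
    ∀ l : ℕ, l < n → ∀ x : ℕ → ℝ, (∀ j < n, x j ∈ Set.Icc (e (2 * j)) (e (2 * j + 1))) →
      ∀ t ∈ Set.Icc (e (2 * l)) (e (2 * l + 1)), ∀ t' ∈ Set.Icc (e (2 * l)) (e (2 * l + 1)),
        (∏ j ∈ (range n).erase l, |t - x j|) * Wt n e l t
          ≤ C * ((∏ j ∈ (range n).erase l, |t' - x j|) * Wt n e l t') := by
  obtain ⟨C, hC, hLL⟩ := LL m M hm
  refine ⟨C, hC, ?_⟩
  intro n e h l hl x hx t ht t' ht'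
  have hgap : ∀ j < n, e (2 * j) ≤ e (2 * j + 1) := fun j hj => by
    have := h (2 * j) (by omega)
    linarith [this.1]
  have hb : ∀ j < n, e (2 * j) ∈ Set.Icc (e (2 * j)) (e (2 * j + 1)) :=
    fun j hj => ⟨le_rfl, hgap j hj⟩
  have ha : ∀ j < n, e (2 * j + 1) ∈ Set.Icc (e (2 * j)) (e (2 * j + 1)) :=
    fun j hj => ⟨hgap j hj, le_rfl⟩
  have h1 := hLL n e h l l le_rfl (Nat.le_succ l) hl x (fun j => e (2 * j)) hx hb t ht t' ht'
  have h2 := hLL n e h l l le_rfl (Nat.le_succ l) hl x (fun j => e (2 * j + 1)) hx ha t ht t' ht'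
  rw [erase_idem, prod_mul_distrib, prod_mul_distrib] at h1 h2
  have hpos : ∀ y : ℕ → ℝ, (∀ j < n, y j ∈ Set.Icc (e (2 * j)) (e (2 * j + 1))) →
      ∀ s ∈ Set.Icc (e (2 * l)) (e (2 * l + 1)), 0 < ∏ j ∈ (range n).erase l, |s - y j| := by
    intro y hy s hs
    refine prod_pos fun j hj => ?_
    simp only [mem_erase, mem_range] at hj
    exact lt_of_lt_of_le (by positivity)
      (h.far hm le_rfl (Nat.le_succ l) hl hj.2 hj.1 hj.1 (hy j hj.2) hs)
  have hA := hpos x hx t ht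
  have hA' := hpos x hx t' ht'
  have hB := hpos _ hb t ht
  have hB' := hpos _ hb t' ht'
  have hD := hpos _ ha t ht
  have hD' := hpos _ ha t' ht'
  unfold Wt
  rw [prod_others_eq hl (fun j => |t - e j|), prod_others_eq hl (fun j => |t' - e j|),
    prod_mul_distrib, prod_mul_distrib]
  generalize (∏ j ∈ (range n).erase l, |t - x j|) = A at *
  generalize (∏ j ∈ (range n).erase l, |t' - x j|) = A' at *
  generalize (∏ j ∈ (range n).erase l, |t - e (2 * j)|) = B at *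
  generalize (∏ j ∈ (range n).erase l, |t' - e (2 * j)|) = B' at *
  generalize (∏ j ∈ (range n).erase l, |t - e (2 * j + 1)|) = E at *
  generalize (∏ j ∈ (range n).erase l, |t' - e (2 * j + 1)|) = E' at *
  have hC0 : 0 < C := by linarith
  have h3 : (A * B') * (A * E') ≤ (C * (B * A')) * (C * (E * A')) :=
    mul_le_mul h1 h2 (by positivity) (by positivity)
  have h4 : A * √(B' * E') ≤ C * A' * √(B * E) := by
    refine abs_le_of_sq_le_sq' ?_ (by positivity) |>.2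
    rw [mul_pow, mul_pow, mul_pow, Real.sq_sqrt (by positivity), Real.sq_sqrt (by positivity)]
    nlinarith
  have hs : 0 < √(B * E) := Real.sqrt_pos.2 (by positivity)
  have hs' : 0 < √(B' * E') := Real.sqrt_pos.2 (by positivity)
  rw [mul_one_div, mul_one_div, ← mul_div_assoc, div_le_div_iff₀ hs hs']
  exact h4

end MW.AN
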