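import Pool.Agent.P.MP_064970_gt.AN.SP

/-! Row AN-Phi: the two ordinary differential inequalities. -/

open Complex InnerProductSpace Set Filter Topology Metric MeasureTheory
open scoped Real ComplexConjugate

namespace MW.AN

theorem phi_im (x y : ℝ) : ((x : ℂ) + y * I).im = y := by simp

theorem phi_tendsto_D {f : ℂ → ℝ} {α : ℝ} (h : PosH f) (hs : Slope f α) (x : ℝ) :
    Tendsto (fun y : ℝ => D f (x + y * I)) atTop (𝓝 (-I * α)) := by
  obtain ⟨h1, h2, h3⟩ := hs.eta h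
  have h4 : Tendsto (fun y : ℝ => D (fun z => f z - α * z.im) (x + y * I)) atTop (𝓝 0) := by
    refine squeeze_zero_norm' ?_ (h2.lim x)
    filter_upwards [eventually_gt_atTop (0 : ℝ)] with y hy
    have := SP_half h1 (z := x + y * I) (by rw [phi_im]; exact hy)
    rw [phi_im] at this
    simpa only [phi_im] using this
  have h5 := h4.const_add (-I * α)
  rw [add_zero] at h5
  refine h5.congr' ?_
  filter_upwards [eventually_gt_atTop (0 : ℝ)] with y hy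
  exact (h3 _ (by rw [phi_im]; exact hy)).symm

theorem slope_sq {u₁ u₂ : ℂ → ℝ} (hD : Data u₁ u₂) {α β : ℝ} (h₁ : Slope u₁ α)
    (h₂ : Slope u₂ β) : α ^ 2 + β ^ 2 = 1 := by
  have t1 := ((phi_tendsto_D hD.h₁.posH h₁ 0).pow 2).add ((phi_tendsto_D hD.h₂.posH h₂ 0).pow 2)
  have t2 : Tendsto (fun y : ℝ => D u₁ ((0 : ℝ) + y * I) ^ 2 + D u₂ ((0 : ℝ) + y * I) ^ 2) atTop
      (𝓝 (-1)) := by
    refine tendsto_const_nhds.congr' ?_
    filter_upwards [eventually_gt_atTop (0 : ℝ)] with y hy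
    exact (hD.eq _ (by rw [phi_im]; exact hy)).symm
  have h := tendsto_nhds_unique t1 t2
  have h' : ((α ^ 2 + β ^ 2 : ℝ) : ℂ) = ((1 : ℝ) : ℂ) := by
    push_cast
    linear_combination (-1 : ℂ) * h + ((α : ℂ) ^ 2 + (β : ℂ) ^ 2) * I_sq
  exact_mod_cast h'

theorem phi_one {p : ℂ} {a : ℝ} (h : ‖p‖ ≤ a) : a ^ 2 + 4 * a * (-p.im - a) ≤ -(p ^ 2).re := by
  have h1 : ‖p‖ ^ 2 ≤ a ^ 2 := pow_le_pow_left₀ (norm_nonneg _) h 2
  rw [Complex.sq_norm, Complex.normSq_apply] at h1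
  rw [sq p, Complex.mul_re]
  nlinarith [sq_nonneg (-p.im - a)]

theorem phi_anti {g g' : ℝ → ℝ} (hg : ∀ s, 0 < s → HasDerivAt g (g' s) s)
    (h0 : ∀ s, 0 < s → g' s ≤ 0) {y Y : ℝ} (hy : 0 < y) (hY : y ≤ Y) : g Y ≤ g y := by
  refine antitoneOn_of_hasDerivWithinAt_nonpos (f' := g') (convex_Ioi 0)
    (fun s hs => (hg s hs).continuousAt.continuousWithinAt) (fun s hs => ?_) (fun s hs => ?_)
    hy (hy.trans_le hY) hY
  · rw [interior_Ioi] at hs
    exact (hg s hs).hasDerivWithinAt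
  · rw [interior_Ioi] at hs
    exact h0 s hs

/-- With `a = u / y`, `|D u| ≤ a` gives `Re (-(D u)²) ≥ 2 u_y² - a² ≥ a² + 4 a (u_y - a)`, hence
`Q + 2 y Q' ≤ 1` for `Q = a₁² + a₂²`: `√y (Q - 1)` decreases. -/
theorem LBQ {u₁ u₂ : ℂ → ℝ} (hD : Data u₁ u₂) (x : ℝ) {y Y : ℝ} (hy : 0 < y) (hY : y ≤ Y) :
    √Y * ((u₁ (x + Y * I) ^ 2 + u₂ (x + Y * I) ^ 2) / Y ^ 2 - 1)
      ≤ √y * ((u₁ (x + y * I) ^ 2 + u₂ (x + y * I) ^ 2) / y ^ 2 - 1) := by
  have key := phi_anti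
    (g := fun s : ℝ => √s * ((u₁ (x + s * I) / s) ^ 2 + (u₂ (x + s * I) / s) ^ 2 - 1))
    (g' := fun s : ℝ => 1 / (2 * √s) * ((u₁ (x + s * I) / s) ^ 2 + (u₂ (x + s * I) / s) ^ 2 - 1) +
      √s * (2 * (u₁ (x + s * I) / s) * ((-(D u₁ (x + s * I)).im * s - u₁ (x + s * I)) / s ^ 2) +
        2 * (u₂ (x + s * I) / s) * ((-(D u₂ (x + s * I)).im * s - u₂ (x + s * I)) / s ^ 2)))
    (fun s hs => by
      have hz : 0 < ((x : ℂ) + s * I).im := by rw [phi_im]; exact hs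
      have d1 := (hasDerivAt_vert (hD.h₁.posH.harm _ hz)).div (hasDerivAt_id s) hs.ne'
      have d2 := (hasDerivAt_vert (hD.h₂.posH.harm _ hz)).div (hasDerivAt_id s) hs.ne'
      have d3 := (Real.hasDerivAt_sqrt hs.ne').mul (((d1.pow 2).add (d2.pow 2)).sub_const 1)
      refine d3.congr_deriv ?_
      simp)
    (fun s hs => by
      have hz : 0 < ((x : ℂ) + s * I).im := by rw [phi_im]; exact hs
      have b1 := SP_half hD.h₁.posH hz
      have b2 := SP_half hD.h₂.posH hz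
      rw [phi_im] at b1 b2
      have c1 := phi_one b1
      have c2 := phi_one b2
      have c3 := congrArg Complex.re (hD.eq _ hz)
      rw [Complex.add_re] at c3
      have c4 : (-1 : ℂ).re = -1 := by simp
      rw [c4] at c3
      obtain ⟨a₁, ha₁⟩ : ∃ a, a = u₁ (x + s * I) / s := ⟨_, rfl⟩
      obtain ⟨a₂, ha₂⟩ : ∃ a, a = u₂ (x + s * I) / s := ⟨_, rfl⟩
      have e1 : u₁ (x + s * I) = a₁ * s := by rw [ha₁, div_mul_cancel₀ _ hs.ne']
      have e2 : u₂ (x + s * I) = a₂ * s := by rw [ha₂, div_mul_cancel₀ _ hs.ne']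
      rw [← ha₁] at c1
      rw [← ha₂] at c2
      rw [← ha₁, ← ha₂, e1, e2]
      obtain ⟨t, ht0, ht⟩ : ∃ t : ℝ, 0 < t ∧ s = t ^ 2 :=
        ⟨√s, Real.sqrt_pos.2 hs, (Real.sq_sqrt hs.le).symm⟩
      have ht' : √s = t := by rw [ht, Real.sqrt_sq ht0.le]
      rw [ht']
      generalize (D u₁ (x + s * I)).im = p at c1 ⊢
      generalize (D u₂ (x + s * I)).im = q at c2 ⊢
      have e3 : 1 / (2 * t) * (a₁ ^ 2 + a₂ ^ 2 - 1) +
          t * (2 * a₁ * ((-p * s - a₁ * s) / s ^ 2) + 2 * a₂ * ((-q * s - a₂ * s) / s ^ 2)) =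
          (a₁ ^ 2 + 4 * a₁ * (-p - a₁) + (a₂ ^ 2 + 4 * a₂ * (-q - a₂)) - 1) / (2 * t) := by
        rw [ht]; field_simp; ring
      rw [e3]
      exact div_nonpos_of_nonpos_of_nonneg (by linarith) (by positivity)) hy hY
  simpa only [div_pow, ← add_div] using key

/-- A positive function with `|(1/φ)'| ≤ C / y²`. -/
theorem phi_ode {φ φ' : ℝ → ℝ} {C : ℝ} (hC : 0 < C) (hp : ∀ s, 0 < s → 0 < φ s)
    (hd : ∀ s, 0 < s → HasDerivAt φ (φ' s) s) (hb : ∀ s, 0 < s → |φ' s| ≤ C * (φ s / s) ^ 2) :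
    ∃ l, Tendsto (fun s => (φ s)⁻¹) atTop (𝓝 l) ∧ ∀ s, 0 < s → |(φ s)⁻¹ - l| ≤ C / s := by
  have hq : ∀ s, 0 < s → |(-φ' s / φ s ^ 2)| ≤ C / s ^ 2 := fun s hs => by
    have := hp s hs
    rw [abs_div, abs_neg, abs_of_pos (show 0 < φ s ^ 2 by positivity), div_le_iff₀ (by positivity)]
    refine (hb s hs).trans (le_of_eq ?_)
    field_simp
  have dC : ∀ s : ℝ, 0 < s → HasDerivAt (fun t : ℝ => C / t) (-(C / s ^ 2)) s := fun s hs => by
    refine ((hasDerivAt_const s C).div (hasDerivAt_id s) hs.ne').congr_deriv ?_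
    simp [neg_div]
  have a1 : ∀ {y Y : ℝ}, 0 < y → y ≤ Y → (φ Y)⁻¹ + C / Y ≤ (φ y)⁻¹ + C / y := fun hy hY =>
    phi_anti (g := fun s => (φ s)⁻¹ + C / s) (g' := fun s => -φ' s / φ s ^ 2 + -(C / s ^ 2))
      (fun s hs => ((hd s hs).inv (hp s hs).ne').add (dC s hs))
      (fun s hs => by linarith [(abs_le.1 (hq s hs)).2]) hy hY
  have a2 : ∀ {y Y : ℝ}, 0 < y → y ≤ Y → C / Y - (φ Y)⁻¹ ≤ C / y - (φ y)⁻¹ := fun hy hY =>
    phi_anti (g := fun s => C / s - (φ s)⁻¹) (g' := fun s => -(C / s ^ 2) - -φ' s / φ s ^ 2)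
      (fun s hs => (dC s hs).sub ((hd s hs).inv (hp s hs).ne'))
      (fun s hs => by linarith [(abs_le.1 (hq s hs)).1]) hy hY
  have t0 : Tendsto (fun s : ℝ => C / s) atTop (𝓝 0) := tendsto_const_nhds.div_atTop tendsto_id
  have hanti : Antitone fun s : ℝ => (φ (max s 1))⁻¹ + C / max s 1 := fun s t hst =>
    a1 (lt_max_of_lt_right one_pos) (max_le_max_right 1 hst)
  have hbd : BddBelow (range fun s : ℝ => (φ (max s 1))⁻¹ + C / max s 1) := by
    refine ⟨0, ?_⟩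
    rintro _ ⟨s, rfl⟩
    have h1 : (0 : ℝ) < max s 1 := lt_max_of_lt_right one_pos
    have := hp _ h1
    positivity
  obtain ⟨l, t1⟩ : ∃ l, Tendsto (fun s : ℝ => (φ s)⁻¹ + C / s) atTop (𝓝 l) := by
    refine ⟨_, (tendsto_atTop_ciInf hanti hbd).congr' ?_⟩
    filter_upwards [eventually_ge_atTop (1 : ℝ)] with s hs
    rw [max_eq_left hs]
  have t2 : Tendsto (fun s : ℝ => (φ s)⁻¹) atTop (𝓝 l) := by
    simpa using t1.sub t0
  refine ⟨l, t2, fun s hs => abs_le.2 ⟨?_, ?_⟩⟩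
  · have := le_of_tendsto t1 (by
      filter_upwards [eventually_ge_atTop s] with Y hY
      exact a1 hs hY)
    linarith
  · have := le_of_tendsto (t0.sub t2) (by
      filter_upwards [eventually_ge_atTop s] with Y hY
      exact a2 hs hY)
    linarith

/-- `φ = α η₁ + β η₂ > 0` satisfies `2 i D φ = (D η₁)² + (D η₂)²`, so `|D (1/φ)| ≤ C₀ / y²`,
`1/φ → ℓ` with `|1/φ - ℓ| ≤ C₀ / y`, and `ℓ > 0` because `φ / y → 0`. -/
theorem PHI {u₁ u₂ : ℂ → ℝ} (hD : Data u₁ u₂) {α β : ℝ} (h₁ : Slope u₁ α) (h₂ : Slope u₂ β)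
    (hα : 0 < α) (hβ : 0 < β) :
    ∃ Dd > 0, ∃ Y₀ > 0,
      (∀ x : ℝ, Tendsto (fun y : ℝ => α * u₁ (x + y * I) + β * u₂ (x + y * I) - y) atTop (𝓝 Dd)) ∧
      ∀ x y : ℝ, Y₀ ≤ y → Dd / 2 ≤ α * u₁ (x + y * I) + β * u₂ (x + y * I) - y ∧
        α * u₁ (x + y * I) + β * u₂ (x + y * I) - y ≤ 2 * Dd := by
  have hsq := slope_sq hD h₁ h₂
  obtain ⟨p1, s1, d1⟩ := h₁.eta hD.h₁.posH
  obtain ⟨p2, s2, d2⟩ := h₂.eta hD.h₂.posH
  obtain ⟨η₁, hη₁⟩ : ∃ η : ℂ → ℝ, η = fun z => u₁ z - α * z.im := ⟨_, rfl⟩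
  obtain ⟨η₂, hη₂⟩ : ∃ η : ℂ → ℝ, η = fun z => u₂ z - β * z.im := ⟨_, rfl⟩
  rw [← hη₁] at p1 s1 d1
  rw [← hη₂] at p2 s2 d2
  obtain ⟨φ, hφ⟩ : ∃ φ : ℂ → ℝ, φ = fun z => α * η₁ z + β * η₂ z := ⟨_, rfl⟩
  have hφ' : ∀ z, φ z = α * η₁ z + β * η₂ z := fun z => by rw [hφ]
  have hval : ∀ x y : ℝ, α * u₁ (x + y * I) + β * u₂ (x + y * I) - y = φ (x + y * I) := by
    intro x y
    rw [hφ', hη₁, hη₂]
    simp only [phi_im]
    linear_combination y * hsq
  simp only [hval]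
  have pφ : PosH φ := by
    refine ⟨fun z hz => ?_, fun z hz => ?_⟩
    · rw [hφ]
      exact harm_add (harm_const_mul α (p1.harm z hz)) (harm_const_mul β (p2.harm z hz))
    · have := p1.nonneg z hz
      have := p2.nonneg z hz
      rw [hφ']; positivity
  have hpos : ∀ z : ℂ, 0 < z.im → 0 < φ z := by
    intro z hz
    refine (pφ.nonneg z hz).lt_of_ne fun h0 => ?_
    have hall := pφ.zero_of_zero hz h0.symm
    have hz : ∀ w : ℂ, 0 < w.im → u₁ w = α * |w.im| ∧ u₂ w = β * |w.im| := fun w hw => by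
      have e1 := mul_nonneg hα.le (p1.nonneg w hw)
      have e2 := mul_nonneg hβ.le (p2.nonneg w hw)
      have e3 := hall w hw
      rw [hφ'] at e3
      have e4 : η₁ w = 0 := (mul_eq_zero.1 (show α * η₁ w = 0 by linarith)).resolve_left hα.ne'
      have e5 : η₂ w = 0 := (mul_eq_zero.1 (show β * η₂ w = 0 by linarith)).resolve_left hβ.ne'
      rw [hη₁] at e4
      rw [hη₂] at e5
      rw [abs_of_pos hw]
      exact ⟨sub_eq_zero.1 e4, sub_eq_zero.1 e5⟩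
    have z1 := eq_of_eqOn_upper (g := fun w => α * |w.im|) hD.h₁.cont (by fun_prop) hD.h₁.even
      (fun w => by simp) (fun w hw => (hz w hw).1)
    have z2 := eq_of_eqOn_upper (g := fun w => β * |w.im|) hD.h₂.cont (by fun_prop) hD.h₂.even
      (fun w => by simp) (fun w hw => (hz w hw).2)
    refine Set.Icc_infinite (show (0 : ℝ) < 1 by norm_num) ((hD.fin 0 1).subset fun t ht => ?_)
    exact ⟨ht, by simpa using z1 t, by simpa using z2 t⟩
  obtain ⟨C, hC⟩ : ∃ C : ℝ, C = (1 / α ^ 2 + 1 / β ^ 2) / 2 := ⟨_, rfl⟩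
  have hC0 : 0 < C := by rw [hC]; positivity
  have hgrad : ∀ z : ℂ, 0 < z.im → ‖D φ z‖ ≤ C * (φ z / z.im) ^ 2 := by
    intro z hz
    have e1 : D φ z = α * D η₁ z + β * D η₂ z := by
      rw [hφ, D_add (harm_const_mul α (p1.harm z hz)) (harm_const_mul β (p2.harm z hz)),
        D_const_mul α (p1.harm z hz), D_const_mul β (p2.harm z hz)]
    have e2 := hD.eq z hz
    rw [d1 z hz, d2 z hz] at e2
    have hsq' : (α : ℂ) ^ 2 + (β : ℂ) ^ 2 = 1 := by exact_mod_cast hsq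
    have e3 : 2 * I * D φ z = D η₁ z ^ 2 + D η₂ z ^ 2 := by
      rw [e1]
      linear_combination (-1 : ℂ) * e2 + ((α : ℂ) ^ 2 + (β : ℂ) ^ 2) * I_sq - hsq'
    have e4 : 2 * ‖D φ z‖ ≤ ‖D η₁ z‖ ^ 2 + ‖D η₂ z‖ ^ 2 := by
      have := norm_add_le (D η₁ z ^ 2) (D η₂ z ^ 2)
      rw [← e3, norm_mul, norm_mul, norm_pow, norm_pow, Complex.norm_I, mul_one,
        Complex.norm_two] at this
      exact this
    have n1 := p1.nonneg z hz
    have n2 := p2.nonneg z hz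
    have b1 : ‖D η₁ z‖ ≤ φ z / z.im / α := by
      refine (SP_half p1 hz).trans ?_
      rw [le_div_iff₀ hα, div_mul_eq_mul_div]
      refine div_le_div_of_nonneg_right ?_ hz.le
      rw [hφ']; nlinarith
    have b2 : ‖D η₂ z‖ ≤ φ z / z.im / β := by
      refine (SP_half p2 hz).trans ?_
      rw [le_div_iff₀ hβ, div_mul_eq_mul_div]
      refine div_le_div_of_nonneg_right ?_ hz.le
      rw [hφ']; nlinarith
    have c1 := pow_le_pow_left₀ (norm_nonneg _) b1 2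
    have c2 := pow_le_pow_left₀ (norm_nonneg _) b2 2
    have e5 : C * (φ z / z.im) ^ 2 = ((φ z / z.im / α) ^ 2 + (φ z / z.im / β) ^ 2) / 2 := by
      rw [hC]; field_simp
    rw [e5]
    linarith
  have hode : ∀ x : ℝ, ∃ l, Tendsto (fun s : ℝ => (φ (x + s * I))⁻¹) atTop (𝓝 l) ∧
      ∀ s : ℝ, 0 < s → |(φ (x + s * I))⁻¹ - l| ≤ C / s := fun x =>
    phi_ode (φ := fun s : ℝ => φ (x + s * I)) (φ' := fun s : ℝ => -(D φ (x + s * I)).im) hC0
      (fun s hs => hpos _ (by rw [phi_im]; exact hs))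
      (fun s hs => hasDerivAt_vert (pφ.harm _ (by rw [phi_im]; exact hs)))
      (fun s hs => by
        have := hgrad (x + s * I) (by rw [phi_im]; exact hs)
        rw [phi_im] at this
        rw [abs_neg]
        exact (Complex.abs_im_le_norm _).trans this)
  choose l hl hlb using hode
  have hle : ∀ x x' : ℝ, l x ≤ l x' := fun x x' => by
    have t1 : Tendsto (fun s : ℝ => Real.exp (|x - x'| / s) * (φ (x' + s * I))⁻¹) atTop
        (𝓝 (Real.exp 0 * l x')) :=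
      ((Real.continuous_exp.tendsto 0).comp (tendsto_const_nhds.div_atTop tendsto_id)).mul (hl x')
    rw [Real.exp_zero, one_mul] at t1
    refine le_of_tendsto_of_tendsto (hl x) t1 ?_
    filter_upwards [eventually_gt_atTop (0 : ℝ)] with s hs
    have q1 := hpos (x + s * I) (by rw [phi_im]; exact hs)
    have q2 := hpos (x' + s * I) (by rw [phi_im]; exact hs)
    have q3 := pφ.harnack x x' hs
    rw [← div_eq_mul_inv, inv_eq_one_div, div_le_div_iff₀ q1 q2, one_mul]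
    exact q3
  have heq : ∀ x, l x = l 0 := fun x => le_antisymm (hle _ _) (hle _ _)
  have hl0 : 0 < l 0 := by
    by_contra hn
    rw [not_lt] at hn
    have t1 : Tendsto (fun s : ℝ => φ ((0 : ℝ) + s * I) / s) atTop (𝓝 (α * 0 + β * 0)) := by
      refine (((s1.lim 0).const_mul α).add ((s2.lim 0).const_mul β)).congr fun s => ?_
      rw [hφ']; ring
    rw [mul_zero, mul_zero, add_zero] at t1
    have := ge_of_tendsto t1 (b := 1 / C) (by
      filter_upwards [eventually_gt_atTop (0 : ℝ)] with s hs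
      have q1 := hpos ((0 : ℝ) + s * I) (by rw [phi_im]; exact hs)
      have q2 : (φ ((0 : ℝ) + s * I))⁻¹ ≤ C / s := by linarith [(abs_le.1 (hlb 0 s hs)).2]
      rw [inv_eq_one_div, div_le_div_iff₀ q1 hs] at q2
      rw [div_le_div_iff₀ hC0 hs]
      linarith)
    exact absurd this (not_le.2 (by positivity))
  refine ⟨(l 0)⁻¹, inv_pos.2 hl0, 2 * C / l 0, by positivity, fun x => ?_, fun x y hy => ?_⟩
  · have := (hl x).inv₀ (by rw [heq]; exact hl0.ne')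
    rw [heq] at this
    simpa only [inv_inv] using this
  · have hy0 : 0 < y := lt_of_lt_of_le (by positivity) hy
    have q1 := hpos (x + y * I) (by rw [phi_im]; exact hy0)
    have q2 := abs_le.1 (hlb x y hy0)
    rw [heq] at q2
    have q3 : C / y ≤ l 0 / 2 := by
      rw [div_le_iff₀ hl0] at hy
      rw [div_le_div_iff₀ hy0 two_pos]
      linarith
    have q4 : (φ (x + y * I))⁻¹ ≤ 2 * l 0 := by linarith [q2.2]
    have q5 : l 0 / 2 ≤ (φ (x + y * I))⁻¹ := by linarith [q2.1]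
    constructor
    · have := inv_anti₀ (inv_pos.2 q1) q4
      rw [inv_inv, mul_inv] at this
      linarith
    · have := inv_anti₀ (by positivity) q5
      rw [inv_inv, inv_div] at this
      rw [← div_eq_mul_inv]
      exact this

end MW.AN
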