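import Pool.Agent.P.MP_064970_gt.AN.SM
import Pool.Agent.P.MP_064970_gt.AN.GW
import Pool.Agent.P.MP_064970_gt.AN.Struct
import Pool.Agent.P.MP_064970_gt.AN.Phi

/-! Row AN-Len: uniform scale in the case `α β > 0`. -/

open Complex InnerProductSpace Set Filter Topology Metric MeasureTheory
open scoped Real ComplexConjugate

namespace MW.AN

/-- `η₁` is bounded: above height `Y₀` by `PHI`, below by `SM`. -/
theorem eta_bdd {u₁ u₂ : ℂ → ℝ} (hD : Data u₁ u₂) {α β : ℝ} (h₁ : Slope u₁ α) (h₂ : Slope u₂ β)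
    (hα : 0 < α) (hβ : 0 < β) : ∃ C, Mart C (fun z => α⁻¹ * u₁ z) := by
  obtain ⟨Dd, hDd, Y₀, hY, -, hφ⟩ := PHI hD h₁ h₂ hα hβ
  obtain ⟨C, hC, hSM⟩ := SM
  have hs := slope_sq hD h₁ h₂
  have hH := hD.h₁.const_mul (inv_pos.2 hα)
  have hK : 0 < 2 * Dd / α ^ 2 := by positivity
  have high : ∀ x y : ℝ, Y₀ ≤ y → α⁻¹ * u₁ (x + y * I) ≤ y + 2 * Dd / α ^ 2 := by
    intro x y hy
    have a1 := (hφ x y hy).2
    have a2 := h₂.lo (x + y * I) (by simpa using hY.trans_le hy)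
    have a3 : ((x : ℂ) + y * I).im = y := by simp
    rw [a3] at a2
    have a4 := mul_le_mul_of_nonneg_left a2 hβ.le
    have a5 : α * u₁ (x + y * I) ≤ α ^ 2 * y + 2 * Dd := by
      have : α ^ 2 * y = y - β * (β * y) := by linear_combination y * hs
      linarith
    have a6 := mul_le_mul_of_nonneg_left a5 (by positivity : 0 ≤ (α ^ 2)⁻¹)
    have a7 : (α ^ 2)⁻¹ * (α * u₁ (x + y * I)) = α⁻¹ * u₁ (x + y * I) := by field_simp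
    have a8 : (α ^ 2)⁻¹ * (α ^ 2 * y + 2 * Dd) = y + 2 * Dd / α ^ 2 := by field_simp
    linarith
  refine ⟨2 * Dd / α ^ 2 + C * (Y₀ + 2 * Dd / α ^ 2), hH, fun z => ?_, fun z => ?_⟩
  · rw [le_inv_mul_iff₀ hα]
    exact h₁.abs_lo hD.h₁ z
  · have p : 0 ≤ C * (Y₀ + 2 * Dd / α ^ 2) := by positivity
    rcases le_total Y₀ |z.im| with h | h
    · have a1 := high z.re |z.im| h
      rw [← even_abs hD.h₁.even z] at a1
      linarith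
    · have a1 := hSM _ hH z.re Y₀ hY z (by simpa using hY.le) h
      have a2 := mul_le_mul_of_nonneg_left (high z.re Y₀ le_rfl) hC.le
      linarith [abs_nonneg z.im]

/-- `LOWB` at the point `(a + b) / 2`: `(b - a) / 2 ≤ C`. -/
theorem len_upper {C : ℝ} {u : ℂ → ℝ} (h : Mart C u) {a b : ℝ} (hab : a < b)
    (hG : ∀ t ∈ Ioo a b, 0 < u t) : b - a ≤ 2 * C := by
  have h1 := LOWB h.toHalf one_pos (fun z => by simpa using h.lo z) hab hG (((a + b) / 2 : ℝ) : ℂ)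
  have h2 := h.hi (((a + b) / 2 : ℝ) : ℂ)
  rw [wI_real hab, show ((a + b) / 2 - a) * (b - (a + b) / 2) = ((b - a) / 2) ^ 2 by ring,
    Real.sqrt_sq (by linarith)] at h1
  rw [ofReal_im, abs_zero] at h2
  linarith

theorem len_mvt {u : ℂ → ℝ} (h : Half u) {b b' l K : ℝ} (hb : b < b') (hl : 0 < l) (hK : 0 ≤ K)
    (h0 : u b = 0) (h0' : u b' = 0) (hp : ∀ t ∈ Ioo b b', 0 < u t)
    (hle : u ((b + l : ℝ) : ℂ) ≤ K * l) :
    ∃ x ∈ Ioo b (b + l), 0 < u x ∧ |(D u x).re| ≤ K := by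
  have hc : Continuous fun t : ℝ => u t := h.cont.comp continuous_ofReal
  have key : ∀ d, b < d → d ≤ b' → ∃ x ∈ Ioo b d, 0 < u x ∧ (D u x).re = u d / (d - b) := by
    intro d h1 h2
    obtain ⟨x, hx, e⟩ := exists_hasDerivAt_eq_slope (fun t : ℝ => u t) (fun t => (D u t).re) h1
      hc.continuousOn fun t ht => hasDerivAt_real (h.harm _ (hp t ⟨ht.1, ht.2.trans_le h2⟩))
    exact ⟨x, hx, hp x ⟨hx.1, hx.2.trans_le h2⟩, by rw [e, h0, sub_zero]⟩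
  rcases le_total b' (b + l) with h1 | h1
  · obtain ⟨x, hx, h2, h3⟩ := key b' hb le_rfl
    exact ⟨x, ⟨hx.1, hx.2.trans_le h1⟩, h2, by rwa [h3, h0', zero_div, abs_zero]⟩
  · obtain ⟨x, hx, h2, h3⟩ := key (b + l) (by linarith) h1
    refine ⟨x, hx, h2, ?_⟩
    rwa [h3, add_sub_cancel_left, abs_of_nonneg (div_nonneg (h.nonneg _) hl.le), div_le_iff₀ hl]

theorem len_Q {u₁ u₂ : ℂ → ℝ} (hD : Data u₁ u₂) :
    ∃ K > 0, ∀ a b b' : ℝ, a < b → b < b' → u₁ a = 0 → u₁ b = 0 → (∀ t ∈ Ioo a b, 0 < u₁ t) →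
      u₂ b = 0 → u₂ b' = 0 → (∀ t ∈ Ioo b b', 0 < u₂ t) → ∃ c : ℝ,
        (u₁ (c + (b - a : ℝ) * I) ^ 2 + u₂ (c + (b - a : ℝ) * I) ^ 2) / (b - a) ^ 2 - 1 ≤ K := by
  obtain ⟨C, hC, hSM⟩ := SM
  refine ⟨(Real.exp 2 * √(1 + (2 * C) ^ 2)) ^ 2, by positivity,
    fun a b b' hab hb a1 a2 a3 b1 b2 b3 => ?_⟩
  obtain ⟨c, hc, hm⟩ := EDGE_max hD.symm hab a1 a2 a3
  obtain ⟨l, hl⟩ : ∃ l, l = b - a := ⟨_, rfl⟩
  have l0 : 0 < l := by linarith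
  rw [← hl]
  have c1 := hc.1
  have c2 := hc.2
  have s1 := hSM u₂ hD.h₂ c (2 * l) (by positivity) ((b + l : ℝ) : ℂ)
    (by rw [ofReal_re, abs_le]; constructor <;> linarith) (by simpa using l0.le)
  have s2 := mul_le_mul_of_nonneg_left (hm (2 * l) (by positivity)) hC.le
  obtain ⟨x, hx, x1, x2⟩ := len_mvt hD.h₂ hb l0 (by positivity : 0 ≤ 2 * C) b1 b2 b3
    (by linarith)
  have e1 := EDGE hD x1 l0
  have e2 : √(1 + (D u₂ x).re ^ 2) ≤ √(1 + (2 * C) ^ 2) :=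
    Real.sqrt_le_sqrt (by linarith [sq_le_sq' (abs_le.1 x2).1 (abs_le.1 x2).2])
  have e3 := hD.h₁.posH.harnack x c l0
  have e4 : Real.exp (|x - c| / l) ≤ Real.exp 2 := by
    refine Real.exp_le_exp.2 ((div_le_iff₀ l0).2 (abs_le.2 ⟨?_, ?_⟩)) <;> linarith [hx.1, hx.2]
  have e5 : u₁ (c + l * I) ≤ Real.exp 2 * √(1 + (2 * C) ^ 2) * l := by
    have := mul_le_mul e4 (e1.trans (mul_le_mul_of_nonneg_left e2 l0.le)) (hD.h₁.nonneg _)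
      (Real.exp_pos _).le
    linarith
  have e6 := pow_le_pow_left₀ (hD.h₁.nonneg _) e5 2
  have e7 := pow_le_pow_left₀ (hD.h₂.nonneg _) (hm l l0) 2
  refine ⟨c, ?_⟩
  rw [sub_le_iff_le_add, div_le_iff₀ (by positivity)]
  rw [mul_pow] at e6
  linarith

/-- `EDGE_max`, the mean value theorem on `[b, min b' (b + ℓ)]` with `SM`, `EDGE`, Harnack,
against `LBQ` and `PHI`. -/
theorem len_lower {u₁ u₂ : ℂ → ℝ} (hD : Data u₁ u₂) {α β : ℝ} (h₁ : Slope u₁ α)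
    (h₂ : Slope u₂ β) (hα : 0 < α) (hβ : 0 < β) :
    ∃ m > 0, ∀ a b b' : ℝ, a < b → b < b' → u₁ a = 0 → u₁ b = 0 → (∀ t ∈ Ioo a b, 0 < u₁ t) →
      u₂ b = 0 → u₂ b' = 0 → (∀ t ∈ Ioo b b', 0 < u₂ t) → m ≤ b - a := by
  obtain ⟨Dd, hDd, Y₀, hY, -, hφ⟩ := PHI hD h₁ h₂ hα hβ
  obtain ⟨K, hK, hQ⟩ := len_Q hD
  have hs := slope_sq hD h₁ h₂
  refine ⟨min Y₀ ((√Y₀ * (Dd / Y₀) / K) ^ 2), by positivity,
    fun a b b' hab hb a1 a2 a3 b1 b2 b3 => ?_⟩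
  obtain ⟨c, hc⟩ := hQ a b b' hab hb a1 a2 a3 b1 b2 b3
  have l0 : 0 < b - a := by linarith
  rcases le_total Y₀ (b - a) with h | h
  · exact (min_le_left _ _).trans h
  refine (min_le_right _ _).trans ?_
  have q1 := LBQ hD c l0 h
  have q2 := (hφ c Y₀ le_rfl).1
  obtain ⟨p, hp⟩ : ∃ p, p = u₁ (c + Y₀ * I) := ⟨_, rfl⟩
  obtain ⟨q, hq⟩ : ∃ q, q = u₂ (c + Y₀ * I) := ⟨_, rfl⟩
  rw [← hp, ← hq] at q1 q2
  have q3 : (α * p + β * q) ^ 2 ≤ p ^ 2 + q ^ 2 := by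
    have : p ^ 2 + q ^ 2 = (α * p + β * q) ^ 2 + (β * p - α * q) ^ 2 := by
      linear_combination (-(p ^ 2 + q ^ 2)) * hs
    linarith [sq_nonneg (β * p - α * q)]
  have q4 : (Y₀ + Dd / 2) ^ 2 ≤ (α * p + β * q) ^ 2 :=
    pow_le_pow_left₀ (by positivity) (by linarith) 2
  have q5 : Dd / Y₀ ≤ (p ^ 2 + q ^ 2) / Y₀ ^ 2 - 1 := by
    rw [le_sub_iff_add_le, le_div_iff₀ (by positivity)]
    have : (Dd / Y₀ + 1) * Y₀ ^ 2 = Dd * Y₀ + Y₀ ^ 2 := by field_simp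
    nlinarith [sq_nonneg Dd]
  have q6 := mul_le_mul_of_nonneg_left q5 (Real.sqrt_nonneg Y₀)
  have q7 := mul_le_mul_of_nonneg_left hc (Real.sqrt_nonneg (b - a))
  have q8 : √Y₀ * (Dd / Y₀) / K ≤ √(b - a) := (div_le_iff₀ hK).2 (by linarith)
  have q9 := pow_le_pow_left₀ (by positivity) q8 2
  rwa [Real.sq_sqrt l0.le] at q9

theorem len_even {u₁ u₂ : ℂ → ℝ} {e : ℤ → ℝ} (h : Enum e u₁ u₂) {m : ℝ}
    (hm : ∀ a b b' : ℝ, a < b → b < b' → u₁ a = 0 → u₁ b = 0 → (∀ t ∈ Ioo a b, 0 < u₁ t) →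
      u₂ b = 0 → u₂ b' = 0 → (∀ t ∈ Ioo b b', 0 < u₂ t) → m ≤ b - a) (k : ℤ) :
    m ≤ e (2 * k + 1) - e (2 * k) := by
  refine hm _ _ (e (2 * k + 2)) (h.mono (by omega)) (h.mono (by omega)) ?_ ?_ (h.pos₁ k) ?_ ?_
    (h.pos₂ k)
  · exact h.zero₁ (k - 1) _ ⟨h.mono.monotone (by omega), h.mono.monotone (by omega)⟩
  · exact h.zero₁ k _ ⟨le_rfl, h.mono.monotone (by omega)⟩
  · exact h.zero₂ k _ ⟨h.mono.monotone (by omega), le_rfl⟩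
  · exact h.zero₂ (k + 1) _ ⟨h.mono.monotone (by omega), h.mono.monotone (by omega)⟩

theorem LEN {u₁ u₂ : ℂ → ℝ} (hD : Data u₁ u₂) {α β : ℝ} (h₁ : Slope u₁ α) (h₂ : Slope u₂ β)
    (hα : 0 < α) (hβ : 0 < β) :
    ∃ (C m M : ℝ) (e : ℤ → ℝ), 0 < m ∧ Chain e m M ∧
      Pair α β C e (fun z => α⁻¹ * u₁ z) (fun z => β⁻¹ * u₂ z) := by
  obtain ⟨C₁, M₁⟩ := eta_bdd hD h₁ h₂ hα hβ
  obtain ⟨C₂, M₂⟩ := eta_bdd hD.symm h₂ h₁ hβ hα
  obtain ⟨m₁, p₁, l₁⟩ := len_lower hD h₁ h₂ hα hβ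
  obtain ⟨m₂, p₂, l₂⟩ := len_lower hD.symm h₂ h₁ hβ hα
  obtain ⟨C, C0, N₁, N₂⟩ : ∃ C, 0 ≤ C ∧ Mart C (fun z => α⁻¹ * u₁ z) ∧
      Mart C (fun z => β⁻¹ * u₂ z) :=
    ⟨max 0 (max C₁ C₂), le_max_left _ _, M₁.mono ((le_max_left _ _).trans (le_max_right _ _)),
      M₂.mono ((le_max_right _ _).trans (le_max_right _ _))⟩
  have iα := inv_pos.2 hα
  have iβ := inv_pos.2 hβ
  have up₁ : ∀ a b : ℝ, a < b → (∀ t ∈ Ioo a b, 0 < u₁ t) → b - a ≤ 2 * C :=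
    fun a b hab h => len_upper N₁ hab fun t ht => mul_pos iα (h t ht)
  have up₂ : ∀ a b : ℝ, a < b → (∀ t ∈ Ioo a b, 0 < u₂ t) → b - a ≤ 2 * C :=
    fun a b hab h => len_upper N₂ hab fun t ht => mul_pos iβ (h t ht)
  obtain ⟨e, he⟩ := ENUM hD (Lb := 2 * C + 1) fun a => by
    by_contra hn
    have h1 : ∀ t ∈ Icc a (a + (2 * C + 1)), 0 < u₁ t ∨ 0 < u₂ t := fun t ht => by
      by_contra h2
      rw [not_or, not_lt, not_lt] at h2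
      exact hn ⟨t, ht, h2.1.antisymm (hD.h₁.nonneg _), h2.2.antisymm (hD.h₂.nonneg _)⟩
    rcases hD.type_const isPreconnected_Icc h1 with h2 | h2
    · linarith [up₁ a (a + (2 * C + 1)) (by linarith) fun t ht => h2 t (Ioo_subset_Icc_self ht)]
    · linarith [up₂ a (a + (2 * C + 1)) (by linarith) fun t ht => h2 t (Ioo_subset_Icc_self ht)]
  refine ⟨C, min m₁ m₂, 2 * C, e, lt_min p₁ p₂, fun i => ?_, hα, hβ, slope_sq hD h₁ h₂, N₁, N₂,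
    ⟨he.mono, fun k t ht => mul_pos iα (he.pos₁ k t ht), fun k t ht => mul_pos iβ (he.pos₂ k t ht),
      fun k t ht => by rw [he.zero₁ k t ht, mul_zero],
      fun k t ht => by rw [he.zero₂ k t ht, mul_zero], he.cover⟩, fun z hz => ?_⟩
  · obtain ⟨k, rfl | rfl⟩ := Int.even_or_odd' i
    · exact ⟨(min_le_left _ _).trans (len_even he l₁ k),
        up₁ _ _ (he.mono (by omega)) (he.pos₁ k)⟩
    · refine ⟨(min_le_right _ _).trans (len_even he.swap l₂ k), up₂ _ _ (he.mono (by omega)) ?_⟩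
      rw [show 2 * k + 1 + 1 = 2 * k + 2 by ring]
      exact he.pos₂ k
  · have a1 : (α : ℂ) ≠ 0 := ofReal_ne_zero.2 hα.ne'
    have a2 : (β : ℂ) ≠ 0 := ofReal_ne_zero.2 hβ.ne'
    rw [D_const_mul _ (hD.h₁.harm z (hD.h₁.pos z hz)), D_const_mul _ (hD.h₂.harm z (hD.h₂.pos z hz)),
      ← hD.eq z hz]
    push_cast
    field_simp

end MW.AN
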