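import Pool.Agent.P.MP_064970_gt.AN.Defs

/-! Row AN-Seq: the Liouville argument for sequences. With `F N = ∑_{|i| < N} d i ²`: choosing the
two ends of the window in `[N, 2N]` by averaging gives `F N ≤ C N^{-1/8} √(F (3N))`; start from
`F N ≤ C N` and iterate three times (exponents `1, 3/8, 1/16, -3/32`). -/

open Finset

namespace MW.AN

/-- The one-sided weight. -/
noncomputable def Seq_u (t : ℤ) : ℝ := if 0 ≤ t then ((t : ℝ) + 1) ^ (-(3 / 4 : ℝ)) else 0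

theorem Seq_u_nonneg (t : ℤ) : 0 ≤ Seq_u t := by
  unfold Seq_u
  split_ifs with h
  · have : (0 : ℝ) ≤ t := by exact_mod_cast h
    positivity
  · exact le_rfl

theorem Seq_reindex (a : ℤ) (m : ℕ) (f : ℤ → ℝ) :
    ∑ i ∈ range m, f (a + i) = ∑ j ∈ Ico a (a + m), f j := by
  refine sum_nbij' (fun i => a + i) (fun j => (j - a).toNat) ?_ ?_ ?_ ?_ ?_
  · intro i hi
    simp only [mem_range, mem_Ico] at hi ⊢
    omega
  · intro i hi
    simp only [mem_range, mem_Ico] at hi ⊢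
    omega
  · intro i _
    simp
  · intro i hi
    simp only [mem_Ico] at hi ⊢
    omega
  · intro i _
    rfl

theorem Seq_sum_pow (N : ℕ) :
    ∑ p ∈ range N, ((p : ℝ) + 1) ^ (-(3 / 4 : ℝ)) ≤ 4 * (N : ℝ) ^ (1 / 4 : ℝ) := by
  induction N with
  | zero => simp
  | succ N ih =>
    rw [sum_range_succ]
    push_cast
    set x : ℝ := (N : ℝ) ^ (1 / 4 : ℝ) with hx
    set y : ℝ := ((N : ℝ) + 1) ^ (1 / 4 : ℝ) with hy
    have x0 : 0 ≤ x := by positivity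
    have y0 : 0 < y := by positivity
    have xy : x ≤ y := Real.rpow_le_rpow (by positivity) (by linarith) (by norm_num)
    have x4 : x ^ 4 = N := by
      rw [hx, ← Real.rpow_natCast, ← Real.rpow_mul (by positivity)]
      norm_num
    have y4 : y ^ 4 = N + 1 := by
      rw [hy, ← Real.rpow_natCast, ← Real.rpow_mul (by positivity)]
      norm_num
    have y3 : ((N : ℝ) + 1) ^ (-(3 / 4 : ℝ)) = 1 / y ^ 3 := by
      rw [hy, ← Real.rpow_natCast, ← Real.rpow_mul (by positivity),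
        Real.rpow_neg (by positivity), one_div]
      norm_num
    have k : 1 / y ^ 3 ≤ 4 * (y - x) := by
      rw [div_le_iff₀ (by positivity)]
      have e : (1 : ℝ) = (y - x) * (y ^ 3 + y ^ 2 * x + y * x ^ 2 + x ^ 3) := by
        linear_combination x4 - y4
      have b1 : y ^ 2 * x ≤ y ^ 2 * y := by gcongr
      have b2 : y * x ^ 2 ≤ y * y ^ 2 := by gcongr
      have b3 : x ^ 3 ≤ y ^ 3 := by gcongr
      have := mul_le_mul_of_nonneg_left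
        (show y ^ 3 + y ^ 2 * x + y * x ^ 2 + x ^ 3 ≤ 4 * y ^ 3 by linarith) (sub_nonneg.2 xy)
      linarith
    linarith

theorem Seq_sum_u (N : ℕ) (c : ℤ) :
    ∑ p ∈ range N, Seq_u (c + 2 * p) ≤ ∑ p ∈ range N, ((p : ℝ) + 1) ^ (-(3 / 4 : ℝ)) := by
  induction N generalizing c with
  | zero => simp
  | succ N ih =>
    by_cases hc : 0 ≤ c
    · refine sum_le_sum fun p _ => ?_
      have c0 : (0 : ℝ) ≤ c := by exact_mod_cast hc
      have p0 : (0 : ℝ) ≤ p := Nat.cast_nonneg p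
      rw [Seq_u, if_pos (by omega)]
      push_cast
      exact Real.rpow_le_rpow_of_nonpos (by linarith) (by linarith) (by norm_num)
    · rw [sum_range_succ', sum_range_succ]
      have e : Seq_u (c + 2 * (0 : ℕ)) = 0 := if_neg (by omega)
      have h1 := ih (c + 2)
      have h2 : ∑ p ∈ range N, Seq_u (c + 2 * (p + 1 : ℕ)) =
          ∑ p ∈ range N, Seq_u (c + 2 + 2 * p) :=
        sum_congr rfl fun p _ => congrArg Seq_u (by push_cast; ring)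
      rw [h2, e, add_zero]
      exact le_add_of_le_of_nonneg h1 (by positivity)

theorem Seq_step {G : ℕ → ℝ} {C D α : ℝ} (hC : 0 ≤ C) (hD : 0 ≤ D)
    (h : ∀ N : ℕ, 1 ≤ N → G N ≤ C * (N : ℝ) ^ (-(1 / 8 : ℝ)) * √(G (2 * N)))
    (hG : ∀ N : ℕ, 1 ≤ N → G N ≤ D * (N : ℝ) ^ α) :
    ∃ D', 0 ≤ D' ∧ ∀ N : ℕ, 1 ≤ N → G N ≤ D' * (N : ℝ) ^ (α / 2 - 1 / 8) := by
  refine ⟨C * √(D * 2 ^ α), by positivity, fun N hN => (h N hN).trans ?_⟩
  have N0 : (0 : ℝ) < N := by exact_mod_cast hN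
  have h1 := Real.sqrt_le_sqrt (hG (2 * N) (by omega))
  have e : √(D * ((2 * N : ℕ) : ℝ) ^ α) = √(D * 2 ^ α) * (N : ℝ) ^ (α / 2) := by
    push_cast
    rw [Real.mul_rpow zero_le_two N0.le, ← mul_assoc, Real.sqrt_mul (by positivity),
      Real.sqrt_eq_rpow ((N : ℝ) ^ α), ← Real.rpow_mul N0.le, mul_one_div]
  rw [e] at h1
  refine (mul_le_mul_of_nonneg_left h1 (by positivity)).trans (le_of_eq ?_)
  rw [sub_eq_add_neg, Real.rpow_add N0]
  ring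

/-- One window. -/
theorem Seq_window (d : ℤ → ℝ) {K : ℝ}
    (h : ∀ (A : ℤ) (n : ℕ), 2 ≤ n →
      ∑ i ∈ range (2 * n - 1), d (2 * A + i) ^ 2 ≤ K * (n : ℝ) ^ (1 / 8 : ℝ) *
        ∑ i ∈ range (2 * n - 1),
          |d (2 * A + i)| * (((min i (2 * n - 2 - i) : ℕ) : ℝ) + 1) ^ (-(3 / 4 : ℝ)))
    {N p : ℕ} (hp : p < N) :
    ∑ j ∈ Icc (-(2 * N : ℤ)) (2 * N), d j ^ 2 ≤ |K| * (4 * N : ℝ) ^ (1 / 8 : ℝ) *
      ∑ j ∈ Icc (-(4 * N : ℤ)) (4 * N),
        |d j| * (Seq_u (j + 2 * N + 2 * p) + Seq_u (2 * N - j + 2 * p)) := by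
  have h1 := h (-(N + p : ℤ)) (2 * N + 2 * p + 1) (by omega)
  have h2 : ∑ i ∈ range (2 * (2 * N + 2 * p + 1) - 1), |d (2 * -(N + p : ℤ) + i)| *
      (((min i (2 * (2 * N + 2 * p + 1) - 2 - i) : ℕ) : ℝ) + 1) ^ (-(3 / 4 : ℝ)) ≤
      ∑ j ∈ Icc (-(4 * N : ℤ)) (4 * N),
        |d j| * (Seq_u (j + 2 * N + 2 * p) + Seq_u (2 * N - j + 2 * p)) := by
    refine le_trans ?_ (sum_le_sum_of_subset_of_nonneg (s := Ico (2 * -(N + p : ℤ))
      (2 * -(N + p : ℤ) + (2 * (2 * N + 2 * p + 1) - 1 : ℕ))) (fun j hj => ?_) fun j _ _ =>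
        mul_nonneg (abs_nonneg _) (add_nonneg (Seq_u_nonneg _) (Seq_u_nonneg _)))
    · rw [← Seq_reindex _ _ fun j => |d j| *
        (Seq_u (j + 2 * N + 2 * p) + Seq_u (2 * N - j + 2 * p))]
      refine sum_le_sum fun i hi => mul_le_mul_of_nonneg_left ?_ (abs_nonneg _)
      have hi' := mem_range.1 hi
      rcases le_total i (2 * (2 * N + 2 * p + 1) - 2 - i) with h3 | h3
      · rw [min_eq_left h3]
        refine le_add_of_le_of_nonneg (le_of_eq ?_) (Seq_u_nonneg _)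
        rw [show 2 * -(N + p : ℤ) + i + 2 * N + 2 * p = (i : ℤ) by ring, Seq_u,
          if_pos (Int.natCast_nonneg _), Int.cast_natCast]
      · rw [min_eq_right h3]
        refine le_add_of_nonneg_of_le (Seq_u_nonneg _) (le_of_eq ?_)
        rw [show 2 * N - (2 * -(N + p : ℤ) + i) + 2 * p =
          ((2 * (2 * N + 2 * p + 1) - 2 - i : ℕ) : ℤ) by omega, Seq_u,
          if_pos (Int.natCast_nonneg _), Int.cast_natCast]
    · simp only [mem_Ico, mem_Icc] at hj ⊢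
      omega
  have h3 : ∑ j ∈ Icc (-(2 * N : ℤ)) (2 * N), d j ^ 2 ≤
      ∑ i ∈ range (2 * (2 * N + 2 * p + 1) - 1), d (2 * -(N + p : ℤ) + i) ^ 2 := by
    rw [Seq_reindex _ _ fun j => d j ^ 2]
    refine sum_le_sum_of_subset_of_nonneg (fun j hj => ?_) fun j _ _ => sq_nonneg _
    simp only [mem_Ico, mem_Icc] at hj ⊢
    omega
  refine h3.trans (h1.trans (mul_le_mul (mul_le_mul (le_abs_self K) ?_ (by positivity)
    (abs_nonneg K)) h2 (sum_nonneg fun i _ => by positivity) (by positivity)))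
  refine Real.rpow_le_rpow (by positivity) ?_ (by norm_num)
  exact_mod_cast (by omega : 2 * N + 2 * p + 1 ≤ 4 * N)

theorem Seq_card (N : ℕ) : ((Icc (-(N : ℤ)) N).card : ℝ) = 2 * N + 1 := by
  rw [Int.card_Icc, show (N : ℤ) + 1 - -N = ((2 * N + 1 : ℕ) : ℤ) by push_cast; ring,
    Int.toNat_natCast]
  push_cast
  ring

/-- The averaged inequality. -/
theorem Seq_avg (d : ℤ → ℝ) {K : ℝ}
    (h : ∀ (A : ℤ) (n : ℕ), 2 ≤ n →
      ∑ i ∈ range (2 * n - 1), d (2 * A + i) ^ 2 ≤ K * (n : ℝ) ^ (1 / 8 : ℝ) *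
        ∑ i ∈ range (2 * n - 1),
          |d (2 * A + i)| * (((min i (2 * n - 2 - i) : ℕ) : ℝ) + 1) ^ (-(3 / 4 : ℝ)))
    {N : ℕ} (hN : 1 ≤ N) :
    ∑ j ∈ Icc (-(2 * N : ℤ)) (2 * N), d j ^ 2 ≤ 24 * |K| * 4 ^ (1 / 8 : ℝ) *
      (N : ℝ) ^ (-(1 / 8 : ℝ)) * √(∑ j ∈ Icc (-(4 * N : ℤ)) (4 * N), d j ^ 2) := by
  have N1 : (1 : ℝ) ≤ N := by exact_mod_cast hN
  have N0 : (0 : ℝ) < N := by linarith
  have h1 := sum_le_sum fun p (hp : p ∈ range N) => Seq_window d h (mem_range.1 hp)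
  rw [sum_const, card_range, nsmul_eq_mul, ← mul_sum, sum_comm] at h1
  have h2 : ∑ j ∈ Icc (-(4 * N : ℤ)) (4 * N), ∑ p ∈ range N,
      |d j| * (Seq_u (j + 2 * N + 2 * p) + Seq_u (2 * N - j + 2 * p)) ≤
      (∑ j ∈ Icc (-(4 * N : ℤ)) (4 * N), |d j| * 1) * (8 * (N : ℝ) ^ (1 / 4 : ℝ)) := by
    rw [sum_mul]
    refine sum_le_sum fun j _ => ?_
    rw [← mul_sum, mul_one, sum_add_distrib]
    refine mul_le_mul_of_nonneg_left ?_ (abs_nonneg _)
    linarith [Seq_sum_u N (j + 2 * N), Seq_sum_u N (2 * N - j), Seq_sum_pow N]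
  have h3 := Real.sum_mul_le_sqrt_mul_sqrt (Icc (-(4 * N : ℤ)) (4 * N)) (fun j => |d j|)
    fun _ => 1
  have h4 : √(∑ _j ∈ Icc (-(4 * N : ℤ)) (4 * N), (1 : ℝ) ^ 2) ≤ 3 * (N : ℝ) ^ (1 / 2 : ℝ) := by
    have c := Seq_card (4 * N)
    push_cast at c
    rw [sum_const, nsmul_eq_mul, c, ← Real.sqrt_eq_rpow, Real.sqrt_le_left (by positivity),
      mul_pow, Real.sq_sqrt N0.le]
    linarith
  simp only [sq_abs] at h3
  have h5 := h1.trans (mul_le_mul_of_nonneg_left (h2.trans (mul_le_mul_of_nonneg_right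
    (h3.trans (mul_le_mul_of_nonneg_left h4 (Real.sqrt_nonneg _))) (by positivity)))
    (by positivity))
  refine le_of_mul_le_mul_left (h5.trans (le_of_eq ?_)) N0
  have e : (N : ℝ) * (N : ℝ) ^ (-(1 / 8 : ℝ)) =
      (N : ℝ) ^ (1 / 8 : ℝ) * (N : ℝ) ^ (1 / 2 : ℝ) * (N : ℝ) ^ (1 / 4 : ℝ) := by
    rw [← Real.rpow_add N0, ← Real.rpow_add N0, ← Real.rpow_one_add' N0.le (by norm_num)]
    norm_num
  rw [Real.mul_rpow (by norm_num) N0.le]
  linear_combination (-24 * |K| * 4 ^ (1 / 8 : ℝ) *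
    √(∑ j ∈ Icc (-(4 * N : ℤ)) (4 * N), d j ^ 2)) * e

theorem SEQ (d : ℤ → ℝ) (M K : ℝ) (hb : ∀ i, |d i| ≤ M)
    (h : ∀ (A : ℤ) (n : ℕ), 2 ≤ n →
      ∑ i ∈ range (2 * n - 1), d (2 * A + i) ^ 2 ≤ K * (n : ℝ) ^ (1 / 8 : ℝ) *
        ∑ i ∈ range (2 * n - 1),
          |d (2 * A + i)| * (((min i (2 * n - 2 - i) : ℕ) : ℝ) + 1) ^ (-(3 / 4 : ℝ))) :
    ∀ i, d i = 0 := by
  set G : ℕ → ℝ := fun N => ∑ j ∈ Icc (-(2 * N : ℤ)) (2 * N), d j ^ 2 with hG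
  have C0 : 0 ≤ 24 * |K| * 4 ^ (1 / 8 : ℝ) := by positivity
  have h1 : ∀ N : ℕ, 1 ≤ N →
      G N ≤ 24 * |K| * 4 ^ (1 / 8 : ℝ) * (N : ℝ) ^ (-(1 / 8 : ℝ)) * √(G (2 * N)) := fun N hN => by
    have := Seq_avg d h hN
    rwa [show (4 * N : ℤ) = 2 * (2 * N : ℕ) by push_cast; ring] at this
  have h2 : ∀ N : ℕ, 1 ≤ N → G N ≤ 5 * M ^ 2 * (N : ℝ) ^ (1 : ℝ) := fun N hN => by
    have N1 : (1 : ℝ) ≤ N := by exact_mod_cast hN
    have c := Seq_card (2 * N)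
    push_cast at c
    have := sum_le_card_nsmul (Icc (-(2 * N : ℤ)) (2 * N)) (fun j => d j ^ 2) (M ^ 2)
      fun j _ => by
        rw [← sq_abs]
        exact pow_le_pow_left₀ (abs_nonneg _) (hb j) 2
    rw [nsmul_eq_mul, c] at this
    rw [Real.rpow_one]
    refine this.trans ?_
    nlinarith [sq_nonneg M]
  obtain ⟨D1, p1, h3⟩ := Seq_step C0 (by positivity) h1 h2
  obtain ⟨D2, p2, h4⟩ := Seq_step C0 p1 h1 h3
  obtain ⟨D3, -, h5⟩ := Seq_step C0 p2 h1 h4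
  intro i
  have lim : Filter.Tendsto (fun N : ℕ => D3 * (N : ℝ) ^ (-(3 / 32 : ℝ))) Filter.atTop
      (nhds (D3 * 0)) :=
    ((tendsto_rpow_neg_atTop (by norm_num)).comp tendsto_natCast_atTop_atTop).const_mul D3
  have h6 : d i ^ 2 ≤ D3 * 0 := by
    refine ge_of_tendsto lim ?_
    filter_upwards [Filter.eventually_ge_atTop (i.natAbs + 1)] with N hN
    have h7 := h5 N (by omega)
    rw [show ((1 / 2 - 1 / 8) / 2 - 1 / 8) / 2 - 1 / 8 = -(3 / 32 : ℝ) by norm_num] at h7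
    refine le_trans (single_le_sum (f := fun j => d j ^ 2) (fun j _ => sq_nonneg _) ?_) h7
    rw [mem_Icc]
    omega
  rw [mul_zero] at h6
  exact pow_eq_zero_iff two_ne_zero |>.1 (le_antisymm h6 (sq_nonneg _))

end MW.AN
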