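import Pool.Agent.P.MP_064970_gt.AN.Mom
import Pool.Agent.P.MP_064970_gt.AN.Cvx
import Pool.Agent.P.MP_064970_gt.AN.Seq

/-! Row AN-Per: the lengths are 2-periodic. Compare the windows `A` and `A + 1`;
`d i = (e (i+3) - e (i+2)) - (e (i+1) - e i)`. `CVX` for `U₁` controls the even `d`, `CVX` for
`U₂` (one gap less, momentum zero on the two end segments by `∑ rr = 0`) the odd `d`. -/

open Complex InnerProductSpace Filter Topology Metric MeasureTheory Finset Polynomial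
open scoped Real ComplexConjugate

namespace MW.AN

theorem Per_len {e : ℤ → ℝ} {m M : ℝ} (hc : Chain e m M) (B : ℤ) (n : ℕ) :
    Len n (fun j => e (B + j)) m M := by
  intro i _
  simp only [Nat.cast_add, Nat.cast_one, ← add_assoc]
  exact hc (B + i)

theorem Per_mono {e : ℤ → ℝ} (he : StrictMono e) (B : ℤ) (n : ℕ) :
    Mono n (fun j => e (B + j)) := fun i j hij _ => he (by omega)

theorem Per_sx {e : ℤ → ℝ} (he : StrictMono e) (B p : ℤ) (N q : ℕ) (x : ℕ → ℝ) (hq : q ≤ 2 * N)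
    (hp : p + 1 = B + q) :
    sx N (fun j => e (B + j)) x ((e p + e (p + 1)) / 2)
      = π * ∑ j ∈ range q, rr N (fun j => e (B + j)) x j := by
  unfold sx
  refine congrArg (π * ·) (Finset.sum_congr ?_ fun _ _ => rfl)
  have h0 : e p < e (p + 1) := he (by omega)
  ext j
  simp only [mem_filter, mem_range]
  constructor
  · rintro ⟨-, h2⟩
    by_contra hn
    have h3 : e (p + 1) ≤ e (B + j) := he.monotone (by omega)
    linarith
  · intro hj
    have h3 : e (B + j) ≤ e p := he.monotone (by omega)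
    exact ⟨by omega, by linarith⟩

theorem Per_split (f : ℕ → ℝ) (p : ℕ) :
    ∑ i ∈ range (2 * p + 1), f i
      = ∑ k ∈ range (p + 1), f (2 * k) + ∑ k ∈ range p, f (2 * k + 1) := by
  induction p with
  | zero => simp
  | succ p ih =>
    have h1 : 2 * (p + 1) + 1 = 2 * p + 1 + 1 + 1 := by ring
    have h2 : 2 * p + 1 + 1 = 2 * (p + 1) := by ring
    rw [h1, sum_range_succ, sum_range_succ, ih, sum_range_succ (fun k => f (2 * k)) (p + 1),
      sum_range_succ (fun k => f (2 * k + 1)) p, h2]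
    ring

/-- `CVX` for two windows of the same sequence, shifted by two. -/
theorem Per_cvx {e : ℤ → ℝ} {m M c : ℝ} (hc : Chain e m M) (he : StrictMono e)
    (hcv : ∀ (n : ℕ) (e e' x x' : ℕ → ℝ),
      Len n e m M → Len n e' m M → Crit n e x → Crit n e' x' →
      c * ∑ k ∈ range n, ((e' (2 * k + 1) - e' (2 * k)) - (e (2 * k + 1) - e (2 * k))) ^ 2
        ≤ (n : ℝ) ^ (1 / 8 : ℝ) * ∑ i ∈ range (2 * n - 1),
            (ss n e' x' i - ss n e x i) * ((e' (i + 1) - e' i) - (e (i + 1) - e i)))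
    (d : ℤ → ℝ) (hd : ∀ i, d i = (e (i + 3) - e (i + 2)) - (e (i + 1) - e i))
    (B B' : ℤ) (hB : B' = B + 2) (n : ℕ) :
    c * ∑ k ∈ range n, d (B + ((2 * k : ℕ) : ℤ)) ^ 2
      ≤ (n : ℝ) ^ (1 / 8 : ℝ) * ∑ i ∈ range (2 * n - 1),
        (ss n (fun j => e (B' + j)) (crit n (fun j => e (B' + j))) i
          - ss n (fun j => e (B + j)) (crit n (fun j => e (B + j))) i) * d (B + i) := by
  have h1 := hcv n (fun j => e (B + j)) (fun j => e (B' + j)) _ _ (Per_len hc B n)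
    (Per_len hc B' n) (crit_spec (Per_mono he B n)) (crit_spec (Per_mono he B' n))
  have h2 : ∀ i : ℕ, (e (B' + ((i + 1 : ℕ) : ℤ)) - e (B' + i))
      - (e (B + ((i + 1 : ℕ) : ℤ)) - e (B + i)) = d (B + i) := by
    intro i
    have a1 : B' + ((i + 1 : ℕ) : ℤ) = B + i + 3 := by push_cast; omega
    have a2 : B' + (i : ℤ) = B + i + 2 := by omega
    have a3 : B + ((i + 1 : ℕ) : ℤ) = B + i + 1 := by push_cast; omega
    rw [hd, a1, a2, a3]
  simp only [h2] at h1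
  exact h1

theorem PER {α β C m M Dd : ℝ} {e : ℤ → ℝ} {U₁ U₂ : ℂ → ℝ} (h : Pair α β C e U₁ U₂) (hm : 0 < m)
    (hc : Chain e m M)
    (hD : ∀ x : ℝ, Tendsto (fun y : ℝ => α ^ 2 * U₁ (x + y * I) + β ^ 2 * U₂ (x + y * I) - y)
      atTop (𝓝 Dd)) :
    ∀ i : ℤ, e (i + 3) - e (i + 2) = e (i + 1) - e i := by
  have he : StrictMono e := h.enum.mono
  obtain ⟨c, hc0, hcv⟩ := CVX m M hm
  obtain ⟨K, hK⟩ := MOM h hm hc hD
  obtain ⟨d, hd⟩ : ∃ d : ℤ → ℝ, ∀ i, d i = (e (i + 3) - e (i + 2)) - (e (i + 1) - e i) :=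
    ⟨_, fun _ => rfl⟩
  have hα2 : 0 < α ^ 2 := pow_pos h.hα 2
  have hβ2 : 0 < β ^ 2 := pow_pos h.hβ 2
  have hα1 : α ^ 2 ≤ 1 := by linarith [h.hsq]
  have hβ1 : β ^ 2 ≤ 1 := by linarith [h.hsq]
  have hμ : 0 < c * (α ^ 2 * β ^ 2) := by positivity
  have key : ∀ i, d i = 0 := by
    refine SEQ d (M - m) (2 * K / (c * (α ^ 2 * β ^ 2))) (fun i => ?_) fun A n hn => ?_
    · have h1 := hc i
      have h2 := hc (i + 2)
      have a1 : i + 2 + 1 = i + 3 := by ring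
      rw [a1] at h2
      rw [hd, abs_le]
      constructor <;> linarith [h1.1, h1.2, h2.1, h2.2]
    obtain ⟨p, rfl⟩ : ∃ p, n = p + 2 := ⟨n - 2, by omega⟩
    have n1 : p + 2 - 1 = p + 1 := by omega
    have n2 : 2 * (p + 2) - 1 = 2 * (p + 1) + 1 := by omega
    have n3 : 2 * (p + 1) - 1 = 2 * p + 1 := by omega
    have c1 := Per_cvx hc he hcv d hd (2 * A) (2 * (A + 1)) (by ring) (p + 2)
    have c2 := Per_cvx hc he hcv d hd (2 * A + 1) (2 * (A + 1) + 1) (by ring) (p + 1)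
    have k1 := hK A (p + 2) _ _ hn (crit_spec (Per_mono he _ _)) (crit_spec (Per_mono he _ _))
    have k2 := hK (A + 1) (p + 2) _ _ hn (crit_spec (Per_mono he _ _))
      (crit_spec (Per_mono he _ _))
    rw [n1, n2] at k1 k2
    rw [n2] at c1 ⊢
    rw [n3] at c2
    have z1 := (FINEX (Per_mono he (2 * A + 1) (p + 1)) (crit_spec (Per_mono he _ _))).1
    have z2 := (FINEX (Per_mono he (2 * (A + 1) + 1) (p + 1)) (crit_spec (Per_mono he _ _))).1
    generalize crit (p + 2) (fun j => e (2 * A + j)) = x₁ at c1 k1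
    generalize crit (p + 2) (fun j => e (2 * (A + 1) + j)) = x₁' at c1 k2
    generalize crit (p + 1) (fun j => e (2 * A + 1 + j)) = x₂ at c2 k1 z1
    generalize crit (p + 1) (fun j => e (2 * (A + 1) + 1 + j)) = x₂' at c2 k2 z2
    obtain ⟨T, hT⟩ : ∃ T : ℕ → ℝ, ∀ i, T i
        = π * ∑ j ∈ range i, rr (p + 1) (fun j => e (2 * A + 1 + j)) x₂ j := ⟨_, fun _ => rfl⟩
    obtain ⟨T', hT'⟩ : ∃ T' : ℕ → ℝ, ∀ i, T' i
        = π * ∑ j ∈ range i, rr (p + 1) (fun j => e (2 * (A + 1) + 1 + j)) x₂' j :=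
      ⟨_, fun _ => rfl⟩
    obtain ⟨S, hS⟩ : ∃ S : ℕ → ℝ, ∀ i, S i = ss (p + 2) (fun j => e (2 * A + j)) x₁ i :=
      ⟨_, fun _ => rfl⟩
    obtain ⟨S', hS'⟩ : ∃ S' : ℕ → ℝ, ∀ i, S' i
        = ss (p + 2) (fun j => e (2 * (A + 1) + j)) x₁' i := ⟨_, fun _ => rfl⟩
    obtain ⟨w, hw⟩ : ∃ w : ℕ → ℝ, ∀ i, w i
        = (((min i (2 * (p + 2) - 2 - i) : ℕ) : ℝ) + 1) ^ (-(3 / 4 : ℝ)) := ⟨_, fun _ => rfl⟩
    simp only [← hw] at k1 k2 ⊢
    simp only [← hS, ← hS'] at c1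
    have k1' : ∀ i < 2 * (p + 1) + 1, |α ^ 2 * S i + β ^ 2 * T i - 2 * Dd| ≤ K * w i := by
      intro i hi
      have h1 := k1 i hi
      rw [Per_sx he (2 * A) (2 * A + i) (p + 2) (i + 1) x₁ (by omega) (by push_cast; ring),
        Per_sx he (2 * A + 1) (2 * A + i) (p + 1) i x₂ (by omega) (by ring)] at h1
      rw [hS, hT]
      exact h1
    have k2' : ∀ i < 2 * (p + 1) + 1, |α ^ 2 * S' i + β ^ 2 * T' i - 2 * Dd| ≤ K * w i := by
      intro i hi
      have h1 := k2 i hi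
      rw [Per_sx he (2 * (A + 1)) (2 * (A + 1) + i) (p + 2) (i + 1) x₁' (by omega)
          (by push_cast; ring),
        Per_sx he (2 * (A + 1) + 1) (2 * (A + 1) + i) (p + 1) i x₂' (by omega) (by ring)] at h1
      rw [hS', hT']
      exact h1
    have e2 : ∑ i ∈ range (2 * p + 1),
        (ss (p + 1) (fun j => e (2 * (A + 1) + 1 + j)) x₂' i
          - ss (p + 1) (fun j => e (2 * A + 1 + j)) x₂ i) * d (2 * A + 1 + i)
        = ∑ i ∈ range (2 * (p + 1) + 1), (T' i - T i) * d (2 * A + i) := by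
      have a1 : T (2 * (p + 1)) = 0 := by rw [hT, z1, mul_zero]
      have a2 : T' (2 * (p + 1)) = 0 := by rw [hT', z2, mul_zero]
      have a3 : T 0 = 0 := by rw [hT]; simp
      have a4 : T' 0 = 0 := by rw [hT']; simp
      have a5 : 2 * (p + 1) = 2 * p + 1 + 1 := by ring
      rw [sum_range_succ (fun i => (T' i - T i) * d (2 * A + i)), a1, a2, a5,
        sum_range_succ' (fun i => (T' i - T i) * d (2 * A + i)), a3, a4]
      simp only [sub_self, zero_mul, add_zero]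
      refine sum_congr rfl fun i _ => ?_
      have a6 : 2 * A + ((i + 1 : ℕ) : ℤ) = 2 * A + 1 + i := by push_cast; ring
      rw [hT, hT', a6]
      rfl
    rw [e2] at c2
    have e3 : ∑ k ∈ range (p + 1), d (2 * A + 1 + ((2 * k : ℕ) : ℤ)) ^ 2
        = ∑ k ∈ range (p + 1), d (2 * A + ((2 * k + 1 : ℕ) : ℤ)) ^ 2 := by
      refine sum_congr rfl fun k _ => ?_
      have a6 : 2 * A + 1 + ((2 * k : ℕ) : ℤ) = 2 * A + ((2 * k + 1 : ℕ) : ℤ) := by
        push_cast; ring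
      rw [a6]
    rw [e3] at c2
    have e4 := Per_split (fun i => d (2 * A + i) ^ 2) (p + 1)
    have hE : 0 ≤ ∑ k ∈ range (p + 2), d (2 * A + ((2 * k : ℕ) : ℤ)) ^ 2 :=
      sum_nonneg fun _ _ => sq_nonneg _
    have hO : 0 ≤ ∑ k ∈ range (p + 1), d (2 * A + ((2 * k + 1 : ℕ) : ℤ)) ^ 2 :=
      sum_nonneg fun _ _ => sq_nonneg _
    have r0 : 0 < ((p + 1 : ℕ) : ℝ) ^ (1 / 8 : ℝ) := by positivity
    have r1 : ((p + 1 : ℕ) : ℝ) ^ (1 / 8 : ℝ) ≤ ((p + 2 : ℕ) : ℝ) ^ (1 / 8 : ℝ) :=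
      Real.rpow_le_rpow (by positivity) (by push_cast; linarith) (by norm_num)
    have e5 : α ^ 2 * ∑ i ∈ range (2 * (p + 1) + 1), (S' i - S i) * d (2 * A + i)
        + β ^ 2 * ∑ i ∈ range (2 * (p + 1) + 1), (T' i - T i) * d (2 * A + i)
        ≤ 2 * K * ∑ i ∈ range (2 * (p + 1) + 1), |d (2 * A + i)| * w i := by
      rw [mul_sum, mul_sum, mul_sum, ← sum_add_distrib]
      refine sum_le_sum fun i hi => ?_
      have h1 := k1' i (mem_range.1 hi)
      have h2 := k2' i (mem_range.1 hi)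
      have h3 : |(α ^ 2 * S' i + β ^ 2 * T' i - 2 * Dd) - (α ^ 2 * S i + β ^ 2 * T i - 2 * Dd)|
          ≤ 2 * K * w i := (abs_sub _ _).trans (by linarith)
      calc α ^ 2 * ((S' i - S i) * d (2 * A + i)) + β ^ 2 * ((T' i - T i) * d (2 * A + i))
          = ((α ^ 2 * S' i + β ^ 2 * T' i - 2 * Dd) - (α ^ 2 * S i + β ^ 2 * T i - 2 * Dd))
              * d (2 * A + i) := by ring
        _ ≤ |(α ^ 2 * S' i + β ^ 2 * T' i - 2 * Dd) - (α ^ 2 * S i + β ^ 2 * T i - 2 * Dd)|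
              * |d (2 * A + i)| := by rw [← abs_mul]; exact le_abs_self _
        _ ≤ 2 * K * w i * |d (2 * A + i)| := mul_le_mul_of_nonneg_right h3 (abs_nonneg _)
        _ = 2 * K * (|d (2 * A + i)| * w i) := by ring
    rw [e4]
    generalize ∑ k ∈ range (p + 2), d (2 * A + ((2 * k : ℕ) : ℤ)) ^ 2 = E at c1 hE ⊢
    generalize ∑ k ∈ range (p + 1), d (2 * A + ((2 * k + 1 : ℕ) : ℤ)) ^ 2 = O at c2 hO ⊢
    generalize ∑ i ∈ range (2 * (p + 1) + 1), (S' i - S i) * d (2 * A + i) = P at c1 e5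
    generalize ∑ i ∈ range (2 * (p + 1) + 1), (T' i - T i) * d (2 * A + i) = Q at c2 e5
    generalize ∑ i ∈ range (2 * (p + 1) + 1), |d (2 * A + i)| * w i = W at e5 ⊢
    generalize ((p + 1 : ℕ) : ℝ) ^ (1 / 8 : ℝ) = r at c2 r0 r1
    generalize ((p + 2 : ℕ) : ℝ) ^ (1 / 8 : ℝ) = R at c1 r1 ⊢
    have hQ : 0 ≤ Q := by
      by_contra hn
      have h1 : r * Q < 0 := mul_neg_of_pos_of_neg r0 (not_le.1 hn)
      have h2 : 0 ≤ c * O := mul_nonneg hc0.le hO
      linarith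
    have c2' : c * O ≤ R * Q := c2.trans (mul_le_mul_of_nonneg_right r1 hQ)
    have hR : 0 ≤ R := r0.le.trans r1
    have f1 : β ^ 2 * (α ^ 2 * (c * E)) ≤ α ^ 2 * (c * E) :=
      mul_le_of_le_one_left (mul_nonneg hα2.le (mul_nonneg hc0.le hE)) hβ1
    have f2 : α ^ 2 * (β ^ 2 * (c * O)) ≤ β ^ 2 * (c * O) :=
      mul_le_of_le_one_left (mul_nonneg hβ2.le (mul_nonneg hc0.le hO)) hα1
    have f3 := mul_le_mul_of_nonneg_left c1 hα2.le
    have f4 := mul_le_mul_of_nonneg_left c2' hβ2.le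
    have f5 := mul_le_mul_of_nonneg_left e5 hR
    have f6 : 2 * K / (c * (α ^ 2 * β ^ 2)) * R * W = R * (2 * K * W) / (c * (α ^ 2 * β ^ 2)) := by
      ring
    rw [f6, le_div_iff₀ hμ]
    nlinarith
  intro i
  have h1 := key i
  rw [hd] at h1
  linarith

end MW.AN
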