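import Pool.Agent.P.MP_064970_gt.AN.GW
import Pool.Agent.P.MP_064970_gt.AN.Struct

/-! Row AN-Sch: periodic lengths give Scherk's surface. With `T = e 2 - e 0`, `l' = T / π`,
`x₀ = (e 0 + e 1) / 2`, `θ = (e 1 - e 0) / (2 l')`: `U₁ = l' gg (cos ((z - x₀) / l') / cos θ)`,
`U₂ = l' gg (sin ((z - x₀) / l') / sin θ)` by `COMP`; the equation gives `α = cos θ`;
`cosh_two_gg` gives the Scherk equation with `l = l' / 2`. -/

open Complex InnerProductSpace Set Filter Topology Metric MeasureTheory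
open scoped Real ComplexConjugate

namespace MW.AN

theorem sch_cos_re (w : ℂ) : (Complex.cos w).re = Real.cos w.re * Real.cosh w.im := by
  rw [Complex.cos_eq, ← ofReal_cos, ← ofReal_cosh, ← ofReal_sin, ← ofReal_sinh]
  simp only [sub_re, mul_re, ofReal_re, ofReal_im, I_re, I_im, mul_im]
  ring

theorem sch_cos_im (w : ℂ) : (Complex.cos w).im = -(Real.sin w.re * Real.sinh w.im) := by
  rw [Complex.cos_eq, ← ofReal_cos, ← ofReal_cosh, ← ofReal_sin, ← ofReal_sinh]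
  simp only [sub_im, mul_re, ofReal_re, ofReal_im, I_re, I_im, mul_im]
  ring

theorem sch_norm_sq (w : ℂ) (r : ℝ) : ‖Complex.cos w - r‖ ^ 2 =
    (Real.cos w.re * Real.cosh w.im - r) ^ 2 + (Real.sin w.re * Real.sinh w.im) ^ 2 := by
  rw [Complex.sq_norm, Complex.normSq_apply, sub_re, sub_im, sch_cos_re, sch_cos_im, ofReal_re,
    ofReal_im]
  ring

theorem sch_cos_sq (w : ℂ) : ‖Complex.cos w‖ ^ 2 = Real.cos w.re ^ 2 + Real.sinh w.im ^ 2 := by
  have := sch_norm_sq w 0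
  rw [ofReal_zero, sub_zero] at this
  rw [this]
  linear_combination (Real.cos w.re ^ 2) * Real.cosh_sq w.im +
    (Real.sinh w.im ^ 2) * Real.sin_sq_add_cos_sq w.re

theorem sch_lo (w : ℂ) {a : ℝ} (ha : 0 < a) (ha1 : a < 1) : |w.im| ≤ gg (Complex.cos w / a) := by
  have h1 : Real.cosh w.im - Real.cos w.re ≤ ‖Complex.cos w - 1‖ := by
    refine (le_abs_self _).trans (abs_le_of_sq_le_sq ?_ (norm_nonneg _))
    have := sch_norm_sq w 1
    rw [ofReal_one] at this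
    rw [this]
    apply le_of_eq
    linear_combination (1 - Real.cos w.re ^ 2) * Real.cosh_sq w.im -
      (Real.sinh w.im ^ 2) * Real.sin_sq_add_cos_sq w.re
  have h2 : Real.cosh w.im + Real.cos w.re ≤ ‖Complex.cos w + 1‖ := by
    refine (le_abs_self _).trans (abs_le_of_sq_le_sq ?_ (norm_nonneg _))
    have := sch_norm_sq w (-1)
    rw [ofReal_neg, ofReal_one, sub_neg_eq_add] at this
    rw [this]
    apply le_of_eq
    linear_combination (1 - Real.cos w.re ^ 2) * Real.cosh_sq w.im -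
      (Real.sinh w.im ^ 2) * Real.sin_sq_add_cos_sq w.re
  set ζ := Complex.cos w / a with hζ
  have ha' : (a : ℂ) ≠ 0 := ofReal_ne_zero.2 ha.ne'
  have e1 : Complex.cos w - 1 = (((1 + a) / 2 : ℝ) : ℂ) * (ζ - 1) - (((1 - a) / 2 : ℝ) : ℂ) *
      (ζ + 1) := by
    rw [hζ]; push_cast; field_simp; ring
  have e2 : Complex.cos w + 1 = (((1 + a) / 2 : ℝ) : ℂ) * (ζ + 1) - (((1 - a) / 2 : ℝ) : ℂ) *
      (ζ - 1) := by
    rw [hζ]; push_cast; field_simp; ring
  have n1 : ‖(((1 + a) / 2 : ℝ) : ℂ)‖ = (1 + a) / 2 := by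
    rw [Complex.norm_real, Real.norm_of_nonneg (by linarith)]
  have n2 : ‖(((1 - a) / 2 : ℝ) : ℂ)‖ = (1 - a) / 2 := by
    rw [Complex.norm_real, Real.norm_of_nonneg (by linarith)]
  have h3 := norm_sub_le ((((1 + a) / 2 : ℝ) : ℂ) * (ζ - 1)) ((((1 - a) / 2 : ℝ) : ℂ) * (ζ + 1))
  have h4 := norm_sub_le ((((1 + a) / 2 : ℝ) : ℂ) * (ζ + 1)) ((((1 - a) / 2 : ℝ) : ℂ) * (ζ - 1))
  rw [← e1, norm_mul, norm_mul, n1, n2] at h3
  rw [← e2, norm_mul, norm_mul, n1, n2] at h4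
  have h5 : Real.cosh w.im ≤ Real.cosh (gg ζ) := by
    rw [cosh_gg]; linarith
  rwa [Real.cosh_le_cosh, abs_of_nonneg (gg_nonneg _)] at h5

theorem sch_hi (w : ℂ) {a : ℝ} (ha : 0 < a) :
    gg (Complex.cos w / a) ≤ |w.im| + Real.arcosh (1 / a + 1) := by
  have ha2 : 1 ≤ 1 / a + 1 := le_add_of_nonneg_left (by positivity)
  have h0 := Real.arcosh_nonneg ha2
  have h1 : ‖Complex.cos w‖ ≤ Real.cosh w.im := by
    refine (le_abs_self _).trans (abs_le_of_sq_le_sq ?_ (Real.cosh_pos _).le)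
    rw [sch_cos_sq, Real.cosh_sq]
    linarith [Real.cos_sq_le_one w.re]
  have h2 : ‖Complex.cos w / a‖ ≤ Real.cosh w.im * (1 / a) := by
    rw [norm_div, Complex.norm_real, Real.norm_of_nonneg ha.le, mul_one_div]
    gcongr
  have h3 := norm_sub_le (Complex.cos w / a) 1
  have h4 := norm_add_le (Complex.cos w / a) 1
  rw [norm_one] at h3 h4
  have h5 : Real.cosh (gg (Complex.cos w / a)) ≤
      Real.cosh (|w.im| + Real.arcosh (1 / a + 1)) := by
    rw [cosh_gg, Real.cosh_add, Real.cosh_arcosh ha2, Real.cosh_abs]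
    have := mul_nonneg (Real.sinh_nonneg_iff.2 (abs_nonneg w.im)) (Real.sinh_nonneg_iff.2 h0)
    have := Real.one_le_cosh w.im
    linarith
  rwa [Real.cosh_le_cosh, abs_of_nonneg (gg_nonneg _), abs_of_nonneg (by positivity)] at h5

theorem mart_cos {x₀ l a : ℝ} (hl : 0 < l) (ha : 0 < a) (ha1 : a < 1) :
    (∃ C, Mart C (fun z : ℂ => l * gg (Complex.cos ((z - x₀) / l) / a))) ∧
    (∀ t : ℝ, 0 < l * gg (Complex.cos (((t : ℂ) - x₀) / l) / a) ↔ a < |Real.cos ((t - x₀) / l)|) ∧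
    ∀ z : ℂ, 0 < z.im →
      D (fun z : ℂ => l * gg (Complex.cos ((z - x₀) / l) / a)) z ^ 2
        * (Complex.cos ((z - x₀) / l) ^ 2 - a ^ 2) = Complex.sin ((z - x₀) / l) ^ 2 := by
  have hl' : (l : ℂ) ≠ 0 := ofReal_ne_zero.2 hl.ne'
  have ha' : (a : ℂ) ≠ 0 := ofReal_ne_zero.2 ha.ne'
  have him : ∀ z : ℂ, l * |((z - x₀) / l).im| = |z.im| := by
    intro z
    rw [div_ofReal_im, sub_im, ofReal_im, sub_zero, abs_div, abs_of_pos hl]
    field_simp
  have hlo : ∀ z : ℂ, |z.im| ≤ l * gg (Complex.cos ((z - x₀) / l) / a) := fun z => by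
    rw [← him z]
    exact mul_le_mul_of_nonneg_left (sch_lo _ ha ha1) hl.le
  have hφ : ∀ z : ℂ, HasDerivAt (fun z : ℂ => Complex.cos ((z - x₀) / l) / a)
      (-Complex.sin ((z - x₀) / l) * (1 / l) / a) z := fun z =>
    ((((hasDerivAt_id z).sub_const (x₀ : ℂ)).div_const (l : ℂ)).ccos).div_const (a : ℂ)
  have hφa : ∀ z : ℂ, AnalyticAt ℂ (fun z : ℂ => Complex.cos ((z - x₀) / l) / a) z := fun z =>
    Differentiable.analyticAt (fun z => (hφ z).differentiableAt) z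
  refine ⟨⟨l * Real.arcosh (1 / a + 1), ⟨⟨?_, fun z => ?_,
    fun z => mul_nonneg hl.le (gg_nonneg _), fun z hz => ?_,
    fun z hz => (abs_pos.2 hz.ne').trans_le (hlo z)⟩, hlo, fun z => ?_⟩⟩, fun t => ?_,
    fun z hz => ?_⟩
  · exact continuous_const.mul (gg_cont.comp (by fun_prop))
  · rw [← gg_conj (Complex.cos ((z - x₀) / l) / a), map_div₀, ← Complex.cos_conj]
    simp
  · exact harm_const_mul l (harm_comp (hφa z) (gg_harm ((mul_pos_iff_of_pos_left hl).1 hz)).1)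
  · rw [← him z, ← mul_add]
    exact mul_le_mul_of_nonneg_left (sch_hi _ ha) hl.le
  · have e : Complex.cos (((t : ℂ) - x₀) / l) / a = ((Real.cos ((t - x₀) / l) / a : ℝ) : ℂ) := by
      push_cast; rfl
    rw [e, mul_pos_iff_of_pos_left hl, (gg_nonneg _).lt_iff_ne', ne_eq, gg_eq_zero_iff, ofReal_im,
      ofReal_re, abs_div, abs_of_pos ha, div_le_one ha]
    simp
  · have hp : 0 < gg (Complex.cos ((z - x₀) / l) / a) :=
      (mul_pos_iff_of_pos_left hl).1 ((abs_pos.2 hz.ne').trans_le (hlo z))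
    obtain ⟨h1, h2⟩ := gg_harm hp
    rw [D_const_mul l (harm_comp (hφa z) h1), D_comp (hφ z) h1]
    generalize D gg _ = d at h2 ⊢
    field_simp at h2 ⊢
    linear_combination (Complex.sin ((z - x₀) / l) ^ 2) * h2

theorem sch_cos_lt {θ : ℝ} (h0 : 0 < θ) (h1 : θ < π / 2) (s : ℝ) :
    Real.cos θ < |Real.cos s| ↔ ∃ k : ℤ, |s - k * π| < θ := by
  have key : ∀ k : ℤ, |s - k * π| ≤ π / 2 → |Real.cos s| = Real.cos |s - k * π| := by
    intro k hk
    rw [Real.cos_abs, ← abs_of_nonneg (Real.cos_nonneg_of_mem_Icc (abs_le.1 hk)),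
      Real.cos_sub_int_mul_pi, abs_mul, abs_zpow, abs_neg, abs_one, one_zpow, one_mul]
  constructor
  · intro h
    have hk : |s - round (s / π) * π| ≤ π / 2 := by
      have e : s - round (s / π) * π = (s / π - round (s / π)) * π := by field_simp
      rw [e, abs_mul, abs_of_pos Real.pi_pos]
      have := abs_sub_round (s / π)
      nlinarith [Real.pi_pos]
    refine ⟨round (s / π), ?_⟩
    by_contra hlt
    rw [key _ hk] at h
    exact absurd h (not_lt.2 (Real.cos_le_cos_of_nonneg_of_le_pi h0.le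
      (by linarith [Real.pi_pos]) (not_lt.1 hlt)))
  · rintro ⟨k, hk⟩
    rw [key k (by linarith)]
    exact Real.cos_lt_cos_of_nonneg_of_le_pi_div_two (abs_nonneg _) h1.le hk

theorem sch_eq {C x₀ l θ : ℝ} {U : ℂ → ℝ} (hU : Mart C U) (hl : 0 < l) (h0 : 0 < θ)
    (h1 : θ < π / 2) (hG : ∀ t : ℝ, 0 < U t ↔ ∃ k : ℤ,
      t ∈ Ioo (x₀ - l * θ + k * (l * π)) (x₀ + l * θ + k * (l * π))) :
    U = fun z : ℂ => l * gg (Complex.cos ((z - x₀) / l) / (Real.cos θ : ℝ)) := by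
  have ha : 0 < Real.cos θ := Real.cos_pos_of_mem_Ioo ⟨by linarith, h1⟩
  have ha1 : Real.cos θ < 1 := by
    simpa using Real.cos_lt_cos_of_nonneg_of_le_pi_div_two le_rfl h1.le h0
  obtain ⟨⟨C', hM⟩, hp, -⟩ := mart_cos (x₀ := x₀) hl ha ha1
  have hiff : ∀ t : ℝ, 0 < U t ↔
      0 < l * gg (Complex.cos (((t : ℂ) - x₀) / l) / (Real.cos θ : ℝ)) := by
    intro t
    rw [hG, hp, sch_cos_lt h0 h1]
    refine exists_congr fun k => ?_
    have e : (t - x₀) / l - k * π = (t - x₀ - k * (l * π)) / l := by field_simp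
    rw [e, abs_div, abs_of_pos hl, div_lt_iff₀ hl, abs_lt, mem_Ioo]
    constructor <;> rintro ⟨h2, h3⟩ <;> constructor <;> linarith
  funext z
  exact le_antisymm (COMP hU.toHalf hU.hi hM.toHalf hM.lo (fun t => (hiff t).1) z)
    (COMP hM.toHalf hM.hi hU.toHalf hU.lo (fun t => (hiff t).2) z)

theorem sch_cosh (c : ℂ) {a : ℝ} (ha : 0 < a) :
    a ^ 2 * Real.cosh (2 * gg (c / a)) = ‖c‖ ^ 2 + ‖c ^ 2 - a ^ 2‖ := by
  have ha' : (a : ℂ) ≠ 0 := ofReal_ne_zero.2 ha.ne'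
  have e : (c / a) ^ 2 - 1 = (c ^ 2 - a ^ 2) / a ^ 2 := by field_simp
  rw [cosh_two_gg, e, norm_div, norm_div, norm_pow, Complex.norm_real, Real.norm_of_nonneg ha.le]
  field_simp

theorem SCH {α β C : ℝ} {e : ℤ → ℝ} {U₁ U₂ : ℂ → ℝ} (h : Pair α β C e U₁ U₂)
    (hper : ∀ i : ℤ, e (i + 3) - e (i + 2) = e (i + 1) - e i) :
    IsScherk (fun z => α * U₁ z) (fun z => β * U₂ z) := by
  have hT : ∀ i : ℤ, e (i + 2) - e i = e 2 - e 0 := by
    intro i
    induction i using Int.induction_on with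
    | zero => simp
    | succ i ih =>
      have := hper i
      rw [show (i : ℤ) + 1 + 2 = i + 3 by ring]
      linarith
    | pred i ih =>
      have := hper (-i - 1)
      rw [show -(i : ℤ) - 1 + 3 = -i + 2 by ring, show -(i : ℤ) - 1 + 1 = -i by ring] at this
      linarith
  have hk : ∀ j k : ℤ, e (2 * k + j) = e j + k * (e 2 - e 0) := by
    intro j k
    induction k using Int.induction_on with
    | zero => simp
    | succ i ih =>
      have := hT (2 * i + j)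
      rw [show 2 * ((i : ℤ) + 1) + j = 2 * i + j + 2 by ring]
      push_cast at ih ⊢
      linarith
    | pred i ih =>
      have := hT (2 * (-i - 1) + j)
      rw [show 2 * (-(i : ℤ) - 1) + j + 2 = 2 * -i + j by ring] at this
      push_cast at ih ⊢
      linarith
  have h01 : e 0 < e 1 := h.enum.mono (by norm_num)
  have h12 : e 1 < e 2 := h.enum.mono (by norm_num)
  have hπ := Real.pi_pos
  obtain ⟨l, hl, hlT⟩ : ∃ l : ℝ, 0 < l ∧ l * π = e 2 - e 0 :=
    ⟨(e 2 - e 0) / π, div_pos (by linarith) hπ, by field_simp⟩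
  obtain ⟨θ, h0, h1, hθ⟩ : ∃ θ : ℝ, 0 < θ ∧ θ < π / 2 ∧ l * θ = (e 1 - e 0) / 2 := by
    refine ⟨(e 1 - e 0) / (2 * l), div_pos (by linarith) (by positivity), ?_, by field_simp⟩
    rw [div_lt_iff₀ (by positivity)]
    linarith
  set x₀ := (e 0 + e 1) / 2 with hx₀
  have hU₁ := sch_eq (x₀ := x₀) h.m₁ hl h0 h1 fun t => by
    rw [h.enum.pos₁_iff]
    refine exists_congr fun k => ?_
    rw [hk 1 k, ← add_zero (2 * k), hk 0 k, hlT, hθ, hx₀]
    congr! 3 <;> ring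
  have hU₂ := sch_eq (x₀ := x₀ + l * (π / 2)) (θ := π / 2 - θ) h.m₂ hl (by linarith)
    (by linarith) fun t => by
    rw [h.enum.pos₂_iff]
    refine exists_congr fun k => ?_
    rw [hk 1 k, hk 2 k, hlT, hx₀]
    congr! 3 <;> linarith
  rw [Real.cos_pi_div_two_sub] at hU₂
  have ha : 0 < Real.cos θ := Real.cos_pos_of_mem_Ioo ⟨by linarith, h1⟩
  have hb : 0 < Real.sin θ := Real.sin_pos_of_pos_of_lt_pi h0 (by linarith)
  have hab := Real.sin_sq_add_cos_sq θ
  have ha1 : Real.cos θ < 1 := by nlinarith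
  have hb1 : Real.sin θ < 1 := by nlinarith
  have hl' : (l : ℂ) ≠ 0 := ofReal_ne_zero.2 hl.ne'
  have hw : ∀ z : ℂ, (z - ((x₀ + l * (π / 2) : ℝ) : ℂ)) / l = (z - x₀) / l - π / 2 := fun z => by
    push_cast; field_simp; ring
  have hα : α = Real.cos θ := by
    have e1 := (mart_cos (x₀ := x₀) hl ha ha1).2.2 I (by simp)
    have e2 := (mart_cos (x₀ := x₀ + l * (π / 2)) hl hb hb1).2.2 I (by simp)
    rw [← hU₁] at e1
    rw [← hU₂, hw, Complex.cos_sub_pi_div_two, Complex.sin_sub_pi_div_two] at e2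
    have e3 := h.eq I (by simp)
    have e4 := Complex.sin_sq_add_cos_sq ((I - x₀) / l)
    have e5 : ((α : ℂ)) ^ 2 + (β : ℂ) ^ 2 = 1 := by exact_mod_cast h.hsq
    have e6 : ((Real.sin θ : ℝ) : ℂ) ^ 2 + ((Real.cos θ : ℝ) : ℂ) ^ 2 = 1 := by exact_mod_cast hab
    have e7 : ((α : ℂ)) ^ 2 = ((Real.cos θ : ℝ) : ℂ) ^ 2 := by
      generalize Complex.sin _ = s at *
      generalize Complex.cos _ = c at *
      generalize ((Real.sin θ : ℝ) : ℂ) = b at *
      generalize ((Real.cos θ : ℝ) : ℂ) = a at *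
      linear_combination (c ^ 2 - a ^ 2) * e3 - (α : ℂ) ^ 2 * e1 + (β : ℂ) ^ 2 * e2 -
        ((α : ℂ) ^ 2 + (β : ℂ) ^ 2 * D U₂ I ^ 2) * e4 + c ^ 2 * e5 +
        (β : ℂ) ^ 2 * D U₂ I ^ 2 * e6
    have e8 : α ^ 2 = Real.cos θ ^ 2 := by exact_mod_cast e7
    exact (pow_left_inj₀ h.hα.le ha.le two_ne_zero).1 e8
  have hβ : β = Real.sin θ := by
    refine (pow_left_inj₀ h.hβ.le hb.le two_ne_zero).1 ?_
    have := h.hsq
    rw [hα] at this
    linarith
  refine ⟨x₀, l / 2, θ, by positivity, h0, h1, fun z => ?_⟩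
  have e1 : α * U₁ z / (l / 2 * Real.cos θ) =
      2 * gg (Complex.cos ((z - x₀) / l) / (Real.cos θ : ℝ)) := by
    rw [hα, hU₁]; field_simp
  have e2 : β * U₂ z / (l / 2 * Real.sin θ) =
      2 * gg (Complex.cos ((z - x₀) / l - π / 2) / (Real.sin θ : ℝ)) := by
    rw [hβ, hU₂]; simp only [hw]; field_simp
  have e3 : Complex.cos ((z - x₀) / l - π / 2) ^ 2 - (Real.sin θ : ℝ) ^ 2 =
      -(Complex.cos ((z - x₀) / l) ^ 2 - (Real.cos θ : ℝ) ^ 2) := by
    have e6 : ((Real.sin θ : ℝ) : ℂ) ^ 2 + ((Real.cos θ : ℝ) : ℂ) ^ 2 = 1 := by exact_mod_cast hab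
    rw [Complex.cos_sub_pi_div_two]
    linear_combination Complex.sin_sq_add_cos_sq ((z - x₀) / l) - e6
  have e4 : ((z - x₀) / l - π / 2).re = (z.re - x₀) / l - π / 2 := by simp [div_ofReal_re]
  have e5 : ((z - x₀) / l - π / 2).im = ((z - x₀) / l).im := by simp
  have e6 : ((z - x₀) / l).re = (z.re - x₀) / l := by simp [div_ofReal_re]
  have e7 : (z.re - x₀) / (l / 2) = 2 * ((z.re - x₀) / l) := by field_simp
  simp only [e1, e2]
  rw [sch_cosh _ ha, sch_cosh _ hb, e3, norm_neg, sch_cos_sq, sch_cos_sq, e4, e5, e6,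
    Real.cos_sub_pi_div_two, e7, Real.cos_two_mul']
  ring

end MW.AN
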