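import Pool.Agent.P.MP_064970_gt.AN.Len
import Pool.Agent.P.MP_064970_gt.AN.Case0
import Pool.Agent.P.MP_064970_gt.AN.Per
import Pool.Agent.P.MP_064970_gt.AN.Sch

/-! The half-plane theorem. -/

open Complex InnerProductSpace Set Filter Topology Metric MeasureTheory
open scoped Real ComplexConjugate

namespace MW.AN

theorem half_plane {u₁ u₂ : ℂ → ℝ} (hD : Data u₁ u₂) :
    (∃ c, ∀ z, u₁ z = c) ∨ (∃ c, ∀ z, u₂ z = c) ∨ IsCat u₁ u₂ ∨ IsCat u₂ u₁ ∨
      IsScherk u₁ u₂ := by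
  obtain ⟨α, h₁⟩ := hD.h₁.posH.exists_slope
  obtain ⟨β, h₂⟩ := hD.h₂.posH.exists_slope
  have hsq := slope_sq hD h₁ h₂
  rcases h₂.nonneg.eq_or_lt with hβ | hβ
  · have hα : α = 1 := by
      have := h₁.nonneg
      subst hβ
      nlinarith
    subst hα
    rcases CASE0 hD h₁ with h | h
    · exact Or.inr (Or.inl h)
    · exact Or.inr (Or.inr (Or.inl h))
  rcases h₁.nonneg.eq_or_lt with hα | hα
  · have hβ1 : β = 1 := by
      subst hα
      nlinarith
    subst hβ1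
    rcases CASE0 hD.symm h₂ with h | h
    · exact Or.inl h
    · exact Or.inr (Or.inr (Or.inr (Or.inl h)))
  obtain ⟨C, m, M, e, hm, hc, hP⟩ := LEN hD h₁ h₂ hα hβ
  obtain ⟨Dd, -, Y₀, -, hlim, -⟩ := PHI hD h₁ h₂ hα hβ
  have hper := PER (Dd := Dd) hP hm hc (fun x => by
    refine (hlim x).congr (fun y => ?_)
    field_simp)
  have hS := SCH hP hper
  refine Or.inr (Or.inr (Or.inr (Or.inr ?_)))
  have e₁ : (fun z => α * (α⁻¹ * u₁ z)) = u₁ := by
    funext z; field_simp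
  have e₂ : (fun z => β * (β⁻¹ * u₂ z)) = u₂ := by
    funext z; field_simp
  simpa only [e₁, e₂] using hS

end MW.AN
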