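import Pool.Agent.P.MP_064970_gt.AN.Trunc
import Pool.Agent.P.MP_064970_gt.AN.UB
import Pool.Agent.P.MP_064970_gt.AN.Struct

/-! Row AN-Mom: the total momentum of the two truncations is `2 Dd` up to the truncation error.
Apply `TRUNC` with `r = m / 2`, `R = m (min i (2n - 2 - i) + 1/2)` to `U₁` and `U₂`. -/

open Complex InnerProductSpace Filter Topology Metric MeasureTheory Finset Polynomial
open scoped Real ComplexConjugate

namespace MW.AN

namespace Mom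

theorem re_term (r d y : ℝ) (hd : d ≠ 0) :
    ((r : ℂ) / ((d : ℂ) + y * I)).re = r * (d / (d ^ 2 + y ^ 2)) := by
  have h : d ^ 2 + y ^ 2 ≠ 0 := by positivity
  rw [Complex.div_re]
  simp only [Complex.normSq_apply, add_re, ofReal_re, mul_re, I_re, mul_zero, ofReal_im, I_im,
    mul_one, sub_self, add_zero, add_im, mul_im, zero_add, zero_mul, zero_div]
  field_simp

theorem cont_term (r d : ℝ) (hd : d ≠ 0) :
    Continuous fun y : ℝ => r * (d / (d ^ 2 + y ^ 2)) := by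
  refine continuous_const.mul (continuous_const.div (by fun_prop) fun y => ?_)
  positivity

theorem deriv_term (r d y : ℝ) (hd : d ≠ 0) :
    HasDerivAt (fun y : ℝ => r * Real.arctan (y / d)) (r * (d / (d ^ 2 + y ^ 2))) y := by
  have h1 : HasDerivAt (fun y : ℝ => y / d) (1 / d) y := (hasDerivAt_id y).div_const d
  have h2 := (h1.arctan).const_mul r
  have h : d ^ 2 + y ^ 2 ≠ 0 := by positivity
  have h' : 1 + (y / d) ^ 2 ≠ 0 := by positivity
  have e1 : r * (d / (d ^ 2 + y ^ 2)) = r * (1 / (1 + (y / d) ^ 2) * (1 / d)) := by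
    field_simp
  rw [e1]
  exact h2

theorem int_term (r d Y : ℝ) (hd : d ≠ 0) :
    ∫ y in (0 : ℝ)..Y, r * (d / (d ^ 2 + y ^ 2)) = r * Real.arctan (Y / d) := by
  rw [intervalIntegral.integral_eq_sub_of_hasDerivAt (fun y _ => deriv_term r d y hd)
    ((cont_term r d hd).intervalIntegrable _ _)]
  simp

theorem lim_term (r d : ℝ) (hd : d ≠ 0) :
    Tendsto (fun Y : ℝ => r * Real.arctan (Y / d)) atTop
      (𝓝 (π * (if 0 < d then r else 0) - π / 2 * r)) := by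
  by_cases h : 0 < d
  · have h1 : Tendsto (fun Y : ℝ => Y / d) atTop atTop := tendsto_id.atTop_div_const h
    have h2 := ((tendsto_nhdsWithin_iff.1 Real.tendsto_arctan_atTop).1.comp h1).const_mul r
    rw [if_pos h, show π * r - π / 2 * r = r * (π / 2) by ring]
    exact h2
  · have h0 : d < 0 := lt_of_le_of_ne (not_lt.1 h) hd
    have h1 : Tendsto (fun Y : ℝ => Y / d) atTop atBot := tendsto_id.atTop_div_const_of_neg h0
    have h2 := ((tendsto_nhdsWithin_iff.1 Real.tendsto_arctan_atBot).1.comp h1).const_mul r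
    rw [if_neg h, show π * 0 - π / 2 * r = r * -(π / 2) by ring]
    exact h2

theorem chain_dist {e : ℤ → ℝ} {m M : ℝ} (hc : Chain e m M) (a : ℤ) (k : ℕ) :
    m * k ≤ e (a + k) - e a := by
  induction k with
  | zero => simp
  | succ k ih =>
    have h := (hc (a + k)).1
    have e1 : a + ((k + 1 : ℕ) : ℤ) = a + k + 1 := by push_cast; ring
    rw [e1]
    push_cast
    linarith

theorem chain_len {e : ℤ → ℝ} {m M : ℝ} (hc : Chain e m M) (a : ℤ) (n : ℕ) :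
    Len n (fun j => e (a + j)) m M := by
  intro i _
  have h := hc (a + i)
  have e1 : a + ((i + 1 : ℕ) : ℤ) = a + i + 1 := by push_cast; ring
  simp only [e1]
  exact h

end Mom

open Mom

theorem mom_rat {n : ℕ} {e r : ℕ → ℝ} (hr : ∑ j ∈ range (2 * n), r j = 0) {t : ℝ}
    (ht : ∀ j < 2 * n, t ≠ e j) :
    (∀ Y : ℝ, IntervalIntegrable
      (fun y : ℝ => (∑ j ∈ range (2 * n), (r j : ℂ) / (t + y * I - e j)).re) volume 0 Y) ∧
    Tendsto (fun Y : ℝ => ∫ y in (0 : ℝ)..Y,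
        (∑ j ∈ range (2 * n), (r j : ℂ) / (t + y * I - e j)).re) atTop
      (𝓝 (π * ∑ j ∈ (range (2 * n)).filter (fun j => e j < t), r j)) := by
  have hd : ∀ j ∈ range (2 * n), t - e j ≠ 0 := fun j hj =>
    sub_ne_zero.2 (ht j (Finset.mem_range.1 hj))
  have hf : (fun y : ℝ => (∑ j ∈ range (2 * n), (r j : ℂ) / (t + y * I - e j)).re)
      = fun y : ℝ => ∑ j ∈ range (2 * n), r j * ((t - e j) / ((t - e j) ^ 2 + y ^ 2)) := by
    funext y
    rw [Complex.re_sum]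
    refine Finset.sum_congr rfl fun j hj => ?_
    rw [← re_term (r j) (t - e j) y (hd j hj)]
    congr 2
    push_cast
    ring
  rw [hf]
  refine ⟨fun Y => ?_, ?_⟩
  · exact (continuous_finsetSum _ fun j hj => cont_term (r j) _ (hd j hj)).intervalIntegrable _ _
  · have hI : (fun Y : ℝ => ∫ y in (0 : ℝ)..Y,
        ∑ j ∈ range (2 * n), r j * ((t - e j) / ((t - e j) ^ 2 + y ^ 2)))
        = fun Y : ℝ => ∑ j ∈ range (2 * n), r j * Real.arctan (Y / (t - e j)) := by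
      funext Y
      rw [intervalIntegral.integral_finsetSum
        fun j hj => (cont_term (r j) _ (hd j hj)).intervalIntegrable _ _]
      exact Finset.sum_congr rfl fun j hj => int_term _ _ _ (hd j hj)
    rw [hI]
    have hl := tendsto_finsetSum (range (2 * n)) fun j hj => lim_term (r j) _ (hd j hj)
    convert hl using 2
    rw [Finset.sum_sub_distrib, ← Finset.mul_sum, ← Finset.mul_sum, hr, mul_zero, sub_zero,
      Finset.sum_filter]
    congr 1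
    refine Finset.sum_congr rfl fun j _ => ?_
    simp only [sub_pos]

theorem MOM {α β C m M Dd : ℝ} {e : ℤ → ℝ} {U₁ U₂ : ℂ → ℝ} (h : Pair α β C e U₁ U₂) (hm : 0 < m)
    (hc : Chain e m M)
    (hD : ∀ x : ℝ, Tendsto (fun y : ℝ => α ^ 2 * U₁ (x + y * I) + β ^ 2 * U₂ (x + y * I) - y)
      atTop (𝓝 Dd)) :
    ∃ K : ℝ, ∀ (A : ℤ) (n : ℕ) (x₁ x₂ : ℕ → ℝ), 2 ≤ n →
      Crit n (fun j => e (2 * A + j)) x₁ → Crit (n - 1) (fun j => e (2 * A + 1 + j)) x₂ →
      ∀ i < 2 * n - 1,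
        |α ^ 2 * sx n (fun j => e (2 * A + j)) x₁ ((e (2 * A + i) + e (2 * A + i + 1)) / 2)
          + β ^ 2 * sx (n - 1) (fun j => e (2 * A + 1 + j)) x₂
              ((e (2 * A + i) + e (2 * A + i + 1)) / 2) - 2 * Dd|
          ≤ K * (((min i (2 * n - 2 - i) : ℕ) : ℝ) + 1) ^ (-(3 / 4 : ℝ)) := by
  obtain ⟨C', hC'⟩ := fin_mart m M hm
  obtain ⟨K, hK⟩ := TRUNC (max C C') (m / 2) (half_pos hm)
  refine ⟨|K| * (m / 2) ^ (-(3 / 4 : ℝ)), ?_⟩
  intro A n x₁ x₂ hn hx₁ hx₂ i hi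
  have hE := h.enum
  have hmono := hE.mono
  set t : ℝ := (e (2 * A + i) + e (2 * A + i + 1)) / 2 with ht
  set μ : ℕ := min i (2 * n - 2 - i) with hμ
  set R : ℝ := m * (μ + 1 / 2) with hR
  have hL₁ := chain_len hc (2 * A) n
  have hL₂ := chain_len hc (2 * A + 1) (n - 1)
  obtain ⟨hs₁, u₁, C₁, hm₁, hp₁, hD₁, hl₁, -⟩ := FINEX (hL₁.mono hm) hx₁
  obtain ⟨hs₂, u₂, C₂, hm₂, hp₂, hD₂, hl₂, -⟩ := FINEX (hL₂.mono hm) hx₂
  have hM₁ : Mart (max C C') u₁ := (hC' _ _ _ _ hL₁ hm₁ hp₁).mono (le_max_right _ _)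
  have hM₂ : Mart (max C C') u₂ := (hC' _ _ _ _ hL₂ hm₂ hp₂).mono (le_max_right _ _)
  have hU₁ : Mart (max C C') U₁ := h.m₁.mono (le_max_left _ _)
  have hU₂ : Mart (max C C') U₂ := h.m₂.mono (le_max_left _ _)
  have hseg := (hc (2 * A + i)).1
  have hμ0 : (0 : ℝ) ≤ μ := Nat.cast_nonneg _
  have hrR : m / 2 ≤ R := by
    rw [hR]
    nlinarith
  -- points near `t` lie in the segment `i`
  have hnear : ∀ s : ℝ, |s - t| < m / 2 → e (2 * A + i) < s ∧ s < e (2 * A + i + 1) := by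
    intro s hs
    rw [abs_lt] at hs
    constructor <;> linarith [hs.1, hs.2]
  -- points within distance `R` lie in the window
  have hfar : ∀ s : ℝ, |s - t| < R → e (2 * A) < s ∧ s < e (2 * A + 2 * n - 1) := by
    intro s hs
    rw [abs_lt] at hs
    have h1 := chain_dist hc (2 * A) i
    have h2 := chain_dist hc (2 * A + i + 1) (2 * n - 2 - i)
    have e2 : 2 * A + i + 1 + ((2 * n - 2 - i : ℕ) : ℤ) = 2 * A + 2 * n - 1 := by omega
    rw [e2] at h2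
    have h3 : m * μ ≤ m * i :=
      mul_le_mul_of_nonneg_left (Nat.cast_le.2 (min_le_left _ _)) hm.le
    have h4 : m * μ ≤ m * ((2 * n - 2 - i : ℕ) : ℝ) :=
      mul_le_mul_of_nonneg_left (Nat.cast_le.2 (min_le_right _ _)) hm.le
    have h5 : R = m * μ + m / 2 := by rw [hR]; ring
    constructor <;> linarith [hs.1, hs.2]
  have htne : ∀ a : ℤ, t ≠ e a := by
    intro a ha
    have h0 := hnear t (by simpa using half_pos hm)
    rw [ha] at h0
    have h1 := hmono.lt_iff_lt.1 h0.1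
    have h2 := hmono.lt_iff_lt.1 h0.2
    omega
  -- the hypotheses of `TRUNC`
  have hsub₁ : ∀ s : ℝ, 0 < u₁ s → 0 < U₁ s := by
    intro s hs
    obtain ⟨k, -, hk⟩ := (hp₁ s).1 hs
    refine hE.pos₁ (A + k) s ?_
    have e1 : 2 * A + ((2 * k : ℕ) : ℤ) = 2 * (A + k) := by push_cast; ring
    have e2 : 2 * A + ((2 * k + 1 : ℕ) : ℤ) = 2 * (A + k) + 1 := by push_cast; ring
    simpa only [e1, e2] using hk
  have hsub₂ : ∀ s : ℝ, 0 < u₂ s → 0 < U₂ s := by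
    intro s hs
    obtain ⟨k, -, hk⟩ := (hp₂ s).1 hs
    refine hE.pos₂ (A + k) s ?_
    have e1 : 2 * A + 1 + ((2 * k : ℕ) : ℤ) = 2 * (A + k) + 1 := by push_cast; ring
    have e2 : 2 * A + 1 + ((2 * k + 1 : ℕ) : ℤ) = 2 * (A + k) + 2 := by push_cast; ring
    simpa only [e1, e2] using hk
  have hin₁ : ∀ s : ℝ, |s - t| < R → 0 < U₁ s → 0 < u₁ s := by
    intro s hs hU
    obtain ⟨k, hk⟩ := (hE.pos₁_iff s).1 hU
    have h0 := hfar s hs
    have h1 := hmono.lt_iff_lt.1 (h0.1.trans hk.2)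
    have h2 := hmono.lt_iff_lt.1 (hk.1.trans h0.2)
    obtain ⟨k', rfl⟩ : ∃ k' : ℕ, k = A + k' := ⟨(k - A).toNat, by omega⟩
    refine (hp₁ s).2 ⟨k', by omega, ?_⟩
    have e1 : 2 * A + ((2 * k' : ℕ) : ℤ) = 2 * (A + k') := by push_cast; ring
    have e2 : 2 * A + ((2 * k' + 1 : ℕ) : ℤ) = 2 * (A + k') + 1 := by push_cast; ring
    simpa only [e1, e2] using hk
  have hin₂ : ∀ s : ℝ, |s - t| < R → 0 < U₂ s → 0 < u₂ s := by
    intro s hs hU
    obtain ⟨k, hk⟩ := (hE.pos₂_iff s).1 hU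
    have h0 := hfar s hs
    have h1 := hmono.lt_iff_lt.1 (h0.1.trans hk.2)
    have h2 := hmono.lt_iff_lt.1 (hk.1.trans h0.2)
    obtain ⟨k', rfl⟩ : ∃ k' : ℕ, k = A + k' := ⟨(k - A).toNat, by omega⟩
    refine (hp₂ s).2 ⟨k', by omega, ?_⟩
    have e1 : 2 * A + 1 + ((2 * k' : ℕ) : ℤ) = 2 * (A + k') + 1 := by push_cast; ring
    have e2 : 2 * A + 1 + ((2 * k' + 1 : ℕ) : ℤ) = 2 * (A + k') + 2 := by push_cast; ring
    simpa only [e1, e2] using hk
  have hdi₁ : (∀ s : ℝ, |s - t| < m / 2 → 0 < u₁ s) ∨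
      (∀ s : ℝ, |s - t| < m / 2 → U₁ s = 0) := by
    rcases Nat.even_or_odd' i with ⟨k, hk | hk⟩
    · left
      intro s hs
      have h0 := hnear s hs
      refine (hp₁ s).2 ⟨k, by omega, ?_⟩
      have e1 : 2 * A + ((2 * k : ℕ) : ℤ) = 2 * A + i := by omega
      have e2 : 2 * A + ((2 * k + 1 : ℕ) : ℤ) = 2 * A + i + 1 := by omega
      simpa only [e1, e2, Set.mem_Ioo] using h0
    · right
      intro s hs
      have h0 := hnear s hs
      refine hE.zero₁ (A + k) s ?_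
      have e1 : 2 * (A + k) + 1 = 2 * A + i := by omega
      have e2 : 2 * (A + k) + 2 = 2 * A + i + 1 := by omega
      rw [e1, e2]
      exact ⟨h0.1.le, h0.2.le⟩
  have hdi₂ : (∀ s : ℝ, |s - t| < m / 2 → 0 < u₂ s) ∨
      (∀ s : ℝ, |s - t| < m / 2 → U₂ s = 0) := by
    rcases Nat.even_or_odd' i with ⟨k, hk | hk⟩
    · right
      intro s hs
      have h0 := hnear s hs
      refine hE.zero₂ (A + k) s ?_
      have e1 : 2 * (A + k) = 2 * A + i := by omega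
      rw [e1]
      exact ⟨h0.1.le, h0.2.le⟩
    · left
      intro s hs
      have h0 := hnear s hs
      refine (hp₂ s).2 ⟨k, by omega, ?_⟩
      have e1 : 2 * A + 1 + ((2 * k : ℕ) : ℤ) = 2 * A + i := by omega
      have e2 : 2 * A + 1 + ((2 * k + 1 : ℕ) : ℤ) = 2 * A + i + 1 := by omega
      simpa only [e1, e2, Set.mem_Ioo] using h0
  have hT₁ := hK U₁ u₁ t R hU₁ hM₁ hsub₁ hrR hin₁ hdi₁
  have hT₂ := hK U₂ u₂ t R hU₂ hM₂ hsub₂ hrR hin₂ hdi₂
  obtain ⟨hI₁, hlim₁⟩ := mom_rat (e := fun j => e (2 * A + j)) hs₁ (t := t) fun j _ => htne _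
  obtain ⟨hI₂, hlim₂⟩ := mom_rat (e := fun j => e (2 * A + 1 + j)) hs₂ (t := t) fun j _ => htne _
  set g₁ : ℝ → ℝ := fun y => (∑ j ∈ range (2 * n),
    (rr n (fun j => e (2 * A + j)) x₁ j : ℂ) / (t + y * I - e (2 * A + j))).re with hg₁
  set g₂ : ℝ → ℝ := fun y => (∑ j ∈ range (2 * (n - 1)),
    (rr (n - 1) (fun j => e (2 * A + 1 + j)) x₂ j : ℂ)
      / (t + y * I - e (2 * A + 1 + j))).re with hg₂
  have hsq := h.hsq
  have hα : 0 ≤ α ^ 2 := sq_nonneg _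
  have hβ : 0 ≤ β ^ 2 := sq_nonneg _
  -- the finite estimate
  have hfin : ∀ Y : ℝ, 0 ≤ Y →
      |α ^ 2 * (∫ y in (0 : ℝ)..Y, g₁ y) + β ^ 2 * (∫ y in (0 : ℝ)..Y, g₂ y)
        - 2 * (α ^ 2 * U₁ (t + Y * I) + β ^ 2 * U₂ (t + Y * I) - Y)
        + 2 * α ^ 2 * (u₁ (t + Y * I) - Y) + 2 * β ^ 2 * (u₂ (t + Y * I) - Y)|
        ≤ K * R ^ (-(3 / 4 : ℝ)) := by
    intro Y hY
    obtain ⟨hJ₁, hb₁⟩ := hT₁ Y hY
    obtain ⟨hJ₂, hb₂⟩ := hT₂ Y hY
    have key : α ^ 2 * (∫ y in (0 : ℝ)..Y, g₁ y) + β ^ 2 * (∫ y in (0 : ℝ)..Y, g₂ y)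
        = α ^ 2 * (∫ y in (0 : ℝ)..Y, (D u₁ (t + y * I) ^ 2 - D U₁ (t + y * I) ^ 2).re)
          + β ^ 2 * (∫ y in (0 : ℝ)..Y, (D u₂ (t + y * I) ^ 2 - D U₂ (t + y * I) ^ 2).re) := by
      rw [← intervalIntegral.integral_const_mul, ← intervalIntegral.integral_const_mul,
        ← intervalIntegral.integral_const_mul, ← intervalIntegral.integral_const_mul,
        ← intervalIntegral.integral_add ((hI₁ Y).const_mul _) ((hI₂ Y).const_mul _),
        ← intervalIntegral.integral_add (hJ₁.const_mul _) (hJ₂.const_mul _)]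
      refine intervalIntegral.integral_congr_ae (Eventually.of_forall fun y hy => ?_)
      rw [Set.uIoc_of_le hY] at hy
      have him : 0 < ((t : ℂ) + y * I).im := by simpa using hy.1
      have h1 := hD₁ _ him
      have h2 := hD₂ _ him
      have h3 := congrArg Complex.re (h.eq _ him)
      rw [h1, h2]
      simp only [← ofReal_pow, add_re, re_ofReal_mul, neg_re, one_re] at h3
      simp only [sub_re, add_re, neg_re, one_re, hg₁, hg₂]
      linear_combination h3 + hsq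
    rw [key]
    set J₁ := ∫ y in (0 : ℝ)..Y, (D u₁ (t + y * I) ^ 2 - D U₁ (t + y * I) ^ 2).re
    set J₂ := ∫ y in (0 : ℝ)..Y, (D u₂ (t + y * I) ^ 2 - D U₂ (t + y * I) ^ 2).re
    have e1 : α ^ 2 * J₁ + β ^ 2 * J₂
        - 2 * (α ^ 2 * U₁ (t + Y * I) + β ^ 2 * U₂ (t + Y * I) - Y)
        + 2 * α ^ 2 * (u₁ (t + Y * I) - Y) + 2 * β ^ 2 * (u₂ (t + Y * I) - Y)
        = α ^ 2 * (J₁ - 2 * (U₁ (t + Y * I) - u₁ (t + Y * I)))
          + β ^ 2 * (J₂ - 2 * (U₂ (t + Y * I) - u₂ (t + Y * I))) := by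
      linear_combination (-2 * Y) * hsq
    rw [e1]
    calc _ ≤ |α ^ 2 * (J₁ - 2 * (U₁ (t + Y * I) - u₁ (t + Y * I)))|
          + |β ^ 2 * (J₂ - 2 * (U₂ (t + Y * I) - u₂ (t + Y * I)))| := abs_add_le _ _
      _ = α ^ 2 * |J₁ - 2 * (U₁ (t + Y * I) - u₁ (t + Y * I))|
          + β ^ 2 * |J₂ - 2 * (U₂ (t + Y * I) - u₂ (t + Y * I))| := by
          rw [abs_mul, abs_mul, abs_of_nonneg hα, abs_of_nonneg hβ]
      _ ≤ α ^ 2 * (K * R ^ (-(3 / 4 : ℝ))) + β ^ 2 * (K * R ^ (-(3 / 4 : ℝ))) :=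
          add_le_add (mul_le_mul_of_nonneg_left hb₁ hα) (mul_le_mul_of_nonneg_left hb₂ hβ)
      _ = K * R ^ (-(3 / 4 : ℝ)) := by rw [← add_mul, hsq, one_mul]
  -- the limit
  have hlim := ((((hlim₁.const_mul (α ^ 2)).add (hlim₂.const_mul (β ^ 2))).sub
    ((hD t).const_mul 2)).add ((hl₁ t).const_mul (2 * α ^ 2))).add
      ((hl₂ t).const_mul (2 * β ^ 2))
  have hle := le_of_tendsto hlim.abs ((eventually_ge_atTop (0 : ℝ)).mono hfin)
  rw [mul_zero, mul_zero, add_zero, add_zero] at hle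
  have hRpos : 0 < m / 2 * ((μ : ℝ) + 1) := by positivity
  have hR1 : m / 2 * ((μ : ℝ) + 1) ≤ R := by
    rw [hR]
    nlinarith
  have hR2 : R ^ (-(3 / 4 : ℝ)) ≤ (m / 2) ^ (-(3 / 4 : ℝ)) * ((μ : ℝ) + 1) ^ (-(3 / 4 : ℝ)) := by
    rw [← Real.mul_rpow (half_pos hm).le (by positivity)]
    exact Real.rpow_le_rpow_of_nonpos hRpos hR1 (by norm_num)
  have hR3 : 0 ≤ R ^ (-(3 / 4 : ℝ)) := Real.rpow_nonneg (hRpos.le.trans hR1) _
  calc _ ≤ K * R ^ (-(3 / 4 : ℝ)) := hle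
    _ ≤ |K| * R ^ (-(3 / 4 : ℝ)) := mul_le_mul_of_nonneg_right (le_abs_self K) hR3
    _ ≤ |K| * ((m / 2) ^ (-(3 / 4 : ℝ)) * ((μ : ℝ) + 1) ^ (-(3 / 4 : ℝ))) :=
        mul_le_mul_of_nonneg_left hR2 (abs_nonneg K)
    _ = _ := by ring

end MW.AN
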