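import Pool.Agent.P.MP_064970_gt.AN.Defs

/-! Row AN-Prim: primitives on the closed half-plane and their behaviour at infinity. -/

open Complex InnerProductSpace Set Filter Topology Metric MeasureTheory
open scoped Real ComplexConjugate

namespace MW.AN

theorem Prim_seg {Ψ Φ : ℂ → ℂ} {C R : ℝ} (hC : 0 ≤ C)
    (hd : ∀ z : ℂ, 0 < z.im → HasDerivAt Ψ (Φ z) z)
    (hb : ∀ z : ℂ, 0 < z.im → ‖z‖ ≤ R → ‖Φ z‖ ≤ C * (1 + 1 / √z.im)) {p z : ℂ}
    (hp : 0 < p.im) (hz : 0 < z.im) (hpR : ‖p‖ ≤ R) (hzR : ‖z‖ ≤ R) :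
    ‖Ψ z - Ψ p‖ ≤ C * ‖z - p‖ * (1 + 2 / √p.im) := by
  have him : ∀ s : ℝ, (p + s * (z - p)).im = (1 - s) * p.im + s * z.im := fun s => by
    simp; ring
  have hpos : ∀ s ∈ Icc (0 : ℝ) 1, 0 < (p + s * (z - p)).im := fun s hs => by
    rw [him]
    rcases hs.1.eq_or_lt with h | h
    · rw [← h]; simpa using hp
    · have := mul_nonneg (sub_nonneg.2 hs.2) hp.le
      have := mul_pos h hz
      linarith
  have hnorm : ∀ s ∈ Icc (0 : ℝ) 1, ‖p + s * (z - p)‖ ≤ R := fun s hs => by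
    have e : p + s * (z - p) = ((1 - s : ℝ) : ℂ) * p + s * z := by push_cast; ring
    rw [e]
    refine (norm_add_le _ _).trans ?_
    rw [norm_mul, norm_mul, Complex.norm_real, Complex.norm_real,
      Real.norm_of_nonneg (sub_nonneg.2 hs.2), Real.norm_of_nonneg hs.1]
    nlinarith [hs.1, hs.2]
  have hder : ∀ s ∈ Icc (0 : ℝ) 1, HasDerivAt (fun s : ℝ => Ψ (p + s * (z - p)) - Ψ p)
      (Φ (p + s * (z - p)) * (z - p)) s := fun s hs => by
    have h1 : HasDerivAt (fun w : ℂ => p + w * (z - p)) (z - p) (s : ℂ) := by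
      simpa using ((hasDerivAt_id (s : ℂ)).mul_const (z - p)).const_add p
    exact (((hd _ (hpos s hs)).comp (s : ℂ) h1).comp_ofReal).sub_const _
  have hs0 : 0 < √p.im := Real.sqrt_pos.2 hp
  have key := image_norm_le_of_norm_deriv_right_le_deriv_boundary' (a := 0) (b := 1)
    (f := fun s : ℝ => Ψ (p + s * (z - p)) - Ψ p)
    (f' := fun s => Φ (p + s * (z - p)) * (z - p))
    (fun s hs => (hder s hs).continuousAt.continuousWithinAt)
    (fun s hs => (hder s (Ico_subset_Icc_self hs)).hasDerivWithinAt)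
    (B := fun s => C * ‖z - p‖ * (s + 2 * (1 - √(1 - s)) / √p.im))
    (B' := fun s => C * ‖z - p‖ * (1 + 1 / (√(1 - s) * √p.im))) (by simp) (by fun_prop)
    (fun s hs => by
      have h1 : (1 - s) ≠ 0 := (sub_pos.2 hs.2).ne'
      have h2 : 0 < √(1 - s) := Real.sqrt_pos.2 (sub_pos.2 hs.2)
      have h3 := ((hasDerivAt_id s).const_sub 1).sqrt h1
      have h4 := (((hasDerivAt_id s).add (((h3.const_sub 1).const_mul 2).div_const
        (√p.im))).const_mul (C * ‖z - p‖))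
      refine HasDerivAt.hasDerivWithinAt (h4.congr_deriv ?_)
      simp only [id]
      field_simp)
    (fun s hs => by
      have hs' := Ico_subset_Icc_self hs
      have h2 : 0 < √(1 - s) := Real.sqrt_pos.2 (sub_pos.2 hs.2)
      have h5 : √(1 - s) * √p.im ≤ √(p + s * (z - p)).im := by
        rw [← Real.sqrt_mul (sub_pos.2 hs.2).le, him]
        exact Real.sqrt_le_sqrt (by nlinarith [hs.1])
      have h6 := one_div_le_one_div_of_le (mul_pos h2 hs0) h5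
      rw [norm_mul, mul_right_comm]
      refine mul_le_mul_of_nonneg_right ((hb _ (hpos s hs') (hnorm s hs')).trans ?_) (norm_nonneg _)
      exact mul_le_mul_of_nonneg_left (by linarith) hC)
    (right_mem_Icc.2 zero_le_one)
  simpa using key

/-- Primitive on the open half-plane (Möbius transport of `DifferentiableOn.isExactOn_ball`, or
nested discs), extended by `Ψ (x + i y) = Ψ (x + i) - i ∫_y^1 Φ (x + i s) ds`. -/
theorem PRIM (S : Set ℝ) (hS : S.Finite) {Φ : ℂ → ℂ}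
    (hd : DifferentiableOn ℂ Φ {z : ℂ | 0 < z.im})
    (hc : ContinuousOn Φ ({z : ℂ | 0 ≤ z.im} \ ((↑) '' S)))
    (hb : ∀ R : ℝ, ∃ C : ℝ, ∀ z : ℂ, 0 < z.im → ‖z‖ ≤ R → ‖Φ z‖ ≤ C * (1 + 1 / √z.im)) :
    ∃ Ψ : ℂ → ℂ, ContinuousOn Ψ {z : ℂ | 0 ≤ z.im} ∧
      (∀ z : ℂ, 0 < z.im → HasDerivAt Ψ (Φ z) z) ∧
      ∀ t : ℝ, t ∉ S → HasDerivAt (fun s : ℝ => Ψ s) (Φ t) t := by
  have _ := hS
  have hO : IsOpen {z : ℂ | 0 < z.im} := isOpen_lt continuous_const Complex.continuous_im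
  have hcv : Convex ℝ {z : ℂ | 0 < z.im} := convex_halfSpace_im_gt 0
  have hcl : closure {z : ℂ | 0 < z.im} = {z : ℂ | 0 ≤ z.im} := Complex.closure_setOfPred_lt_im 0
  obtain ⟨g, hg⟩ := hcv.exists_forall_hasDerivWithinAt hd
  have hg' : ∀ z : ℂ, 0 < z.im → HasDerivAt g (Φ z) z := fun z hz =>
    (hg z hz).hasDerivAt (hO.mem_nhds hz)
  have hlim : ∀ x ∈ {z : ℂ | 0 ≤ z.im}, ∃ y, Tendsto g (𝓝[{z : ℂ | 0 < z.im}] x) (𝓝 y) := by
    intro x hx
    have hne : (𝓝[{z : ℂ | 0 < z.im}] x).NeBot :=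
      mem_closure_iff_nhdsWithin_neBot.1 (by rw [hcl]; exact hx)
    refine cauchy_map_iff_exists_tendsto.1 (Metric.cauchy_iff.2 ⟨inferInstance, fun ε hε => ?_⟩)
    obtain ⟨C, hC⟩ := hb (‖x‖ + 1)
    have hC' : ∀ z : ℂ, 0 < z.im → ‖z‖ ≤ ‖x‖ + 1 → ‖Φ z‖ ≤ (|C| + 1) * (1 + 1 / √z.im) :=
      fun z h1 h2 => (hC z h1 h2).trans (mul_le_mul_of_nonneg_right
        (by linarith [le_abs_self C]) (by positivity))
    obtain ⟨η, h0, h1, h2⟩ : ∃ η : ℝ, 0 < η ∧ η ≤ 1 ∧ 12 * (|C| + 1) * η < ε := by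
      refine ⟨min 1 (ε / (13 * (|C| + 1))), by positivity, min_le_left _ _, ?_⟩
      have h3 := min_le_right 1 (ε / (13 * (|C| + 1)))
      rw [le_div_iff₀ (by positivity)] at h3
      have : 0 < min 1 (ε / (13 * (|C| + 1))) * (|C| + 1) := by positivity
      linarith
    have hη : η ^ 2 ≤ η := by nlinarith
    have key : ∀ z : ℂ, 0 < z.im → ‖z - x‖ < η ^ 2 →
        ‖g z - g (x + (η ^ 2 : ℝ) * I)‖ ≤ 6 * (|C| + 1) * η := by
      intro z hz hzx
      have hn : ‖((η ^ 2 : ℝ) : ℂ) * I‖ = η ^ 2 := by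
        rw [norm_mul, Complex.norm_I, mul_one, Complex.norm_real,
          Real.norm_of_nonneg (sq_nonneg η)]
      have him : η ^ 2 ≤ (x + (η ^ 2 : ℝ) * I).im := by
        have : (0 : ℝ) ≤ x.im := hx
        rw [Complex.add_im, Complex.mul_I_im, Complex.ofReal_re]
        linarith
      have h3 := Prim_seg (p := x + (η ^ 2 : ℝ) * I) (by positivity) hg' hC'
        ((by positivity : (0 : ℝ) < η ^ 2).trans_le him) hz
        ((norm_add_le _ _).trans (by rw [hn]; linarith))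
        (by linarith [norm_le_insert' z x])
      have h4 : ‖z - (x + (η ^ 2 : ℝ) * I)‖ ≤ 2 * η ^ 2 := by
        rw [← sub_sub]
        exact (norm_sub_le _ _).trans (by rw [hn]; linarith)
      have h5 : 2 / √(x + (η ^ 2 : ℝ) * I).im ≤ 2 / η :=
        div_le_div_of_nonneg_left (by norm_num) h0 (Real.le_sqrt_of_sq_le him)
      refine h3.trans ((mul_le_mul (mul_le_mul_of_nonneg_left h4 (by positivity))
        (add_le_add_right h5 1) (by positivity) (by positivity)).trans ?_)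
      have e : (|C| + 1) * (2 * η ^ 2) * (1 + 2 / η) = (|C| + 1) * (2 * η ^ 2 + 4 * η) := by
        field_simp; ring
      rw [e]
      nlinarith [abs_nonneg C]
    refine ⟨g '' ({z : ℂ | 0 < z.im} ∩ ball x (η ^ 2)), image_mem_map
      (inter_mem_nhdsWithin _ (ball_mem_nhds x (by positivity))), ?_⟩
    rintro _ ⟨z, ⟨hz, hz'⟩, rfl⟩ _ ⟨w, ⟨hw, hw'⟩, rfl⟩
    have h3 := key z hz (mem_ball_iff_norm.1 hz')
    have h4 := key w hw (mem_ball_iff_norm.1 hw')
    have h5 := dist_triangle_right (g z) (g w) (g (x + (η ^ 2 : ℝ) * I))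
    rw [dist_eq_norm (g z) (g (x + _)), dist_eq_norm (g w)] at h5
    linarith
  have hcont := continuousOn_extendFrom hcl.ge hlim
  have hder : ∀ z : ℂ, 0 < z.im → HasDerivAt (extendFrom {z : ℂ | 0 < z.im} g) (Φ z) z :=
    fun z hz => (hg' z hz).congr_of_eventuallyEq (by
      filter_upwards [hO.mem_nhds hz] with w hw
      exact extendFrom_extends (fun u hu => (hg u hu).continuousWithinAt) w hw)
  refine ⟨_, hcont, hder, fun t ht => ?_⟩
  have htS : (t : ℂ) ∉ ((↑) '' S : Set ℂ) := by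
    rintro ⟨u, hu, e⟩
    exact ht (Complex.ofReal_injective e ▸ hu)
  have h1 : Tendsto Φ (𝓝[{z : ℂ | 0 < z.im}] (t : ℂ)) (𝓝 (Φ t)) := by
    refine (hc t ⟨by simp, htS⟩).mono fun z (hz : 0 < z.im) => ⟨hz.le, ?_⟩
    rintro ⟨u, -, rfl⟩
    simp at hz
  have h2 := hasFDerivWithinAt_closure_of_tendsto_fderiv (x := (t : ℂ))
    (f' := Φ t • (1 : ℂ →L[ℝ] ℂ)) (s := {z : ℂ | 0 < z.im})
    (fun z hz => (hder z hz).complexToReal_fderiv.differentiableAt.differentiableWithinAt) hcv hO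
    (fun y hy => (hcont y (hcl.le hy)).mono fun z (hz : 0 < z.im) => hz.le)
    ((h1.smul_const (1 : ℂ →L[ℝ] ℂ)).congr' (by
      filter_upwards [self_mem_nhdsWithin] with z hz
      exact (hder z hz).complexToReal_fderiv.fderiv.symm))
  have h3 := h2.comp_hasDerivAt t (Complex.ofRealCLM.hasDerivAt (x := t))
    (Eventually.of_forall fun u => hcl.ge (show (0 : ℝ) ≤ (u : ℂ).im by simp))
  exact h3.congr_deriv (by simp)

theorem Prim_ray {Ψ Φ : ℂ → ℂ} {C R₀ : ℝ} (k : ℕ) (hR : 0 < R₀) (hC : 0 ≤ C)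
    (hc : ContinuousOn Ψ {z : ℂ | 0 ≤ z.im ∧ R₀ ≤ ‖z‖})
    (hd : ∀ z : ℂ, 0 < z.im → R₀ ≤ ‖z‖ → HasDerivAt Ψ (Φ z) z)
    (hb : ∀ z : ℂ, 0 < z.im → R₀ ≤ ‖z‖ → ‖Φ z‖ ≤ C / ‖z‖ ^ (k + 2)) {z : ℂ} (hz : 0 ≤ z.im)
    (hzR : R₀ ≤ ‖z‖) {T : ℝ} (hT : 0 ≤ T) :
    ‖Ψ z - Ψ (z + T * I)‖ ≤ 2 * C / ‖z‖ ^ (k + 1) := by
  have hr : 0 < ‖z‖ := hR.trans_le hzR
  have him : ∀ s : ℝ, (z + ((T - s : ℝ) : ℂ) * I).im = z.im + (T - s) := fun s => by simp
  have hsq : ∀ s : ℝ, s ≤ T → ‖z‖ ^ 2 + (T - s) ^ 2 ≤ ‖z + ((T - s : ℝ) : ℂ) * I‖ ^ 2 :=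
    fun s hs => by
      rw [Complex.sq_norm, Complex.sq_norm, Complex.normSq_apply, Complex.normSq_apply, him]
      have : (z + ((T - s : ℝ) : ℂ) * I).re = z.re := by simp
      rw [this]
      nlinarith [mul_nonneg hz (sub_nonneg.2 hs)]
  have hge : ∀ s : ℝ, s ≤ T → ‖z‖ ≤ ‖z + ((T - s : ℝ) : ℂ) * I‖ := fun s hs =>
    le_of_sq_le_sq (by nlinarith [hsq s hs, sq_nonneg (T - s)]) (norm_nonneg _)
  have key := image_norm_le_of_norm_deriv_right_le_deriv_boundary' (a := 0) (b := T)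
    (f := fun s : ℝ => Ψ (z + ((T - s : ℝ) : ℂ) * I) - Ψ (z + T * I))
    (f' := fun s => Φ (z + ((T - s : ℝ) : ℂ) * I) * (-I))
    (ContinuousOn.sub (hc.comp (by fun_prop) fun s hs =>
      ⟨by rw [him]; linarith [hs.2], hzR.trans (hge s hs.2)⟩) continuousOn_const)
    (fun s hs => by
      have h1 : HasDerivAt (fun w : ℂ => z + ((T : ℂ) - w) * I) (-I) (s : ℂ) := by
        simpa using (((hasDerivAt_id (s : ℂ)).const_sub (T : ℂ)).mul_const I).const_add z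
      have h2 := hd (z + ((T - s : ℝ) : ℂ) * I) (by rw [him]; linarith [hs.2])
        (hzR.trans (hge s hs.2.le))
      rw [Complex.ofReal_sub] at h2
      have h3 := ((h2.comp (s : ℂ) h1).comp_ofReal).sub_const (Ψ (z + T * I))
      simp only [Complex.ofReal_sub]
      exact h3.hasDerivWithinAt)
    (B := fun s => 2 * C / ‖z‖ ^ k * (‖z‖ + (T - s))⁻¹)
    (B' := fun s => 2 * C / ‖z‖ ^ k * (1 / (‖z‖ + (T - s)) ^ 2))
    (by simp only [sub_zero, sub_self, norm_zero]; positivity)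
    (continuousOn_const.mul (ContinuousOn.inv₀ (by fun_prop) fun s hs => by
      linarith [hs.2]))
    (fun s hs => by
      have h1 : ‖z‖ + (T - s) ≠ 0 := by linarith [hs.2]
      have h2 := ((((hasDerivAt_id s).const_sub T).const_add ‖z‖).fun_inv h1).const_mul
        (2 * C / ‖z‖ ^ k)
      refine HasDerivAt.hasDerivWithinAt ?_
      simpa using h2)
    (fun s hs => by
      have h1 := hb (z + ((T - s : ℝ) : ℂ) * I) (by rw [him]; linarith [hs.2])
        (hzR.trans (hge s hs.2.le))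
      have h0 : 0 < ‖z‖ + (T - s) := by linarith [hs.2]
      rw [norm_mul, norm_neg, Complex.norm_I, mul_one]
      refine h1.trans ?_
      have e : 2 * C / ‖z‖ ^ k * (1 / (‖z‖ + (T - s)) ^ 2) =
          C / (‖z‖ ^ k * ((‖z‖ + (T - s)) ^ 2 / 2)) := by field_simp
      rw [e, pow_add]
      refine div_le_div_of_nonneg_left hC (by positivity) (mul_le_mul
        (pow_le_pow_left₀ hr.le (hge s hs.2.le) k) ?_ (by positivity) (by positivity))
      nlinarith [hsq s hs.2.le, sq_nonneg (‖z‖ - (T - s))])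
    (right_mem_Icc.2 hT)
  simp only [sub_self, Complex.ofReal_zero, zero_mul, add_zero] at key
  refine key.trans_eq ?_
  rw [pow_succ]
  field_simp

/-- Integrate along vertical rays: `|z + i s|² ≥ |z|² + s²`. -/
theorem ASY {Ψ Φ : ℂ → ℂ} {C R₀ : ℝ} (k : ℕ) (hR : 0 < R₀)
    (hc : ContinuousOn Ψ {z : ℂ | 0 ≤ z.im ∧ R₀ ≤ ‖z‖})
    (hd : ∀ z : ℂ, 0 < z.im → R₀ ≤ ‖z‖ → HasDerivAt Ψ (Φ z) z)
    (hb : ∀ z : ℂ, 0 < z.im → R₀ ≤ ‖z‖ → ‖Φ z‖ ≤ C / ‖z‖ ^ (k + 2)) :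
    ∃ (Λ : ℂ) (C' : ℝ), ∀ z : ℂ, 0 ≤ z.im → R₀ ≤ ‖z‖ → ‖Ψ z - Λ‖ ≤ C' / ‖z‖ ^ (k + 1) := by
  have hI : ∀ T : ℝ, 0 ≤ T → ‖(T : ℂ) * I‖ = T := fun T hT => by
    rw [norm_mul, Complex.norm_I, mul_one, Complex.norm_real, Real.norm_of_nonneg hT]
  have hC : 0 ≤ C := by
    have h1 := (norm_nonneg _).trans (hb (R₀ * I) (by simpa using hR) (hI _ hR.le).ge)
    rw [hI _ hR.le, le_div_iff₀ (by positivity), zero_mul] at h1
    exact h1
  have hz0 : ∀ (a : ℝ) (m : ℕ), Tendsto (fun T : ℝ => a / T ^ (m + 1)) atTop (𝓝 0) := fun a m =>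
    tendsto_const_nhds.div_atTop (tendsto_pow_atTop (Nat.succ_ne_zero m))
  obtain ⟨Λ, hΛ⟩ : ∃ Λ, Tendsto (fun T : ℝ => Ψ (T * I)) atTop (𝓝 Λ) := by
    refine cauchy_map_iff_exists_tendsto.1 ?_
    refine Metric.cauchySeq_iff'.2 fun ε hε => ?_
    obtain ⟨N, h1, h2⟩ := (((hz0 (2 * C) k).eventually (gt_mem_nhds hε)).and
      (eventually_ge_atTop R₀)).exists
    refine ⟨N, fun T hT => ?_⟩
    have h3 := Prim_ray k hR hC hc hd hb (z := N * I) (by simpa using hR.le.trans h2)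
      (by rwa [hI _ (hR.le.trans h2)]) (sub_nonneg.2 hT)
    have e : (N : ℂ) * I + ((T - N : ℝ) : ℂ) * I = T * I := by push_cast; ring
    rw [e, hI _ (hR.le.trans h2)] at h3
    rw [dist_comm, dist_eq_norm]
    exact h3.trans_lt h1
  refine ⟨Λ, 2 * C, fun z hz hzR => ?_⟩
  have h1 : Tendsto (fun T : ℝ => Ψ (z + T * I) - Ψ (T * I)) atTop (𝓝 0) := by
    refine squeeze_zero_norm' ?_ (hz0 (C * ‖z‖) (k + 1))
    filter_upwards [eventually_ge_atTop R₀] with T hT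
    have hT0 := hR.trans_le hT
    have h2 : ∀ w ∈ {w : ℂ | T ≤ w.im}, T ≤ ‖w‖ := fun w hw =>
      (le_trans hw (le_abs_self _)).trans (Complex.abs_im_le_norm w)
    have h3 := (convex_halfSpace_im_ge T).norm_image_sub_le_of_norm_hasDerivWithin_le
      (f := Ψ) (f' := Φ) (C := C / T ^ (k + 2)) (x := T * I) (y := z + T * I)
      (fun w hw => (hd w (hT0.trans_le hw) (hT.trans (h2 w hw))).hasDerivWithinAt)
      (fun w hw => (hb w (hT0.trans_le hw) (hT.trans (h2 w hw))).trans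
        (div_le_div_of_nonneg_left hC (by positivity) (pow_le_pow_left₀ hT0.le (h2 w hw) _)))
      (show T ≤ _ by simp) (show T ≤ _ by simpa using hz)
    rw [add_sub_cancel_right] at h3
    rwa [mul_div_right_comm]
  have h2 : Tendsto (fun T : ℝ => ‖Ψ z - Ψ (z + T * I)‖) atTop (𝓝 ‖Ψ z - Λ‖) := by
    have := ((tendsto_const_nhds (x := Ψ z)).sub (h1.add hΛ)).norm
    simpa using this
  refine le_of_tendsto h2 ?_
  filter_upwards [eventually_ge_atTop 0] with T hT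
  exact Prim_ray k hR hC hc hd hb hz hzR hT

/-- `ASY` for `Ψ - γ log z`. -/
theorem ASY_log {Ψ Φ : ℂ → ℂ} {C R₀ : ℝ} (γ : ℂ) (hR : 0 < R₀)
    (hc : ContinuousOn Ψ {z : ℂ | 0 ≤ z.im ∧ R₀ ≤ ‖z‖})
    (hd : ∀ z : ℂ, 0 < z.im → R₀ ≤ ‖z‖ → HasDerivAt Ψ (Φ z) z)
    (hb : ∀ z : ℂ, 0 < z.im → R₀ ≤ ‖z‖ → ‖Φ z - γ / z‖ ≤ C / ‖z‖ ^ 2) :
    Tendsto (fun R : ℝ => Ψ ((-R : ℝ) : ℂ) - Ψ (R : ℂ)) atTop (𝓝 (I * π * γ)) := by
  have hne : ∀ z : ℂ, R₀ ≤ ‖z‖ → z ≠ 0 := fun z hz => norm_pos_iff.1 (hR.trans_le hz)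
  have hlog : ContinuousOn log {z : ℂ | 0 ≤ z.im ∧ R₀ ≤ ‖z‖} := fun z hz => by
    by_cases h : z ∈ slitPlane
    · exact (continuousAt_clog h).continuousWithinAt
    · rw [Complex.mem_slitPlane_iff, not_or, not_not, not_lt] at h
      refine (continuousWithinAt_log_of_re_neg_of_im_zero (h.1.lt_of_ne fun h0 => ?_) h.2).mono
        fun w hw => hw.1
      exact hne z hz.2 (Complex.ext h0 h.2)
  obtain ⟨Λ, C', h⟩ := ASY (Ψ := fun z => Ψ z - γ * log z) (Φ := fun z => Φ z - γ / z) (C := C) 0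
    hR (hc.sub (continuousOn_const.mul hlog))
    (fun z h1 h2 => by
      rw [div_eq_mul_inv]
      exact (hd z h1 h2).sub ((hasDerivAt_log (Or.inr h1.ne')).const_mul γ)) hb
  have h0 : Tendsto (fun R : ℝ => C' / R) atTop (𝓝 0) := tendsto_const_nhds.div_atTop tendsto_id
  have h1 : Tendsto (fun R : ℝ => Ψ (R : ℂ) - γ * log (R : ℂ) - Λ) atTop (𝓝 0) := by
    refine squeeze_zero_norm' ?_ h0
    filter_upwards [eventually_ge_atTop R₀] with R hR'
    have e : ‖(R : ℂ)‖ = R := by rw [Complex.norm_real, Real.norm_of_nonneg (hR.le.trans hR')]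
    have := h R (by simp) (by rwa [e])
    rwa [e, zero_add, pow_one] at this
  have h2 : Tendsto (fun R : ℝ => Ψ ((-R : ℝ) : ℂ) - γ * log ((-R : ℝ) : ℂ) - Λ) atTop (𝓝 0) := by
    refine squeeze_zero_norm' ?_ h0
    filter_upwards [eventually_ge_atTop R₀] with R hR'
    have e : ‖((-R : ℝ) : ℂ)‖ = R := by
      rw [Complex.norm_real, norm_neg, Real.norm_of_nonneg (hR.le.trans hR')]
    have := h ((-R : ℝ) : ℂ) (by simp) (by rwa [e])
    rwa [e, zero_add, pow_one] at this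
  have h3 := (h2.sub h1).add_const (I * π * γ)
  rw [sub_zero, zero_add] at h3
  refine h3.congr' ?_
  filter_upwards [eventually_gt_atTop 0] with R hR'
  have e : log ((-R : ℝ) : ℂ) = log (R : ℂ) + π * I := by
    rw [← Complex.ofReal_log hR'.le, ← Complex.log_neg_one,
      ← Complex.log_ofReal_mul hR' (by norm_num)]
    simp
  rw [e]
  ring

/-- A continuous real function that is locally constant off the closed gaps and has equal values
at the two ends of each gap is constant off the open gaps. -/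
theorem CHAIN {n : ℕ} {e : ℕ → ℝ} (h : Mono n e) {H : ℝ → ℝ} (hH : Continuous H)
    (hd : ∀ t : ℝ, (∀ k < n, t ∉ Icc (e (2 * k)) (e (2 * k + 1))) → HasDerivAt H 0 t)
    (hg : ∀ k < n, H (e (2 * k + 1)) = H (e (2 * k))) {t t' : ℝ}
    (ht : ∀ k < n, t ∉ Ioo (e (2 * k)) (e (2 * k + 1)))
    (ht' : ∀ k < n, t' ∉ Ioo (e (2 * k)) (e (2 * k + 1))) : H t = H t' := by
  have Z : ∀ a b : ℝ, a ≤ b →
      (∀ s ∈ Ioo a b, ∀ k < n, s ∉ Icc (e (2 * k)) (e (2 * k + 1))) → H a = H b := by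
    intro a b hab hs
    rcases hab.eq_or_lt with h0 | h0
    · rw [h0]
    obtain ⟨c, -, hc⟩ := exists_hasDerivAt_eq_slope H (fun _ => 0) h0 hH.continuousOn
      fun s hs' => hd s (hs s hs')
    rw [eq_comm, div_eq_zero_iff] at hc
    rcases hc with hc | hc <;> linarith
  have hle : ∀ i j : ℕ, i ≤ j → j < 2 * n → e i ≤ e j := fun i j h1 h2 => by
    rcases h1.eq_or_lt with h3 | h3
    · rw [h3]
    · exact (h h3 h2).le
  have Q : ∀ m ≤ n, ∀ a b : ℝ, a ≤ b → (∀ k < n, a ∉ Ioo (e (2 * k)) (e (2 * k + 1))) →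
      (∀ k < n, b ∉ Ioo (e (2 * k)) (e (2 * k + 1))) →
      (∀ k, m ≤ k → k < n → b ≤ e (2 * k)) → H a = H b := by
    intro m
    induction m with
    | zero =>
      intro _ a b hab _ _ hb
      exact Z a b hab fun s hs k hk h1 => by linarith [hb k (Nat.zero_le k) hk, hs.2, h1.1]
    | succ m ih =>
      intro hm a b hab ha hb hb'
      by_cases h1 : b ≤ e (2 * m)
      · exact ih (by omega) a b hab ha hb fun k h2 h3 =>
          h1.trans (hle _ _ (by omega) (by omega))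
      have h2 : e (2 * m + 1) ≤ b := not_lt.1 fun h3 => hb m hm ⟨not_le.1 h1, h3⟩
      have h3 : ∀ u, e (2 * m + 1) ≤ u → u ≤ b → H u = H b := fun u h4 h5 =>
        Z u b h5 fun s hs k hk h6 => by
          by_cases h7 : k ≤ m
          · linarith [hle (2 * k + 1) (2 * m + 1) (by omega) (by omega), hs.1, h6.2]
          · linarith [hb' k (by omega) hk, hs.2, h6.1]
      by_cases h4 : e (2 * m + 1) ≤ a
      · exact h3 a h4 hab
      have h5 : a ≤ e (2 * m) := not_lt.1 fun h6 => ha m hm ⟨h6, not_le.1 h4⟩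
      rw [← h3 _ le_rfl h2, hg m hm]
      refine ih (by omega) a _ h5 ha (fun k hk h6 => ?_) fun k h6 h7 =>
        hle _ _ (by omega) (by omega)
      by_cases h7 : k < m
      · linarith [hle (2 * k + 1) (2 * m) (by omega) (by omega), h6.2]
      · linarith [hle (2 * m) (2 * k) (by omega) (by omega), h6.1]
  rcases le_total t t' with h1 | h1
  · exact Q n le_rfl t t' h1 ht ht' fun k h2 h3 => by omega
  · exact (Q n le_rfl t' t h1 ht' ht fun k h2 h3 => by omega).symm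

end MW.AN
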