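import Pool.Agent.P.MP_064970_gt.AN.MP
import Pool.Agent.P.MP_064970_gt.AN.SP

/-! Row AN-SM: Carleson estimate (`C = 8 e²`). Maximise `(2 r - |Re z - x|) u z` over
`[x - 2r, x + 2r] × [-r, r]` at `z₀`, put `ρ = (2 r - |x₀ - x|) / 2`; Harnack gives
`u (t + i y) ≤ e² u (x + i r) r / |y|`; on `[x₀ - ρ, x₀ + ρ] × [-ρ/2, ρ/2]` use the barrier
`2 u z₀ (Re (z - x₀)² + ρ²/4) / ρ² + 2 e² u (x + i r) r / ρ`. -/

open Complex InnerProductSpace Set Filter Topology Metric MeasureTheory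
open scoped Real ComplexConjugate

namespace MW.AN

theorem SM_har {u : ℂ → ℝ} (h : Half u) {x r : ℝ} (hr : 0 < r) {z : ℂ} (h1 : |z.re - x| ≤ 2 * r)
    (h2 : |z.im| ≤ r) : |z.im| * u z ≤ r * (Real.exp 2 * u (x + r * I)) := by
  have hp : PosH u := ⟨fun w hw => h.harm w (h.pos w hw), fun w _ => h.nonneg w⟩
  have k : ∀ t y : ℝ, |t - x| ≤ 2 * r → 0 < y → y ≤ r →
      y * u (t + y * I) ≤ r * (Real.exp 2 * u (x + r * I)) := fun t y ht hy hyr => by
    refine (hp.mul_mono t hy hyr).trans (mul_le_mul_of_nonneg_left ((hp.harnack x t hr).trans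
      (mul_le_mul_of_nonneg_right (Real.exp_le_exp.2 ?_) (h.nonneg _))) hr.le)
    rwa [div_le_iff₀ hr, abs_sub_comm]
  rcases lt_trichotomy z.im 0 with h0 | h0 | h0
  · have := k z.re (-z.im) h1 (by linarith) ((neg_le_abs _).trans h2)
    rw [show (z.re : ℂ) + ((-z.im : ℝ) : ℂ) * I = conj z from Complex.ext (by simp) (by simp),
      h.even] at this
    rwa [abs_of_neg h0]
  · rw [h0, abs_zero, zero_mul]
    exact mul_nonneg hr.le (mul_nonneg (Real.exp_pos _).le (h.nonneg _))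
  · have := k z.re z.im h1 h0 ((le_abs_self _).trans h2)
    rw [re_add_im] at this
    rwa [abs_of_pos h0]

/-- The barrier on a `2 : 1` rectangle. -/
theorem SM_bar {u : ℂ → ℝ} (h : Half u) {x ρ a b : ℝ} (hρ : 0 < ρ) (ha : 0 ≤ a) (hb : 0 ≤ b)
    (h1 : ∀ z : ℂ, |z.re - x| ≤ ρ → |z.im| ≤ ρ / 2 → u z ≤ a * ρ ^ 2)
    (h2 : ∀ z : ℂ, |z.re - x| ≤ ρ → |z.im| = ρ / 2 → u z ≤ b) {y : ℝ} (hy : |y| ≤ ρ / 2) :
    u (x + y * I) ≤ a * ρ ^ 2 / 4 + b := by
  have e : ∀ z : ℂ, ((z - x) ^ 2).re = (z.re - x) ^ 2 - z.im ^ 2 := fun z => by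
    simp [sq]
  have mem : ∀ z ∈ Icc (x - ρ) (x + ρ) ×ℂ Icc (-(ρ / 2)) (ρ / 2),
      |z.re - x| ≤ ρ ∧ |z.im| ≤ ρ / 2 := fun z hz =>
    ⟨abs_le.2 ⟨by linarith [hz.1.1], by linarith [hz.1.2]⟩, abs_le.2 hz.2⟩
  have low : ∀ z : ℂ, |z.im| ≤ ρ / 2 → (z.re - x) ^ 2 ≤ ((z - x) ^ 2).re + ρ ^ 2 / 4 :=
    fun z hz => by
      have := pow_le_pow_left₀ (abs_nonneg _) hz 2
      rw [sq_abs] at this
      rw [e]
      linarith
  have key := MP (K := Icc (x - ρ) (x + ρ) ×ℂ Icc (-(ρ / 2)) (ρ / 2))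
    (isCompact_Icc.reProdIm isCompact_Icc)
    (v := fun z => u z - (a * (((z - x) ^ 2).re + ρ ^ 2 / 4) + b))
    (h.cont.sub (by fun_prop)).continuousOn (fun z hz hv => ?_) (fun z hz => ?_)
    (x + y * I) ⟨by simp [hρ.le], by simpa using abs_le.1 hy⟩
  · rw [e] at key
    simp only [add_re, ofReal_re, mul_re, I_re, mul_zero, ofReal_im, I_im, mul_one, sub_self,
      add_zero, add_im, mul_im, zero_add] at key
    nlinarith [mul_nonneg ha (sq_nonneg y)]
  · have l1 := low z (mem z (interior_subset hz)).2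
    have l2 := mul_nonneg ha ((sq_nonneg _).trans l1)
    have a1 : AnalyticAt ℂ (fun w : ℂ => (a : ℂ) * ((w - x) ^ 2 + (ρ ^ 2 / 4 : ℝ)) + b) z := by
      fun_prop
    have a2 : (fun w : ℂ => ((a : ℂ) * ((w - x) ^ 2 + (ρ ^ 2 / 4 : ℝ)) + b).re) =
        fun w : ℂ => a * (((w - x) ^ 2).re + ρ ^ 2 / 4) + b := by
      funext w
      rw [add_re, re_ofReal_mul, add_re, ofReal_re, ofReal_re]
    have a3 := a1.harmonicAt_re
    rw [a2] at a3
    exact (h.harm z (by linarith)).sub a3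
  · rw [frontier_reProdIm, closure_Icc, closure_Icc, frontier_Icc (by linarith),
      frontier_Icc (by linarith)] at hz
    rcases hz with ⟨z1, z2⟩ | ⟨z1, z2⟩
    · have z3 : |z.im| = ρ / 2 := by
        rcases z2 with z2 | z2
        · rw [z2, abs_neg, abs_of_pos (by linarith)]
        · rw [mem_singleton_iff.1 z2, abs_of_pos (by linarith)]
      have l1 := low z z3.le
      have l2 := mul_nonneg ha ((sq_nonneg _).trans l1)
      have := h2 z (abs_le.2 ⟨by linarith [z1.1], by linarith [z1.2]⟩) z3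
      linarith
    · have z3 : |z.re - x| = ρ := by
        rcases z1 with z1 | z1
        · rw [z1, sub_sub_cancel_left, abs_neg, abs_of_pos hρ]
        · rw [mem_singleton_iff.1 z1, add_sub_cancel_left, abs_of_pos hρ]
      have l1 := low z (abs_le.2 z2)
      rw [← sq_abs, z3] at l1
      have l2 := mul_le_mul_of_nonneg_left l1 ha
      have := h1 z z3.le (abs_le.2 z2)
      linarith

theorem SM : ∃ C : ℝ, 0 < C ∧ ∀ u : ℂ → ℝ, Half u → ∀ x r : ℝ, 0 < r → ∀ z : ℂ,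
    |z.re - x| ≤ r → |z.im| ≤ r → u z ≤ C * u (x + r * I) := by
  refine ⟨8 * Real.exp 2, by positivity, fun u h x r hr z z1 z2 => ?_⟩
  set A : ℝ := Real.exp 2 * u (x + r * I) with hA
  have A0 : 0 ≤ A := mul_nonneg (Real.exp_pos _).le (h.nonneg _)
  have mem : ∀ w : ℂ, w ∈ Icc (x - 2 * r) (x + 2 * r) ×ℂ Icc (-r) r ↔
      |w.re - x| ≤ 2 * r ∧ |w.im| ≤ r := fun w => by
    rw [mem_reProdIm, mem_Icc, mem_Icc, abs_le, abs_le]
    exact and_congr_left' ⟨fun k => ⟨by linarith [k.1], by linarith [k.2]⟩,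
      fun k => ⟨by linarith [k.1], by linarith [k.2]⟩⟩
  have hc : Continuous fun w : ℂ => (2 * r - |w.re - x|) * u w := by
    have := h.cont
    fun_prop
  obtain ⟨z₀, m0, hmax⟩ := (isCompact_Icc.reProdIm isCompact_Icc).exists_isMaxOn
    ⟨z, (mem z).2 ⟨by linarith, z2⟩⟩ hc.continuousOn
  obtain ⟨m1, m2⟩ := (mem z₀).1 m0
  have hmax' : ∀ w : ℂ, |w.re - x| ≤ 2 * r → |w.im| ≤ r →
      (2 * r - |w.re - x|) * u w ≤ (2 * r - |z₀.re - x|) * u z₀ := fun w w1 w2 =>
    hmax ((mem w).2 ⟨w1, w2⟩)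
  obtain ⟨ρ, hρ⟩ : ∃ ρ, 2 * r - |z₀.re - x| = 2 * ρ := ⟨(2 * r - |z₀.re - x|) / 2, by ring⟩
  rw [hρ] at hmax'
  have ρr : ρ ≤ r := by linarith [abs_nonneg (z₀.re - x)]
  have u0 := h.nonneg z₀
  have key : 2 * ρ * u z₀ ≤ r * (8 * A) := by
    rcases (show 0 ≤ ρ by linarith).eq_or_lt with r0 | r0
    · rw [← r0, mul_zero, zero_mul]
      positivity
    rcases le_total |z₀.im| (ρ / 2) with y0 | y0
    · have tri : ∀ w : ℂ, |w.re - z₀.re| ≤ ρ → |w.re - x| ≤ 2 * r - ρ := fun w hw => by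
        linarith [abs_sub_le w.re z₀.re x]
      have := SM_bar h (x := z₀.re) (a := 2 * u z₀ / ρ ^ 2) (b := 2 * (r * A) / ρ) r0
        (by positivity) (by positivity) (fun w w1 w2 => ?_) (fun w w1 w2 => ?_) y0
      · rw [re_add_im, div_mul_cancel₀ _ (by positivity)] at this
        have k : u z₀ ≤ 4 * (r * A) / ρ := by
          have e : 4 * (r * A) / ρ = 2 * (2 * (r * A) / ρ) := by ring
          linarith
        rw [le_div_iff₀ r0] at k
        linarith
      · rw [div_mul_cancel₀ _ (by positivity)]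
        have k1 := hmax' w (by linarith [tri w w1]) (by linarith)
        have k2 := mul_le_mul_of_nonneg_right (show ρ ≤ 2 * r - |w.re - x| by
          linarith [tri w w1]) (h.nonneg w)
        exact le_of_mul_le_mul_left (by linarith) r0
      · have k1 := SM_har h hr (z := w) (x := x) (by linarith [tri w w1]) (by linarith)
        rw [w2] at k1
        rw [le_div_iff₀ r0]
        linarith
    · have k1 := SM_har h hr m1 m2
      have k2 := mul_le_mul_of_nonneg_right y0 u0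
      have k3 := mul_nonneg hr.le A0
      linarith
  have k1 := hmax' z (by linarith) z2
  have k2 := mul_le_mul_of_nonneg_right (show r ≤ 2 * r - |z.re - x| by linarith) (h.nonneg z)
  rw [mul_assoc]
  exact le_of_mul_le_mul_left (by linarith) hr

end MW.AN
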