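import Pool.Agent.P.MP_064970_gt.AN.CA
import Pool.Agent.P.MP_064970_gt.AN.Alg

/-! Row AN-Sign: the conductances are nonnegative. Three applications of `CA` to the weights
`Wt · |t - x k|^{1, 0, -1, -2}` on the gaps `l ≠ k`. -/

open Filter Topology MeasureTheory Finset Polynomial
open scoped Real

namespace MW.AN

variable {n : ℕ} {e x : ℕ → ℝ}

theorem sign_side (h : Mono n e) {k l : ℕ} (hk : k < n) (hl : l < n) (hlk : l ≠ k) {s : ℝ}
    (hs : s ∈ Set.Ioo (e (2 * k)) (e (2 * k + 1))) :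
    (k < l ∧ s < e (2 * l)) ∨ (l < k ∧ e (2 * l + 1) < s) := by
  rcases lt_or_gt_of_ne hlk with hlt | hlt
  · right
    exact ⟨hlt, lt_trans (h (by omega) (by omega)) hs.1⟩
  · left
    exact ⟨hlt, lt_trans hs.2 (h (by omega) (by omega))⟩

theorem sign_ne (h : Mono n e) {k l : ℕ} (hk : k < n) (hl : l < n) (hlk : l ≠ k) {s t : ℝ}
    (hs : s ∈ Set.Ioo (e (2 * k)) (e (2 * k + 1)))
    (ht : t ∈ Set.Icc (e (2 * l)) (e (2 * l + 1))) : t - s ≠ 0 := by
  rcases sign_side h hk hl hlk hs with ⟨_, h1⟩ | ⟨_, h1⟩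
  · have := ht.1
    exact ne_of_gt (by linarith)
  · have := ht.2
    exact ne_of_lt (by linarith)

theorem sign_same (h : Mono n e) {k l : ℕ} (hk : k < n) (hl : l < n) (hlk : l ≠ k) {s t t' : ℝ}
    (hs : s ∈ Set.Ioo (e (2 * k)) (e (2 * k + 1)))
    (ht : t ∈ Set.Ioo (e (2 * l)) (e (2 * l + 1)))
    (ht' : t' ∈ Set.Ioo (e (2 * l)) (e (2 * l + 1))) : 0 < (s - t) * (s - t') := by
  rcases sign_side h hk hl hlk hs with ⟨_, h1⟩ | ⟨_, h1⟩
  · exact mul_pos_of_neg_of_neg (by linarith [ht.1]) (by linarith [ht'.1])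
  · exact mul_pos (by linarith [ht.2]) (by linarith [ht'.2])

theorem sign_roots_congr {K : Finset ℕ} {b a : ℕ → ℝ} {w w' : ℕ → ℝ → ℝ} {ξ : ℕ → ℝ}
    (hlt : ∀ l ∈ K, b l < a l) (hr : Roots K b a w ξ)
    (hw : ∀ l ∈ K, ∀ t ∈ Set.Ioo (b l) (a l), w l t = w' l t) : Roots K b a w' ξ := by
  refine ⟨hr.mem, fun l hl => ?_⟩
  rw [← hr.per l hl]
  exact II_congr (hlt l hl) (fun t ht => by rw [hw l hl t ht])

theorem sign_div_abs {u v : ℝ} (huv : 0 < u * v) : u / v = |u| / |v| := by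
  rcases mul_pos_iff.mp huv with ⟨hu, hv⟩ | ⟨hu, hv⟩
  · rw [abs_of_pos hu, abs_of_pos hv]
  · rw [abs_of_neg hu, abs_of_neg hv, neg_div_neg_eq]

theorem Dip.roots (h : Mono n e) (hx : Crit n e x) {k : ℕ} (hk : k < n) {S : ℝ[X]}
    (hS : Dip n e x k S) :
    ∃ ξ : ℕ → ℝ, Roots ((range n).erase k) (fun l => e (2 * l)) (fun l => e (2 * l + 1))
        (fun l t => Wt n e l t / (t - x k) ^ 2) ξ ∧
      S = C S.leadingCoeff * ∏ l ∈ (range n).erase k, (X - C (ξ l)) ∧
      (∀ l < n, k < l → ξ l ≤ x l) ∧ ∀ l, l < k → x l ≤ ξ l := by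
  have hK : ∀ l ∈ (range n).erase k, l < n ∧ l ≠ k := fun l hl =>
    ⟨mem_range.mp (mem_of_mem_erase hl), ne_of_mem_erase hl⟩
  have hxk := hx.mem k hk
  have hne : ∀ l ∈ (range n).erase k, ∀ t ∈ Set.Icc (e (2 * l)) (e (2 * l + 1)), t - x k ≠ 0 :=
    fun l hl t ht => sign_ne h hk (hK l hl).1 (hK l hl).2 hxk ht
  have F0 : Fam ((range n).erase k) (fun l => e (2 * l)) (fun l => e (2 * l + 1)) (Wt n e) :=
    h.fam.subset (erase_subset _ _)
  have hp : ∀ l ∈ (range n).erase k, x k < e (2 * l) ∨ e (2 * l + 1) < x k := by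
    intro l hl
    rcases sign_side h hk (hK l hl).1 (hK l hl).2 hxk with ⟨_, h1⟩ | ⟨_, h1⟩
    · exact Or.inl h1
    · exact Or.inr h1
  have hcabs : ∀ l ∈ (range n).erase k,
      ContinuousOn (fun t : ℝ => |t - x k|) (Set.Icc (e (2 * l)) (e (2 * l + 1))) :=
    fun l _ => by fun_prop
  have hpabs : ∀ l ∈ (range n).erase k, ∀ t ∈ Set.Icc (e (2 * l)) (e (2 * l + 1)),
      0 < |t - x k| := fun l hl t ht => abs_pos.mpr (hne l hl t ht)
  have hcinv : ∀ l ∈ (range n).erase k,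
      ContinuousOn (fun t : ℝ => |t - x k|⁻¹) (Set.Icc (e (2 * l)) (e (2 * l + 1))) :=
    fun l hl => (hcabs l hl).inv₀ (fun t ht => (hpabs l hl t ht).ne')
  have hpinv : ∀ l ∈ (range n).erase k, ∀ t ∈ Set.Icc (e (2 * l)) (e (2 * l + 1)),
      0 < |t - x k|⁻¹ := fun l hl t ht => inv_pos.mpr (hpabs l hl t ht)
  have F1 := F0.mul (ρ := fun t => |t - x k|) hcabs hpabs
  have F2 := F1.mul (ρ := fun t => |t - x k|⁻¹) hcinv hpinv
  have F3 := F2.mul (ρ := fun t => |t - x k|⁻¹) hcinv hpinv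
  have FS : Fam ((range n).erase k) (fun l => e (2 * l)) (fun l => e (2 * l + 1))
      (fun l t => Wt n e l t / (t - x k) ^ 2) := by
    have := F0.mul (ρ := fun t => ((t - x k) ^ 2)⁻¹)
      (fun l hl => ContinuousOn.inv₀ (by fun_prop) (fun t ht => pow_ne_zero 2 (hne l hl t ht)))
      (fun l hl t ht => inv_pos.mpr (sq_pos_of_ne_zero (hne l hl t ht)))
    simpa only [div_eq_mul_inv] using this
  have R1 : Roots ((range n).erase k) (fun l => e (2 * l)) (fun l => e (2 * l + 1))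
      (fun l t => Wt n e l t * |t - x k|) x := by
    refine ⟨fun l hl => hx.mem l (hK l hl).1, fun l hl => ?_⟩
    have hper := hx.per l (hK l hl).1
    unfold L at hper
    beta_reduce at hper
    have hP : ∀ t : ℝ, (Pp n x).eval t = (t - x k) * ∏ m ∈ (range n).erase k, (t - x m) := by
      intro t
      rw [Pp_eval, mul_prod_erase (range n) (fun m => t - x m) (mem_range.mpr hk)]
    rcases hp l hl with h1 | h1
    · rw [← hper]
      refine II_congr (h.gap_lt (hK l hl).1) (fun t ht => ?_)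
      rw [hP, abs_of_pos (by linarith [ht.1])]
      ring
    · have h2 := II_const_mul (e (2 * l)) (e (2 * l + 1)) (-1)
        (fun t => (Pp n x).eval t * Wt n e l t)
      rw [hper, mul_zero] at h2
      rw [← h2]
      refine II_congr (h.gap_lt (hK l hl).1) (fun t ht => ?_)
      rw [hP, abs_of_neg (by linarith [ht.2])]
      ring
  obtain ⟨η₀, R2⟩ := F2.exists_roots
  obtain ⟨η₁, R3⟩ := F3.exists_roots
  have hS0 : S ≠ 0 := by
    intro h0
    have h1 := hS.eval_self h hx hk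
    rw [h0, eval_zero] at h1
    exact div_ne_zero (Rp_neg h hk hxk).ne (hx.dP_ne h hk) h1.symm
  have hdeg : S.natDegree ≤ ((range n).erase k).card := by
    rw [card_erase_of_mem (mem_range.mpr hk), card_range]
    have := (natDegree_lt_iff_degree_lt hS0).mpr hS.1
    omega
  obtain ⟨ξ, RS, hfac⟩ := FS.roots hS0 hdeg (fun l hl => by
    have h1 := hS.per h hx hk (hK l hl).1 (hK l hl).2
    unfold L at h1
    rw [← h1]
    exact II_congr (h.gap_lt (hK l hl).1) (fun t _ => by ring))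
  have R4 : Roots ((range n).erase k) (fun l => e (2 * l)) (fun l => e (2 * l + 1))
      (fun l t => Wt n e l t * |t - x k| * |t - x k|⁻¹ * |t - x k|⁻¹ * |t - x k|⁻¹) ξ := by
    refine sign_roots_congr F0.lt RS (fun l hl t ht => ?_)
    have h1 := (hpabs l hl t (Set.Ioo_subset_Icc_self ht)).ne'
    rw [← sq_abs (t - x k)]
    field_simp
  refine ⟨ξ, RS, hfac, fun l hl hkl => ?_, fun l hlk => ?_⟩
  · have hlK : l ∈ (range n).erase k := mem_erase.mpr ⟨by omega, mem_range.mpr hl⟩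
    have h1 : x k < e (2 * l) := lt_trans hxk.2 (h (by omega) (by omega))
    have a1 := (CA F1 hp R1 R2 hlK).1 h1
    have a2 := (CA F2 hp R2 R3 hlK).1 h1
    have a3 := (CA F3 hp R3 R4 hlK).1 h1
    linarith
  · have hlK : l ∈ (range n).erase k := mem_erase.mpr ⟨by omega, mem_range.mpr (by omega)⟩
    have h1 : e (2 * l + 1) < x k := lt_trans (h (by omega) (by omega)) hxk.1
    have a1 := (CA F1 hp R1 R2 hlK).2 h1
    have a2 := (CA F2 hp R2 R3 hlK).2 h1
    have a3 := (CA F3 hp R3 R4 hlK).2 h1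
    linarith

/-- The closed form of the conductance. -/
theorem wk_eq (h : Mono n e) (hx : Crit n e x) {S : ℕ → ℝ[X]} {k l : ℕ} (hk : k < n) (hl : l < n)
    (hkl : l ≠ k) (hS : Dip n e x k (S k)) {ξ : ℕ → ℝ}
    (hξ : ∀ j ∈ (range n).erase k, ξ j ∈ Set.Ioo (e (2 * j)) (e (2 * j + 1)))
    (hf : S k = C (S k).leadingCoeff * ∏ j ∈ (range n).erase k, (X - C (ξ j))) :
    wk n x S k l = (x l - ξ l) / (x l - x k) / ((ξ l - x k) * (x l - x k)) / g2 n e x k *
      ((∏ j ∈ ((range n).erase k).erase l, |x l - ξ j| * |x k - x j|) /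
        ∏ j ∈ ((range n).erase k).erase l, |x l - x j| * |x k - ξ j|) := by
  have hlK : l ∈ (range n).erase k := mem_erase.mpr ⟨hkl, mem_range.mpr hl⟩
  have hkK : k ∈ (range n).erase l := mem_erase.mpr ⟨hkl.symm, mem_range.mpr hk⟩
  have hxk := hx.mem k hk
  have hxl := hx.mem l hl
  have hJ : ∀ j ∈ ((range n).erase k).erase l, j < n ∧ j ≠ k ∧ j ≠ l := fun j hj =>
    ⟨mem_range.mp (mem_of_mem_erase (mem_of_mem_erase hj)),
      ne_of_mem_erase (mem_of_mem_erase hj), ne_of_mem_erase hj⟩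
  have s1 : ∀ j ∈ ((range n).erase k).erase l, 0 < (x l - ξ j) * (x l - x j) := fun j hj =>
    sign_same h hl (hJ j hj).1 (hJ j hj).2.2 hxl (hξ j (mem_of_mem_erase hj))
      (hx.mem j (hJ j hj).1)
  have s2 : ∀ j ∈ ((range n).erase k).erase l, 0 < (x k - x j) * (x k - ξ j) := fun j hj =>
    sign_same h hk (hJ j hj).1 (hJ j hj).2.1 hxk (hx.mem j (hJ j hj).1)
      (hξ j (mem_of_mem_erase hj))
  have hratio : (∏ j ∈ ((range n).erase k).erase l, |x l - ξ j| * |x k - x j|) /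
        (∏ j ∈ ((range n).erase k).erase l, |x l - x j| * |x k - ξ j|)
      = ((∏ j ∈ ((range n).erase k).erase l, (x l - ξ j))
          * ∏ j ∈ ((range n).erase k).erase l, (x k - x j)) /
        ((∏ j ∈ ((range n).erase k).erase l, (x l - x j))
          * ∏ j ∈ ((range n).erase k).erase l, (x k - ξ j)) := by
    rw [← prod_mul_distrib, ← prod_mul_distrib, ← prod_div_distrib, ← prod_div_distrib]
    refine prod_congr rfl (fun j hj => ?_)
    rw [mul_div_mul_comm, mul_div_mul_comm, sign_div_abs (s1 j hj), sign_div_abs (s2 j hj)]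
  have hev : ∀ t : ℝ, (S k).eval t
      = (S k).leadingCoeff * ((t - ξ l) * ∏ j ∈ ((range n).erase k).erase l, (t - ξ j)) := by
    intro t
    conv_lhs => rw [hf]
    rw [eval_mul, eval_C, eval_prod, mul_prod_erase _ (fun j => t - ξ j) hlK]
    simp only [eval_sub, eval_X, eval_C]
  have hPk : (derivative (Pp n x)).eval (x k)
      = (x k - x l) * ∏ j ∈ ((range n).erase k).erase l, (x k - x j) := by
    rw [dPp_eval x hk, mul_prod_erase _ (fun j => x k - x j) hlK]
  have hPl : (derivative (Pp n x)).eval (x l)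
      = (x l - x k) * ∏ j ∈ ((range n).erase k).erase l, (x l - x j) := by
    rw [dPp_eval x hl, erase_right_comm, mul_prod_erase _ (fun j => x l - x j) hkK]
  have hself := hS.eval_self h hx hk
  have hR := (Rp_neg h hk hxk).ne
  have hdk := hx.dP_ne h hk
  have hdl := hx.dP_ne h hl
  have hlk : x l - x k ≠ 0 := sign_ne h hk hl hkl hxk (Set.Ioo_subset_Icc_self hxl)
  have hξk : ξ l - x k ≠ 0 := sign_ne h hk hl hkl hxk (Set.Ioo_subset_Icc_self (hξ l hlK))
  have hA : (∏ j ∈ ((range n).erase k).erase l, (x k - ξ j)) ≠ 0 :=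
    prod_ne_zero_iff.mpr (fun j hj h0 => by
      have := s2 j hj
      rw [h0, mul_zero] at this
      exact lt_irrefl _ this)
  have hB : (∏ j ∈ ((range n).erase k).erase l, (x k - x j)) ≠ 0 :=
    prod_ne_zero_iff.mpr (fun j hj h0 => by
      have := s2 j hj
      rw [h0, zero_mul] at this
      exact lt_irrefl _ this)
  have hD : (∏ j ∈ ((range n).erase k).erase l, (x l - x j)) ≠ 0 :=
    prod_ne_zero_iff.mpr (fun j hj h0 => by
      have := s1 j hj
      rw [h0, mul_zero] at this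
      exact lt_irrefl _ this)
  have hkξ : x k - ξ l ≠ 0 := fun h0 => hξk (by linarith)
  have hkl' : x k - x l ≠ 0 := fun h0 => hlk (by linarith)
  have hc : (S k).leadingCoeff = (Rp n e).eval (x k) /
      (((x k - x l) * ∏ j ∈ ((range n).erase k).erase l, (x k - x j)) *
        ((x k - ξ l) * ∏ j ∈ ((range n).erase k).erase l, (x k - ξ j))) := by
    rw [hev, hPk] at hself
    rw [← div_div, ← hself]
    field_simp
  unfold wk g2
  rw [hratio, hev, hc, hPk, hPl]
  generalize (∏ j ∈ ((range n).erase k).erase l, (x k - ξ j)) = A at *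
  generalize (∏ j ∈ ((range n).erase k).erase l, (x k - x j)) = B at *
  generalize (∏ j ∈ ((range n).erase k).erase l, (x l - x j)) = D at *
  generalize (∏ j ∈ ((range n).erase k).erase l, (x l - ξ j)) = E at *
  generalize (Rp n e).eval (x k) = R at *
  field_simp
  ring

theorem wk_nonneg (h : Mono n e) (hx : Crit n e x) {S : ℕ → ℝ[X]} {k l : ℕ} (hk : k < n)
    (hl : l < n) (hkl : l ≠ k) (hS : Dip n e x k (S k)) : 0 ≤ wk n x S k l := by
  obtain ⟨ξ, hr, hf, h1, h2⟩ := hS.roots h hx hk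
  have hlK : l ∈ (range n).erase k := mem_erase.mpr ⟨hkl, mem_range.mpr hl⟩
  rw [wk_eq h hx hk hl hkl hS hr.mem hf]
  have hs : 0 < (x k - ξ l) * (x k - x l) :=
    sign_same h hk hl hkl (hx.mem k hk) (hr.mem l hlK) (hx.mem l hl)
  refine mul_nonneg (div_nonneg (div_nonneg ?_ (by nlinarith)) (hx.g2_pos h hk).le)
    (div_nonneg (prod_nonneg fun j _ => by positivity) (prod_nonneg fun j _ => by positivity))
  rcases lt_or_gt_of_ne hkl with hlt | hlt
  · exact div_nonneg_of_nonpos (by linarith [h2 l hlt]) (by linarith [hx.inj h hlt hk])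
  · exact div_nonneg (by linarith [h1 l hl hlt]) (by linarith [hx.inj h hlt hl])

end MW.AN
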