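import Pool.Agent.P.MP_064970_gt.AN.IB

/-! Row AN-SqR: the branch `sqR` of `√R`. -/

open Complex InnerProductSpace Filter Topology Metric MeasureTheory Finset Polynomial
open scoped Real ComplexConjugate

namespace MW.AN

variable {n : ℕ} {e : ℕ → ℝ}

namespace SqR

theorem half : (1 / 2 : ℂ) = 2⁻¹ := by norm_num

theorem exp_eq : Complex.exp (I * π / 4) = (Real.cos (π / 4) : ℝ) + (Real.cos (π / 4) : ℝ) * I := by
  have h : I * π / 4 = ((π / 4 : ℝ) : ℂ) * I := by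
    push_cast
    ring
  rw [h, Complex.exp_mul_I, ← Complex.ofReal_cos, ← Complex.ofReal_sin, Real.sin_pi_div_four,
    Real.cos_pi_div_four]

theorem rt_sq (z : ℂ) : rt z ^ 2 = z := by
  have h1 : Complex.exp (I * π / 4) ^ 2 = I := by
    rw [← Complex.exp_nat_mul]
    have h : ((2 : ℕ) : ℂ) * (I * π / 4) = π / 2 * I := by
      push_cast
      ring
    rw [h, Complex.exp_pi_div_two_mul_I]
  rw [rt, mul_pow, h1, half, Complex.cpow_ofNat_inv_pow]
  linear_combination (-z) * Complex.I_sq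

theorem rt_zero : rt 0 = 0 := pow_eq_zero_iff two_ne_zero |>.mp (rt_sq 0)

theorem rt_ne {z : ℂ} (hz : z ≠ 0) : rt z ≠ 0 := by
  intro h
  have := rt_sq z
  rw [h] at this
  exact hz (by simpa using this.symm)

theorem rt_norm (z : ℂ) : ‖rt z‖ = √‖z‖ := by
  rw [← Real.sqrt_sq (norm_nonneg (rt z)), ← norm_pow, rt_sq]

theorem rt_add (z : ℂ) : 0 ≤ (rt z).re + (rt z).im := by
  have h1 : 0 ≤ ((-I * z) ^ (1 / 2 : ℂ)).re := by
    rw [half, Complex.cpow_inv_two_re]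
    exact Real.sqrt_nonneg _
  have h2 : 0 ≤ Real.cos (π / 4) := by
    rw [Real.cos_pi_div_four]
    positivity
  rw [rt, exp_eq]
  generalize (-I * z) ^ (1 / 2 : ℂ) = w at h1
  generalize Real.cos (π / 4) = c at h2
  simp only [mul_re, add_re, ofReal_re, I_re, mul_zero, ofReal_im, I_im, mul_one, sub_self,
    add_zero, add_im, mul_im, zero_add]
  nlinarith [mul_nonneg h2 h1]

theorem rt_quad {z : ℂ} (hz : 0 ≤ z.im) : 0 ≤ (rt z).re ∧ 0 ≤ (rt z).im := by
  have h1 := rt_add z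
  have h2 := congrArg Complex.im (rt_sq z)
  rw [sq, mul_im] at h2
  constructor
  · by_contra h
    push Not at h
    nlinarith
  · by_contra h
    push Not at h
    nlinarith

theorem rt_eq {z w : ℂ} (h : w ^ 2 = z) (hw : 0 ≤ w.re + w.im) (h0 : w.re + w.im = 0 → w = 0) :
    rt z = w := by
  have h1 : rt z ^ 2 = w ^ 2 := by rw [rt_sq, h]
  rcases sq_eq_sq_iff_eq_or_eq_neg.mp h1 with h2 | h2
  · exact h2
  · have h3 := rt_add z
    rw [h2] at h3
    simp only [neg_re, neg_im] at h3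
    have h4 := h0 (by linarith)
    rw [h2, h4, neg_zero]

theorem rt_pos {t : ℝ} (ht : 0 ≤ t) : rt t = (√|t| : ℝ) := by
  apply rt_eq
  · rw [← Complex.ofReal_pow, Real.sq_sqrt (abs_nonneg t), abs_of_nonneg ht]
  · simp
  · intro h
    simp only [ofReal_re, ofReal_im, add_zero] at h
    rw [h, ofReal_zero]

theorem rt_neg {t : ℝ} (ht : t ≤ 0) : rt t = I * (√|t| : ℝ) := by
  apply rt_eq
  · rw [mul_pow, ← Complex.ofReal_pow, Real.sq_sqrt (abs_nonneg t), abs_of_nonpos ht, I_sq]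
    push_cast
    ring
  · simp
  · intro h
    simp only [mul_re, I_re, ofReal_re, zero_mul, I_im, ofReal_im, mul_zero, sub_self, mul_im,
      one_mul, zero_add] at h
    rw [h, ofReal_zero, mul_zero]

theorem rt_continuousAt {z : ℂ} (hz : 0 ≤ z.im) : ContinuousAt rt z := by
  have h1 : ContinuousAt (fun w : ℂ => w ^ (1 / 2 : ℂ)) (-I * z) :=
    Complex.continuousAt_cpow_const_of_re_pos (Or.inl (by simpa using hz)) (by norm_num)
  have h2 : ContinuousAt (fun w : ℂ => -I * w) z := by fun_prop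
  exact continuousAt_const.mul (ContinuousAt.comp (f := fun w : ℂ => -I * w) h1 h2)

theorem rt_analyticAt {z : ℂ} (hz : 0 ≤ z.im) (h0 : z ≠ 0) : AnalyticAt ℂ rt z := by
  have h1 : -I * z ∈ slitPlane := by
    rcases hz.eq_or_lt with h | h
    · right
      intro h2
      apply h0
      apply Complex.ext
      · simpa using h2
      · simpa using h.symm
    · left
      simpa using h
  have h2 : AnalyticAt ℂ (fun w : ℂ => -I * w) z := by fun_prop
  exact analyticAt_const.mul (h2.cpow analyticAt_const h1)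

/-- The value on the real axis with `m` points to the left. -/
theorem prod_real {t : ℝ} {m : ℕ} (h1 : ∀ j < m, e j ≤ t) {N : ℕ} (hm : m ≤ N)
    (h2 : ∀ j, m ≤ j → j < N → t ≤ e j) :
    ∏ j ∈ range N, rt (t - e j) = I ^ (N - m) * (√|∏ j ∈ range N, (t - e j)| : ℝ) := by
  have key : ∀ j, rt ((t : ℂ) - e j) = rt ((t - e j : ℝ) : ℂ) := fun j => by push_cast; rfl
  rw [Finset.abs_prod, Real.sqrt_prod _ (fun _ _ => abs_nonneg _), Complex.ofReal_prod]
  induction N, hm using Nat.le_induction with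
  | base =>
    rw [Nat.sub_self, pow_zero, one_mul]
    refine Finset.prod_congr rfl fun j hj => ?_
    rw [key, rt_pos (sub_nonneg.mpr (h1 j (mem_range.mp hj)))]
  | succ N hm ih =>
    rw [prod_range_succ, prod_range_succ, ih (fun j a b => h2 j a (by omega)), key,
      rt_neg (sub_nonpos.mpr (h2 N hm (by omega))), Nat.sub_add_comm hm, pow_succ]
    ring

theorem Rp_eval (t : ℝ) : (Rp n e).eval t = ∏ j ∈ range (2 * n), (t - e j) := by
  simp [Rp, Polynomial.eval_prod]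

theorem mono_le (h : Mono n e) {i j : ℕ} (hij : i ≤ j) (hj : j < 2 * n) : e i ≤ e j := by
  rcases hij.eq_or_lt with rfl | h1
  · exact le_rfl
  · exact (h h1 hj).le

theorem quot_bound {z : ℂ} (hz : 0 ≤ z.im) {a : ℝ} (ha : 2 * |a| + 1 ≤ ‖z‖) :
    z ≠ a ∧ ‖rt z / rt (z - a) - 1‖ ≤ 2 * |a| / ‖z‖ := by
  have ha0 := abs_nonneg a
  have hz0 : 0 < ‖z‖ := by linarith
  have h1 : ‖z‖ / 2 ≤ ‖z - a‖ := by
    have := norm_sub_norm_le z a
    rw [Complex.norm_real, Real.norm_eq_abs] at this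
    linarith
  have h2 : z - a ≠ 0 := norm_pos_iff.mp (by linarith)
  refine ⟨sub_ne_zero.mp h2, ?_⟩
  have h3 : 0 ≤ (rt z / rt (z - a)).re := by
    obtain ⟨p1, p2⟩ := rt_quad hz
    obtain ⟨q1, q2⟩ := rt_quad (z := z - a) (by simpa using hz)
    rw [Complex.div_re]
    have := Complex.normSq_nonneg (rt (z - a))
    positivity
  have h4 : (rt z / rt (z - a)) ^ 2 - 1 = a / (z - a) := by
    rw [div_pow, rt_sq, rt_sq]
    field_simp
    ring
  generalize rt z / rt (z - a) = q at h3 h4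
  have h5 : 1 ≤ ‖q + 1‖ := by
    have := Complex.re_le_norm (q + 1)
    simp only [add_re, one_re] at this
    linarith
  have h6 : ‖q - 1‖ * ‖q + 1‖ = |a| / ‖z - a‖ := by
    rw [← norm_mul, show (q - 1) * (q + 1) = q ^ 2 - 1 by ring, h4, norm_div, Complex.norm_real,
      Real.norm_eq_abs]
  calc ‖q - 1‖ ≤ ‖q - 1‖ * ‖q + 1‖ := le_mul_of_one_le_right (norm_nonneg _) h5
    _ = |a| / ‖z - a‖ := h6
    _ ≤ |a| / (‖z‖ / 2) := by gcongr
    _ = 2 * |a| / ‖z‖ := by field_simp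

theorem prod_asymp (e : ℕ → ℝ) (m : ℕ) : ∃ C R₀ : ℝ, 0 ≤ C ∧ 1 ≤ R₀ ∧ ∀ z : ℂ, 0 ≤ z.im →
    R₀ ≤ ‖z‖ → (∀ j < m, z ≠ e j) ∧
      ‖∏ j ∈ range m, (rt z / rt (z - e j)) - 1‖ ≤ C / ‖z‖ := by
  induction m with
  | zero => exact ⟨0, 1, le_rfl, le_rfl, fun z _ _ => ⟨fun j hj => by omega, by simp⟩⟩
  | succ m ih =>
    obtain ⟨C, R₀, hC, hR, H⟩ := ih
    have ha := abs_nonneg (e m)
    refine ⟨C * (2 * |e m|) + C + 2 * |e m|, R₀ + 2 * |e m|, by positivity, by linarith,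
      fun z hz hz' => ?_⟩
    obtain ⟨h1, h2⟩ := H z hz (by linarith)
    obtain ⟨h3, h4⟩ := quot_bound hz (a := e m) (by linarith)
    have hz1 : 1 ≤ ‖z‖ := by linarith
    refine ⟨fun j hj => ?_, ?_⟩
    · rcases Nat.lt_succ_iff_lt_or_eq.mp hj with h | rfl
      · exact h1 j h
      · exact h3
    · rw [prod_range_succ]
      generalize ∏ j ∈ range m, (rt z / rt (z - e j)) = A at h2
      generalize rt z / rt (z - e m) = q at h4
      have h5 : ‖A - 1‖ ≤ C := h2.trans (div_le_self hC hz1)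
      calc ‖A * q - 1‖ = ‖(A - 1) * (q - 1) + (A - 1) + (q - 1)‖ := by congr 1; ring
        _ ≤ ‖A - 1‖ * ‖q - 1‖ + ‖A - 1‖ + ‖q - 1‖ := by
          rw [← norm_mul]
          exact norm_add₃_le
        _ ≤ C * (2 * |e m| / ‖z‖) + C / ‖z‖ + 2 * |e m| / ‖z‖ := by gcongr
        _ = (C * (2 * |e m|) + C + 2 * |e m|) / ‖z‖ := by ring

theorem exists_pos_le {ι : Type*} (s : Finset ι) (g : ι → ℝ) (h : ∀ i ∈ s, 0 < g i) :
    ∃ δ : ℝ, 0 < δ ∧ δ ≤ 1 ∧ ∀ i ∈ s, δ ≤ g i := by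
  classical
  induction s using Finset.induction_on with
  | empty => exact ⟨1, one_pos, le_rfl, by simp⟩
  | insert a s _ ih =>
    obtain ⟨δ, h1, h2, h3⟩ := ih fun i hi => h i (mem_insert_of_mem hi)
    refine ⟨min δ (g a), lt_min h1 (h a (mem_insert_self a s)), (min_le_left _ _).trans h2,
      fun i hi => ?_⟩
    rcases mem_insert.mp hi with rfl | hi
    · exact min_le_right _ _
    · exact (min_le_left _ _).trans (h3 i hi)

end SqR

open SqR

theorem sqR_sq (z : ℂ) : sqR n e z ^ 2 = aeval z (Rp n e) := by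
  rw [sqR, ← Finset.prod_pow, Rp, map_prod]
  refine Finset.prod_congr rfl fun j _ => ?_
  simp [rt_sq]

theorem sqR_continuousOn : ContinuousOn (sqR n e) {z : ℂ | 0 ≤ z.im} := by
  intro z hz
  apply ContinuousAt.continuousWithinAt
  refine tendsto_finsetProd (f := fun j w => rt (w - e j)) _ fun j _ => ?_
  have h2 : ContinuousAt (fun w : ℂ => w - e j) z := by fun_prop
  exact ContinuousAt.comp (f := fun w : ℂ => w - e j) (rt_continuousAt (by simpa using hz)) h2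

theorem sqR_ne_zero {z : ℂ} (h : ∀ j < 2 * n, z ≠ e j) : sqR n e z ≠ 0 :=
  Finset.prod_ne_zero_iff.mpr fun j hj => rt_ne (sub_ne_zero.mpr (h j (mem_range.mp hj)))

theorem sqR_analyticAt {z : ℂ} (hz : 0 ≤ z.im) (h : ∀ j < 2 * n, z ≠ e j) :
    AnalyticAt ℂ (sqR n e) z := by
  refine Finset.analyticAt_fun_prod (f := fun j w => rt (w - e j)) _ fun j hj => ?_
  have h2 : AnalyticAt ℂ (fun w : ℂ => w - e j) z := by fun_prop
  exact AnalyticAt.comp (f := fun w : ℂ => w - e j)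
    (rt_analyticAt (by simpa using hz) (sub_ne_zero.mpr (h j (mem_range.mp hj)))) h2

theorem sqR_hasDerivAt {z : ℂ} (hz : 0 ≤ z.im) (h : ∀ j < 2 * n, z ≠ e j) :
    HasDerivAt (sqR n e) (aeval z (derivative (Rp n e)) / (2 * sqR n e z)) z := by
  have h1 := (sqR_analyticAt hz h).differentiableAt.hasDerivAt
  have h2 : HasDerivAt (fun w => sqR n e w * sqR n e w)
      (deriv (sqR n e) z * sqR n e z + sqR n e z * deriv (sqR n e) z) z := h1.mul h1
  have h3 : (fun w => sqR n e w * sqR n e w) = fun w => aeval w (Rp n e) :=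
    funext fun w => by rw [← sq, sqR_sq]
  rw [h3] at h2
  have h4 := h2.unique ((Rp n e).hasDerivAt_aeval z)
  have h5 := sqR_ne_zero h
  have h6 : aeval z (derivative (Rp n e)) / (2 * sqR n e z) = deriv (sqR n e) z := by
    rw [← h4]
    field_simp
    ring
  rw [h6]
  exact h1

/-- `rt t = √t` for `t ≥ 0`, `rt t = i √|t|` for `t ≤ 0`. -/
theorem sqR_gap (h : Mono n e) {k : ℕ} (hk : k < n) {t : ℝ}
    (ht : t ∈ Set.Ioo (e (2 * k)) (e (2 * k + 1))) :
    I * sqR n e t = (((-1) ^ (n - k) * √|(Rp n e).eval t| : ℝ) : ℂ) := by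
  rw [sqR, prod_real (m := 2 * k + 1)
    (fun j hj => (mono_le h (by omega) (by omega)).trans ht.1.le) (by omega)
    (fun j h1 h2 => ht.2.le.trans (mono_le h h1 h2)), SqR.Rp_eval, ← mul_assoc, ← pow_succ',
    show 2 * n - (2 * k + 1) + 1 = 2 * (n - k) by omega, pow_mul, I_sq]
  push_cast
  ring

theorem sqR_band (h : Mono n e) {t : ℝ}
    (ht : ∀ k < n, t ∉ Set.Ioo (e (2 * k)) (e (2 * k + 1))) : (sqR n e t).im = 0 := by
  classical
  have hex : ∃ m, m = 2 * n ∨ t < e m := ⟨2 * n, Or.inl rfl⟩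
  have hle : Nat.find hex ≤ 2 * n := Nat.find_min' hex (Or.inl rfl)
  have h1 : ∀ j < Nat.find hex, e j ≤ t := fun j hj =>
    not_lt.mp fun h => Nat.find_min hex hj (Or.inr h)
  have h0 := Nat.find_spec hex
  generalize Nat.find hex = m at hle h1 h0
  have h2 : ∀ j, m ≤ j → j < 2 * n → t ≤ e j := fun j a b =>
    (h0.resolve_left (by omega)).le.trans (mono_le h a b)
  rcases Nat.even_or_odd' m with ⟨k, rfl | rfl⟩
  · rw [sqR, prod_real h1 hle h2, show 2 * n - 2 * k = 2 * (n - k) by omega, pow_mul, I_sq]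
    have : ((-1 : ℂ)) ^ (n - k) = (((-1 : ℝ) ^ (n - k) : ℝ) : ℂ) := by push_cast; rfl
    rw [this, ← Complex.ofReal_mul, Complex.ofReal_im]
  · have h3 : t = e (2 * k) := by
      by_contra hne
      exact ht k (by omega) ⟨lt_of_le_of_ne (h1 _ (by omega)) (Ne.symm hne),
        h0.resolve_left (by omega)⟩
    have h4 : sqR n e t = 0 :=
      Finset.prod_eq_zero (i := 2 * k) (mem_range.mpr (by omega)) (by rw [h3, sub_self, rt_zero])
    rw [h4, Complex.zero_im]

theorem poly_asymp (f : ℝ[X]) {d : ℕ} (hd : f.natDegree ≤ d) :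
    ∃ C : ℝ, ∀ z : ℂ, 1 ≤ ‖z‖ → ‖aeval z f / z ^ d - (f.coeff d : ℝ)‖ ≤ C / ‖z‖ := by
  refine ⟨∑ i ∈ range d, |f.coeff i|, fun z hz => ?_⟩
  have hz0 : 0 < ‖z‖ := by linarith
  have hz1 : z ≠ 0 := norm_pos_iff.mp hz0
  have h1 : aeval z f / z ^ d - (f.coeff d : ℝ)
      = ∑ i ∈ range d, (f.coeff i : ℂ) * z ^ i / z ^ d := by
    rw [aeval_eq_sum_range' (n := d + 1) (by omega), sum_range_succ, add_div, ← Finset.sum_div]
    simp only [real_smul]
    rw [mul_div_assoc, div_self (pow_ne_zero d hz1)]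
    ring
  rw [h1, Finset.sum_div]
  refine (norm_sum_le _ _).trans (Finset.sum_le_sum fun i hi => ?_)
  rw [norm_div, norm_mul, norm_pow, norm_pow, Complex.norm_real, Real.norm_eq_abs,
    div_le_div_iff₀ (by positivity) hz0, mul_assoc, ← pow_succ]
  exact mul_le_mul_of_nonneg_left (pow_le_pow_right₀ hz (mem_range.mp hi)) (abs_nonneg _)

/-- `rt (z - b) / rt (z - a)` has nonnegative real part and its square tends to `1`. -/
theorem sqR_asymp : ∃ C R₀ : ℝ, 1 ≤ R₀ ∧ ∀ z : ℂ, 0 ≤ z.im → R₀ ≤ ‖z‖ →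
    (∀ j < 2 * n, z ≠ e j) ∧ ‖z ^ n / sqR n e z - 1‖ ≤ C / ‖z‖ := by
  obtain ⟨C, R₀, -, hR, H⟩ := prod_asymp e (2 * n)
  refine ⟨C, R₀, hR, fun z hz hz' => ?_⟩
  obtain ⟨h1, h2⟩ := H z hz hz'
  refine ⟨h1, ?_⟩
  rwa [Finset.prod_div_distrib, Finset.prod_const, card_range, pow_mul, rt_sq] at h2

/-- At most one factor `|z - e j|` is small. -/
theorem sqR_inv_le (h : Mono n e) : ∃ C : ℝ, ∀ z : ℂ, 0 < z.im →
    ‖(sqR n e z)⁻¹‖ ≤ C * (1 + 1 / √z.im) := by
  classical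
  obtain ⟨δ, hδ, hδ1, hsep⟩ := exists_pos_le
    ((range (2 * n) ×ˢ range (2 * n)).filter fun p => p.1 ≠ p.2) (fun p => |e p.1 - e p.2| / 2)
    (by
      rintro ⟨i, j⟩ hp
      simp only [mem_filter, mem_product, mem_range] at hp
      have : e i ≠ e j := by
        rcases lt_or_gt_of_ne hp.2 with h1 | h1
        · exact (h h1 hp.1.2).ne
        · exact (h h1 hp.1.1).ne'
      have := abs_pos.mpr (sub_ne_zero.mpr this)
      positivity)
  have hs : 0 < √δ := Real.sqrt_pos.mpr hδ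
  have hK : 1 ≤ (√δ)⁻¹ := (one_le_inv₀ hs).mpr (Real.sqrt_le_one.mpr hδ1)
  refine ⟨(√δ)⁻¹ ^ (2 * n), fun z hz => ?_⟩
  have hy : 0 < √z.im := Real.sqrt_pos.mpr hz
  have hy' : 0 < 1 / √z.im := by positivity
  obtain ⟨j₀, hj₀⟩ : ∃ j₀, ∀ j < 2 * n, j ≠ j₀ → δ ≤ ‖z - e j‖ := by
    by_cases hc : ∃ j₀ < 2 * n, ‖z - e j₀‖ < δ
    · obtain ⟨j₀, h1, h2⟩ := hc
      refine ⟨j₀, fun j hj hne => ?_⟩
      have h3 := hsep (j, j₀) (by simp [hj, h1, hne])
      have h4 : |e j - e j₀| ≤ ‖z - e j₀‖ + ‖z - e j‖ := by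
        rw [← Real.norm_eq_abs, ← Complex.norm_real]
        refine le_trans (le_of_eq ?_) (norm_sub_le _ _)
        congr 1
        push_cast
        ring
      simp only at h3
      linarith
    · push Not at hc
      exact ⟨0, fun j hj _ => hc j hj⟩
  have h1 : ∀ j ∈ range (2 * n),
      ‖(rt (z - e j))⁻¹‖ ≤ (√δ)⁻¹ * if j = j₀ then 1 + 1 / √z.im else 1 := by
    intro j hj
    rw [norm_inv, rt_norm]
    split_ifs with hc
    · have h2 : z.im ≤ ‖z - e j‖ := by simpa using Complex.im_le_norm (z - e j)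
      calc (√‖z - e j‖)⁻¹ ≤ (√z.im)⁻¹ := inv_anti₀ hy (Real.sqrt_le_sqrt h2)
        _ ≤ 1 + 1 / √z.im := by rw [one_div]; linarith
        _ ≤ (√δ)⁻¹ * (1 + 1 / √z.im) := le_mul_of_one_le_left (by positivity) hK
    · rw [mul_one]
      exact inv_anti₀ hs (Real.sqrt_le_sqrt (hj₀ j (mem_range.mp hj) hc))
  rw [sqR, ← Finset.prod_inv_distrib, norm_prod]
  refine (Finset.prod_le_prod (fun _ _ => norm_nonneg _) h1).trans ?_
  rw [Finset.prod_mul_distrib, Finset.prod_const, card_range, Finset.prod_ite_eq']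
  split_ifs
  · exact le_rfl
  · exact mul_le_mul_of_nonneg_left (by linarith) (by positivity)

end MW.AN
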