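import Pool.Agent.P.MP_064970_gt.AN.MP
import Pool.Agent.P.MP_064970_gt.AN.SP

/-! Row AN-Trunc: the momentum error of a truncation. `w = u - u' ∈ [0, C]` (`COMP`),
`w (z) ≤ C (2 u' z / R + Re (z - x)² / R²)` on `|z - x| ≤ R` (`BAR`), `η' = u' - y`,
`(D u')² - (D u)² = 2 i D w - 2 D η' D w - (D w)²`, `Re (2 i D w) = 2 w_y`. On the vertical line
`|D η'| ≤ C' min (1, 1/y)`, `|D w| ≤ C'/R` for `y ≤ r/2` (`SP_ball` in the first case,
`SP_half` and `BAR` with `|y|` in the second), `|D w| ≤ w / y ≤ C' min (1, (1+y)/R) / y`. -/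

open Complex InnerProductSpace Set Filter Topology Metric MeasureTheory
open scoped Real ComplexConjugate

namespace MW.AN

namespace TruncAux

theorem vert_im (x y : ℝ) : ((x : ℂ) + y * I).im = y := by simp

theorem vert_mem {x y ρ : ℝ} (hy : 0 ≤ y) (h : y ≤ ρ) : (x : ℂ) + y * I ∈ closedBall (x : ℂ) ρ := by
  rw [mem_closedBall, dist_eq_norm, add_sub_cancel_left, norm_mul, norm_I, mul_one, norm_real,
    Real.norm_of_nonneg hy]
  exact h

theorem vert_sq (x y : ℝ) : (((x : ℂ) + y * I - x) ^ 2).re = -y ^ 2 := by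
  rw [add_sub_cancel_left, mul_pow, I_sq, ← ofReal_pow]
  simp only [mul_neg, mul_one, neg_re, ofReal_re]

theorem real_of_im {z : ℂ} {x ρ : ℝ} (hz : z ∈ ball (x : ℂ) ρ) (h : z.im = 0) :
    ∃ t : ℝ, z = t ∧ |t - x| < ρ := by
  have h1 : z = (z.re : ℂ) := Complex.ext rfl (by simpa using h)
  refine ⟨z.re, h1, ?_⟩
  rw [mem_ball, dist_eq_norm, h1, ← ofReal_sub, norm_real] at hz
  exact hz

/-- a function that is nonpositive on the diameter grows at most linearly on the vertical line -/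
theorem vert_small {f : ℂ → ℝ} {x r K y : ℝ} (hr : 0 < r) (hK : 0 ≤ K) (hf : Continuous f)
    (hh : ∀ z : ℂ, z.im ≠ 0 → HarmonicAt f z) (h0 : ∀ t : ℝ, |t - x| < r → f t ≤ 0)
    (hb : ∀ z ∈ closedBall (x : ℂ) r, f z ≤ K) (hy : 0 ≤ y) (hyr : y ≤ r) :
    f (x + y * I) ≤ 2 * K * y / r := by
  have h := BAR (f := f) (u := fun z => |z.im|) (x := x) hr hK hf.continuousOn
    (by fun_prop) (fun _ _ => le_rfl) (fun z hz h1 => by
      have h2 : z.im ≠ 0 := by
        intro h2
        obtain ⟨t, rfl, ht⟩ := real_of_im hz h2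
        rcases h1 with h1 | h1
        · exact h1 h2
        · exact absurd (h0 t ht) (not_le.2 h1)
      exact ⟨hh z h2, harm_abs_im h2⟩) (fun z hz => hb z (sphere_subset_closedBall hz))
    _ (vert_mem hy hyr)
  rw [vert_sq, vert_im, abs_of_nonneg hy] at h
  refine h.trans ?_
  have h1 : -y ^ 2 / r ^ 2 ≤ 0 := div_nonpos_of_nonpos_of_nonneg (by nlinarith) (by positivity)
  calc K * (2 * y / r + -y ^ 2 / r ^ 2) ≤ K * (2 * y / r) :=
        mul_le_mul_of_nonneg_left (by linarith) hK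
    _ = 2 * K * y / r := by ring

theorem ball_sub {x y r : ℝ} (hy : 0 ≤ y) (hyr : y ≤ r / 2) :
    ball ((x : ℂ) + y * I) (r / 2) ⊆ ball (x : ℂ) r := by
  refine ball_subset_ball' ?_
  have := mem_closedBall.1 (vert_mem (x := x) hy hyr)
  linarith

theorem min_le_interp {a A₁ A₂ R s : ℝ} (hA₁ : 0 ≤ A₁) (hA₂ : 0 ≤ A₂) (hR : 0 < R) (hs : 0 < s)
    (h₁ : a ≤ A₁ / R) (h₂ : a ≤ A₂ / s) :
    a ≤ (A₁ + A₂) * (R ^ (-(3 / 4 : ℝ)) * s ^ (-(1 / 4 : ℝ))) := by
  have key : ∀ t : ℝ, 0 < t → t⁻¹ = t ^ (-(3 / 4 : ℝ)) * t ^ (-(1 / 4 : ℝ)) := fun t ht => by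
    rw [← Real.rpow_add ht, ← Real.rpow_neg_one]
    norm_num
  have hp : 0 ≤ R ^ (-(3 / 4 : ℝ)) * s ^ (-(1 / 4 : ℝ)) := by positivity
  rcases le_total s R with h | h
  · have h3 : R⁻¹ ≤ R ^ (-(3 / 4 : ℝ)) * s ^ (-(1 / 4 : ℝ)) := by
      rw [key R hR]
      exact mul_le_mul_of_nonneg_left (Real.rpow_le_rpow_of_nonpos hs h (by norm_num))
        (by positivity)
    rw [div_eq_mul_inv] at h₁
    exact h₁.trans (mul_le_mul (by linarith) h3 (by positivity) (by positivity))
  · have h3 : s⁻¹ ≤ R ^ (-(3 / 4 : ℝ)) * s ^ (-(1 / 4 : ℝ)) := by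
      rw [key s hs]
      exact mul_le_mul_of_nonneg_right (Real.rpow_le_rpow_of_nonpos hR h (by norm_num))
        (by positivity)
    rw [div_eq_mul_inv] at h₂
    exact h₂.trans (mul_le_mul (by linarith) h3 (by positivity) (by positivity))

theorem cont_pow {r Y : ℝ} (hr : 0 < r) (hY : 0 ≤ Y) :
    ContinuousOn (fun y : ℝ => (y + r) ^ (-(5 / 4 : ℝ))) (uIcc 0 Y) := by
  rw [uIcc_of_le hY]
  refine ContinuousOn.rpow_const (by fun_prop) fun y hy => Or.inl ?_
  have := hy.1
  positivity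

theorem integral_pow_le {r Y : ℝ} (hr : 0 < r) (hY : 0 ≤ Y) :
    ∫ y in (0 : ℝ)..Y, (y + r) ^ (-(5 / 4 : ℝ)) ≤ 4 * r ^ (-(1 / 4 : ℝ)) := by
  rw [intervalIntegral.integral_comp_add_right (fun s : ℝ => s ^ (-(5 / 4 : ℝ))),
    integral_rpow (Or.inr ⟨by norm_num, ?_⟩)]
  · have h1 : 0 ≤ (Y + r) ^ (-(1 / 4 : ℝ)) := by positivity
    rw [zero_add, show -(5 / 4 : ℝ) + 1 = -(1 / 4) by norm_num, div_le_iff_of_neg (by norm_num)]
    linarith
  · rw [uIcc_of_le (by linarith)]
    intro h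
    have := h.1
    linarith

theorem D_cont {f : ℂ → ℝ} (hh : ∀ z : ℂ, 0 < z.im → HarmonicAt f z) (x Y : ℝ) :
    ContinuousOn (fun y : ℝ => D f (x + y * I)) (Ioc 0 Y) := by
  intro y hy
  have h1 : ContinuousAt (D f) (x + y * I) :=
    (D_analyticAt (hh _ (by rw [vert_im]; exact hy.1))).continuousAt
  exact (ContinuousAt.comp (f := fun y : ℝ => (x : ℂ) + y * I) h1 (by fun_prop)).continuousWithinAt

/-- the gradient bounds on the vertical line -/
theorem grad {C r : ℝ} (hr : 0 < r) {u u' : ℂ → ℝ} {x R : ℝ} (hu : Mart C u) (hu' : Mart C u')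
    (h₁ : ∀ t : ℝ, 0 < u' t → 0 < u t) (hrR : r ≤ R)
    (h₂ : ∀ t : ℝ, |t - x| < R → 0 < u t → 0 < u' t)
    (h₃ : (∀ t : ℝ, |t - x| < r → 0 < u' t) ∨ (∀ t : ℝ, |t - x| < r → u t = 0)) :
    (0 ≤ u x - u' x ∧ u x - u' x ≤ 2 * C * C / R) ∧ ∀ y : ℝ, 0 < y →
      ‖D (fun z => u z - u' z) (x + y * I)‖ ≤
        (4 * (C * (3 * r + 2 * C)) / r + 2 * C * (1 + 2 * C / r)) / R ∧
      ‖D (fun z => u z - u' z) (x + y * I)‖ ≤ (6 * (C * (3 * r + 2 * C)) / r + 3 * C) / (y + r) ∧
      ‖D (fun z => u' z - z.im) (x + y * I)‖ ≤ 6 * C / (y + r) := by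
  have hC : 0 ≤ C := by
    have := (hu.lo 0).trans (hu.hi 0)
    linarith
  have hR : 0 < R := hr.trans_le hrR
  have hle : ∀ z, u' z ≤ u z := COMP hu'.toHalf hu'.hi hu.toHalf hu.lo h₁
  have hwC : ∀ z, u z - u' z ≤ C := fun z => by
    have := hu.hi z
    have := hu'.lo z
    linarith
  have hwc : Continuous fun z => u z - u' z := hu.cont.sub hu'.cont
  have hwh : ∀ z : ℂ, z.im ≠ 0 → HarmonicAt (fun z => u z - u' z) z := fun z hz =>
    harm_sub (hu.toHalf.harm_of_im_ne hz) (hu'.toHalf.harm_of_im_ne hz)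
  have hbar := BAR (f := fun z => u z - u' z) (u := u') (x := x) hR hC hwc.continuousOn
    hu'.cont.continuousOn (fun z _ => hu'.lo z) (fun z hz h => by
      by_cases h4 : z.im = 0
      · obtain ⟨t, rfl, ht⟩ := real_of_im hz h4
        have h5 : 0 < u t := by
          have := hu'.nonneg t
          have := h.resolve_left (not_not.2 h4)
          linarith
        exact ⟨harm_sub (hu.harm _ h5) (hu'.harm _ (h₂ t ht h5)), hu'.harm _ (h₂ t ht h5)⟩
      · exact ⟨hwh z h4, hu'.toHalf.harm_of_im_ne h4⟩) fun z _ => hwC z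
  set C₁ : ℝ := C * (3 * r + 2 * C) with hC₁
  have hC₁0 : 0 ≤ C₁ := by positivity
  have hball : ∀ z ∈ closedBall (x : ℂ) r, u z - u' z ≤ C₁ / R := by
    intro z hz
    refine (hbar z (closedBall_subset_closedBall hrR hz)).trans ?_
    rw [mem_closedBall, dist_eq_norm] at hz
    have h4 : |z.im| ≤ r := by
      have := abs_im_le_norm (z - x)
      rw [sub_im, ofReal_im, sub_zero] at this
      linarith
    have h5 : u' z ≤ r + C := (hu'.hi z).trans (by linarith)
    have h6 : ((z - x) ^ 2).re ≤ r * R := by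
      refine (re_le_norm _).trans ?_
      rw [norm_pow]
      have := norm_nonneg (z - x)
      nlinarith
    have h7 : ((z - x) ^ 2).re / R ^ 2 ≤ r / R := by
      rw [div_le_div_iff₀ (by positivity) hR]
      nlinarith
    have h8 : 2 * u' z / R ≤ 2 * (r + C) / R := by gcongr
    calc C * (2 * u' z / R + ((z - x) ^ 2).re / R ^ 2) ≤ C * (2 * (r + C) / R + r / R) :=
          mul_le_mul_of_nonneg_left (add_le_add h8 h7) hC
      _ = C₁ / R := by
          rw [hC₁]
          ring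
  have hline : ∀ y : ℝ, 0 ≤ y → u (x + y * I) - u' (x + y * I) ≤ 2 * C * (y + C) / R := by
    intro y hy
    rcases le_total y R with h4 | h4
    · refine (hbar _ (vert_mem hy h4)).trans ?_
      have h5 := hu'.hi (x + y * I)
      rw [vert_im, abs_of_nonneg hy] at h5
      rw [vert_sq]
      have h6 : -y ^ 2 / R ^ 2 ≤ 0 := div_nonpos_of_nonpos_of_nonneg (by nlinarith) (by positivity)
      have h7 : 2 * u' (x + y * I) / R ≤ 2 * (y + C) / R := by gcongr
      calc C * (2 * u' (x + y * I) / R + -y ^ 2 / R ^ 2) ≤ C * (2 * (y + C) / R) :=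
            mul_le_mul_of_nonneg_left (by linarith) hC
        _ = 2 * C * (y + C) / R := by ring
    · refine (hwC _).trans ?_
      rw [le_div_iff₀ hR]
      nlinarith
  have hwP : PosH fun z => u z - u' z :=
    ⟨fun z hz => hwh z hz.ne', fun z _ => sub_nonneg.2 (hle z)⟩
  have hη0 : ∀ z, 0 ≤ u' z - z.im := fun z => sub_nonneg.2 ((le_abs_self _).trans (hu'.lo z))
  have hηP : PosH fun z => u' z - z.im :=
    ⟨fun z hz => harm_sub (hu'.toHalf.harm_of_im_ne hz.ne') (harm_im z), fun z _ => hη0 z⟩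
  have hηC : ∀ y : ℝ, 0 ≤ y → u' (x + y * I) - y ≤ C := fun y hy => by
    have h5 := hu'.hi (x + y * I)
    rw [vert_im, abs_of_nonneg hy] at h5
    linarith
  refine ⟨⟨sub_nonneg.2 (hle x), by simpa using hline 0 le_rfl⟩, fun y hy => ?_⟩
  have hyi : 0 < ((x : ℂ) + y * I).im := by rwa [vert_im]
  have hw1 := SP_half hwP hyi
  have hη1 := SP_half hηP hyi
  simp only [vert_im] at hw1 hη1
  have hs : 0 < y + r := by positivity
  have hA : 0 ≤ 2 * C * (1 + 2 * C / r) := by positivity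
  rcases le_total y (r / 2) with hyr | hyr
  · have key : ‖D (fun z => u z - u' z) (x + y * I)‖ ≤ 4 * C₁ / r / R ∧
        ‖D (fun z => u' z - z.im) (x + y * I)‖ ≤ 4 * C / r := by
      have hw2 := hball _ (vert_mem (x := x) hy.le (hyr.trans (half_le_self hr.le)))
      rcases h₃ with h₃ | h₃
      · have hpos : ∀ z ∈ ball (x : ℂ) r, 0 < u' z := fun z hz => by
          by_cases h4 : z.im = 0
          · obtain ⟨t, rfl, ht⟩ := real_of_im hz h4
            exact h₃ t ht
          · exact hu'.toHalf.pos_of_im_ne h4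
        have h4 := SP_ball (f := fun z => u z - u' z) (c := x + y * I) (half_pos hr)
          (fun z hz => harm_sub (hu.harm z ((hpos z (ball_sub hy.le hyr hz)).trans_le (hle z)))
            (hu'.harm z (hpos z (ball_sub hy.le hyr hz)))) fun z _ => sub_nonneg.2 (hle z)
        have h5 := SP_ball (f := fun z => u' z - z.im) (c := x + y * I) (half_pos hr)
          (fun z hz => harm_sub (hu'.harm z (hpos z (ball_sub hy.le hyr hz))) (harm_im z))
          fun z _ => hη0 z
        simp only [vert_im] at h5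
        have h6 := hηC y hy.le
        constructor
        · refine h4.trans ?_
          calc 2 * (u (x + y * I) - u' (x + y * I)) / (r / 2) ≤ 2 * (C₁ / R) / (r / 2) := by gcongr
            _ = 4 * C₁ / r / R := by field_simp; ring
        · refine h5.trans ?_
          calc 2 * (u' (x + y * I) - y) / (r / 2) ≤ 2 * C / (r / 2) := by gcongr
            _ = 4 * C / r := by field_simp; ring
      · have hyr' : y ≤ r := hyr.trans (half_le_self hr.le)
        have h4 := vert_small (f := fun z => u z - u' z) (x := x) hr (div_nonneg hC₁0 hR.le) hwc hwh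
          (fun t ht => by
            have := hu'.nonneg t
            rw [h₃ t ht]
            linarith) hball hy.le hyr'
        have h5 := vert_small (f := fun z => u' z - |z.im|) (x := x) hr hC
          (hu'.cont.sub (by fun_prop))
          (fun z hz => harm_sub (hu'.toHalf.harm_of_im_ne hz) (harm_abs_im hz))
          (fun t ht => by
            have h6 := hle t
            rw [h₃ t ht] at h6
            have := abs_nonneg (t : ℂ).im
            linarith)
          (fun z _ => by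
            have := hu'.hi z
            linarith) hy.le hyr'
        simp only [vert_im, abs_of_pos hy] at h5
        constructor
        · refine hw1.trans ?_
          rw [div_le_iff₀ hy]
          refine h4.trans ?_
          have h6 : 0 ≤ C₁ / r / R * y := by positivity
          calc 2 * (C₁ / R) * y / r = 2 * (C₁ / r / R * y) := by ring
            _ ≤ 4 * (C₁ / r / R * y) := by linarith
            _ = 4 * C₁ / r / R * y := by ring
        · refine hη1.trans ?_
          rw [div_le_iff₀ hy]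
          refine h5.trans ?_
          have h6 : 0 ≤ C / r * y := by positivity
          calc 2 * C * y / r = 2 * (C / r * y) := by ring
            _ ≤ 4 * (C / r * y) := by linarith
            _ = 4 * C / r * y := by ring
    have hB : 0 ≤ C₁ / r := by positivity
    refine ⟨key.1.trans (div_le_div_of_nonneg_right (by linarith) hR.le), key.1.trans ?_,
      key.2.trans ?_⟩
    · rw [div_le_div_iff₀ hR hs]
      have h4 : 4 * (y + r) ≤ 6 * R := by linarith
      have h5 := mul_le_mul_of_nonneg_left h4 hB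
      have h6 : 0 ≤ 3 * C * R := by positivity
      calc 4 * C₁ / r * (y + r) = C₁ / r * (4 * (y + r)) := by ring
        _ ≤ C₁ / r * (6 * R) + 3 * C * R := by linarith
        _ = (6 * C₁ / r + 3 * C) * R := by ring
    · rw [div_le_div_iff₀ hr hs]
      nlinarith
  · have hB : 0 ≤ 4 * C₁ / r := by positivity
    have hB' : 0 ≤ 6 * C₁ / r := by positivity
    have h4 : C / y ≤ 3 * C / (y + r) := by
      rw [div_le_div_iff₀ hy hs]
      nlinarith
    refine ⟨hw1.trans ?_, hw1.trans ?_, hη1.trans ?_⟩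
    · rw [div_le_iff₀ hy]
      refine (hline y hy.le).trans ?_
      rw [div_mul_eq_mul_div]
      refine div_le_div_of_nonneg_right ?_ hR.le
      have h5 : C ≤ 2 * C / r * y := by
        rw [div_mul_eq_mul_div, le_div_iff₀ hr]
        nlinarith
      have h6 : 0 ≤ 4 * C₁ / r * y := by positivity
      nlinarith
    · refine (div_le_div_of_nonneg_right (hwC _) hy.le).trans (h4.trans ?_)
      exact div_le_div_of_nonneg_right (by linarith) hs.le
    · refine (div_le_div_of_nonneg_right (hηC y hy.le) hy.le).trans (h4.trans ?_)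
      exact div_le_div_of_nonneg_right (by linarith) hs.le

theorem split {u u' : ℂ → ℝ} {z : ℂ} (hu : HarmonicAt u z) (hu' : HarmonicAt u' z) :
    |(D u' z ^ 2 - D u z ^ 2).re - 2 * -(D (fun z => u z - u' z) z).im| ≤
      ‖D (fun z => u z - u' z) z‖ *
        (2 * ‖D (fun z => u' z - z.im) z‖ + ‖D (fun z => u z - u' z) z‖) := by
  have h1 := D_sub hu hu'
  have h2 := D_sub hu' (harm_im z)
  rw [D_im] at h2
  set a := D (fun z => u z - u' z) z
  set b := D (fun z => u' z - z.im) z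
  have h3 : D u' z = b - I := by rw [h2]; ring
  have h4 : D u z = a + (b - I) := by rw [h1, h3]; ring
  have h5 : (D u' z ^ 2 - D u z ^ 2).re - 2 * -a.im = (-(a * (2 * b + a))).re := by
    have h6 : D u' z ^ 2 - D u z ^ 2 = -(a * (2 * b + a)) + 2 * (I * a) := by
      rw [h4, h3]
      ring
    rw [h6]
    simp
  rw [h5]
  refine (abs_re_le_norm _).trans ?_
  rw [norm_neg, norm_mul]
  refine mul_le_mul_of_nonneg_left ((norm_add_le _ _).trans ?_) (norm_nonneg _)
  rw [norm_mul]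
  simp

end TruncAux

open TruncAux

theorem TRUNC (C r : ℝ) (hr : 0 < r) : ∃ K : ℝ, ∀ (u u' : ℂ → ℝ) (x R : ℝ), Mart C u → Mart C u' →
    (∀ t : ℝ, 0 < u' t → 0 < u t) → r ≤ R → (∀ t : ℝ, |t - x| < R → 0 < u t → 0 < u' t) →
    ((∀ t : ℝ, |t - x| < r → 0 < u' t) ∨ (∀ t : ℝ, |t - x| < r → u t = 0)) →
    ∀ Y : ℝ, 0 ≤ Y →
      IntervalIntegrable (fun y : ℝ => (D u' (x + y * I) ^ 2 - D u (x + y * I) ^ 2).re)
        volume 0 Y ∧
      |(∫ y in (0 : ℝ)..Y, (D u' (x + y * I) ^ 2 - D u (x + y * I) ^ 2).re)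
          - 2 * (u (x + Y * I) - u' (x + Y * I))| ≤ K * R ^ (-(3 / 4 : ℝ)) := by
  obtain ⟨A₁, hA₁⟩ : ∃ A : ℝ, A = 4 * (C * (3 * r + 2 * C)) / r + 2 * C * (1 + 2 * C / r) :=
    ⟨_, rfl⟩
  obtain ⟨A₂, hA₂⟩ : ∃ A : ℝ, A = 6 * (C * (3 * r + 2 * C)) / r + 3 * C := ⟨_, rfl⟩
  refine ⟨((A₁ + A₂) * (12 * C + A₂) * 4 + 4 * C * C) * r ^ (-(1 / 4 : ℝ)),
    fun u u' x R hu hu' h₁ hrR h₂ h₃ Y hY => ?_⟩
  obtain ⟨⟨hw0, hw1⟩, hg⟩ := grad hr hu hu' h₁ hrR h₂ h₃
  rw [← hA₁, ← hA₂] at hg
  have hC : 0 ≤ C := by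
    have := (hu.lo 0).trans (hu.hi 0)
    linarith
  have hR : 0 < R := hr.trans_le hrR
  have hA₁0 : 0 ≤ A₁ := by
    rw [hA₁]
    positivity
  have hA₂0 : 0 ≤ A₂ := by
    rw [hA₂]
    positivity
  have huh : ∀ z : ℂ, 0 < z.im → HarmonicAt u z := fun z hz => hu.toHalf.harm_of_im_ne hz.ne'
  have huh' : ∀ z : ℂ, 0 < z.im → HarmonicAt u' z := fun z hz => hu'.toHalf.harm_of_im_ne hz.ne'
  have hwh : ∀ z : ℂ, 0 < z.im → HarmonicAt (fun z => u z - u' z) z := fun z hz =>
    harm_sub (huh z hz) (huh' z hz)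
  set F : ℝ → ℝ := fun y => (D u' (x + y * I) ^ 2 - D u (x + y * I) ^ 2).re with hF
  set p : ℝ → ℝ := fun y => -(D (fun z => u z - u' z) (x + y * I)).im with hp
  set B : ℝ := (A₁ + A₂) * (12 * C + A₂) * R ^ (-(3 / 4 : ℝ)) with hB
  have hB0 : 0 ≤ B := by positivity
  have hq : ∀ y : ℝ, 0 < y → |F y - 2 * p y| ≤ B * (y + r) ^ (-(5 / 4 : ℝ)) := by
    intro y hy
    have hyi : 0 < ((x : ℂ) + y * I).im := by rwa [vert_im]
    have hs : 0 < y + r := by positivity
    obtain ⟨g1, g2, g3⟩ := hg y hy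
    refine (split (huh _ hyi) (huh' _ hyi)).trans ?_
    have h4 := min_le_interp hA₁0 hA₂0 hR hs g1 g2
    have h5 : 2 * ‖D (fun z => u' z - z.im) (x + y * I)‖ + ‖D (fun z => u z - u' z) (x + y * I)‖ ≤
        (12 * C + A₂) * (y + r)⁻¹ := by
      calc _ ≤ 2 * (6 * C / (y + r)) + A₂ / (y + r) := by linarith
        _ = (12 * C + A₂) * (y + r)⁻¹ := by ring
    refine (mul_le_mul h4 h5 (by positivity) (by positivity)).trans (le_of_eq ?_)
    have h6 : (y + r) ^ (-(5 / 4 : ℝ)) = (y + r) ^ (-(1 / 4 : ℝ)) * (y + r)⁻¹ := by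
      rw [← Real.rpow_neg_one, ← Real.rpow_add hs]
      norm_num
    rw [hB, h6]
    ring
  have hpc : ContinuousOn p (Ioc 0 Y) := (continuous_im.comp_continuousOn (D_cont hwh x Y)).neg
  have hFc : ContinuousOn F (Ioc 0 Y) :=
    continuous_re.comp_continuousOn (((D_cont huh' x Y).pow 2).sub ((D_cont huh x Y).pow 2))
  have hpi : IntervalIntegrable p volume 0 Y := by
    rw [intervalIntegrable_iff_integrableOn_Ioc_of_le hY]
    refine Integrable.mono' (g := fun _ => A₁ / R) (integrable_const _)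
      (hpc.aestronglyMeasurable measurableSet_Ioc)
      ((ae_restrict_iff' measurableSet_Ioc).2 (Eventually.of_forall fun y hy => ?_))
    rw [hp, Real.norm_eq_abs, abs_neg]
    exact (abs_im_le_norm _).trans (hg y hy.1).1
  have hgi : IntervalIntegrable (fun y : ℝ => B * (y + r) ^ (-(5 / 4 : ℝ))) volume 0 Y :=
    (cont_pow hr hY).intervalIntegrable.const_mul B
  have hqi : IntervalIntegrable (fun y => F y - 2 * p y) volume 0 Y := by
    rw [intervalIntegrable_iff_integrableOn_Ioc_of_le hY] at hgi ⊢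
    exact Integrable.mono' hgi
      ((hFc.sub (hpc.const_mul 2)).aestronglyMeasurable measurableSet_Ioc)
      ((ae_restrict_iff' measurableSet_Ioc).2 (Eventually.of_forall fun y hy => hq y hy.1))
  have hFi : IntervalIntegrable F volume 0 Y := by
    simpa using hqi.add (hpi.const_mul 2)
  refine ⟨hFi, ?_⟩
  have hftc : ∫ y in (0 : ℝ)..Y, p y = (u (x + Y * I) - u' (x + Y * I)) - (u x - u' x) := by
    have h4 := intervalIntegral.integral_eq_sub_of_hasDerivAt_of_le
      (f := fun s : ℝ => u (x + s * I) - u' (x + s * I)) (f' := p) hY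
      ((hu.cont.sub hu'.cont).comp (by fun_prop : Continuous fun s : ℝ => (x : ℂ) + s * I)).continuousOn
      (fun y hy => hasDerivAt_vert (hwh _ (by rw [vert_im]; exact hy.1))) hpi
    simpa using h4
  have h4 : |∫ y in (0 : ℝ)..Y, (F y - 2 * p y)| ≤ B * (4 * r ^ (-(1 / 4 : ℝ))) := by
    rw [← Real.norm_eq_abs]
    refine (intervalIntegral.norm_integral_le_of_norm_le (f := fun y => F y - 2 * p y) hY
      (Eventually.of_forall fun y hy => hq y hy.1) hgi).trans ?_
    rw [intervalIntegral.integral_const_mul]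
    exact mul_le_mul_of_nonneg_left (integral_pow_le hr hY) hB0
  rw [intervalIntegral.integral_sub hFi (hpi.const_mul 2), intervalIntegral.integral_const_mul,
    hftc] at h4
  have h5 : u x - u' x ≤ (2 * C * C + 0) * (R ^ (-(3 / 4 : ℝ)) * r ^ (-(1 / 4 : ℝ))) := by
    have h6 : R⁻¹ ≤ R ^ (-(3 / 4 : ℝ)) * r ^ (-(1 / 4 : ℝ)) := by
      have h7 : R⁻¹ = R ^ (-(3 / 4 : ℝ)) * R ^ (-(1 / 4 : ℝ)) := by
        rw [← Real.rpow_add hR, ← Real.rpow_neg_one]
        norm_num
      rw [h7]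
      exact mul_le_mul_of_nonneg_left (Real.rpow_le_rpow_of_nonpos hr hrR (by norm_num))
        (by positivity)
    rw [add_zero]
    rw [div_eq_mul_inv] at hw1
    exact hw1.trans (mul_le_mul_of_nonneg_left h6 (by positivity))
  have h6 : ((A₁ + A₂) * (12 * C + A₂) * 4 + 4 * C * C) * r ^ (-(1 / 4 : ℝ)) * R ^ (-(3 / 4 : ℝ)) =
      B * (4 * r ^ (-(1 / 4 : ℝ))) +
        2 * ((2 * C * C + 0) * (R ^ (-(3 / 4 : ℝ)) * r ^ (-(1 / 4 : ℝ)))) := by
    rw [hB]
    ring
  rw [h6]
  rw [abs_le] at h4 ⊢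
  constructor <;> linarith [h4.1, h4.2]

end MW.AN
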