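import Pool.Agent.P.MP_064970_gt.AN.IB

/-! Row AN-ZP: polynomials with vanishing periods (root counts and linear algebra). -/

open Filter Topology MeasureTheory Finset Polynomial
open scoped Real

namespace MW.AN

variable {K : Finset ℕ} {b a : ℕ → ℝ} {w : ℕ → ℝ → ℝ}

theorem Fam.subset (h : Fam K b a w) {K' : Finset ℕ} (hK : K' ⊆ K) : Fam K' b a w :=
  ⟨fun l hl => h.lt l (hK hl), fun l hl l' hl' => h.sep l (hK hl) l' (hK hl'),
    fun l hl => h.cont l (hK hl), fun l hl => h.pos l (hK hl)⟩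

theorem Fam.mul (h : Fam K b a w) {ρ : ℝ → ℝ}
    (hc : ∀ l ∈ K, ContinuousOn ρ (Set.Icc (b l) (a l)))
    (hp : ∀ l ∈ K, ∀ t ∈ Set.Icc (b l) (a l), 0 < ρ t) : Fam K b a (fun l t => w l t * ρ t) :=
  ⟨h.lt, h.sep, fun l hl => (h.cont l hl).mul (hc l hl),
    fun l hl t ht => mul_pos (h.pos l hl t ht) (hp l hl t ht)⟩

theorem ZP_cont (h : Fam K b a w) {l : ℕ} (hl : l ∈ K) (f : ℝ[X]) :
    ContinuousOn (fun t => f.eval t * w l t) (Set.Icc (b l) (a l)) :=
  f.continuous.continuousOn.mul (h.cont l hl)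

/-- A nonzero polynomial with zero period on interval `l` takes both signs there. -/
theorem Fam.sign (h : Fam K b a w) {l : ℕ} (hl : l ∈ K) {f : ℝ[X]} (hf : f ≠ 0)
    (h0 : II (b l) (a l) (fun t => f.eval t * w l t) = 0) :
    (∃ t ∈ Set.Ioo (b l) (a l), 0 < f.eval t) ∧ (∃ t ∈ Set.Ioo (b l) (a l), f.eval t < 0) ∧
      ∃ t ∈ Set.Ioo (b l) (a l), f.eval t = 0 := by
  obtain ⟨t, ht, htf⟩ : ∃ t ∈ Set.Icc (b l) (a l), f.eval t ≠ 0 := by
    by_contra hcon
    push Not at hcon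
    exact hf (f.eq_zero_of_infinite_isRoot ((Set.Icc_infinite (h.lt l hl)).mono hcon))
  obtain ⟨⟨t1, h1, h1'⟩, t2, h2, h2'⟩ := II_sign (h.lt l hl) (ZP_cont h hl f) h0
    ⟨t, ht, mul_ne_zero htf (h.pos l hl t ht).ne'⟩
  have p1 : 0 < f.eval t1 :=
    (mul_pos_iff_of_pos_right (h.pos l hl t1 (Set.Ioo_subset_Icc_self h1))).1 h1'
  have p2 : f.eval t2 < 0 := by
    by_contra hcon
    exact absurd h2' (not_lt.2 (mul_nonneg (not_lt.1 hcon)
      (h.pos l hl t2 (Set.Ioo_subset_Icc_self h2)).le))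
  refine ⟨⟨t1, h1, p1⟩, ⟨t2, h2, p2⟩, ?_⟩
  obtain ⟨s, hs, hs0⟩ := intermediate_value_uIcc (a := t2) (b := t1) (f := fun t => f.eval t)
    f.continuous.continuousOn (Set.mem_uIcc_of_le p2.le p1.le)
  exact ⟨s, Set.ordConnected_Ioo.uIcc_subset h2 h1 hs, hs0⟩

theorem ZP_injOn (h : Fam K b a w) {ξ : ℕ → ℝ} (hξ : ∀ l ∈ K, ξ l ∈ Set.Ioo (b l) (a l)) :
    Set.InjOn ξ K := by
  intro l hl l' hl' he
  by_contra hne
  have h1 := hξ l hl
  have h2 := hξ l' hl'
  rcases h.sep l hl l' hl' hne with h3 | h3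
  · linarith [h1.2, h2.1]
  · linarith [h1.1, h2.2]

theorem ZP_roots (h : Fam K b a w) {f : ℝ[X]} (hf : f ≠ 0)
    (h0 : ∀ l ∈ K, II (b l) (a l) (fun t => f.eval t * w l t) = 0) :
    ∃ ξ : ℕ → ℝ, ∀ l ∈ K, ξ l ∈ Set.Ioo (b l) (a l) ∧ f.eval (ξ l) = 0 := by
  have : ∀ l, ∃ t, l ∈ K → t ∈ Set.Ioo (b l) (a l) ∧ f.eval t = 0 := fun l => by
    by_cases hl : l ∈ K
    · obtain ⟨t, ht⟩ := (h.sign hl hf (h0 l hl)).2.2
      exact ⟨t, fun _ => ht⟩
    · exact ⟨0, fun h' => absurd h' hl⟩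
  choose ξ hξ using this
  exact ⟨ξ, hξ⟩

theorem Fam.zero (h : Fam K b a w) {f : ℝ[X]} (hf : f.degree < K.card)
    (h0 : ∀ l ∈ K, II (b l) (a l) (fun t => f.eval t * w l t) = 0) : f = 0 := by
  by_contra hne
  obtain ⟨ξ, hξ⟩ := ZP_roots h hne h0
  exact hne (Polynomial.eq_zero_of_degree_lt_of_eval_index_eq_zero K
    (ZP_injOn h fun l hl => (hξ l hl).1) hf fun l hl => (hξ l hl).2)

theorem Fam.surj (h : Fam K b a w) (c : ℕ → ℝ) :
    ∃ f : ℝ[X], f.degree < K.card ∧ ∀ l ∈ K, II (b l) (a l) (fun t => f.eval t * w l t) = c l := by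
  let T : degreeLT ℝ K.card →ₗ[ℝ] (K → ℝ) :=
    { toFun := fun f l => II (b l) (a l) (fun t => f.1.eval t * w l t)
      map_add' := fun f g => by
        funext l
        rw [Pi.add_apply, ← II_add (h.lt l l.2) (ZP_cont h l.2 _) (ZP_cont h l.2 _)]
        simp only [Submodule.coe_add, eval_add, add_mul]
      map_smul' := fun c f => by
        funext l
        rw [RingHom.id_apply, Pi.smul_apply, smul_eq_mul, ← II_const_mul]
        simp only [Submodule.coe_smul, eval_smul, smul_eq_mul, mul_assoc] }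
  have hinj : Function.Injective T := by
    rw [injective_iff_map_eq_zero]
    intro f hf
    exact Subtype.ext (h.zero (mem_degreeLT.1 f.2) fun l hl => congrFun hf ⟨l, hl⟩)
  have hfin : Module.finrank ℝ (degreeLT ℝ K.card) = Module.finrank ℝ (K → ℝ) := by
    rw [(degreeLTEquiv ℝ K.card).finrank_eq]
    simp
  have : FiniteDimensional ℝ (degreeLT ℝ K.card) :=
    (degreeLTEquiv ℝ K.card).symm.finiteDimensional
  obtain ⟨f, hf⟩ := (LinearMap.injective_iff_surjective_of_finrank_eq_finrank hfin).1 hinj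
    fun l => c l
  exact ⟨f.1, mem_degreeLT.1 f.2, fun l hl => congrFun hf ⟨l, hl⟩⟩

theorem Fam.roots (h : Fam K b a w) {f : ℝ[X]} (hf : f ≠ 0) (hd : f.natDegree ≤ K.card)
    (h0 : ∀ l ∈ K, II (b l) (a l) (fun t => f.eval t * w l t) = 0) :
    ∃ ξ, Roots K b a w ξ ∧ f = C f.leadingCoeff * ∏ l ∈ K, (X - C (ξ l)) := by
  obtain ⟨ξ, hξ⟩ := ZP_roots h hf h0
  have hlc : f.leadingCoeff ≠ 0 := leadingCoeff_ne_zero.2 hf
  have hmon : (∏ l ∈ K, (X - C (ξ l))).Monic := monic_prod_X_sub_C _ _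
  have hdeg : f.degree = K.card := by
    refine le_antisymm (degree_le_of_natDegree_le hd) (not_lt.1 fun hlt => hf (h.zero hlt h0))
  have hdeg' : (C f.leadingCoeff * ∏ l ∈ K, (X - C (ξ l))).degree = K.card := by
    rw [degree_C_mul hlc, degree_prod]
    simp
  have he : f = C f.leadingCoeff * ∏ l ∈ K, (X - C (ξ l)) := by
    rw [← sub_eq_zero]
    refine Polynomial.eq_zero_of_degree_lt_of_eval_index_eq_zero K
      (ZP_injOn h fun l hl => (hξ l hl).1) ?_ fun l hl => ?_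
    · rw [← hdeg]
      refine degree_sub_lt_left (hdeg.trans hdeg'.symm) hf ?_
      rw [leadingCoeff_mul, leadingCoeff_C, hmon.leadingCoeff, mul_one]
    · rw [eval_sub, (hξ l hl).2, eval_mul, eval_prod, Finset.prod_eq_zero hl (by simp)]
      simp
  refine ⟨ξ, ⟨fun l hl => (hξ l hl).1, fun l hl => ?_⟩, he⟩
  have h1 := h0 l hl
  rw [he] at h1
  simp only [eval_mul, eval_C, eval_prod, eval_sub, eval_X, mul_assoc] at h1
  rw [II_const_mul] at h1
  exact (mul_eq_zero.1 h1).resolve_left hlc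

theorem Fam.exists_roots (h : Fam K b a w) : ∃ ξ, Roots K b a w ξ := by
  obtain ⟨g, hg, hg'⟩ := h.surj fun l => II (b l) (a l) fun t => (X ^ K.card : ℝ[X]).eval t * w l t
  have hm : (X ^ K.card - g).Monic := monic_X_pow_sub hg
  have hd : (X ^ K.card - g).degree ≤ (K.card : WithBot ℕ) :=
    (degree_sub_le _ _).trans (max_le (degree_X_pow_le _) hg.le)
  obtain ⟨ξ, hξ, -⟩ := h.roots hm.ne_zero (natDegree_le_of_degree_le hd) fun l hl => by
    simp only [eval_sub, sub_mul]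
    rw [II_sub (h.lt l hl) (ZP_cont h hl _) (ZP_cont h hl _), hg' l hl, sub_self]
  exact ⟨ξ, hξ⟩

variable {n : ℕ} {e : ℕ → ℝ}

theorem crit_spec (h : Mono n e) : Crit n e (crit n e) := by
  have : ∃ x, Crit n e x := by
    obtain ⟨ξ, hξ⟩ := h.fam.exists_roots
    refine ⟨ξ, fun k hk => hξ.mem k (mem_range.2 hk), fun k hk => ?_⟩
    simp only [L, Pp_eval]
    exact hξ.per k (mem_range.2 hk)
  rw [crit, dif_pos this]
  exact this.choose_spec

theorem Crit.unique (h : Mono n e) {x x' : ℕ → ℝ} (hx : Crit n e x) (hx' : Crit n e x') :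
    Pp n x = Pp n x' := by
  have hm : ∀ y : ℕ → ℝ, (Pp n y).Monic := fun y => monic_prod_X_sub_C _ _
  have hd : ∀ y : ℕ → ℝ, (Pp n y).degree = n := fun y => by
    rw [Pp, degree_prod]
    simp
  rw [← sub_eq_zero]
  refine h.fam.zero ?_ fun l hl => ?_
  · rw [card_range, ← hd x]
    exact degree_sub_lt_left ((hd x).trans (hd x').symm) (hm x).ne_zero
      ((hm x).leadingCoeff.trans (hm x').leadingCoeff.symm)
  · simp only [eval_sub, sub_mul]
    rw [II_sub (h.fam.lt l hl) (ZP_cont h.fam hl _) (ZP_cont h.fam hl _)]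
    exact sub_eq_zero.2 ((hx.per l (mem_range.1 hl)).trans (hx'.per l (mem_range.1 hl)).symm)

theorem zero_of_periods (h : Mono n e) {f : ℝ[X]} (hf : f.degree < n)
    (h0 : ∀ l < n, L n e l (fun t => f.eval t) = 0) : f = 0 :=
  h.fam.zero (by rwa [card_range]) fun l hl => h0 l (mem_range.1 hl)

theorem exists_periods (h : Mono n e) (c : ℕ → ℝ) :
    ∃ f : ℝ[X], f.degree < n ∧ ∀ l < n, L n e l (fun t => f.eval t) = c l := by
  obtain ⟨f, hf, hf'⟩ := h.fam.surj c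
  exact ⟨f, by rwa [card_range] at hf, fun l hl => hf' l (mem_range.2 hl)⟩

end MW.AN
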