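import Pool.Agent.P.MP_064970_gt.AN.SqR
import Pool.Agent.P.MP_064970_gt.AN.Prim

/-! Row AN-ZPrim: the primitive of a differential with zero periods, and the reciprocity law
`GR`. -/

open Complex InnerProductSpace Filter Topology Metric MeasureTheory Finset Polynomial
open scoped Real ComplexConjugate

namespace MW.AN

variable {n : ℕ} {e x : ℕ → ℝ}

theorem zp_aeval_real (Ω : ℝ[X]) (t : ℝ) : aeval (t : ℂ) Ω = ((Ω.eval t : ℝ) : ℂ) :=
  Polynomial.aeval_algebraMap_apply_eq_algebraMap_eval t Ω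

/-- On gap `k` the differential is real: `-i Ω / sqR = (-1)^(n-k) Ω / √|R|`. -/
theorem diff_gap (h : Mono n e) (Ω : ℝ[X]) {k : ℕ} (hk : k < n) {t : ℝ}
    (ht : t ∈ Set.Ioo (e (2 * k)) (e (2 * k + 1))) :
    -I * aeval (t : ℂ) Ω / sqR n e t
      = (((-1) ^ (n - k) * (Ω.eval t * Wt n e k t)
          / √((t - e (2 * k)) * (e (2 * k + 1) - t)) : ℝ) : ℂ) := by
  have h1 := sqR_gap h hk ht
  have h2 := inv_sqrt_Rp h hk ht
  have h3 : √|(Rp n e).eval t| ≠ 0 := (Real.sqrt_pos.2 (abs_pos.2 (Rp_neg h hk ht).ne)).ne'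
  have h4 : sqR n e t = -I * (((-1) ^ (n - k) * √|(Rp n e).eval t| : ℝ) : ℂ) := by
    rw [← h1, ← mul_assoc, neg_mul, I_mul_I, neg_neg, one_mul]
  have h5 : ((-1 : ℝ) ^ (n - k))⁻¹ = (-1) ^ (n - k) := by rw [← inv_pow, inv_neg, inv_one]
  rw [h4, zp_aeval_real, mul_div_mul_left _ _ (neg_ne_zero.2 I_ne_zero), ← ofReal_div,
    mul_div_assoc, mul_div_assoc, ← h2, div_eq_mul_inv, mul_inv, h5, one_div]
  congr 1
  ring

theorem zp_ne_of_im {z : ℂ} (hz : 0 < z.im) (j : ℕ) : z ≠ e j := by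
  rintro rfl
  simp at hz

theorem zp_ne_of_band (h : Mono n e) {t : ℝ}
    (ht : ∀ k < n, t ∉ Set.Icc (e (2 * k)) (e (2 * k + 1))) : ∀ j < 2 * n, t ≠ e j := by
  rintro j hj rfl
  have hk : j / 2 < n := by omega
  have := (h.gap_lt hk).le
  refine ht _ hk ?_
  rcases Nat.mod_two_eq_zero_or_one j with h0 | h0
  · have e1 : 2 * (j / 2) = j := by omega
    rw [e1] at this ⊢
    exact ⟨le_rfl, this⟩
  · have e1 : 2 * (j / 2) + 1 = j := by omega
    rw [e1] at this ⊢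
    exact ⟨this, le_rfl⟩

theorem ZPRIM (h : Mono n e) {Ω : ℝ[X]} (h0 : ∀ l < n, L n e l (fun t => Ω.eval t) = 0) :
    ∃ Θ : ℂ → ℂ, ContinuousOn Θ {z : ℂ | 0 ≤ z.im} ∧
      (∀ z : ℂ, 0 < z.im → HasDerivAt Θ (-I * aeval z Ω / sqR n e z) z) ∧
      (∀ t : ℝ, (∀ j < 2 * n, t ≠ e j) →
        HasDerivAt (fun s : ℝ => Θ s) (-I * aeval (t : ℂ) Ω / sqR n e t) t) ∧
      (∀ t : ℝ, (∀ k < n, t ∉ Set.Ioo (e (2 * k)) (e (2 * k + 1))) → (Θ t).re = 0) ∧
      ∀ k < n, ∃ κ : ℝ, ∀ t ∈ Set.Icc (e (2 * k)) (e (2 * k + 1)), (Θ t).im = κ := by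
  have hA : Differentiable ℂ fun z : ℂ => -I * aeval z Ω :=
    (Polynomial.differentiable_aeval Ω).const_mul _
  obtain ⟨Ψ, hc, hd, hr⟩ := PRIM (e '' Set.Iio (2 * n)) ((Set.finite_Iio _).image e)
    (Φ := fun z => -I * aeval z Ω / sqR n e z)
    (fun z hz => ((hA z).div
      (sqR_analyticAt (le_of_lt hz) fun j _ => zp_ne_of_im hz j).differentiableAt
      (sqR_ne_zero fun j _ => zp_ne_of_im hz j)).differentiableWithinAt)
    (hA.continuous.continuousOn.div (sqR_continuousOn.mono Set.sdiff_subset) fun z hz =>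
      sqR_ne_zero fun j hj hz' => hz.2 ⟨e j, ⟨j, hj, rfl⟩, hz'.symm⟩)
    (fun R => by
      obtain ⟨M, hM⟩ := (isCompact_closedBall (0 : ℂ) R).exists_bound_of_continuousOn
        hA.continuous.continuousOn
      obtain ⟨C, hC⟩ := sqR_inv_le h
      refine ⟨M * C, fun z hz hzR => ?_⟩
      have h1 := hM z (mem_closedBall_zero_iff.2 hzR)
      rw [div_eq_mul_inv, norm_mul, mul_assoc]
      exact mul_le_mul h1 (hC z hz) (norm_nonneg _) ((norm_nonneg _).trans h1))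
  have hr' : ∀ t : ℝ, (∀ j < 2 * n, t ≠ e j) →
      HasDerivAt (fun s : ℝ => Ψ s) (-I * aeval (t : ℂ) Ω / sqR n e t) t := by
    intro t ht
    refine hr t ?_
    rintro ⟨j, hj, rfl⟩
    exact ht j hj rfl
  have hcr : Continuous fun s : ℝ => Ψ s :=
    hc.comp_continuous continuous_ofReal fun s => by simp
  have hre : ∀ t : ℝ, (∀ j < 2 * n, t ≠ e j) →
      HasDerivAt (fun s : ℝ => (Ψ s).re) (-I * aeval (t : ℂ) Ω / sqR n e t).re t :=
    fun t ht => reCLM.hasFDerivAt.comp_hasDerivAt t (hr' t ht)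
  have him : ∀ t : ℝ, (∀ j < 2 * n, t ≠ e j) →
      HasDerivAt (fun s : ℝ => (Ψ s).im) (-I * aeval (t : ℂ) Ω / sqR n e t).im t :=
    fun t ht => imCLM.hasFDerivAt.comp_hasDerivAt t (hr' t ht)
  refine ⟨fun z => Ψ z - ((Ψ (e 0)).re : ℝ), hc.sub continuousOn_const,
    fun z hz => (hd z hz).sub_const _, fun t ht => (hr' t ht).sub_const _, fun t ht => ?_,
    fun k hk => ⟨(Ψ (e (2 * k))).im, fun t ht => ?_⟩⟩
  · rw [sub_re, ofReal_re, sub_eq_zero]
    refine CHAIN h (H := fun s : ℝ => (Ψ s).re) (continuous_re.comp hcr) (fun s hs => ?_)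
      (fun k hk => ?_) ht fun k hk hk' => ?_
    · have h1 := hre s (zp_ne_of_band h hs)
      have h2 := sqR_band h fun k hk hk' => hs k hk (Set.Ioo_subset_Icc_self hk')
      have h3 : sqR n e s = ((sqR n e s).re : ℝ) := Complex.ext rfl (by rw [h2, ofReal_im])
      rw [h3, zp_aeval_real, mul_div_assoc, ← ofReal_div] at h1
      simpa using h1
    · have hf : ContinuousOn (fun t => Ω.eval t * Wt n e k t)
          (Set.Icc (e (2 * k)) (e (2 * k + 1))) :=
        Ω.continuous.continuousOn.mul (h.fam.cont k (mem_range.2 hk))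
      have := II_ftc (h.gap_lt hk) (H := fun s : ℝ => (Ψ s).re)
        (f := fun t => (-1) ^ (n - k) * (Ω.eval t * Wt n e k t))
        (continuous_re.comp hcr).continuousOn (continuousOn_const.mul hf) fun s hs => by
          have h1 := hre s fun j hj => h.ne_of_mem_Ioo hk hj hs
          rwa [diff_gap h Ω hk hs, ofReal_re] at h1
      have h2 : II (e (2 * k)) (e (2 * k + 1)) (fun t => Ω.eval t * Wt n e k t) = 0 := h0 k hk
      rwa [II_const_mul, h2, mul_zero, sub_eq_zero] at this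
    · rcases Nat.eq_zero_or_pos k with rfl | hk0
      · exact lt_irrefl _ hk'.1
      · exact lt_asymm hk'.1 (h (by omega) (by omega))
  · rw [sub_im, ofReal_im, sub_zero]
    rcases ht.1.eq_or_lt with h1 | h1
    · rw [h1]
    obtain ⟨c, -, hc'⟩ := exists_hasDerivAt_eq_slope (fun s : ℝ => (Ψ s).im) (fun _ => 0) h1
      (continuous_im.comp hcr).continuousOn fun s hs => by
        have hs' : s ∈ Set.Ioo (e (2 * k)) (e (2 * k + 1)) := ⟨hs.1, hs.2.trans_le ht.2⟩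
        have h2 := him s fun j hj => h.ne_of_mem_Ioo hk hj hs'
        rwa [diff_gap h Ω hk hs', ofReal_im] at h2
    exact sub_eq_zero.1 ((div_eq_zero_iff.1 hc'.symm).resolve_right (sub_pos.2 h1).ne')

end MW.AN
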